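import Pool.Agent.BV653.Defs
set_option autoImplicit false
open MeasureTheory Set Filter Topology
namespace Pool.Agent.BV653
theorem A_abs_le (u : ℝ → ℝ) (C : ℝ) (hC : ∀ x, |u x| ≤ C) (x r : ℝ) (hr : 0 < r) :
    |A u x r| ≤ C := by
  have h1 : ‖∫ t in (x - r)..(x + r), u t‖ ≤ C * |(x + r) - (x - r)| :=
    intervalIntegral.norm_integral_le_of_norm_le_const fun t _ => hC t
  have h2 : |(x + r) - (x - r)| = 2 * r := by
    rw [abs_of_pos (by linarith)]; ring
  rw [h2, Real.norm_eq_abs] at h1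
  unfold A
  rw [abs_mul, abs_of_pos (by positivity : (0 : ℝ) < (2 * r)⁻¹)]
  calc (2 * r)⁻¹ * |∫ t in (x - r)..(x + r), u t| ≤ (2 * r)⁻¹ * (C * (2 * r)) :=
        mul_le_mul_of_nonneg_left h1 (by positivity)
    _ = C := by field_simp

theorem A_lip (u : ℝ → ℝ) (hu : ∀ a b, IntervalIntegrable u volume a b) (C : ℝ)
    (hC : ∀ x, |u x| ≤ C) (x y r : ℝ) (hr : 0 < r) :
    |A u x r - A u y r| ≤ C / r * |x - y| := by
  have h1 : (∫ t in (x - r)..(x + r), u t) - ∫ t in (y - r)..(y + r), u t
      = (∫ t in (x - r)..(y - r), u t) + ∫ t in (y + r)..(x + r), u t := by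
    rw [← intervalIntegral.integral_add_adjacent_intervals (hu (x - r) (y - r)) (hu (y - r) (x + r)),
      ← intervalIntegral.integral_add_adjacent_intervals (hu (y - r) (y + r)) (hu (y + r) (x + r))]
    ring
  have h2 : ‖∫ t in (x - r)..(y - r), u t‖ ≤ C * |(y - r) - (x - r)| :=
    intervalIntegral.norm_integral_le_of_norm_le_const fun t _ => hC t
  have h3 : ‖∫ t in (y + r)..(x + r), u t‖ ≤ C * |(x + r) - (y + r)| :=
    intervalIntegral.norm_integral_le_of_norm_le_const fun t _ => hC t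
  have e2 : |(y - r) - (x - r)| = |x - y| := by
    rw [← abs_neg]; congr 1; ring
  have e3 : |(x + r) - (y + r)| = |x - y| := by congr 1; ring
  rw [e2, Real.norm_eq_abs] at h2
  rw [e3, Real.norm_eq_abs] at h3
  unfold A
  rw [← mul_sub, h1, abs_mul, abs_of_pos (by positivity : (0 : ℝ) < (2 * r)⁻¹)]
  calc (2 * r)⁻¹ * |(∫ t in (x - r)..(y - r), u t) + ∫ t in (y + r)..(x + r), u t|
      ≤ (2 * r)⁻¹ * (C * |x - y| + C * |x - y|) :=
        mul_le_mul_of_nonneg_left ((abs_add_le _ _).trans (add_le_add h2 h3)) (by positivity)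
    _ = C / r * |x - y| := by field_simp; ring

theorem A_sub_le (u v : ℝ → ℝ) (hu : ∀ a b, IntervalIntegrable u volume a b)
    (hv : ∀ a b, IntervalIntegrable v volume a b) (c : ℝ) (h : ∀ x, |u x - v x| ≤ c)
    (x r : ℝ) (hr : 0 < r) : |A u x r - A v x r| ≤ c := by
  have h1 : A u x r - A v x r = A (fun t => u t - v t) x r := by
    unfold A
    rw [← mul_sub, intervalIntegral.integral_sub (hu _ _) (hv _ _)]
  rw [h1]
  exact A_abs_le _ c h x r hr

theorem A_tilt (u : ℝ → ℝ) (hu : ∀ a b, IntervalIntegrable u volume a b) (σ x r : ℝ)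
    (hr : 0 < r) : A (fun y => u y - σ * y) x r = A u x r - σ * x := by
  have h1 : ∫ t in (x - r)..(x + r), (u t - σ * t) =
      (∫ t in (x - r)..(x + r), u t) - ∫ t in (x - r)..(x + r), σ * t :=
    intervalIntegral.integral_sub (hu _ _)
      ((continuous_const.mul continuous_id).intervalIntegrable (μ := volume) (x - r) (x + r))
  show (2 * r)⁻¹ * ∫ t in (x - r)..(x + r), (u t - σ * t) = _
  rw [h1, intervalIntegral.integral_const_mul, integral_id]
  unfold A
  field_simp
  ring

theorem A_reflect (u : ℝ → ℝ) (x r : ℝ) : A (fun y => u (-y)) x r = A u (-x) r := by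
  unfold A
  rw [intervalIntegral.integral_comp_neg]
  congr 2 <;> ring

theorem A_congr (u v : ℝ → ℝ) (x r : ℝ) (hr : 0 < r)
    (h : ∀ y, x - r < y → y < x + r → u y = v y) : A u x r = A v x r := by
  unfold A
  congr 1
  refine intervalIntegral.integral_congr_ae ?_
  have hne : ∀ᵐ t : ℝ, t ≠ x + r := by
    have : volume ({x + r} : Set ℝ) = 0 := Real.volume_singleton
    rw [ae_iff]
    simpa using this
  filter_upwards [hne] with t ht hmem
  rw [uIoc_of_le (by linarith)] at hmem
  exact h t hmem.1 (lt_of_le_of_ne hmem.2 ht)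

theorem A_continuous_radius (u : ℝ → ℝ) (hu : ∀ a b, IntervalIntegrable u volume a b)
    (x : ℝ) : ContinuousOn (fun r => A u x r) (Ioi 0) := by
  have h1 : ∀ r, A u x r = (2 * r)⁻¹ * ((∫ t in (0 : ℝ)..(x + r), u t) - ∫ t in (0 : ℝ)..(x - r), u t) := by
    intro r
    unfold A
    rw [intervalIntegral.integral_interval_sub_left (hu _ _) (hu _ _)]
  have hp : Continuous fun b => ∫ t in (0 : ℝ)..b, u t :=
    intervalIntegral.continuous_primitive hu 0
  have h2 : ContinuousOn (fun r => (2 * r)⁻¹ * ((∫ t in (0 : ℝ)..(x + r), u t) - ∫ t in (0 : ℝ)..(x - r), u t))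
      (Ioi 0) := by
    refine ContinuousOn.mul ?_ ?_
    · refine ContinuousOn.inv₀ (continuous_const.mul continuous_id).continuousOn ?_
      intro r hr
      have : (0 : ℝ) < r := hr
      show (2 * r : ℝ) ≠ 0
      positivity
    · exact ((hp.comp (continuous_const.add continuous_id)).sub
        (hp.comp (continuous_const.sub continuous_id))).continuousOn
  exact h2.congr fun r _ => h1 r

/-- if `u` is continuous at `x` the averages tend to `u x` -/
theorem A_tendsto (u : ℝ → ℝ) (hu : ∀ a b, IntervalIntegrable u volume a b) (x : ℝ)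
    (h : ContinuousAt u x) : Tendsto (fun r => A u x r) (𝓝[>] 0) (𝓝 (u x)) := by
  rw [Metric.tendsto_nhdsWithin_nhds]
  intro ε hε
  rw [Metric.continuousAt_iff] at h
  obtain ⟨δ, hδ, hd⟩ := h (ε / 2) (half_pos hε)
  refine ⟨δ, hδ, fun {r} hr hrd => ?_⟩
  have hr0 : (0 : ℝ) < r := hr
  have hrd' : r < δ := by
    rw [Real.dist_eq, sub_zero, abs_of_pos hr0] at hrd
    exact hrd
  have h1 : A u x r - u x = (2 * r)⁻¹ * ∫ t in (x - r)..(x + r), (u t - u x) := by
    unfold A
    rw [intervalIntegral.integral_sub (hu _ _) (continuous_const.intervalIntegrable _ _),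
      intervalIntegral.integral_const, mul_sub, smul_eq_mul]
    congr 1
    field_simp
    ring
  have h2 : ‖∫ t in (x - r)..(x + r), (u t - u x)‖ ≤ ε / 2 * |(x + r) - (x - r)| := by
    refine intervalIntegral.norm_integral_le_of_norm_le_const fun t ht => ?_
    rw [uIoc_of_le (by linarith)] at ht
    have h3 : dist t x < δ := by
      rw [Real.dist_eq, abs_lt]
      constructor <;> linarith [ht.1, ht.2]
    have := hd h3
    rw [← dist_eq_norm]
    exact this.le
  have h3 : |(x + r) - (x - r)| = 2 * r := by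
    rw [abs_of_pos (by linarith)]; ring
  rw [h3, Real.norm_eq_abs] at h2
  rw [Real.dist_eq, h1, abs_mul, abs_of_pos (by positivity : (0 : ℝ) < (2 * r)⁻¹)]
  calc (2 * r)⁻¹ * |∫ t in (x - r)..(x + r), (u t - u x)| ≤ (2 * r)⁻¹ * (ε / 2 * (2 * r)) :=
        mul_le_mul_of_nonneg_left h2 (by positivity)
    _ = ε / 2 := by field_simp
    _ < ε := half_lt_self hε

end Pool.Agent.BV653
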