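import Pool.Agent.BV653.Defs
import Pool.Agent.BV653.A1
set_option autoImplicit false
open MeasureTheory Set Filter Topology
namespace Pool.Agent.BV653
theorem H457_le (u : ℝ → ℝ) (C : ℝ) (hC : ∀ x, |u x| ≤ C) (s : Set ℝ) (hs : ∀ r ∈ s, 0 < r)
    (x r : ℝ) (hr : r ∈ s) : A u x r ≤ ⨆ r : s, A u x r := by
  have hb : BddAbove (Set.range fun r : s => A u x r) :=
    ⟨C, by rintro _ ⟨r, rfl⟩; exact (abs_le.1 (A_abs_le u C hC x r (hs r r.2))).2⟩
  exact le_ciSup hb (⟨r, hr⟩ : s)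

theorem H457_near (u : ℝ → ℝ) (s : Set ℝ) (hne : s.Nonempty)
    (x η : ℝ) (hη : 0 < η) : ∃ r ∈ s, (⨆ r : s, A u x r) - η ≤ A u x r := by
  haveI : Nonempty s := hne.to_subtype
  obtain ⟨r, hr⟩ := exists_lt_of_lt_ciSup (f := fun r : s => A u x r)
    (b := (⨆ r : s, A u x r) - η) (by linarith)
  exact ⟨r, r.2, hr.le⟩

theorem H457_ub (u : ℝ → ℝ) (s : Set ℝ) (hne : s.Nonempty)
    (x c : ℝ) (h : ∀ r ∈ s, A u x r ≤ c) : (⨆ r : s, A u x r) ≤ c := by
  haveI : Nonempty s := hne.to_subtype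
  exact ciSup_le fun r => h r r.2

theorem H457_abs (u : ℝ → ℝ) (C : ℝ) (hC : ∀ x, |u x| ≤ C) (s : Set ℝ) (hs : ∀ r ∈ s, 0 < r)
    (hne : s.Nonempty) (x : ℝ) : |⨆ r : s, A u x r| ≤ C := by
  obtain ⟨r, hr⟩ := hne
  rw [abs_le]
  constructor
  · exact le_trans (abs_le.1 (A_abs_le u C hC x r (hs r hr))).1 (H457_le u C hC s hs x r hr)
  · exact H457_ub u s ⟨r, hr⟩ x C fun r hr => (abs_le.1 (A_abs_le u C hC x r (hs r hr))).2

theorem M_basic (u : ℝ → ℝ) (hu : ∀ a b, IntervalIntegrable u volume a b) (C : ℝ)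
    (hC : ∀ x, |u x| ≤ C) : (∀ x, ∀ r > 0, A u x r ≤ M u x) ∧
    (∀ x, ∀ η > 0, ∃ r > 0, M u x - η ≤ A u x r) ∧ (∀ x, |M u x| ≤ C) ∧ Measurable (M u) := by
  have hs : ∀ r ∈ Set.Ioi (0 : ℝ), 0 < r := fun r hr => hr
  have hne : (Set.Ioi (0 : ℝ)).Nonempty := ⟨1, by norm_num⟩
  refine ⟨fun x r hr => H457_le u C hC _ hs x r hr, fun x η hη => H457_near u _ hne x η hη,
    fun x => H457_abs u C hC _ hs hne x, ?_⟩
  have hlsc : LowerSemicontinuous (M u) := by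
    have h := lowerSemicontinuous_ciSup (f := fun (r : Set.Ioi (0 : ℝ)) (x : ℝ) => A u x r)
      (fun x => ⟨C, by
        rintro _ ⟨r, rfl⟩; exact (abs_le.1 (A_abs_le u C hC x r r.2)).2⟩)
      (fun r => by
        apply Continuous.lowerSemicontinuous
        have hC0 : 0 ≤ C := le_trans (abs_nonneg _) (hC 0)
        have hr : (0 : ℝ) < r := r.2
        have hlip : LipschitzWith (Real.toNNReal (C / r)) (fun x => A u x r) := by
          apply LipschitzWith.of_dist_le_mul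
          intro x y
          rw [Real.dist_eq, Real.dist_eq, Real.coe_toNNReal _ (div_nonneg hC0 hr.le)]
          exact A_lip u hu C hC x y r hr
        exact hlip.continuous)
    exact h
  exact hlsc.measurable

theorem HH_basic (u : ℝ → ℝ) (hu : ∀ a b, IntervalIntegrable u volume a b) (C : ℝ)
    (hC : ∀ x, |u x| ≤ C) (δ : ℝ) (hδ : 0 < δ) : (∀ x, ∀ r ≥ δ, A u x r ≤ HH δ u x) ∧
    (∀ x, ∀ η > 0, ∃ r ≥ δ, HH δ u x - η ≤ A u x r) ∧ (∀ x, |HH δ u x| ≤ C) ∧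
    (∀ x y, |HH δ u x - HH δ u y| ≤ C / δ * |x - y|) := by
  have hs : ∀ r ∈ Set.Ici δ, 0 < r := fun r hr => lt_of_lt_of_le hδ hr
  have hne : (Set.Ici δ).Nonempty := ⟨δ, Set.mem_Ici.2 le_rfl⟩
  have hC0 : 0 ≤ C := le_trans (abs_nonneg _) (hC 0)
  have key : ∀ x y, HH δ u x ≤ HH δ u y + C / δ * |x - y| := by
    intro x y
    apply H457_ub u _ hne
    intro r hr
    have hr' : δ ≤ r := hr
    have h1 := A_lip u hu C hC x y r (hs r hr)
    have h2 : A u y r ≤ HH δ u y := H457_le u C hC _ hs y r hr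
    have h3 : C / r * |x - y| ≤ C / δ * |x - y| := by
      apply mul_le_mul_of_nonneg_right _ (abs_nonneg _)
      exact div_le_div_of_nonneg_left hC0 hδ hr'
    have h4 := (abs_le.1 h1).2
    linarith
  refine ⟨fun x r hr => H457_le u C hC _ hs x r hr, fun x η hη => H457_near u _ hne x η hη,
    fun x => H457_abs u C hC _ hs hne x, ?_⟩
  intro x y
  rw [abs_le]
  have h1 := key x y
  have h2 := key y x
  rw [abs_sub_comm y x] at h2
  constructor <;> linarith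

theorem MM_basic (u : ℝ → ℝ) (hu : ∀ a b, IntervalIntegrable u volume a b) (C : ℝ)
    (hC : ∀ x, |u x| ≤ C) (δ : ℝ) (hδ : 0 < δ) :
    (∀ x, ∀ r, 0 < r → r < δ → A u x r ≤ MM δ u x) ∧
    (∀ x, ∀ η > 0, ∃ r, 0 < r ∧ r < δ ∧ MM δ u x - η ≤ A u x r) ∧
    (∀ x, M u x = max (MM δ u x) (HH δ u x)) := by
  have hs : ∀ r ∈ Set.Ioo (0 : ℝ) δ, 0 < r := fun r hr => hr.1
  have hne : (Set.Ioo (0 : ℝ) δ).Nonempty := ⟨δ / 2, by constructor <;> linarith⟩
  have hs' : ∀ r ∈ Set.Ioi (0 : ℝ), 0 < r := fun r hr => hr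
  have hne' : (Set.Ioi (0 : ℝ)).Nonempty := ⟨1, by norm_num⟩
  have hs'' : ∀ r ∈ Set.Ici δ, 0 < r := fun r hr => lt_of_lt_of_le hδ hr
  have hne'' : (Set.Ici δ).Nonempty := ⟨δ, Set.mem_Ici.2 le_rfl⟩
  have h1 : ∀ x, ∀ r, 0 < r → r < δ → A u x r ≤ MM δ u x :=
    fun x r h0 h1 => H457_le u C hC _ hs x r ⟨h0, h1⟩
  refine ⟨h1, ?_, ?_⟩
  · intro x η hη
    obtain ⟨r, hr, h⟩ := H457_near u _ hne x η hη
    exact ⟨r, hr.1, hr.2, h⟩
  · intro x
    apply le_antisymm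
    · apply H457_ub u _ hne'
      intro r hr
      rcases lt_or_ge r δ with h | h
      · exact le_max_of_le_left (h1 x r hr h)
      · exact le_max_of_le_right (H457_le u C hC _ hs'' x r h)
    · apply max_le
      · apply H457_ub u _ hne
        intro r hr
        exact H457_le u C hC _ hs' x r hr.1
      · apply H457_ub u _ hne''
        intro r hr
        exact H457_le u C hC _ hs' x r (hs'' r hr)

theorem H457_sub (u v : ℝ → ℝ) (hu : ∀ a b, IntervalIntegrable u volume a b)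
    (hv : ∀ a b, IntervalIntegrable v volume a b) (C : ℝ) (hCu : ∀ x, |u x| ≤ C)
    (hCv : ∀ x, |v x| ≤ C) (c : ℝ) (h : ∀ x, |u x - v x| ≤ c) (s : Set ℝ) (hs : ∀ r ∈ s, 0 < r)
    (hne : s.Nonempty) (x : ℝ) :
    |(⨆ r : s, A u x r) - (⨆ r : s, A v x r)| ≤ c := by
  have h1 : (⨆ r : s, A u x r) ≤ (⨆ r : s, A v x r) + c := by
    apply H457_ub u s hne
    intro r hr
    have h2 := (abs_le.1 (A_sub_le u v hu hv c h x r (hs r hr))).2
    have h3 := H457_le v C hCv s hs x r hr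
    linarith
  have h1' : (⨆ r : s, A v x r) ≤ (⨆ r : s, A u x r) + c := by
    apply H457_ub v s hne
    intro r hr
    have h2 := (abs_le.1 (A_sub_le u v hu hv c h x r (hs r hr))).1
    have h3 := H457_le u C hCu s hs x r hr
    linarith
  rw [abs_le]
  constructor <;> linarith

theorem M_sub_le (u v : ℝ → ℝ) (hu : ∀ a b, IntervalIntegrable u volume a b)
    (hv : ∀ a b, IntervalIntegrable v volume a b) (C : ℝ) (hCu : ∀ x, |u x| ≤ C)
    (hCv : ∀ x, |v x| ≤ C) (c : ℝ) (h : ∀ x, |u x - v x| ≤ c) (x : ℝ) :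
    |M u x - M v x| ≤ c ∧ ∀ δ > 0, |HH δ u x - HH δ v x| ≤ c := by
  constructor
  · exact H457_sub u v hu hv C hCu hCv c h (Set.Ioi (0 : ℝ)) (fun r hr => hr)
      ⟨1, by norm_num⟩ x
  · intro δ hδ
    exact H457_sub u v hu hv C hCu hCv c h (Set.Ici δ) (fun r hr => lt_of_lt_of_le hδ hr)
      ⟨δ, Set.mem_Ici.2 le_rfl⟩ x

theorem M_reflect (u : ℝ → ℝ) (x : ℝ) : M (fun y => u (-y)) x = M u (-x) := by
  unfold M
  congr 1
  funext r
  exact A_reflect u x r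

theorem le_M_of_continuousAt (u : ℝ → ℝ) (hu : ∀ a b, IntervalIntegrable u volume a b) (C : ℝ)
    (hC : ∀ x, |u x| ≤ C) (x : ℝ) (h : ContinuousAt u x) : u x ≤ M u x := by
  have ht := A_tendsto u hu x h
  refine le_of_tendsto ht ?_
  filter_upwards [self_mem_nhdsWithin] with r hr
  exact (M_basic u hu C hC).1 x r hr

theorem M_eq_of_contact (u : ℝ → ℝ) (hu : ∀ a b, IntervalIntegrable u volume a b) (C : ℝ)
    (hC : ∀ x, |u x| ≤ C) (x : ℝ) (h : ContinuousAt u x) (hH : ∀ δ > 0, HH δ u x < M u x) :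
    M u x = u x := by
  apply le_antisymm _ (le_M_of_continuousAt u hu C hC x h)
  apply le_of_forall_pos_le_add
  intro η hη
  have ht := A_tendsto u hu x h
  have hev : ∀ᶠ r in 𝓝[>] (0 : ℝ), A u x r < u x + η :=
    ht.eventually (gt_mem_nhds (by linarith))
  rw [eventually_nhdsWithin_iff, Metric.eventually_nhds_iff] at hev
  obtain ⟨δ, hδ, hd⟩ := hev
  have hmm := MM_basic u hu C hC δ hδ
  have hmax := hmm.2.2 x
  have hlt := hH δ hδ
  have heq : M u x = MM δ u x := by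
    rcases le_total (MM δ u x) (HH δ u x) with h1 | h1
    · rw [max_eq_right h1] at hmax; linarith
    · rw [max_eq_left h1] at hmax; exact hmax
  rw [heq]
  unfold MM
  apply H457_ub u _ ⟨δ / 2, by constructor <;> linarith⟩
  intro r hr
  apply le_of_lt
  apply hd _ hr.1
  rw [Real.dist_eq, sub_zero, abs_of_pos hr.1]
  exact hr.2

end Pool.Agent.BV653
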