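import Pool.Agent.BV653.Defs
set_option autoImplicit false
open MeasureTheory Set Filter Topology
namespace Pool.Agent.BV653
theorem gapR_closed (K : Set ℝ) (hK : IsCompact K) (r x : ℝ) :
    IsClosed (insert r {z | 0 ≤ z ∧ x + z ∈ K}) := by
  have h1 : IsClosed {z : ℝ | 0 ≤ z ∧ x + z ∈ K} := by
    have e : {z : ℝ | 0 ≤ z ∧ x + z ∈ K} = Ici 0 ∩ (fun z => x + z) ⁻¹' K := rfl
    rw [e]
    exact isClosed_Ici.inter (hK.isClosed.preimage (by fun_prop))
  rw [insert_eq]
  exact isClosed_singleton.union h1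

theorem gapR_bdd (K : Set ℝ) (r x : ℝ) (hr : 0 < r) :
    BddBelow (insert r {z | 0 ≤ z ∧ x + z ∈ K}) := by
  refine ⟨0, ?_⟩
  rintro z (rfl | hz)
  · exact hr.le
  · exact hz.1

theorem gapR_mem (K : Set ℝ) (hK : IsCompact K) (r x : ℝ) (hr : 0 < r) :
    gapR K r x = r ∨ (0 ≤ gapR K r x ∧ x + gapR K r x ∈ K) := by
  have h := (gapR_closed K hK r x).csInf_mem ⟨r, mem_insert _ _⟩ (gapR_bdd K r x hr)
  exact h

theorem gapR_le_r (K : Set ℝ) (r x : ℝ) (hr : 0 < r) : gapR K r x ≤ r :=
  csInf_le (gapR_bdd K r x hr) (mem_insert _ _)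

theorem gapR_le_z (K : Set ℝ) (r x z : ℝ) (hr : 0 < r) (hz : 0 ≤ z) (hxz : x + z ∈ K) :
    gapR K r x ≤ z :=
  csInf_le (gapR_bdd K r x hr) (mem_insert_of_mem _ ⟨hz, hxz⟩)

theorem gapR_nonneg (K : Set ℝ) (hK : IsCompact K) (r x : ℝ) (hr : 0 < r) : 0 ≤ gapR K r x := by
  rcases gapR_mem K hK r x hr with h | h
  · rw [h]; exact hr.le
  · exact h.1

/-- basic properties of `gapR` -/
theorem gapR_basic (K : Set ℝ) (hK : IsCompact K) (r : ℝ) (hr : 0 < r) :
    Measurable (gapR K r) ∧ (∀ x, gapR K r x ≤ r) ∧ (∀ x, 0 ≤ gapR K r x) ∧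
    (∀ x, x ∉ K → 0 < gapR K r x) ∧ (∀ x, gapR K r x < r → x + gapR K r x ∈ K) ∧
    (∀ x z, 0 ≤ z → z < gapR K r x → x + z ∉ K) ∧
    (∀ x r', r ≤ r' → gapR K r x ≤ gapR K r' x) := by
  refine ⟨?_, fun x => gapR_le_r K r x hr, fun x => gapR_nonneg K hK r x hr, ?_, ?_, ?_, ?_⟩
  · refine measurable_of_Iic fun c => ?_
    rcases lt_or_ge c 0 with hc | hc
    · have e : gapR K r ⁻¹' Iic c = ∅ := by
        ext x
        simp only [mem_preimage, mem_Iic, mem_empty_iff_false, iff_false, not_le]
        exact lt_of_lt_of_le hc (gapR_nonneg K hK r x hr)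
      rw [e]
      exact MeasurableSet.empty
    rcases le_or_gt r c with hrc | hrc
    · have e : gapR K r ⁻¹' Iic c = univ := by
        ext x
        simp only [mem_preimage, mem_Iic, mem_univ, iff_true]
        exact (gapR_le_r K r x hr).trans hrc
      rw [e]
      exact MeasurableSet.univ
    · have e : gapR K r ⁻¹' Iic c = (fun p : ℝ × ℝ => p.1 - p.2) '' (K ×ˢ Icc 0 c) := by
        ext x
        simp only [mem_preimage, mem_Iic, mem_image, mem_prod, Prod.exists, mem_Icc]
        constructor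
        · intro hx
          rcases gapR_mem K hK r x hr with h | h
          · linarith
          · exact ⟨x + gapR K r x, gapR K r x, ⟨h.2, h.1, hx⟩, by ring⟩
        · rintro ⟨k, z, ⟨hk, hz0, hzc⟩, rfl⟩
          exact (gapR_le_z K r _ z hr hz0 (by rwa [sub_add_cancel])).trans hzc
      rw [e]
      exact ((hK.prod isCompact_Icc).image (by fun_prop)).isClosed.measurableSet
  · intro x hx
    rcases gapR_mem K hK r x hr with h | h
    · rw [h]; exact hr
    · rcases h.1.eq_or_lt with h0 | h0
      · exfalso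
        apply hx
        have := h.2
        rwa [← h0, add_zero] at this
      · exact h0
  · intro x hx
    rcases gapR_mem K hK r x hr with h | h
    · linarith
    · exact h.2
  · intro x z hz hzx hK'
    exact absurd (gapR_le_z K r x z hr hz hK') (not_le.mpr hzx)
  · intro x r' hr'
    rcases gapR_mem K hK r' x (hr.trans_le hr') with h | h
    · rw [h]
      exact (gapR_le_r K r x hr).trans hr'
    · exact gapR_le_z K r x _ hr h.1 h.2

theorem C1_meas (F : ℝ → ℝ) (m : Measure ℝ) [IsFiniteMeasure m]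
    (hm : ∀ x y, x ≤ y → |F y - F x| ≤ (m (Icc x y)).toReal) : Measurable F := by
  let P : ℝ → ℝ := fun x => (m (Iio x)).toReal + (m (Iic x)).toReal
  have hP : Monotone P := fun x y h =>
    add_le_add (ENNReal.toReal_mono (measure_ne_top _ _) (measure_mono (Iio_subset_Iio h)))
      (ENNReal.toReal_mono (measure_ne_top _ _) (measure_mono (Iic_subset_Iic.mpr h)))
  have hPF : Monotone (fun x => P x + F x) := by
    intro x y h
    rcases h.eq_or_lt with rfl | h'
    · exact le_rfl
    have h1 : m (Iio x) + m (Icc x y) = m (Iic y) := by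
      rw [← measure_union _ measurableSet_Icc, Iio_union_Icc_eq_Iic h]
      exact Set.disjoint_left.mpr fun z hz hz' => absurd hz'.1 (not_le.mpr hz)
    have h2 : (m (Iio x)).toReal + (m (Icc x y)).toReal = (m (Iic y)).toReal := by
      rw [← ENNReal.toReal_add (measure_ne_top _ _) (measure_ne_top _ _), h1]
    have h3 : (m (Iic x)).toReal ≤ (m (Iio y)).toReal :=
      ENNReal.toReal_mono (measure_ne_top _ _) (measure_mono (Iic_subset_Iio.mpr h'))
    have h4 := (abs_le.mp (hm x y h)).1
    simp only [P]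
    linarith
  have h5 : F = fun x => (P x + F x) - P x := by
    funext x
    ring
  rw [h5]
  exact hPF.measurable.sub hP.measurable

theorem C1_bdd (F : ℝ → ℝ) (m : Measure ℝ) [IsFiniteMeasure m]
    (hm : ∀ x y, x ≤ y → |F y - F x| ≤ (m (Icc x y)).toReal) :
    ∃ B : ℝ, ∀ x, |F x| ≤ B := by
  refine ⟨|F 0| + (m univ).toReal, fun x => ?_⟩
  have h1 : |F x - F 0| ≤ (m univ).toReal := by
    rcases le_total 0 x with h | h
    · exact (hm 0 x h).trans (ENNReal.toReal_mono (measure_ne_top _ _) (measure_mono (subset_univ _)))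
    · rw [abs_sub_comm]
      exact (hm x 0 h).trans (ENNReal.toReal_mono (measure_ne_top _ _) (measure_mono (subset_univ _)))
  have h2 := abs_add_le (F x - F 0) (F 0)
  rw [sub_add_cancel] at h2
  linarith

theorem C1_io (g : ℝ → ℝ) (hg : Measurable g) (B : ℝ) (hB : ∀ x, |g x| ≤ B) (s : Set ℝ)
    (hs : volume s ≠ ⊤) : IntegrableOn g s := by
  haveI : IsFiniteMeasure (volume.restrict s) := ⟨by
    rw [Measure.restrict_apply_univ]; exact hs.lt_top⟩
  exact Integrable.of_bound hg.aestronglyMeasurable B (Eventually.of_forall hB)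

theorem C1_ii (g : ℝ → ℝ) (hg : Measurable g) (B : ℝ) (hB : ∀ x, |g x| ≤ B) (a b : ℝ) :
    IntervalIntegrable g volume a b :=
  ⟨C1_io g hg B hB _ (by rw [Real.volume_Ioc]; exact ENNReal.ofReal_ne_top),
    C1_io g hg B hB _ (by rw [Real.volume_Ioc]; exact ENNReal.ofReal_ne_top)⟩

theorem C1_step1 (F : ℝ → ℝ) (hF : Measurable F) (B : ℝ) (hB : ∀ x, |F x| ≤ B) (r : ℝ)
    (hr : 0 < r) (x : ℝ) : A F x r - F x =
      (2 * r)⁻¹ * ∫ t in (0 : ℝ)..r, ((F (x + t) - F x) - (F x - F (x - t))) := by
  have i1 : IntervalIntegrable (fun t => F (x + t)) volume 0 r :=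
    C1_ii _ (hF.comp (by fun_prop)) B (fun t => hB _) 0 r
  have i2 : IntervalIntegrable (fun t => F (x - t)) volume 0 r :=
    C1_ii _ (hF.comp (by fun_prop)) B (fun t => hB _) 0 r
  have e1 : ∫ t in (0 : ℝ)..r, F (x + t) = ∫ t in x..(x + r), F t := by
    rw [intervalIntegral.integral_comp_add_left (f := F), add_zero]
  have e2 : ∫ t in (0 : ℝ)..r, F (x - t) = ∫ t in (x - r)..x, F t := by
    rw [intervalIntegral.integral_comp_sub_left (f := F), sub_zero]
  have e3 : ∫ t in (x - r)..(x + r), F t =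
      (∫ t in (0 : ℝ)..r, F (x - t)) + ∫ t in (0 : ℝ)..r, F (x + t) := by
    rw [e1, e2, intervalIntegral.integral_add_adjacent_intervals (C1_ii F hF B hB _ _)
      (C1_ii F hF B hB _ _)]
  have e4 : ∫ t in (0 : ℝ)..r, ((F (x + t) - F x) - (F x - F (x - t))) =
      (∫ t in (0 : ℝ)..r, F (x - t)) + (∫ t in (0 : ℝ)..r, F (x + t)) - 2 * r * F x := by
    have e5 : ∀ t, (F (x + t) - F x) - (F x - F (x - t)) = F (x - t) + F (x + t) - 2 * F x := by
      intro t
      ring
    simp only [e5]
    rw [intervalIntegral.integral_sub (i2.add i1) intervalIntegrable_const,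
      intervalIntegral.integral_add i2 i1, intervalIntegral.integral_const]
    simp only [smul_eq_mul]
    ring
  unfold A
  rw [e4, e3]
  field_simp

theorem C1_tonelli (ν : Measure ℝ) [IsFiniteMeasure ν] (t : ℝ) :
    ∫⁻ x, ν (Icc x (x + t)) = ENNReal.ofReal t * ν univ := by
  have h1 : ∀ x, ν (Icc x (x + t)) =
      ∫⁻ y, (Icc x (x + t)).indicator (1 : ℝ → ENNReal) y ∂ν :=
    fun x => (lintegral_indicator_one measurableSet_Icc).symm
  simp_rw [h1]
  rw [lintegral_lintegral_swap]
  · have h2 : ∀ y, ∫⁻ x, (Icc x (x + t)).indicator (1 : ℝ → ENNReal) y = ENNReal.ofReal t := by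
      intro y
      have e : (fun x => (Icc x (x + t)).indicator (1 : ℝ → ENNReal) y) =
          (Icc (y - t) y).indicator 1 := by
        funext x
        by_cases h : x ∈ Icc (y - t) y
        · rw [indicator_of_mem h, indicator_of_mem]
          · rfl
          · exact ⟨h.2, by linarith [h.1]⟩
        · rw [indicator_of_notMem h, indicator_of_notMem]
          intro h'
          exact h ⟨by linarith [h'.2], h'.1⟩
      rw [e, lintegral_indicator_one measurableSet_Icc, Real.volume_Icc]
      congr 1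
      ring
    simp_rw [h2]
    rw [lintegral_const]
  · have e : (Function.uncurry fun x y => (Icc x (x + t)).indicator (1 : ℝ → ENNReal) y) =
        {p : ℝ × ℝ | p.1 ≤ p.2 ∧ p.2 ≤ p.1 + t}.indicator 1 := by
      funext ⟨x, y⟩
      by_cases h : x ≤ y ∧ y ≤ x + t
      · rw [indicator_of_mem (show (x, y) ∈ {p : ℝ × ℝ | p.1 ≤ p.2 ∧ p.2 ≤ p.1 + t} from h)]
        exact indicator_of_mem (show y ∈ Icc x (x + t) from h) _
      · rw [indicator_of_notMem (show (x, y) ∉ {p : ℝ × ℝ | p.1 ≤ p.2 ∧ p.2 ≤ p.1 + t} from h)]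
        exact indicator_of_notMem (show y ∉ Icc x (x + t) from h) _
    rw [e]
    refine (measurable_one.indicator ?_).aemeasurable
    exact (measurableSet_le measurable_fst measurable_snd).inter
      (measurableSet_le measurable_snd (measurable_fst.add_const t))

theorem C1_slice (F : ℝ → ℝ) (hFm : Measurable F) (B : ℝ) (hB : ∀ x, |F x| ≤ B) (m : Measure ℝ)
    [IsFiniteMeasure m] (hm : ∀ x y, x ≤ y → |F y - F x| ≤ (m (Icc x y)).toReal)
    (K₀ : Set ℝ) (r : ℝ) (hr : 0 < r)
    (hZ : volume {x | Metric.infDist x K₀ < 8 * r} ≠ ⊤) (t : ℝ) (ht : 0 < t) (htr : t ≤ r) :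
    |∫ x in {x | Metric.infDist x K₀ < 8 * r}, ((F (x + t) - F x) - (F x - F (x - t)))| ≤
      t * (m {y | 6 * r < Metric.infDist y K₀ ∧ Metric.infDist y K₀ < 10 * r}).toReal := by
  set Z : Set ℝ := {x | Metric.infDist x K₀ < 8 * r} with hZdef
  set Y : Set ℝ := {y | 6 * r < Metric.infDist y K₀ ∧ Metric.infDist y K₀ < 10 * r} with hYdef
  have hZm : MeasurableSet Z :=
    (isOpen_lt (Metric.continuous_infDist_pt K₀) continuous_const).measurableSet
  let g : ℝ → ℝ := fun x => F (x + t) - F x
  have hgm : Measurable g := (hFm.comp (by fun_prop)).sub hFm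
  have hgB : ∀ x, |g x| ≤ 2 * B := by
    intro x
    have h1 := abs_sub (F (x + t)) (F x)
    have h2 := hB (x + t)
    have h3 := hB x
    simp only [g]
    linarith
  have hg1 : ∀ x, F x - F (x - t) = g (x - t) := by
    intro x
    simp only [g]
    rw [sub_add_cancel]
  have hgi : IntegrableOn g Z := C1_io g hgm _ hgB Z hZ
  have hgi2 : IntegrableOn (fun x => g (x - t)) Z :=
    C1_io _ (hgm.comp (by fun_prop)) _ (fun x => hgB _) Z hZ
  let h : ℝ → ℝ := fun x => Z.indicator g x - Z.indicator (fun x => g (x - t)) (x + t)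
  have i1 : Integrable (Z.indicator g) := (integrable_indicator_iff hZm).mpr hgi
  have i2 : Integrable (Z.indicator (fun x => g (x - t))) := (integrable_indicator_iff hZm).mpr hgi2
  have i3 : Integrable (fun x => Z.indicator (fun x => g (x - t)) (x + t)) :=
    i2.comp_add_right t
  have e1 : ∫ x in Z, ((F (x + t) - F x) - (F x - F (x - t))) = ∫ x, h x := by
    have e2 : ∫ x in Z, ((F (x + t) - F x) - (F x - F (x - t))) =
        (∫ x in Z, g x) - ∫ x in Z, g (x - t) := by
      rw [← integral_sub hgi hgi2]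
      simp only [hg1]
      rfl
    rw [e2, ← integral_indicator hZm, ← integral_indicator hZm]
    simp only [h]
    rw [integral_sub i1 i3]
    congr 1
    exact (integral_add_right_eq_self (Z.indicator (fun x => g (x - t))) t).symm
  rw [e1]
  have hpt : ∀ x, ‖h x‖ₑ ≤ (m.restrict Y) (Icc x (x + t)) := by
    intro x
    have hgx : ‖g x‖ₑ ≤ m (Icc x (x + t)) := by
      rw [Real.enorm_eq_ofReal_abs]
      refine (ENNReal.ofReal_le_ofReal (hm x (x + t) (by linarith))).trans ?_
      rw [ENNReal.ofReal_toReal (measure_ne_top _ _)]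
    have hlip : ∀ u v : ℝ, Metric.infDist u K₀ ≤ Metric.infDist v K₀ + |u - v| := by
      intro u v
      have := Metric.infDist_le_infDist_add_dist (s := K₀) (x := u) (y := v)
      rwa [Real.dist_eq] at this
    have hres : Icc x (x + t) ⊆ Y → ‖g x‖ₑ ≤ (m.restrict Y) (Icc x (x + t)) := by
      intro hsub
      rw [Measure.restrict_apply measurableSet_Icc, inter_eq_left.mpr hsub]
      exact hgx
    by_cases h1 : x ∈ Z
    · by_cases h2 : x + t ∈ Z
      · have : h x = 0 := by
          simp only [h]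
          rw [indicator_of_mem h1, indicator_of_mem h2, add_sub_cancel_right, sub_self]
        rw [this, enorm_zero]
        exact zero_le
      · have : h x = g x := by
          simp only [h]
          rw [indicator_of_mem h1, indicator_of_notMem h2, sub_zero]
        rw [this]
        apply hres
        intro y hy
        have h1' : Metric.infDist x K₀ < 8 * r := h1
        have h2' : 8 * r ≤ Metric.infDist (x + t) K₀ := not_lt.mp h2
        have a1 := hlip y x
        have a2 := hlip (x + t) y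
        rw [abs_of_nonneg (by linarith [hy.1])] at a1
        rw [abs_of_nonneg (by linarith [hy.2])] at a2
        exact ⟨by linarith [hy.1], by linarith [hy.2]⟩
    · by_cases h2 : x + t ∈ Z
      · have : h x = - g x := by
          simp only [h]
          rw [indicator_of_notMem h1, indicator_of_mem h2, add_sub_cancel_right, zero_sub]
        rw [this, enorm_neg]
        apply hres
        intro y hy
        have h1' : 8 * r ≤ Metric.infDist x K₀ := not_lt.mp h1
        have h2' : Metric.infDist (x + t) K₀ < 8 * r := h2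
        have a1 := hlip x y
        have a2 := hlip y (x + t)
        rw [abs_of_nonpos (by linarith [hy.1])] at a1
        rw [abs_of_nonpos (by linarith [hy.2])] at a2
        exact ⟨by linarith [hy.2], by linarith [hy.1]⟩
      · have : h x = 0 := by
          simp only [h]
          rw [indicator_of_notMem h1, indicator_of_notMem h2, sub_self]
        rw [this, enorm_zero]
        exact zero_le
  have hle : ‖∫ x, h x‖ₑ ≤ ENNReal.ofReal t * m Y := by
    refine (enorm_integral_le_lintegral_enorm h).trans ?_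
    refine (lintegral_mono hpt).trans ?_
    rw [C1_tonelli (m.restrict Y) t, Measure.restrict_apply_univ]
  have hfin : ENNReal.ofReal t * m Y ≠ ⊤ := ENNReal.mul_ne_top ENNReal.ofReal_ne_top (measure_ne_top _ _)
  have h6 := ENNReal.toReal_mono hfin hle
  rw [ENNReal.toReal_mul, ENNReal.toReal_ofReal ht.le, toReal_enorm, Real.norm_eq_abs] at h6
  exact h6

/-- antisymmetric summation: the integral of `A F x r - F x` over a neighbourhood of `K₀` only sees
the mass near the boundary of the neighbourhood -/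
theorem C1 (F : ℝ → ℝ) (hF : ∀ a b, IntervalIntegrable F volume a b) (m : Measure ℝ)
    [IsFiniteMeasure m] (hm : ∀ x y, x ≤ y → |F y - F x| ≤ (m (Icc x y)).toReal)
    (K₀ : Set ℝ) (hK₀ : IsCompact K₀) (hne : K₀.Nonempty) (r : ℝ) (hr : 0 < r) :
    |∫ x in {x | Metric.infDist x K₀ < 8 * r}, (A F x r - F x)| ≤
      r / 4 * (m {y | 6 * r < Metric.infDist y K₀ ∧ Metric.infDist y K₀ < 10 * r}).toReal := by
  have hFm := C1_meas F m hm
  obtain ⟨B, hB⟩ := C1_bdd F m hm
  have hZfin : volume {x | Metric.infDist x K₀ < 8 * r} ≠ ⊤ := by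
    obtain ⟨R, hR⟩ := hK₀.isBounded.exists_norm_le
    have hsub : {x | Metric.infDist x K₀ < 8 * r} ⊆ Icc (-(R + 8 * r)) (R + 8 * r) := by
      intro x hx
      obtain ⟨y, hy, hxy⟩ := (Metric.infDist_lt_iff hne).mp hx
      have h1 := hR y hy
      rw [Real.norm_eq_abs, abs_le] at h1
      rw [Real.dist_eq, abs_lt] at hxy
      exact ⟨by linarith [h1.1, hxy.1], by linarith [h1.2, hxy.2]⟩
    refine ne_top_of_le_ne_top ?_ (measure_mono hsub)
    rw [Real.volume_Icc]
    exact ENNReal.ofReal_ne_top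
  have hsl := C1_slice F hFm B hB m hm K₀ r hr hZfin
  set Z : Set ℝ := {x | Metric.infDist x K₀ < 8 * r} with hZdef
  set MY : ℝ := (m {y | 6 * r < Metric.infDist y K₀ ∧ Metric.infDist y K₀ < 10 * r}).toReal
  haveI : IsFiniteMeasure (volume.restrict Z) := ⟨by
    rw [Measure.restrict_apply_univ]; exact hZfin.lt_top⟩
  haveI : IsFiniteMeasure (volume.restrict (Ioc (0 : ℝ) r)) := ⟨by
    rw [Measure.restrict_apply_univ, Real.volume_Ioc]; exact ENNReal.ofReal_lt_top⟩
  have e1 : ∫ x in Z, (A F x r - F x) = (2 * r)⁻¹ *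
      ∫ t in Ioc (0 : ℝ) r, ∫ x in Z, ((F (x + t) - F x) - (F x - F (x - t))) := by
    have e2 : ∀ x, A F x r - F x = (2 * r)⁻¹ *
        ∫ t in Ioc (0 : ℝ) r, ((F (x + t) - F x) - (F x - F (x - t))) := by
      intro x
      rw [C1_step1 F hFm B hB r hr x, intervalIntegral.integral_of_le hr.le]
    simp only [e2]
    rw [integral_const_mul]
    congr 1
    rw [integral_integral_swap]
    have hmeas : Measurable (Function.uncurry fun x t : ℝ =>
        ((F (x + t) - F x) - (F x - F (x - t)))) := by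
      have m1 : Measurable fun p : ℝ × ℝ => F (p.1 + p.2) := hFm.comp (by fun_prop)
      have m2 : Measurable fun p : ℝ × ℝ => F p.1 := hFm.comp (by fun_prop)
      have m3 : Measurable fun p : ℝ × ℝ => F (p.1 - p.2) := hFm.comp (by fun_prop)
      exact (m1.sub m2).sub (m2.sub m3)
    refine Integrable.of_bound hmeas.aestronglyMeasurable (4 * B) (Eventually.of_forall ?_)
    rintro ⟨x, t⟩
    simp only [Function.uncurry, Real.norm_eq_abs]
    have a1 := abs_sub (F (x + t) - F x) (F x - F (x - t))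
    have a2 := abs_sub (F (x + t)) (F x)
    have a3 := abs_sub (F x) (F (x - t))
    have b1 := hB (x + t)
    have b2 := hB x
    have b3 := hB (x - t)
    linarith
  rw [e1, abs_mul, abs_of_pos (by positivity)]
  have e3 : |∫ t in Ioc (0 : ℝ) r, ∫ x in Z, ((F (x + t) - F x) - (F x - F (x - t)))| ≤
      ∫ t in Ioc (0 : ℝ) r, t * MY := by
    rw [← Real.norm_eq_abs]
    refine norm_integral_le_of_norm_le ?_ ?_
    · exact (continuous_id.mul continuous_const).integrableOn_Ioc
    · rw [ae_restrict_iff' measurableSet_Ioc]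
      refine Eventually.of_forall fun t ht => ?_
      rw [Real.norm_eq_abs]
      exact hsl t ht.1 ht.2
  have e4 : ∫ t in Ioc (0 : ℝ) r, t * MY = r ^ 2 / 2 * MY := by
    rw [integral_mul_const, ← intervalIntegral.integral_of_le hr.le, integral_id]
    ring
  rw [e4] at e3
  calc (2 * r)⁻¹ * |∫ t in Ioc (0 : ℝ) r, ∫ x in Z, ((F (x + t) - F x) - (F x - F (x - t)))|
      ≤ (2 * r)⁻¹ * (r ^ 2 / 2 * MY) := mul_le_mul_of_nonneg_left e3 (by positivity)
    _ = r / 4 * MY := by field_simp; ring

end Pool.Agent.BV653
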