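import Pool.Agent.BV653.Defs
import Pool.Agent.BV653.C0
set_option autoImplicit false
open MeasureTheory Set Filter Topology
namespace Pool.Agent.BV653
theorem C2_int_le (F : ℝ → ℝ) (hF : ∀ a b, IntervalIntegrable F volume a b) {a b c : ℝ}
    (hab : a ≤ b) (h : ∀ t ∈ Icc a b, F t ≤ c) : ∫ t in a..b, F t ≤ (b - a) * c := by
  have h1 := intervalIntegral.integral_mono_on (g := fun _ => c) hab (hF a b)
    intervalIntegrable_const h
  rw [intervalIntegral.integral_const, smul_eq_mul] at h1
  exact h1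

theorem C2_int_ge (F : ℝ → ℝ) (hF : ∀ a b, IntervalIntegrable F volume a b) {a b c : ℝ}
    (hab : a ≤ b) (h : ∀ t ∈ Icc a b, c ≤ F t) : (b - a) * c ≤ ∫ t in a..b, F t := by
  have h1 := intervalIntegral.integral_mono_on (f := fun _ => c) hab
    intervalIntegrable_const (hF a b) h
  rw [intervalIntegral.integral_const, smul_eq_mul] at h1
  exact h1

theorem C2_shift (F : ℝ → ℝ) (hF : ∀ a b, IntervalIntegrable F volume a b) (c : ℝ) :
    ∀ a b, IntervalIntegrable (fun s => F (s + c)) volume a b := by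
  intro a b
  have := (hF (a + c) (b + c)).comp_add_right c
  rwa [add_sub_cancel_right, add_sub_cancel_right] at this

theorem C2_mono (μ : Measure ℝ) [IsFiniteMeasure μ] {s t : Set ℝ} (h : s ⊆ t) :
    (μ s).toReal ≤ (μ t).toReal :=
  ENNReal.toReal_mono (measure_ne_top μ t) (measure_mono h)

/-- one-sided pointwise estimate off `K` from the contact inequality at the next point of `K` -/
theorem C2 (F : ℝ → ℝ) (hF : ∀ a b, IntervalIntegrable F volume a b) (K : Set ℝ) (hK : IsCompact K)
    (κ n : Measure ℝ) [IsFiniteMeasure κ] [IsFiniteMeasure n] (hκK : κ Kᶜ = 0)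
    (hκa : ∀ x, κ {x} = 0)
    (hup : ∀ x y, x ≤ y → F y - F x ≤ (κ (Icc x y)).toReal + (n (Icc x y)).toReal)
    (hlo : ∀ x y, x ≤ y → (κ (Icc x y)).toReal - (n (Icc x y)).toReal ≤ F y - F x)
    (hcon : ∀ q ∈ K, ∀ r > 0, A F q r ≤ F q) (x : ℝ) (hx : x ∉ K) (r : ℝ) (hr : 0 < r) :
    A F x r - F x ≤ -(gapR K r x / (4 * r)) * (κ (Icc (x - r / 2) (x + r / 2))).toReal
      + (gapR K r x / (2 * r)) * (n (Icc (x - 2 * r) (x + 2 * r))).toReal
      + (n (Icc x (x + gapR K r x))).toReal := by
  obtain ⟨_, hb2, hb3, hb4, hb5, hb6, _⟩ := gapR_basic K hK r hr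
  obtain ⟨d, hd⟩ : ∃ d, d = gapR K r x := ⟨_, rfl⟩
  have hd0 : 0 < d := by rw [hd]; exact hb4 x hx
  have hdr : d ≤ r := by rw [hd]; exact hb2 x
  have hfree : ∀ z, 0 ≤ z → z < d → x + z ∉ K := by
    intro z hz hzd
    rw [hd] at hzd
    exact hb6 x z hz hzd
  rw [← hd]
  -- kappa vanishes on [x, x+d]
  have hκ0 : κ (Icc x (x + d)) = 0 := by
    apply le_antisymm _ bot_le
    have hsub : Icc x (x + d) ⊆ Kᶜ ∪ {x + d} := by
      intro y hy
      by_cases hyd : y = x + d
      · exact Or.inr hyd
      · left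
        have h1 := hfree (y - x) (by linarith [hy.1]) (by
          have := lt_of_le_of_ne hy.2 hyd
          linarith)
        rwa [show x + (y - x) = y by ring] at h1
    calc κ (Icc x (x + d)) ≤ κ (Kᶜ ∪ {x + d}) := measure_mono hsub
      _ ≤ κ Kᶜ + κ {x + d} := measure_union_le _ _
      _ = 0 := by rw [hκK, hκa, add_zero]
  obtain ⟨k0, hk0⟩ : ∃ k0, k0 = (κ (Icc (x - r / 2) (x + r / 2))).toReal := ⟨_, rfl⟩
  obtain ⟨ν2, hν2⟩ : ∃ ν2, ν2 = (n (Icc (x - 2 * r) (x + 2 * r))).toReal := ⟨_, rfl⟩
  obtain ⟨ν1, hν1⟩ : ∃ ν1, ν1 = (n (Icc x (x + d))).toReal := ⟨_, rfl⟩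
  have hk00 : 0 ≤ k0 := by rw [hk0]; exact ENNReal.toReal_nonneg
  have hν10 : 0 ≤ ν1 := by rw [hν1]; exact ENNReal.toReal_nonneg
  have hν20 : 0 ≤ ν2 := by rw [hν2]; exact ENNReal.toReal_nonneg
  rw [← hk0, ← hν2, ← hν1]
  rcases lt_or_eq_of_le hdr with hlt | heq
  · -- case 1
    have hq : x + d ∈ K := by
      have := hb5 x (by rw [← hd]; exact hlt)
      rwa [← hd] at this
    have h2 := hcon (x + d) hq r hr
    have h3 : F (x + d) - F x ≤ ν1 := by
      have := hup x (x + d) (by linarith)
      rw [hκ0, ENNReal.toReal_zero, ← hν1] at this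
      linarith
    -- the difference of the two averages
    have hI1 : ∫ t in (x - r)..(x + r), F t =
        (∫ t in (x - r)..(x + d - r), F t) + ∫ t in (x + d - r)..(x + r), F t :=
      (intervalIntegral.integral_add_adjacent_intervals (hF _ _) (hF _ _)).symm
    have hI2 : ∫ t in (x + d - r)..(x + d + r), F t =
        (∫ t in (x + d - r)..(x + r), F t) + ∫ t in (x + r)..(x + d + r), F t :=
      (intervalIntegral.integral_add_adjacent_intervals (hF _ _) (hF _ _)).symm
    have hS1 : ∫ s in (0:ℝ)..d, F (s + (x - r)) = ∫ t in (x - r)..(x + d - r), F t := by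
      rw [intervalIntegral.integral_comp_add_right]
      congr 1 <;> ring
    have hS2 : ∫ s in (0:ℝ)..d, F (s + (x + r)) = ∫ t in (x + r)..(x + d + r), F t := by
      rw [intervalIntegral.integral_comp_add_right]
      congr 1 <;> ring
    have hGi : ∀ a b, IntervalIntegrable (fun s => F (s + (x + r)) - F (s + (x - r))) volume a b :=
      fun a b => (C2_shift F hF (x + r) a b).sub (C2_shift F hF (x - r) a b)
    have hG : ∫ s in (0:ℝ)..d, (F (s + (x + r)) - F (s + (x - r))) =
        (∫ t in (x + r)..(x + d + r), F t) - ∫ t in (x - r)..(x + d - r), F t := by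
      rw [intervalIntegral.integral_sub (C2_shift F hF (x + r) 0 d) (C2_shift F hF (x - r) 0 d),
        hS1, hS2]
    have hνs : ∀ s, 0 ≤ s → s ≤ d → (n (Icc (s + (x - r)) (s + (x + r)))).toReal ≤ ν2 := by
      intro s hs0 hsd
      rw [hν2]
      apply C2_mono
      apply Icc_subset_Icc <;> linarith
    have hg1 : (d / 2 - 0) * (k0 - ν2) ≤
        ∫ s in (0:ℝ)..(d / 2), (F (s + (x + r)) - F (s + (x - r))) := by
      apply C2_int_ge _ hGi (by linarith)
      intro s hs
      have e1 := hlo (s + (x - r)) (s + (x + r)) (by linarith)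
      have e2 : k0 ≤ (κ (Icc (s + (x - r)) (s + (x + r)))).toReal := by
        rw [hk0]
        apply C2_mono
        apply Icc_subset_Icc <;> linarith [hs.1, hs.2]
      have e3 := hνs s hs.1 (by linarith [hs.2])
      linarith
    have hg2 : (d - d / 2) * (- ν2) ≤
        ∫ s in (d / 2)..d, (F (s + (x + r)) - F (s + (x - r))) := by
      apply C2_int_ge _ hGi (by linarith)
      intro s hs
      have e1 := hlo (s + (x - r)) (s + (x + r)) (by linarith)
      have e2 : 0 ≤ (κ (Icc (s + (x - r)) (s + (x + r)))).toReal := ENNReal.toReal_nonneg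
      have e3 := hνs s (by linarith [hs.1]) hs.2
      linarith
    have hg3 : ∫ s in (0:ℝ)..d, (F (s + (x + r)) - F (s + (x - r))) =
        (∫ s in (0:ℝ)..(d / 2), (F (s + (x + r)) - F (s + (x - r)))) +
          ∫ s in (d / 2)..d, (F (s + (x + r)) - F (s + (x - r))) :=
      (intervalIntegral.integral_add_adjacent_intervals (hGi _ _) (hGi _ _)).symm
    have hg4 : d / 2 * k0 - d * ν2 ≤
        (∫ t in (x + r)..(x + d + r), F t) - ∫ t in (x - r)..(x + d - r), F t := by
      rw [← hG, hg3]
      linarith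
    have h1 : A F x r - A F (x + d) r ≤ -(d / (4 * r)) * k0 + d / (2 * r) * ν2 := by
      unfold A
      have e : (2 * r)⁻¹ * (∫ t in (x - r)..(x + r), F t) -
          (2 * r)⁻¹ * ∫ t in (x + d - r)..(x + d + r), F t =
          - ((2 * r)⁻¹ * ((∫ t in (x + r)..(x + d + r), F t) -
            ∫ t in (x - r)..(x + d - r), F t)) := by
        rw [hI1, hI2]
        ring
      rw [e]
      have h5 : (2 * r)⁻¹ * (d / 2 * k0 - d * ν2) ≤ (2 * r)⁻¹ *
          ((∫ t in (x + r)..(x + d + r), F t) - ∫ t in (x - r)..(x + d - r), F t) :=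
        mul_le_mul_of_nonneg_left hg4 (by positivity)
      have h6 : (2 * r)⁻¹ * (d / 2 * k0 - d * ν2) = -(-(d / (4 * r)) * k0 + d / (2 * r) * ν2) := by
        field_simp
        ring
      linarith
    linarith
  · -- case 2
    subst heq
    have hup1 : ∫ t in x..(x + d), F t ≤ (x + d - x) * (F x + ν1) := by
      apply C2_int_le F hF (by linarith)
      intro t ht
      have e1 := hup x t ht.1
      have e2 : (κ (Icc x t)).toReal = 0 := by
        have : κ (Icc x t) = 0 := by
          exact measure_mono_null (Icc_subset_Icc le_rfl ht.2) hκ0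
        rw [this, ENNReal.toReal_zero]
      have e3 : (n (Icc x t)).toReal ≤ ν1 := by
        rw [hν1]
        exact C2_mono n (Icc_subset_Icc le_rfl ht.2)
      linarith
    have hup2 : ∫ t in (x - d / 2)..x, F t ≤ (x - (x - d / 2)) * (F x + ν2) := by
      apply C2_int_le F hF (by linarith)
      intro t ht
      have e1 := hlo t x ht.2
      have e2 : 0 ≤ (κ (Icc t x)).toReal := ENNReal.toReal_nonneg
      have e3 : (n (Icc t x)).toReal ≤ ν2 := by
        rw [hν2]
        apply C2_mono
        apply Icc_subset_Icc <;> linarith [ht.1]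
      linarith
    have hup3 : ∫ t in (x - d)..(x - d / 2), F t ≤
        ((x - d / 2) - (x - d)) * (F x + ν2 - k0) := by
      apply C2_int_le F hF (by linarith)
      intro t ht
      have e1 := hlo t x (by linarith [ht.2])
      have e2 : k0 ≤ (κ (Icc t x)).toReal := by
        rw [hk0]
        have hsub : Icc (x - d / 2) (x + d / 2) ⊆ Icc t x ∪ Icc x (x + d) := by
          intro y hy
          rcases le_total y x with h | h
          · exact Or.inl ⟨by linarith [hy.1, ht.2], h⟩
          · exact Or.inr ⟨h, by linarith [hy.2]⟩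
        have hle : κ (Icc (x - d / 2) (x + d / 2)) ≤ κ (Icc t x) := by
          calc κ (Icc (x - d / 2) (x + d / 2)) ≤ κ (Icc t x ∪ Icc x (x + d)) := measure_mono hsub
            _ ≤ κ (Icc t x) + κ (Icc x (x + d)) := measure_union_le _ _
            _ = κ (Icc t x) := by rw [hκ0, add_zero]
        exact ENNReal.toReal_mono (measure_ne_top κ _) hle
      have e3 : (n (Icc t x)).toReal ≤ ν2 := by
        rw [hν2]
        apply C2_mono
        apply Icc_subset_Icc <;> linarith [ht.1]
      linarith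
    have hI : ∫ t in (x - d)..(x + d), F t =
        (∫ t in (x - d)..(x - d / 2), F t) + (∫ t in (x - d / 2)..x, F t) +
          ∫ t in x..(x + d), F t := by
      rw [intervalIntegral.integral_add_adjacent_intervals (hF _ _) (hF _ _),
        intervalIntegral.integral_add_adjacent_intervals (hF _ _) (hF _ _)]
    unfold A
    rw [hI]
    have h5 : (2 * d)⁻¹ * ((∫ t in (x - d)..(x - d / 2), F t) + (∫ t in (x - d / 2)..x, F t) +
          ∫ t in x..(x + d), F t) ≤
        (2 * d)⁻¹ * (((x - d / 2) - (x - d)) * (F x + ν2 - k0) +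
          (x - (x - d / 2)) * (F x + ν2) + (x + d - x) * (F x + ν1)) :=
      mul_le_mul_of_nonneg_left (by linarith) (by positivity)
    have h6 : (2 * d)⁻¹ * (((x - d / 2) - (x - d)) * (F x + ν2 - k0) +
          (x - (x - d / 2)) * (F x + ν2) + (x + d - x) * (F x + ν1)) =
        F x - k0 / 4 + ν2 / 2 + ν1 / 2 := by
      field_simp
      ring
    have h7 : -(d / (4 * d)) * k0 + d / (2 * d) * ν2 + ν1 = - k0 / 4 + ν2 / 2 + ν1 := by
      field_simp
    rw [h7]
    linarith

end Pool.Agent.BV653
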