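import Pool.Agent.BV653.Defs
import Pool.Agent.BV653.C0
set_option autoImplicit false
open MeasureTheory Set Filter Topology
namespace Pool.Agent.BV653
theorem C3_meas (n : Measure ℝ) [IsFiniteMeasure n] (f g : ℝ → ℝ) (hf : Measurable f)
    (hg : Measurable g) : Measurable (fun x => n (Icc (f x) (g x))) := by
  have hS : MeasurableSet {p : ℝ × ℝ | f p.1 ≤ p.2 ∧ p.2 ≤ g p.1} :=
    (measurableSet_le (hf.comp measurable_fst) measurable_snd).inter
      (measurableSet_le measurable_snd (hg.comp measurable_fst))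
  exact measurable_measure_prodMk_left hS

theorem C3_dom (K₀ : Set ℝ) (hK₀ : IsCompact K₀) (hne : K₀.Nonempty) (t : ℝ) :
    MeasurableSet {x : ℝ | Metric.infDist x K₀ < t} ∧
      volume {x : ℝ | Metric.infDist x K₀ < t} ≠ ⊤ := by
  constructor
  · exact (isOpen_lt (Metric.continuous_infDist_pt K₀) continuous_const).measurableSet
  · obtain ⟨R, hR⟩ := hK₀.isBounded.subset_closedBall (0 : ℝ)
    refine ne_top_of_le_ne_top (measure_closedBall_lt_top (x := (0:ℝ)) (r := R + t)).ne
      (measure_mono ?_)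
    intro x hx
    obtain ⟨y, hy, hxy⟩ := (Metric.infDist_lt_iff hne).1 (show Metric.infDist x K₀ < t from hx)
    have h1 := hR hy
    rw [Metric.mem_closedBall] at h1 ⊢
    have := dist_triangle x y 0
    linarith

theorem C3_intg (n : Measure ℝ) [IsFiniteMeasure n] (D : Set ℝ) (hD : volume D ≠ ⊤)
    (u f g : ℝ → ℝ) (hu : Measurable u) (hu0 : ∀ x, 0 ≤ u x) (hu1 : ∀ x, u x ≤ 1)
    (hf : Measurable f) (hg : Measurable g) :
    IntegrableOn (fun x => u x * (n (Icc (f x) (g x))).toReal) D := by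
  refine Measure.integrableOn_of_bounded (M := (n univ).toReal) hD ?_ ?_
  · exact (hu.mul (C3_meas n f g hf hg).ennreal_toReal).aestronglyMeasurable
  · refine Filter.Eventually.of_forall (fun x => ?_)
    have h1 : (n (Icc (f x) (g x))).toReal ≤ (n univ).toReal :=
      ENNReal.toReal_mono (measure_ne_top _ _) (measure_mono (subset_univ _))
    have h2 : 0 ≤ (n (Icc (f x) (g x))).toReal := ENNReal.toReal_nonneg
    rw [Real.norm_eq_abs, abs_of_nonneg (mul_nonneg (hu0 x) h2)]
    calc u x * (n (Icc (f x) (g x))).toReal ≤ 1 * (n (Icc (f x) (g x))).toReal :=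
          mul_le_mul_of_nonneg_right (hu1 x) h2
      _ ≤ _ := by rw [one_mul]; exact h1

theorem C3_dy (g r₀ : ℝ) (hg : 0 < g) (hr : 0 < r₀) (N : ℕ) :
    (∑ k ∈ Finset.range N, (if 2 * g < r₀ / 2 ^ k then (r₀ / 2 ^ k)⁻¹ * g else 0)) ≤ 1 ∧
    (∑ k ∈ Finset.range N, (if 2 * g < r₀ / 2 ^ k then (r₀ / 2 ^ k)⁻¹ * g else 0)) ≤
      g * 2 ^ N / r₀ := by
  induction N with
  | zero => simp; positivity
  | succ N ih =>
    rw [Finset.sum_range_succ]
    obtain ⟨h1, h2⟩ := ih
    have hp : (0:ℝ) < 2 ^ N := by positivity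
    split_ifs with h
    · have h3 : (r₀ / 2 ^ N)⁻¹ * g = g * 2 ^ N / r₀ := by
        field_simp
      rw [h3]
      have h4 : g * 2 ^ N / r₀ + g * 2 ^ N / r₀ = g * 2 ^ (N + 1) / r₀ := by
        rw [pow_succ]; ring
      have h5 : g * 2 ^ (N + 1) / r₀ ≤ 1 := by
        rw [div_le_one hr]
        rw [lt_div_iff₀ hp] at h
        rw [pow_succ]; linarith
      constructor <;> linarith
    · have h6 : g * 2 ^ N / r₀ ≤ g * 2 ^ (N + 1) / r₀ := by
        rw [pow_succ]
        apply div_le_div_of_nonneg_right _ hr.le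
        nlinarith
      constructor <;> linarith

theorem C3_nb (K : Set ℝ) (hK : IsCompact K) (s : ℝ) :
    IsCompact {x : ℝ | (K ∩ Icc (x - s) x).Nonempty} := by
  have h : {x : ℝ | (K ∩ Icc (x - s) x).Nonempty} =
      (fun p : ℝ × ℝ => p.1 + p.2) '' (K ×ˢ Icc (0:ℝ) s) := by
    ext x
    constructor
    · rintro ⟨z, hz, hz1, hz2⟩
      exact ⟨(z, x - z), ⟨hz, ⟨by show (0:ℝ) ≤ x - z; linarith, by show x - z ≤ s; linarith⟩⟩,
        by show z + (x - z) = x; ring⟩
    · rintro ⟨⟨z, w⟩, ⟨hz, hw⟩, rfl⟩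
      have h1 : (0:ℝ) ≤ w := hw.1
      have h2 : w ≤ s := hw.2
      exact ⟨z, hz, by show z + w - s ≤ z; linarith, by show z ≤ z + w; linarith⟩
  rw [h]
  exact (hK.prod isCompact_Icc).image (by fun_prop)

theorem C3_C (K : Set ℝ) (hK : IsCompact K) (r : ℝ) (hr : 0 < r) (s t : ℝ) :
    MeasurableSet {x | x ∉ K ∧ gapR K r x < s ∧ (K ∩ Icc (x - t) x).Nonempty} ∧
      volume {x | x ∉ K ∧ gapR K r x < s ∧ (K ∩ Icc (x - t) x).Nonempty} ≠ ⊤ := by
  obtain ⟨hm1, -⟩ := gapR_basic K hK r hr
  constructor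
  · exact hK.isClosed.measurableSet.compl.inter ((measurableSet_lt hm1 measurable_const).inter
      (C3_nb K hK t).isClosed.measurableSet)
  · refine ne_top_of_le_ne_top (C3_nb K hK t).measure_lt_top.ne (measure_mono ?_)
    intro x hx
    exact hx.2.2


/-- comparison of `n`-mass with `κ`-mass at a scale 64 times larger -/
theorem C3a (K K₀ : Set ℝ) (hK : IsCompact K) (hK₀ : IsCompact K₀) (hne : K₀.Nonempty)
    (κ n : Measure ℝ) [IsFiniteMeasure κ] [IsFiniteMeasure n] (η : ℝ) (hη : 0 ≤ η) (r : ℝ)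
    (hr : 0 < r) (h : ∀ z ∈ K₀, (n (Metric.closedBall z (11 * r))).toReal ≤
      η * (κ (Metric.closedBall z (11 * r))).toReal) :
    r⁻¹ * ∫ x in {x | Metric.infDist x K₀ < 9 * r},
        (gapR K r x / r) * (n (Icc (x - 2 * r) (x + 2 * r))).toReal ≤
      4096 * η * ((64 * r)⁻¹ * ∫ x in {x | Metric.infDist x K₀ < 8 * (64 * r)},
        (gapR K (64 * r) x / (64 * r)) *
          (κ (Icc (x - (64 * r) / 2) (x + (64 * r) / 2))).toReal) := by
  obtain ⟨hm1, hle1, h01, -, -, -, hmono1⟩ := gapR_basic K hK r hr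
  obtain ⟨hm2, hle2, h02, -, -, -, -⟩ := gapR_basic K hK (64 * r) (by linarith)
  obtain ⟨hD1, hD1'⟩ := C3_dom K₀ hK₀ hne (9 * r)
  obtain ⟨hD2, hD2'⟩ := C3_dom K₀ hK₀ hne (8 * (64 * r))
  set F1 : ℝ → ℝ := fun x => (gapR K r x / r) * (n (Icc (x - 2 * r) (x + 2 * r))).toReal with hF1
  set F2 : ℝ → ℝ := fun x => (gapR K (64 * r) x / (64 * r)) *
          (κ (Icc (x - (64 * r) / 2) (x + (64 * r) / 2))).toReal with hF2
  have hi1 : IntegrableOn F1 {x | Metric.infDist x K₀ < 9 * r} := by
    refine C3_intg n _ hD1' (fun x => gapR K r x / r) (fun x => x - 2 * r) (fun x => x + 2 * r)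
      (hm1.div_const _) (fun x => div_nonneg (h01 x) hr.le) (fun x => (div_le_one hr).2 (hle1 x))
      (by fun_prop) (by fun_prop)
  have hi2 : IntegrableOn F2 {x | Metric.infDist x K₀ < 8 * (64 * r)} := by
    refine C3_intg κ _ hD2' (fun x => gapR K (64 * r) x / (64 * r)) (fun x => x - (64 * r) / 2)
      (fun x => x + (64 * r) / 2)
      (hm2.div_const _) (fun x => div_nonneg (h02 x) (by linarith))
      (fun x => (div_le_one (by linarith)).2 (hle2 x)) (by fun_prop) (by fun_prop)
  have hsub : {x : ℝ | Metric.infDist x K₀ < 9 * r} ⊆ {x | Metric.infDist x K₀ < 8 * (64 * r)} := by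
    intro x hx
    have h1 : Metric.infDist x K₀ < 9 * r := hx
    show Metric.infDist x K₀ < 8 * (64 * r)
    linarith
  have hF20 : ∀ x, 0 ≤ F2 x := fun x =>
    mul_nonneg (div_nonneg (h02 x) (by linarith)) ENNReal.toReal_nonneg
  have hpt : ∀ x ∈ {x : ℝ | Metric.infDist x K₀ < 9 * r}, F1 x ≤ 64 * η * F2 x := by
    intro x hx
    obtain ⟨z, hz, hxz⟩ := (Metric.infDist_lt_iff hne).1 (show Metric.infDist x K₀ < 9 * r from hx)
    rw [Real.dist_eq, abs_lt] at hxz
    have e1 : (n (Icc (x - 2 * r) (x + 2 * r))).toReal ≤ η * (κ (Icc (x - (64 * r) / 2) (x + (64 * r) / 2))).toReal := by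
      calc (n (Icc (x - 2 * r) (x + 2 * r))).toReal ≤ (n (Metric.closedBall z (11 * r))).toReal := by
            refine ENNReal.toReal_mono (measure_ne_top _ _) (measure_mono ?_)
            rw [Real.closedBall_eq_Icc]
            exact Icc_subset_Icc (by linarith) (by linarith)
        _ ≤ η * (κ (Metric.closedBall z (11 * r))).toReal := h z hz
        _ ≤ _ := by
            refine mul_le_mul_of_nonneg_left ?_ hη
            refine ENNReal.toReal_mono (measure_ne_top _ _) (measure_mono ?_)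
            rw [Real.closedBall_eq_Icc]
            exact Icc_subset_Icc (by linarith) (by linarith)
    have e2 : gapR K r x / r ≤ 64 * (gapR K (64 * r) x / (64 * r)) := by
      have h3 := hmono1 x (64 * r) (by linarith)
      have h4 : 64 * (gapR K (64 * r) x / (64 * r)) = gapR K (64 * r) x / r := by field_simp
      rw [h4]
      exact div_le_div_of_nonneg_right h3 hr.le
    have e3 : 0 ≤ gapR K r x / r := div_nonneg (h01 x) hr.le
    have e4 : 0 ≤ 64 * (gapR K (64 * r) x / (64 * r)) := e3.trans e2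
    calc F1 x ≤ (64 * (gapR K (64 * r) x / (64 * r))) * (η * (κ (Icc (x - (64 * r) / 2) (x + (64 * r) / 2))).toReal) :=
          mul_le_mul e2 e1 ENNReal.toReal_nonneg e4
      _ = 64 * η * F2 x := by rw [hF2]; ring
  have hI : (∫ x in {x | Metric.infDist x K₀ < 9 * r}, F1 x) ≤
      64 * η * ∫ x in {x | Metric.infDist x K₀ < 8 * (64 * r)}, F2 x := by
    calc (∫ x in {x | Metric.infDist x K₀ < 9 * r}, F1 x) ≤ ∫ x in {x | Metric.infDist x K₀ < 9 * r}, 64 * η * F2 x :=
          setIntegral_mono_on hi1 ((hi2.mono_set hsub).const_mul _) hD1 hpt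
      _ = 64 * η * ∫ x in {x | Metric.infDist x K₀ < 9 * r}, F2 x := integral_const_mul _ _
      _ ≤ _ := by
          refine mul_le_mul_of_nonneg_left ?_ (by positivity)
          exact setIntegral_mono_set hi2 (Filter.Eventually.of_forall hF20)
            (LE.le.eventuallyLE hsub)
  calc r⁻¹ * (∫ x in {x | Metric.infDist x K₀ < 9 * r}, F1 x) ≤ r⁻¹ * (64 * η * ∫ x in {x | Metric.infDist x K₀ < 8 * (64 * r)}, F2 x) :=
        mul_le_mul_of_nonneg_left hI (by positivity)
    _ = _ := by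
        field_simp
        ring

/-- splitting of the short-range term -/
theorem C3b (K K₀ : Set ℝ) (hK : IsCompact K) (hK0 : volume K = 0) (hK₀ : IsCompact K₀)
    (hne : K₀.Nonempty) (n : Measure ℝ) [IsFiniteMeasure n] (r : ℝ) (hr : 0 < r) :
    r⁻¹ * ∫ x in {x | Metric.infDist x K₀ < 8 * r}, (n (Icc x (x + gapR K r x))).toReal ≤
      8 * (r⁻¹ * ∫ x in {x | Metric.infDist x K₀ < 9 * r},
        (gapR K r x / r) * (n (Icc (x - 2 * r) (x + 2 * r))).toReal) +
      r⁻¹ * ∫ x in {x | x ∉ K ∧ gapR K r x < r / 4 ∧ (K ∩ Icc (x - r / 4) x).Nonempty},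
        (n (Icc x (x + gapR K r x))).toReal := by
  obtain ⟨hm1, hle1, h01, hpos1, hin1, hout1, -⟩ := gapR_basic K hK r hr
  obtain ⟨hD1, hD1'⟩ := C3_dom K₀ hK₀ hne (8 * r)
  obtain ⟨hD2, hD2'⟩ := C3_dom K₀ hK₀ hne (9 * r)
  obtain ⟨hC1, hC1'⟩ := C3_C K hK r hr (r / 4) (r / 4)
  set Z := {x : ℝ | Metric.infDist x K₀ < 8 * r} with hZ
  set Z9 := {x : ℝ | Metric.infDist x K₀ < 9 * r} with hZ9
  set C := {x | x ∉ K ∧ gapR K r x < r / 4 ∧ (K ∩ Icc (x - r / 4) x).Nonempty} with hC
  set J : ℝ → ℝ := fun x => (gapR K r x / r) * (n (Icc (x - 2 * r) (x + 2 * r))).toReal with hJ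
  set I : ℝ → ℝ := fun x => (n (Icc x (x + gapR K r x))).toReal with hI
  have hJ0 : ∀ x, 0 ≤ J x := fun x => mul_nonneg (div_nonneg (h01 x) hr.le) ENNReal.toReal_nonneg
  have hI0 : ∀ x, 0 ≤ I x := fun x => ENNReal.toReal_nonneg
  have hiJ : Integrable (Z9.indicator J) := by
    rw [integrable_indicator_iff hD2]
    exact C3_intg n _ hD2' (fun x => gapR K r x / r) (fun x => x - 2 * r) (fun x => x + 2 * r)
      (hm1.div_const _) (fun x => div_nonneg (h01 x) hr.le) (fun x => (div_le_one hr).2 (hle1 x))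
      (by fun_prop) (by fun_prop)
  have hiI : ∀ D : Set ℝ, MeasurableSet D → volume D ≠ ⊤ → Integrable (D.indicator I) := by
    intro D hD hD'
    rw [integrable_indicator_iff hD]
    have := C3_intg n D hD' (fun x => 1) (fun x => x) (fun x => x + gapR K r x) measurable_const
      (fun x => zero_le_one) (fun x => le_rfl) (by fun_prop) (measurable_id.add hm1)
    simpa using this
  have hJs : Integrable (fun x => Z9.indicator J (x - r / 4)) := hiJ.comp_sub_right (r / 4)
  have hind0 : ∀ (D : Set ℝ) (F : ℝ → ℝ), (∀ x, 0 ≤ F x) → ∀ x, 0 ≤ D.indicator F x :=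
    fun D F hF x => Set.indicator_nonneg (fun y _ => hF y) x
  have hpt : ∀ x, x ∉ K → Z.indicator I x ≤ 4 * Z9.indicator J x + 4 * Z9.indicator J (x - r / 4) + C.indicator I x := by
    intro x hx
    have b1 := hind0 Z9 J hJ0 x
    have b2 := hind0 Z9 J hJ0 (x - r / 4)
    have b3 := hind0 C I hI0 x
    by_cases hxZ : x ∈ Z
    · rw [Set.indicator_of_mem hxZ]
      have hxd : Metric.infDist x K₀ < 8 * r := hxZ
      by_cases hg : r / 4 ≤ gapR K r x
      · have hx9 : x ∈ Z9 := by
          show Metric.infDist x K₀ < 9 * r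
          linarith
        have : I x ≤ 4 * J x := by
          have e1 : I x ≤ (n (Icc (x - 2 * r) (x + 2 * r))).toReal :=
            ENNReal.toReal_mono (measure_ne_top _ _)
              (measure_mono (Icc_subset_Icc (by linarith) (by linarith [hle1 x])))
          have e2 : 1 ≤ 4 * (gapR K r x / r) := by
            have h4 : 4 * (gapR K r x / r) = (4 * gapR K r x) / r := by ring
            rw [h4, le_div_iff₀ hr]
            linarith
          have e3 : 0 ≤ (n (Icc (x - 2 * r) (x + 2 * r))).toReal := ENNReal.toReal_nonneg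
          calc I x ≤ 1 * (n (Icc (x - 2 * r) (x + 2 * r))).toReal := by rw [one_mul]; exact e1
            _ ≤ 4 * (gapR K r x / r) * (n (Icc (x - 2 * r) (x + 2 * r))).toReal :=
                mul_le_mul_of_nonneg_right e2 e3
            _ = 4 * J x := by rw [hJ]; ring
        rw [Set.indicator_of_mem hx9]
        linarith
      · push Not at hg
        by_cases hne2 : (K ∩ Icc (x - r / 4) x).Nonempty
        · have hxC : x ∈ C := ⟨hx, hg, hne2⟩
          rw [Set.indicator_of_mem hxC]
          linarith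
        · have hx9 : x - r / 4 ∈ Z9 := by
            show Metric.infDist (x - r / 4) K₀ < 9 * r
            have h3 : Metric.infDist (x - r / 4) K₀ ≤ Metric.infDist x K₀ + dist (x - r / 4) x :=
              Metric.infDist_le_infDist_add_dist
            rw [Real.dist_eq] at h3
            have h4 : |x - r / 4 - x| = r / 4 := by
              rw [show x - r / 4 - x = -(r / 4) by ring, abs_neg, abs_of_pos (by linarith)]
            rw [h4] at h3
            linarith
          have hgap : r / 4 ≤ gapR K r (x - r / 4) := by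
            by_contra hcon
            push Not at hcon
            have h5 := hin1 (x - r / 4) (by linarith)
            exact hne2 ⟨_, h5, by linarith [h01 (x - r / 4)], by linarith⟩
          have : I x ≤ 4 * J (x - r / 4) := by
            have e1 : I x ≤ (n (Icc (x - r / 4 - 2 * r) (x - r / 4 + 2 * r))).toReal :=
              ENNReal.toReal_mono (measure_ne_top _ _)
                (measure_mono (Icc_subset_Icc (by linarith) (by linarith)))
            have e2 : 1 ≤ 4 * (gapR K r (x - r / 4) / r) := by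
              have h4 : 4 * (gapR K r (x - r / 4) / r) = (4 * gapR K r (x - r / 4)) / r := by ring
              rw [h4, le_div_iff₀ hr]
              linarith
            have e3 : 0 ≤ (n (Icc (x - r / 4 - 2 * r) (x - r / 4 + 2 * r))).toReal := ENNReal.toReal_nonneg
            calc I x ≤ 1 * (n (Icc (x - r / 4 - 2 * r) (x - r / 4 + 2 * r))).toReal := by rw [one_mul]; exact e1
              _ ≤ 4 * (gapR K r (x - r / 4) / r) * (n (Icc (x - r / 4 - 2 * r) (x - r / 4 + 2 * r))).toReal :=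
                  mul_le_mul_of_nonneg_right e2 e3
              _ = 4 * J (x - r / 4) := by rw [hJ]; ring
          rw [Set.indicator_of_mem hx9]
          linarith
    · rw [Set.indicator_of_notMem hxZ]
      linarith
  have hae : ∀ᵐ x : ℝ, x ∉ K := measure_eq_zero_iff_ae_notMem.1 hK0
  have hmain : (∫ x in Z, I x) ≤ 8 * (∫ x in Z9, J x) + ∫ x in C, I x := by
    rw [← integral_indicator hD1, ← integral_indicator hD2, ← integral_indicator hC1]
    calc (∫ x, Z.indicator I x) ≤ ∫ x, (4 * Z9.indicator J x + 4 * Z9.indicator J (x - r / 4) + C.indicator I x) := by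
          refine integral_mono_ae (hiI Z hD1 hD1') (((hiJ.const_mul 4).add (hJs.const_mul 4)).add (hiI C hC1 hC1')) ?_
          filter_upwards [hae] with x hx
          exact hpt x hx
      _ = (4 * ∫ x, Z9.indicator J x) + (4 * ∫ x, Z9.indicator J (x - r / 4)) + ∫ x, C.indicator I x := by
          have e1 : Integrable (fun x => 4 * Z9.indicator J x) := hiJ.const_mul 4
          have e2 : Integrable (fun x => 4 * Z9.indicator J (x - r / 4)) := hJs.const_mul 4
          have e12 : Integrable (fun x => 4 * Z9.indicator J x + 4 * Z9.indicator J (x - r / 4)) := e1.add e2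
          rw [integral_add e12 (hiI C hC1 hC1')]
          congr 1
          rw [← integral_const_mul, ← integral_const_mul]
          exact integral_add e1 e2
      _ = _ := by
          rw [integral_sub_right_eq_self (fun x => Z9.indicator J x) (r / 4)]
          ring
  calc r⁻¹ * (∫ x in Z, I x) ≤ r⁻¹ * (8 * (∫ x in Z9, J x) + ∫ x in C, I x) :=
        mul_le_mul_of_nonneg_left hmain (by positivity)
    _ = _ := by ring

/-- the short gaps, summed over dyadic scales -/
theorem C3c (K : Set ℝ) (hK : IsCompact K) (n : Measure ℝ) [IsFiniteMeasure n] (hnK : n K = 0)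
    (r₀ : ℝ) (hr₀ : 0 < r₀) (N : ℕ) :
    ∑ k ∈ Finset.range N, (r₀ / 2 ^ k)⁻¹ *
      ∫ x in {x | x ∉ K ∧ gapR K (r₀ / 2 ^ k) x < (r₀ / 2 ^ k) / 4 ∧
          (K ∩ Icc (x - (r₀ / 2 ^ k) / 4) x).Nonempty},
        (n (Icc x (x + gapR K (r₀ / 2 ^ k) x))).toReal ≤ (n univ).toReal := by
  have hrk : ∀ k : ℕ, 0 < r₀ / 2 ^ k := fun k => by positivity
  let C : ℕ → Set ℝ := fun k => {x | x ∉ K ∧ gapR K (r₀ / 2 ^ k) x < (r₀ / 2 ^ k) / 4 ∧
          (K ∩ Icc (x - (r₀ / 2 ^ k) / 4) x).Nonempty}
  have hCm : ∀ k, MeasurableSet (C k) := fun k => (C3_C K hK _ (hrk k) _ _).1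
  have hgm : ∀ k, Measurable (gapR K (r₀ / 2 ^ k)) := fun k => (gapR_basic K hK _ (hrk k)).1
  let T : ℕ → Set (ℝ × ℝ) := fun k => {p | p.1 ∈ C k ∧ p.1 ≤ p.2 ∧ p.2 ≤ p.1 + gapR K (r₀ / 2 ^ k) p.1}
  have hTm : ∀ k, MeasurableSet (T k) := by
    intro k
    exact ((hCm k).preimage measurable_fst).inter
      ((measurableSet_le measurable_fst measurable_snd).inter
        (measurableSet_le measurable_snd (measurable_fst.add ((hgm k).comp measurable_fst))))
  let L : ℕ → ENNReal := fun k => ∫⁻ x in C k, n (Icc x (x + gapR K (r₀ / 2 ^ k) x))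
  let S : ℕ → ℝ → Set ℝ := fun k y => (fun x => (x, y)) ⁻¹' (T k)
  have hImeas : ∀ k, Measurable (fun x => n (Icc x (x + gapR K (r₀ / 2 ^ k) x))) := fun k =>
    C3_meas n (fun x => x) (fun x => x + gapR K (r₀ / 2 ^ k) x) measurable_id (measurable_id.add (hgm k))
  have hL1 : ∀ k, (∫ x in C k, (n (Icc x (x + gapR K (r₀ / 2 ^ k) x))).toReal) = (L k).toReal := by
    intro k
    exact integral_toReal (hImeas k).aemeasurable
      (Filter.Eventually.of_forall (fun x => measure_lt_top _ _))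
  have hL2 : ∀ k, L k = ∫⁻ y, volume (S k y) ∂n := by
    intro k
    have h1 : L k = ∫⁻ x, n (Prod.mk x ⁻¹' (T k)) := by
      show (∫⁻ x in C k, n (Icc x (x + gapR K (r₀ / 2 ^ k) x))) = _
      rw [← lintegral_indicator (hCm k)]
      refine lintegral_congr (fun x => ?_)
      by_cases hx : x ∈ C k
      · rw [Set.indicator_of_mem hx]
        congr 1
        ext y
        exact ⟨fun h => ⟨hx, h.1, h.2⟩, fun h => ⟨h.2.1, h.2.2⟩⟩
      · rw [Set.indicator_of_notMem hx]
        have : Prod.mk x ⁻¹' (T k) = ∅ := by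
          ext y
          exact ⟨fun h => hx h.1, fun h => absurd h (Set.notMem_empty _)⟩
        rw [this, measure_empty]
    rw [h1, ← Measure.prod_apply (hTm k), Measure.prod_apply_symm (hTm k)]
  have hkey : ∀ y, y ∉ K → ∑ k ∈ Finset.range N, ENNReal.ofReal ((r₀ / 2 ^ k)⁻¹) * volume (S k y) ≤ 1 := by
    intro y hy
    have hfact : ∀ k x, x ∈ S k y → x ≤ y ∧ y < x + gapR K (r₀ / 2 ^ k) x ∧
        x + gapR K (r₀ / 2 ^ k) x ∈ K ∧ (∀ w ∈ K, x ≤ w → x + gapR K (r₀ / 2 ^ k) x ≤ w) ∧
        gapR K (r₀ / 2 ^ k) x < (r₀ / 2 ^ k) / 4 ∧ ∃ z ∈ K, x - (r₀ / 2 ^ k) / 4 ≤ z ∧ z ≤ x := by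
      intro k x hx
      obtain ⟨-, -, -, -, hin, hout, -⟩ := gapR_basic K hK _ (hrk k)
      obtain ⟨⟨c1, c2, z, hz, hz1, hz2⟩, h1, h2⟩ := hx
      simp only at h1 h2 c1 c2 hz1 hz2
      have h3 : x + gapR K (r₀ / 2 ^ k) x ∈ K := hin x (by linarith [hrk k])
      refine ⟨h1, ?_, h3, ?_, c2, z, hz, hz1, hz2⟩
      · rcases lt_or_eq_of_le h2 with h | h
        · exact h
        · exact absurd (h ▸ h3) hy
      · intro w hw hxw
        by_contra hcon
        push Not at hcon
        have := hout x (w - x) (by linarith) (by linarith)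
        rw [add_sub_cancel] at this
        exact this hw
    by_cases hemp : ∀ k, S k y = ∅
    · refine le_trans (le_of_eq ?_) zero_le_one
      refine Finset.sum_eq_zero (fun k _ => ?_)
      rw [hemp k, measure_empty, mul_zero]
    · push Not at hemp
      obtain ⟨k0, hk0⟩ := hemp
      obtain ⟨x0, hx0⟩ := hk0
      obtain ⟨f1, f2, f3, f4, f5, z0, hz0, hz1, hz2⟩ := hfact k0 x0 hx0
      set q := x0 + gapR K (r₀ / 2 ^ k0) x0 with hq
      have hcompact : IsCompact (K ∩ Iic y) := hK.inter_right isClosed_Iic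
      have hpm : sSup (K ∩ Iic y) ∈ K ∩ Iic y := hcompact.sSup_mem ⟨z0, hz0, by
        show z0 ≤ y
        linarith⟩
      have hpu : ∀ w ∈ K, w ≤ y → w ≤ sSup (K ∩ Iic y) := fun w hw hwy =>
        le_csSup hcompact.bddAbove ⟨hw, hwy⟩
      set p := sSup (K ∩ Iic y) with hp
      have hpy : p ≤ y := hpm.2
      have hgpos : 0 < q - p := by linarith
      have hS : ∀ k x, x ∈ S k y → p < x ∧ x ≤ y ∧ 2 * (q - p) < r₀ / 2 ^ k := by
        intro k x hx
        obtain ⟨g1, g2, g3, g4, g5, z, hz, hz3, hz4⟩ := hfact k x hx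
        have e1 : x + gapR K (r₀ / 2 ^ k) x = q := by
          refine le_antisymm (g4 q f3 (by linarith)) (f4 _ g3 (by linarith))
        have e2 : p < x := by
          by_contra hcon
          push Not at hcon
          have := g4 p hpm.1 hcon
          linarith
        have e3 : z ≤ p := hpu z hz (by linarith)
        refine ⟨e2, g1, ?_⟩
        linarith
      have hterm : ∀ k ∈ Finset.range N, ENNReal.ofReal ((r₀ / 2 ^ k)⁻¹) * volume (S k y) ≤
          ENNReal.ofReal (if 2 * (q - p) < r₀ / 2 ^ k then (r₀ / 2 ^ k)⁻¹ * (q - p) else 0) := by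
        intro k _
        split_ifs with h
        · rw [ENNReal.ofReal_mul (by positivity)]
          refine mul_le_mul_right ?_ _
          calc volume (S k y) ≤ volume (Ioc p y) := measure_mono (fun x hx => ⟨(hS k x hx).1, (hS k x hx).2.1⟩)
            _ = ENNReal.ofReal (y - p) := Real.volume_Ioc
            _ ≤ _ := ENNReal.ofReal_le_ofReal (by linarith)
        · have : S k y = ∅ := by
            ext x
            exact ⟨fun hx => h (hS k x hx).2.2, fun h => absurd h (Set.notMem_empty _)⟩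
          rw [this, measure_empty, mul_zero]
          exact zero_le
      calc ∑ k ∈ Finset.range N, ENNReal.ofReal ((r₀ / 2 ^ k)⁻¹) * volume (S k y) ≤
            ∑ k ∈ Finset.range N, ENNReal.ofReal (if 2 * (q - p) < r₀ / 2 ^ k then (r₀ / 2 ^ k)⁻¹ * (q - p) else 0) :=
            Finset.sum_le_sum hterm
        _ = ENNReal.ofReal (∑ k ∈ Finset.range N, (if 2 * (q - p) < r₀ / 2 ^ k then (r₀ / 2 ^ k)⁻¹ * (q - p) else 0)) := by
            rw [ENNReal.ofReal_sum_of_nonneg]
            intro k _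
            split_ifs
            · exact mul_nonneg (inv_nonneg.2 (hrk k).le) hgpos.le
            · exact le_rfl
        _ ≤ ENNReal.ofReal 1 := ENNReal.ofReal_le_ofReal (C3_dy (q - p) r₀ hgpos hr₀ N).1
        _ = 1 := ENNReal.ofReal_one
  have hae : ∀ᵐ y ∂n, y ∉ K := measure_eq_zero_iff_ae_notMem.1 hnK
  have hsum : ∑ k ∈ Finset.range N, ENNReal.ofReal ((r₀ / 2 ^ k)⁻¹) * L k ≤ n univ := by
    calc ∑ k ∈ Finset.range N, ENNReal.ofReal ((r₀ / 2 ^ k)⁻¹) * L k
        = ∑ k ∈ Finset.range N, ∫⁻ y, ENNReal.ofReal ((r₀ / 2 ^ k)⁻¹) * volume (S k y) ∂n := by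
          refine Finset.sum_congr rfl (fun k _ => ?_)
          rw [hL2 k, lintegral_const_mul _ (measurable_measure_prodMk_right (hTm k))]
      _ = ∫⁻ y, ∑ k ∈ Finset.range N, ENNReal.ofReal ((r₀ / 2 ^ k)⁻¹) * volume (S k y) ∂n := by
          rw [lintegral_finsetSum]
          intro k _
          exact (measurable_measure_prodMk_right (hTm k)).const_mul _
      _ ≤ ∫⁻ y, 1 ∂n := by
          refine lintegral_mono_ae ?_
          filter_upwards [hae] with y hy
          exact hkey y hy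
      _ = n univ := lintegral_one
  have hfin : ∀ k ∈ Finset.range N, ENNReal.ofReal ((r₀ / 2 ^ k)⁻¹) * L k ≠ ⊤ := by
    intro k hk
    refine ne_top_of_le_ne_top (measure_ne_top n univ) (le_trans ?_ hsum)
    exact Finset.single_le_sum (f := fun k => ENNReal.ofReal ((r₀ / 2 ^ k)⁻¹) * L k) (fun _ _ => zero_le) hk
  calc ∑ k ∈ Finset.range N, (r₀ / 2 ^ k)⁻¹ * (∫ x in C k, (n (Icc x (x + gapR K (r₀ / 2 ^ k) x))).toReal)
      = ∑ k ∈ Finset.range N, (ENNReal.ofReal ((r₀ / 2 ^ k)⁻¹) * L k).toReal := by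
        refine Finset.sum_congr rfl (fun k _ => ?_)
        rw [hL1 k, ENNReal.toReal_mul, ENNReal.toReal_ofReal (inv_nonneg.2 (hrk k).le)]
    _ = (∑ k ∈ Finset.range N, ENNReal.ofReal ((r₀ / 2 ^ k)⁻¹) * L k).toReal := (ENNReal.toReal_sum hfin).symm
    _ ≤ (n univ).toReal := ENNReal.toReal_mono (measure_ne_top _ _) hsum

end Pool.Agent.BV653
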