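import Pool.Agent.BV653.Defs
import Pool.Agent.BV653.C0
import Pool.Agent.BV653.C2
import Pool.Agent.BV653.C3
set_option autoImplicit false
open MeasureTheory Set Filter Topology
namespace Pool.Agent.BV653
theorem C3_aux_meas (κ : Measure ℝ) [IsFiniteMeasure κ] (f g : ℝ → ℝ) (hf : Measurable f)
    (hg : Measurable g) : Measurable (fun x => (κ (Icc (f x) (g x))).toReal) := by
  have h1 : MeasurableSet {p : ℝ × ℝ | f p.1 ≤ p.2 ∧ p.2 ≤ g p.1} :=
    (measurableSet_le (hf.comp measurable_fst) measurable_snd).inter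
      (measurableSet_le measurable_snd (hg.comp measurable_fst))
  exact (measurable_measure_prodMk_left h1).ennreal_toReal

theorem C3_aux_fin (K₀ : Set ℝ) (hK₀ : IsCompact K₀) (hne : K₀.Nonempty) (δ : ℝ) :
    MeasurableSet {x | Metric.infDist x K₀ < δ} ∧
      ∃ R : ℝ, 0 ≤ R ∧ {x | Metric.infDist x K₀ < δ} ⊆ Icc (-R) R := by
  constructor
  · exact (isOpen_lt (Metric.continuous_infDist_pt K₀) continuous_const).measurableSet
  · obtain ⟨R, hR⟩ := hK₀.isBounded.subset_closedBall 0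
    refine ⟨|R + δ|, abs_nonneg _, ?_⟩
    intro x hx
    obtain ⟨z, hz, hxz⟩ := (Metric.infDist_lt_iff hne).1 hx
    have h1 := hR hz
    rw [Metric.mem_closedBall, Real.dist_eq, sub_zero, abs_le] at h1
    rw [Real.dist_eq, abs_lt] at hxz
    have h2 := le_abs_self (R + δ)
    constructor <;> linarith [h1.1, h1.2, hxz.1, hxz.2]

theorem C3_aux_int (K₀ : Set ℝ) (hK₀ : IsCompact K₀) (hne : K₀.Nonempty) (δ : ℝ) (g : ℝ → ℝ)
    (hg : Measurable g) (C : ℝ) (hC : ∀ x, |g x| ≤ C) :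
    IntegrableOn g {x | Metric.infDist x K₀ < δ} := by
  obtain ⟨hm, R, _, hab⟩ := C3_aux_fin K₀ hK₀ hne δ
  have hfin : volume {x | Metric.infDist x K₀ < δ} < ⊤ :=
    lt_of_le_of_lt (measure_mono hab) measure_Icc_lt_top
  exact IntegrableOn.of_bound hfin hg.aestronglyMeasurable C
    (Eventually.of_forall (fun x => by rw [Real.norm_eq_abs]; exact hC x))

theorem C3_aux_D (F : ℝ → ℝ) (hF : ∀ a b, IntervalIntegrable F volume a b) (K₀ : Set ℝ)
    (hK₀ : IsCompact K₀) (hne : K₀.Nonempty) (r δ : ℝ) :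
    IntegrableOn (fun x => A F x r - F x) {x | Metric.infDist x K₀ < δ} := by
  obtain ⟨hm, R, hR, hab⟩ := C3_aux_fin K₀ hK₀ hne δ
  have hA : Continuous (fun x => A F x r) := by
    have h1 : Continuous (fun x => ∫ t in (0:ℝ)..x, F t) := intervalIntegral.continuous_primitive hF 0
    have h2 : (fun x => A F x r) = fun x => (2*r)⁻¹ * ((∫ t in (0:ℝ)..(x+r), F t) -
        ∫ t in (0:ℝ)..(x-r), F t) := by
      funext x
      unfold A
      rw [intervalIntegral.integral_interval_sub_left (hF _ _) (hF _ _)]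
    rw [h2]
    exact continuous_const.mul ((h1.comp (continuous_id.add continuous_const)).sub
      (h1.comp (continuous_id.sub continuous_const)))
  have h3 : IntegrableOn (fun x => A F x r) (Icc (-R) R) := hA.integrableOn_Icc
  have h4 : IntegrableOn F (Icc (-R) R) :=
    (intervalIntegrable_iff_integrableOn_Icc_of_le (by linarith)).1 (hF (-R) R)
  exact (h3.sub h4).mono_set hab

theorem C3_aux_up (F : ℝ → ℝ) (hF : ∀ a b, IntervalIntegrable F volume a b) (K : Set ℝ) (hK : IsCompact K)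
    (hK0 : volume K = 0) (κ n : Measure ℝ) [IsFiniteMeasure κ] [IsFiniteMeasure n]
    (hκK : κ Kᶜ = 0) (hκa : ∀ x, κ {x} = 0)
    (hup : ∀ x y, x ≤ y → F y - F x ≤ (κ (Icc x y)).toReal + (n (Icc x y)).toReal)
    (hlo : ∀ x y, x ≤ y → (κ (Icc x y)).toReal - (n (Icc x y)).toReal ≤ F y - F x)
    (hcon : ∀ q ∈ K, ∀ r > 0, A F q r ≤ F q)
    (K₀ : Set ℝ) (hK₀ : IsCompact K₀) (hne : K₀.Nonempty) (r : ℝ) (hr : 0 < r) :
    (r⁻¹ * ∫ x in {x | Metric.infDist x K₀ < 8 * r}, (A F x r - F x)) ≤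
      -(1/4) * (r⁻¹ * ∫ x in {x | Metric.infDist x K₀ < 8 * r},
        (gapR K r x / r) * (κ (Icc (x - r / 2) (x + r / 2))).toReal) +
      (17/2) * (r⁻¹ * ∫ x in {x | Metric.infDist x K₀ < 9 * r},
        (gapR K r x / r) * (n (Icc (x - 2 * r) (x + 2 * r))).toReal) +
      (r⁻¹ * ∫ x in {x | x ∉ K ∧ gapR K r x < r / 4 ∧ (K ∩ Icc (x - r / 4) x).Nonempty},
        (n (Icc x (x + gapR K r x))).toReal) ∧
    (r⁻¹ * ∫ x in {x | Metric.infDist x K₀ < 8 * r}, |A F x r - F x|) ≤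
      2 * ((17/2) * (r⁻¹ * ∫ x in {x | Metric.infDist x K₀ < 9 * r},
        (gapR K r x / r) * (n (Icc (x - 2 * r) (x + 2 * r))).toReal) +
      (r⁻¹ * ∫ x in {x | x ∉ K ∧ gapR K r x < r / 4 ∧ (K ∩ Icc (x - r / 4) x).Nonempty},
        (n (Icc x (x + gapR K r x))).toReal)) -
      (r⁻¹ * ∫ x in {x | Metric.infDist x K₀ < 8 * r}, (A F x r - F x)) := by
  obtain ⟨gm, gr, g0, -, -, -, -⟩ := gapR_basic K hK r hr
  have hb1 : ∀ x, 0 ≤ gapR K r x / r ∧ gapR K r x / r ≤ 1 := fun x =>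
    ⟨div_nonneg (g0 x) hr.le, (div_le_one hr).2 (gr x)⟩
  have tb : ∀ (μ : Measure ℝ) [IsFiniteMeasure μ] (s : Set ℝ), (μ s).toReal ≤ (μ univ).toReal :=
    fun μ _ s => ENNReal.toReal_mono (measure_ne_top _ _) (measure_mono (subset_univ _))
  set a : ℝ → ℝ := fun x => (gapR K r x / r) * (κ (Icc (x - r / 2) (x + r / 2))).toReal with ha
  set b : ℝ → ℝ := fun x => (gapR K r x / r) * (n (Icc (x - 2 * r) (x + 2 * r))).toReal with hb
  set c : ℝ → ℝ := fun x => (n (Icc x (x + gapR K r x))).toReal with hc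
  have a0 : ∀ x, 0 ≤ a x := fun x => mul_nonneg (hb1 x).1 ENNReal.toReal_nonneg
  have b0 : ∀ x, 0 ≤ b x := fun x => mul_nonneg (hb1 x).1 ENNReal.toReal_nonneg
  have c0 : ∀ x, 0 ≤ c x := fun x => ENNReal.toReal_nonneg
  have hai : IntegrableOn a {x | Metric.infDist x K₀ < 8 * r} := by
    refine C3_aux_int K₀ hK₀ hne _ a ((gm.div_const r).mul (C3_aux_meas κ _ _ (by fun_prop) (by fun_prop)))
      (κ univ).toReal (fun x => ?_)
    rw [abs_of_nonneg (a0 x)]
    calc a x ≤ 1 * (κ univ).toReal :=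
          mul_le_mul (hb1 x).2 (tb κ _) ENNReal.toReal_nonneg zero_le_one
      _ = _ := one_mul _
  have hbi : ∀ δ, IntegrableOn b {x | Metric.infDist x K₀ < δ} := by
    intro δ
    refine C3_aux_int K₀ hK₀ hne _ b ((gm.div_const r).mul (C3_aux_meas n _ _ (by fun_prop) (by fun_prop)))
      (n univ).toReal (fun x => ?_)
    rw [abs_of_nonneg (b0 x)]
    calc b x ≤ 1 * (n univ).toReal :=
          mul_le_mul (hb1 x).2 (tb n _) ENNReal.toReal_nonneg zero_le_one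
      _ = _ := one_mul _
  have hci : IntegrableOn c {x | Metric.infDist x K₀ < 8 * r} := by
    refine C3_aux_int K₀ hK₀ hne _ c (C3_aux_meas n _ _ measurable_id (measurable_id.add gm))
      (n univ).toReal (fun x => ?_)
    rw [abs_of_nonneg (c0 x)]
    exact tb n _
  have hD := C3_aux_D F hF K₀ hK₀ hne r (8 * r)
  have hpt : ∀ x, x ∉ K → A F x r - F x ≤ -(1/4) * a x + (1/2) * b x + c x := by
    intro x hx
    have h1 := C2 F hF K hK κ n hκK hκa hup hlo hcon x hx r hr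
    have e1 : -(gapR K r x / (4 * r)) * (κ (Icc (x - r / 2) (x + r / 2))).toReal = -(1/4) * a x := by
      show _ = -(1/4) * ((gapR K r x / r) * (κ (Icc (x - r / 2) (x + r / 2))).toReal)
      field_simp
    have e2 : (gapR K r x / (2 * r)) * (n (Icc (x - 2 * r) (x + 2 * r))).toReal = (1/2) * b x := by
      show _ = (1/2) * ((gapR K r x / r) * (n (Icc (x - 2 * r) (x + 2 * r))).toReal)
      field_simp
    rw [e1, e2] at h1
    exact h1
  have hKae : ∀ᵐ x ∂(volume.restrict {x | Metric.infDist x K₀ < 8 * r}), x ∉ K :=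
    ae_restrict_of_ae (measure_eq_zero_iff_ae_notMem.1 hK0)
  have i1 : Integrable (fun x => -(1/4) * a x) (volume.restrict {x | Metric.infDist x K₀ < 8 * r}) :=
    hai.const_mul _
  have i2 : Integrable (fun x => (1/2) * b x) (volume.restrict {x | Metric.infDist x K₀ < 8 * r}) :=
    (hbi _).const_mul _
  have i3 : Integrable (fun x => -(1/4) * a x + (1/2) * b x)
      (volume.restrict {x | Metric.infDist x K₀ < 8 * r}) := i1.add i2
  have i4 : Integrable (fun x => (1/2) * b x + c x)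
      (volume.restrict {x | Metric.infDist x K₀ < 8 * r}) := i2.add hci
  have i5 : Integrable (fun x => 2 * ((1/2) * b x + c x))
      (volume.restrict {x | Metric.infDist x K₀ < 8 * r}) := i4.const_mul _
  have h1 : ∫ x in {x | Metric.infDist x K₀ < 8 * r}, (A F x r - F x) ≤
      -(1/4) * (∫ x in {x | Metric.infDist x K₀ < 8 * r}, a x) +
      (1/2) * (∫ x in {x | Metric.infDist x K₀ < 8 * r}, b x) +
      ∫ x in {x | Metric.infDist x K₀ < 8 * r}, c x := by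
    calc _ ≤ ∫ x in {x | Metric.infDist x K₀ < 8 * r}, (-(1/4) * a x + (1/2) * b x + c x) :=
          integral_mono_ae hD (i3.add hci)
            (hKae.mono (fun x hx => hpt x hx))
      _ = _ := by
          rw [integral_add i3 hci, integral_add i1 i2, integral_const_mul, integral_const_mul]
  have h2 : ∫ x in {x | Metric.infDist x K₀ < 8 * r}, b x ≤ ∫ x in {x | Metric.infDist x K₀ < 9 * r}, b x := by
    refine setIntegral_mono_set (hbi _) (Eventually.of_forall b0) ?_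
    refine HasSubset.Subset.eventuallyLE (fun x hx => ?_)
    have hx' : Metric.infDist x K₀ < 8 * r := hx
    show Metric.infDist x K₀ < 9 * r
    linarith
  have h3 := C3b K K₀ hK hK0 hK₀ hne n r hr
  have h4 : ∫ x in {x | Metric.infDist x K₀ < 8 * r}, |A F x r - F x| ≤
      2 * ((1/2) * (∫ x in {x | Metric.infDist x K₀ < 8 * r}, b x) +
        ∫ x in {x | Metric.infDist x K₀ < 8 * r}, c x) -
      ∫ x in {x | Metric.infDist x K₀ < 8 * r}, (A F x r - F x) := by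
    calc _ ≤ ∫ x in {x | Metric.infDist x K₀ < 8 * r},
            (2 * ((1/2) * b x + c x) - (A F x r - F x)) := by
          refine integral_mono_ae hD.abs (i5.sub hD) (hKae.mono (fun x hx => ?_))
          have h5 := hpt x hx
          have h6 := a0 x
          have h7 := b0 x
          have h8 := c0 x
          show |A F x r - F x| ≤ 2 * ((1/2) * b x + c x) - (A F x r - F x)
          rw [abs_le]
          constructor <;> linarith
      _ = _ := by
          rw [integral_sub i5 hD, integral_const_mul, integral_add i2 hci, integral_const_mul]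
  have hr' : 0 ≤ r⁻¹ := (inv_pos.2 hr).le
  have h1' := mul_le_mul_of_nonneg_left h1 hr'
  have h2' := mul_le_mul_of_nonneg_left h2 hr'
  have h4' := mul_le_mul_of_nonneg_left h4 hr'
  change r⁻¹ * (∫ x in {x | Metric.infDist x K₀ < 8 * r}, c x) ≤
      8 * (r⁻¹ * ∫ x in {x | Metric.infDist x K₀ < 9 * r}, b x) +
      r⁻¹ * ∫ x in {x | x ∉ K ∧ gapR K r x < r / 4 ∧ (K ∩ Icc (x - r / 4) x).Nonempty}, c x at h3
  constructor
  · nlinarith
  · nlinarith

theorem C3_aux_seq (S E c Y d t : ℕ → ℝ) (M n : ℝ) (hS : ∀ k, 0 ≤ S k) (hE : ∀ k, 0 ≤ E k)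
    (h1 : ∀ k, -(1/4) * Y k ≤ d k) (h2 : ∀ k, d k ≤ -(1/4) * S k + (17/2) * E k + c k)
    (h3 : ∀ k, t k ≤ 2 * ((17/2) * E k + c k) - d k) (h4 : ∀ k, E (6 + k) ≤ (1/256) * S k)
    (h5 : ∀ N, ∑ k ∈ Finset.range N, c k ≤ n) (h6 : ∀ N, ∑ k ∈ Finset.range N, Y k ≤ M) :
    ∃ B : ℝ, ∀ N : ℕ, ∑ k ∈ Finset.range N, t k ≤ B := by
  refine ⟨17 * (∑ k ∈ Finset.range 6, E k) + (17/128) * ((512/111) *
    (M/4 + (17/2) * (∑ k ∈ Finset.range 6, E k) + n)) + 2 * n + M/4, ?_⟩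
  intro N
  have e1 : ∑ k ∈ Finset.range N, E k ≤ ∑ k ∈ Finset.range 6, E k + (1/256) * ∑ k ∈ Finset.range N, S k := by
    calc ∑ k ∈ Finset.range N, E k ≤ ∑ k ∈ Finset.range (6 + N), E k :=
          Finset.sum_le_sum_of_subset_of_nonneg
            (Finset.range_mono (by omega)) (fun k _ _ => hE k)
      _ = ∑ k ∈ Finset.range 6, E k + ∑ k ∈ Finset.range N, E (6 + k) := Finset.sum_range_add _ _ _
      _ ≤ _ := by
          rw [Finset.mul_sum]
          have := Finset.sum_le_sum (fun k (_ : k ∈ Finset.range N) => h4 k)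
          linarith
  have e2 : -(1/4) * ∑ k ∈ Finset.range N, Y k ≤ ∑ k ∈ Finset.range N, d k := by
    rw [Finset.mul_sum]
    exact Finset.sum_le_sum (fun k _ => h1 k)
  have e3 : ∑ k ∈ Finset.range N, d k ≤ -(1/4) * ∑ k ∈ Finset.range N, S k +
      (17/2) * ∑ k ∈ Finset.range N, E k + ∑ k ∈ Finset.range N, c k := by
    rw [Finset.mul_sum, Finset.mul_sum, ← Finset.sum_add_distrib, ← Finset.sum_add_distrib]
    exact Finset.sum_le_sum (fun k _ => h2 k)
  have e4 : ∑ k ∈ Finset.range N, t k ≤ 2 * ((17/2) * ∑ k ∈ Finset.range N, E k +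
      ∑ k ∈ Finset.range N, c k) - ∑ k ∈ Finset.range N, d k := by
    rw [Finset.mul_sum, ← Finset.sum_add_distrib, Finset.mul_sum, ← Finset.sum_sub_distrib]
    exact Finset.sum_le_sum (fun k _ => h3 k)
  have e5 := h5 N
  have e6 := h6 N
  have e7 : 0 ≤ ∑ k ∈ Finset.range N, S k := Finset.sum_nonneg (fun k _ => hS k)
  linarith

/-- the total asymmetry over all dyadic scales near `K₀` is finite -/
theorem C3 (F : ℝ → ℝ) (hF : ∀ a b, IntervalIntegrable F volume a b) (K : Set ℝ) (hK : IsCompact K)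
    (hK0 : volume K = 0) (κ n : Measure ℝ) [IsFiniteMeasure κ] [IsFiniteMeasure n]
    (hκK : κ Kᶜ = 0) (hnK : n K = 0) (hκa : ∀ x, κ {x} = 0)
    (hup : ∀ x y, x ≤ y → F y - F x ≤ (κ (Icc x y)).toReal + (n (Icc x y)).toReal)
    (hlo : ∀ x y, x ≤ y → (κ (Icc x y)).toReal - (n (Icc x y)).toReal ≤ F y - F x)
    (hcon : ∀ q ∈ K, ∀ r > 0, A F q r ≤ F q)
    (K₀ : Set ℝ) (hK₀ : IsCompact K₀) (hne : K₀.Nonempty) (ρ₁ : ℝ) (hρ₁ : 0 < ρ₁)
    (hη : ∀ z ∈ K₀, ∀ ρ, 0 < ρ → ρ ≤ ρ₁ → (n (Metric.closedBall z ρ)).toReal ≤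
      (1 / 2 ^ 20) * (κ (Metric.closedBall z ρ)).toReal) :
    ∃ r₀ > 0, ∃ B : ℝ, ∀ N : ℕ, ∑ k ∈ Finset.range N, (r₀ / 2 ^ k)⁻¹ *
      ∫ x in {x | Metric.infDist x K₀ < 8 * (r₀ / 2 ^ k)}, |A F x (r₀ / 2 ^ k) - F x| ≤ B := by
  have hr₀ : 0 < ρ₁ / 11 := by positivity
  refine ⟨ρ₁ / 11, hr₀, ?_⟩
  have hrk : ∀ k : ℕ, 0 < (ρ₁ / 11) / 2 ^ k := fun k => by positivity
  have hm : ∀ x y, x ≤ y → |F y - F x| ≤ ((κ + n) (Icc x y)).toReal := by
    intro x y hxy
    have h1 := hup x y hxy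
    have h2 := hlo x y hxy
    have h3 : ((κ + n) (Icc x y)).toReal = (κ (Icc x y)).toReal + (n (Icc x y)).toReal := by
      rw [Measure.add_apply, ENNReal.toReal_add (measure_ne_top _ _) (measure_ne_top _ _)]
    have h4 : 0 ≤ (κ (Icc x y)).toReal := ENNReal.toReal_nonneg
    rw [h3, abs_le]
    constructor <;> linarith
  refine C3_aux_seq
    (fun k => ((ρ₁ / 11) / 2 ^ k)⁻¹ * ∫ x in {x | Metric.infDist x K₀ < 8 * ((ρ₁ / 11) / 2 ^ k)},
        (gapR K ((ρ₁ / 11) / 2 ^ k) x / ((ρ₁ / 11) / 2 ^ k)) *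
          (κ (Icc (x - ((ρ₁ / 11) / 2 ^ k) / 2) (x + ((ρ₁ / 11) / 2 ^ k) / 2))).toReal)
    (fun k => ((ρ₁ / 11) / 2 ^ k)⁻¹ * ∫ x in {x | Metric.infDist x K₀ < 9 * ((ρ₁ / 11) / 2 ^ k)},
        (gapR K ((ρ₁ / 11) / 2 ^ k) x / ((ρ₁ / 11) / 2 ^ k)) *
          (n (Icc (x - 2 * ((ρ₁ / 11) / 2 ^ k)) (x + 2 * ((ρ₁ / 11) / 2 ^ k)))).toReal)
    (fun k => ((ρ₁ / 11) / 2 ^ k)⁻¹ *
      ∫ x in {x | x ∉ K ∧ gapR K ((ρ₁ / 11) / 2 ^ k) x < ((ρ₁ / 11) / 2 ^ k) / 4 ∧
          (K ∩ Icc (x - ((ρ₁ / 11) / 2 ^ k) / 4) x).Nonempty},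
        (n (Icc x (x + gapR K ((ρ₁ / 11) / 2 ^ k) x))).toReal)
    (fun k => ((κ + n) {y | 6 * ((ρ₁ / 11) / 2 ^ k) < Metric.infDist y K₀ ∧
      Metric.infDist y K₀ < 10 * ((ρ₁ / 11) / 2 ^ k)}).toReal)
    (fun k => ((ρ₁ / 11) / 2 ^ k)⁻¹ *
      ∫ x in {x | Metric.infDist x K₀ < 8 * ((ρ₁ / 11) / 2 ^ k)}, (A F x ((ρ₁ / 11) / 2 ^ k) - F x))
    _ ((κ + n) univ).toReal (n univ).toReal ?_ ?_ ?_ ?_ ?_ ?_ ?_ ?_
  · intro k
    obtain ⟨gm, gr, g0, -, -, -, -⟩ := gapR_basic K hK _ (hrk k)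
    refine mul_nonneg (inv_pos.2 (hrk k)).le (integral_nonneg (fun x => ?_))
    exact mul_nonneg (div_nonneg (g0 x) (hrk k).le) ENNReal.toReal_nonneg
  · intro k
    obtain ⟨gm, gr, g0, -, -, -, -⟩ := gapR_basic K hK _ (hrk k)
    refine mul_nonneg (inv_pos.2 (hrk k)).le (integral_nonneg (fun x => ?_))
    exact mul_nonneg (div_nonneg (g0 x) (hrk k).le) ENNReal.toReal_nonneg
  · intro k
    have h1 := C1 F hF (κ + n) hm K₀ hK₀ hne _ (hrk k)
    have h2 := (abs_le.1 h1).1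
    have h3 := mul_le_mul_of_nonneg_left h2 (inv_pos.2 (hrk k)).le
    refine le_trans (le_of_eq ?_) h3
    have h4 : ((ρ₁ / 11) / 2 ^ k)⁻¹ * ((ρ₁ / 11) / 2 ^ k) = 1 := inv_mul_cancel₀ (hrk k).ne'
    show -(1/4) * ((κ + n) {y | 6 * ((ρ₁ / 11) / 2 ^ k) < Metric.infDist y K₀ ∧
      Metric.infDist y K₀ < 10 * ((ρ₁ / 11) / 2 ^ k)}).toReal = _
    linear_combination (1/4) * ((κ + n) {y | 6 * ((ρ₁ / 11) / 2 ^ k) < Metric.infDist y K₀ ∧
      Metric.infDist y K₀ < 10 * ((ρ₁ / 11) / 2 ^ k)}).toReal * h4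
  · intro k
    exact (C3_aux_up F hF K hK hK0 κ n hκK hκa hup hlo hcon K₀ hK₀ hne _ (hrk k)).1
  · intro k
    exact (C3_aux_up F hF K hK hK0 κ n hκK hκa hup hlo hcon K₀ hK₀ hne _ (hrk k)).2
  · intro k
    have e64 : 64 * ((ρ₁ / 11) / 2 ^ (6 + k)) = (ρ₁ / 11) / 2 ^ k := by
      rw [pow_add]
      field_simp
      norm_num
    have h1 := C3a K K₀ hK hK₀ hne κ n (1 / 2 ^ 20) (by positivity) _ (hrk (6 + k)) (fun z hz => by
      refine hη z hz _ (by have := hrk (6 + k); positivity) ?_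
      have h2 : (ρ₁ / 11) / 2 ^ (6 + k) ≤ ρ₁ / 11 := by
        refine div_le_self hr₀.le ?_
        exact one_le_pow₀ (by norm_num)
      linarith)
    rw [e64] at h1
    refine h1.trans (le_of_eq ?_)
    norm_num
  · intro N
    exact C3c K hK n hnK (ρ₁ / 11) hr₀ N
  · intro N
    have h1 : ∑ k ∈ Finset.range N, (κ + n) {y | 6 * ((ρ₁ / 11) / 2 ^ k) < Metric.infDist y K₀ ∧
      Metric.infDist y K₀ < 10 * ((ρ₁ / 11) / 2 ^ k)} ≤ (κ + n) univ := by
      refine sum_measure_le_measure_univ (fun k _ => ?_) ?_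
      · refine MeasurableSet.nullMeasurableSet ?_
        exact ((isOpen_lt continuous_const (Metric.continuous_infDist_pt K₀)).inter
          (isOpen_lt (Metric.continuous_infDist_pt K₀) continuous_const)).measurableSet
      · have key : ∀ j k : ℕ, j < k → Disjoint
            {y | 6 * ((ρ₁ / 11) / 2 ^ j) < Metric.infDist y K₀ ∧
              Metric.infDist y K₀ < 10 * ((ρ₁ / 11) / 2 ^ j)}
            {y | 6 * ((ρ₁ / 11) / 2 ^ k) < Metric.infDist y K₀ ∧
              Metric.infDist y K₀ < 10 * ((ρ₁ / 11) / 2 ^ k)} := by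
          intro j k hjk
          rw [Set.disjoint_left]
          intro y hy1 hy2
          have h2 : (ρ₁ / 11) / 2 ^ k ≤ (ρ₁ / 11) / 2 ^ (j + 1) :=
            div_le_div_of_nonneg_left hr₀.le (by positivity)
              (pow_le_pow_right₀ (by norm_num) (by omega))
          have h3 : (ρ₁ / 11) / 2 ^ (j + 1) = ((ρ₁ / 11) / 2 ^ j) / 2 := by
            rw [pow_succ]
            field_simp
          have h4 := hy1.1
          have h5 := hy2.2
          have h6 := hrk j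
          rw [h3] at h2
          linarith
        intro j _ k _ hjk
        rcases lt_or_gt_of_ne hjk with h | h
        · exact (key j k h).aedisjoint
        · exact (key k j h).symm.aedisjoint
    have h2 := ENNReal.toReal_mono (measure_ne_top _ _) h1
    rw [ENNReal.toReal_sum (fun k _ => measure_ne_top _ _)] at h2
    exact h2

end Pool.Agent.BV653
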