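import Pool.Agent.BV653.Defs
set_option autoImplicit false
open MeasureTheory Set Filter Topology
namespace Pool.Agent.BV653
/-- a compact part of positive `κ`-mass on which `n` is uniformly negligible at small scales -/
theorem C5 (K : Set ℝ) (hK : IsCompact K) (κ n : Measure ℝ) [IsFiniteMeasure κ]
    [IsFiniteMeasure n] (hκK : κ Kᶜ = 0) (hnK : n K = 0) (hκ : κ ≠ 0) (η : ℝ) (hη : 0 < η) :
    ∃ K₀ ⊆ K, IsCompact K₀ ∧ 0 < κ K₀ ∧ ∃ ρ₁ > 0, ∀ z ∈ K₀, ∀ ρ, 0 < ρ → ρ ≤ ρ₁ →
      (n (Metric.closedBall z ρ)).toReal ≤ η * (κ (Metric.closedBall z ρ)).toReal := by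
  set c : ENNReal := ENNReal.ofReal η with hc
  have hc0 : 0 < c := ENNReal.ofReal_pos.2 hη
  have hct : c ≠ ⊤ := ENNReal.ofReal_ne_top
  have hms : n ⟂ₘ κ := ⟨K, hK.measurableSet, hnK, hκK⟩
  have hae : ∀ᵐ z ∂κ, ∃ j : ℕ, ∀ ρ, 0 < ρ → ρ ≤ 1 / ((j : ℝ) + 1) →
      n (Metric.closedBall z ρ) ≤ c * κ (Metric.closedBall z ρ) := by
    filter_upwards [Besicovitch.ae_tendsto_rnDeriv n κ, hms.rnDeriv_ae_eq_zero] with z h1 h2
    rw [h2] at h1
    have h3 : ∀ᶠ r in 𝓝[>] (0:ℝ), n (Metric.closedBall z r) / κ (Metric.closedBall z r) < c :=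
      h1.eventually (gt_mem_nhds hc0)
    rw [eventually_nhdsWithin_iff, Metric.eventually_nhds_iff] at h3
    obtain ⟨ε, hε, h4⟩ := h3
    obtain ⟨j, hj⟩ := exists_nat_one_div_lt hε
    refine ⟨j, fun ρ hρ hρj => ?_⟩
    have h5 := h4 (y := ρ) (by
      rw [Real.dist_eq, sub_zero, abs_of_pos hρ]
      exact lt_of_le_of_lt hρj hj) hρ
    exact (ENNReal.div_le_iff_le_mul (Or.inr hct) (Or.inl (measure_ne_top κ _))).1 h5.le
  set E : ℕ → Set ℝ := fun j => {z | z ∈ K ∧ ∀ ρ, 0 < ρ → ρ ≤ 1 / ((j : ℝ) + 1) →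
      n (Metric.closedBall z ρ) ≤ c * κ (Metric.closedBall z ρ)} with hE
  obtain ⟨j, hj⟩ : ∃ j, κ (E j) ≠ 0 := by
    by_contra hcon
    push Not at hcon
    have h1 : κ (⋃ j, E j) = 0 := measure_iUnion_null hcon
    have h2 : κ univ = 0 := by
      have h3 : (univ : Set ℝ) ⊆ Kᶜ ∪ ((⋃ j, E j) ∪ {z | ¬ ∃ j : ℕ, ∀ ρ, 0 < ρ →
          ρ ≤ 1 / ((j : ℝ) + 1) → n (Metric.closedBall z ρ) ≤ c * κ (Metric.closedBall z ρ)}) := by
        intro z _
        by_cases hz : z ∈ K
        · right
          by_cases hz2 : ∃ j : ℕ, ∀ ρ, 0 < ρ → ρ ≤ 1 / ((j : ℝ) + 1) →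
              n (Metric.closedBall z ρ) ≤ c * κ (Metric.closedBall z ρ)
          · left
            obtain ⟨j, hj⟩ := hz2
            exact mem_iUnion.2 ⟨j, hz, hj⟩
          · right
            exact hz2
        · left
          exact hz
      refine measure_mono_null h3 ?_
      exact measure_union_null hκK (measure_union_null h1 (ae_iff.1 hae))
    exact hκ (Measure.measure_univ_eq_zero.1 h2)
  have hsub : closure (E j) ⊆ K := closure_minimal (fun z hz => hz.1) hK.isClosed
  refine ⟨closure (E j), hsub, hK.of_isClosed_subset isClosed_closure hsub,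
    lt_of_lt_of_le (pos_iff_ne_zero.2 hj) (measure_mono subset_closure),
    1 / ((j : ℝ) + 2), by positivity, ?_⟩
  intro z hz ρ hρ hρj
  have hR : ρ < 1 / ((j : ℝ) + 1) := by
    refine lt_of_le_of_lt hρj ?_
    apply one_div_lt_one_div_of_lt <;> linarith [(Nat.cast_nonneg j : (0:ℝ) ≤ j)]
  set R : ℝ := 1 / ((j : ℝ) + 1) with hRdef
  -- the main inequality for slightly larger radii
  have key : ∀ ρ', ρ < ρ' → ρ' ≤ R →
      n (Metric.closedBall z ρ) ≤ c * κ (Metric.closedBall z ρ') := by
    intro ρ' h1 h2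
    obtain ⟨w, hw, hzw⟩ := Metric.mem_closure_iff.1 hz ((ρ' - ρ) / 2) (by linarith)
    have h3 : Metric.closedBall z ρ ⊆ Metric.closedBall w ((ρ + ρ') / 2) := by
      apply Metric.closedBall_subset_closedBall'
      linarith
    have h4 : Metric.closedBall w ((ρ + ρ') / 2) ⊆ Metric.closedBall z ρ' := by
      apply Metric.closedBall_subset_closedBall'
      rw [dist_comm]
      linarith
    calc n (Metric.closedBall z ρ) ≤ n (Metric.closedBall w ((ρ + ρ') / 2)) := measure_mono h3
      _ ≤ c * κ (Metric.closedBall w ((ρ + ρ') / 2)) := hw.2 _ (by linarith) (by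
          show (ρ + ρ') / 2 ≤ R
          linarith)
      _ ≤ c * κ (Metric.closedBall z ρ') := mul_le_mul_right (measure_mono h4) _
  have hlim : n (Metric.closedBall z ρ) ≤ c * κ (Metric.closedBall z ρ) := by
    set s : ℕ → Set ℝ := fun k => Metric.closedBall z (ρ + (R - ρ) / ((k : ℝ) + 1)) with hs
    have hRρ : 0 < R - ρ := by linarith
    have hanti : Antitone s := by
      intro a b hab
      apply Metric.closedBall_subset_closedBall
      have : (R - ρ) / ((b : ℝ) + 1) ≤ (R - ρ) / ((a : ℝ) + 1) := by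
        apply div_le_div_of_nonneg_left hRρ.le (by positivity)
        have : (a : ℝ) ≤ b := by exact_mod_cast hab
        linarith
      linarith
    have hint : ⋂ k, s k = Metric.closedBall z ρ := by
      ext w
      rw [mem_iInter]
      constructor
      · intro h
        rw [Metric.mem_closedBall]
        have h1 : Tendsto (fun k : ℕ => ρ + (R - ρ) / ((k : ℝ) + 1)) atTop (𝓝 (ρ + 0)) := by
          apply tendsto_const_nhds.add
          have h2 := tendsto_one_div_add_atTop_nhds_zero_nat (𝕜 := ℝ)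
          have h3 := h2.const_mul (R - ρ)
          rw [mul_zero] at h3
          refine h3.congr fun k => ?_
          ring
        rw [add_zero] at h1
        exact ge_of_tendsto' h1 fun k => h k
      · intro h k
        apply Metric.closedBall_subset_closedBall _ h
        have : 0 < (R - ρ) / ((k : ℝ) + 1) := by positivity
        linarith
    have h1 := tendsto_measure_iInter_atTop (μ := κ) (s := s)
      (fun k => Metric.isClosed_closedBall.measurableSet.nullMeasurableSet) hanti
      ⟨0, measure_ne_top κ _⟩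
    rw [hint] at h1
    have h2 := ENNReal.Tendsto.const_mul (a := c) h1 (Or.inr hct)
    refine ge_of_tendsto' h2 fun k => ?_
    apply key
    · have : 0 < (R - ρ) / ((k : ℝ) + 1) := by positivity
      linarith
    · have : (R - ρ) / ((k : ℝ) + 1) ≤ R - ρ := by
        apply div_le_self hRρ.le
        linarith [(Nat.cast_nonneg k : (0:ℝ) ≤ k)]
      linarith
  have h1 := ENNReal.toReal_mono (ENNReal.mul_ne_top hct (measure_ne_top κ _)) hlim
  rw [ENNReal.toReal_mul, hc, ENNReal.toReal_ofReal hη.le] at h1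
  exact h1

/-- telescoping identity for difference quotients -/
theorem C5b (F : ℝ → ℝ) (hF : ∀ a b, IntervalIntegrable F volume a b) (x r : ℝ) (hr : 0 < r) :
    |(F (x + r) - F (x - r)) / (2 * r) - (F (x + r / 2) - F (x - r / 2)) / r| ≤
      (|A F (x + r) (r / 2) - F (x + r)| + |A F (x - r) (r / 2) - F (x - r)|) / (2 * r) +
      (|A F (x + r / 2) r - F (x + r / 2)| + |A F (x - r / 2) r - F (x - r / 2)|) / r := by
  have hid : (A F (x + r) (r / 2) - A F (x - r) (r / 2)) / (2 * r) =
      (A F (x + r / 2) r - A F (x - r / 2) r) / r := by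
    unfold A
    have e1 : x + r - r / 2 = x + r / 2 := by ring
    have e2 : x + r + r / 2 = x + r / 2 + r := by ring
    have e3 : x - r - r / 2 = x - r / 2 - r := by ring
    have e4 : x - r + r / 2 = x - r / 2 := by ring
    have e5 : x + r / 2 - r = x - r / 2 := by ring
    have e6 : x - r / 2 + r = x + r / 2 := by ring
    rw [e1, e2, e3, e4, e5, e6]
    have i1 := intervalIntegral.integral_add_adjacent_intervals
      (hF (x - r / 2) (x + r / 2)) (hF (x + r / 2) (x + r / 2 + r))
    have i2 := intervalIntegral.integral_add_adjacent_intervals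
      (hF (x - r / 2 - r) (x - r / 2)) (hF (x - r / 2) (x + r / 2))
    rw [← i1, ← i2]
    field_simp
    ring
  set a1 := A F (x + r) (r / 2)
  set a2 := A F (x - r) (r / 2)
  set a3 := A F (x + r / 2) r
  set a4 := A F (x - r / 2) r
  have h1 : (F (x + r) - F (x - r)) / (2 * r) - (F (x + r / 2) - F (x - r / 2)) / r =
      ((a2 - F (x - r)) - (a1 - F (x + r))) / (2 * r) +
        ((a3 - F (x + r / 2)) - (a4 - F (x - r / 2))) / r := by
    have : ((a2 - F (x - r)) - (a1 - F (x + r))) / (2 * r) +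
        ((a3 - F (x + r / 2)) - (a4 - F (x - r / 2))) / r =
        (F (x + r) - F (x - r)) / (2 * r) - (F (x + r / 2) - F (x - r / 2)) / r +
        ((a3 - a4) / r - (a1 - a2) / (2 * r)) := by ring
    rw [this, hid, sub_self, add_zero]
  rw [h1]
  refine (abs_add_le _ _).trans (add_le_add ?_ ?_)
  · rw [abs_div, abs_of_pos (by positivity : 0 < 2 * r)]
    apply div_le_div_of_nonneg_right _ (by positivity)
    exact (norm_sub_le (a2 - F (x - r)) (a1 - F (x + r))).trans (by
      rw [Real.norm_eq_abs, Real.norm_eq_abs, add_comm])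
  · rw [abs_div, abs_of_pos hr]
    apply div_le_div_of_nonneg_right _ hr.le
    exact norm_sub_le (a3 - F (x + r / 2)) (a4 - F (x - r / 2))

end Pool.Agent.BV653
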