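import Pool.Agent.BV653.Defs
import Pool.Agent.BV653.C5
set_option autoImplicit false
open MeasureTheory Set Filter Topology
namespace Pool.Agent.BV653
/-- interval integrable on every interval -/
def zII (G : ℝ → ℝ) : Prop := ∀ a b, IntervalIntegrable G volume a b

theorem zII.add {G H : ℝ → ℝ} (hG : zII G) (hH : zII H) : zII (fun x => G x + H x) :=
  fun a b => (hG a b).add (hH a b)
theorem zII.sub {G H : ℝ → ℝ} (hG : zII G) (hH : zII H) : zII (fun x => G x - H x) :=
  fun a b => (hG a b).sub (hH a b)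
theorem zII.abs {G : ℝ → ℝ} (hG : zII G) : zII (fun x => |G x|) :=
  fun a b => (hG a b).abs
theorem zII.div {G : ℝ → ℝ} (hG : zII G) (c : ℝ) : zII (fun x => G x / c) :=
  fun a b => (hG a b).div_const c
theorem zII.shift {G : ℝ → ℝ} (hG : zII G) (c : ℝ) : zII (fun x => G (x + c)) := fun a b => by
  have := (hG (a + c) (b + c)).comp_add_right c
  simpa using this
theorem zII.shift' {G : ℝ → ℝ} (hG : zII G) (c : ℝ) : zII (fun x => G (x - c)) := by
  have := hG.shift (-c)
  simpa [sub_eq_add_neg] using this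

theorem zII.avg {F : ℝ → ℝ} (hF : zII F) (r : ℝ) : zII (fun x => A F x r) := by
  have hc : Continuous (fun b => ∫ t in (0:ℝ)..b, F t) := intervalIntegral.continuous_primitive hF 0
  have h : (fun x => A F x r) = fun x => (2 * r)⁻¹ *
      ((∫ t in (0:ℝ)..(x + r), F t) - ∫ t in (0:ℝ)..(x - r), F t) := by
    funext x
    unfold A
    rw [intervalIntegral.integral_interval_sub_left (hF _ _) (hF _ _)]
  rw [h]
  intro a b
  apply Continuous.intervalIntegrable
  have h1 : Continuous (fun x => ∫ t in (0:ℝ)..(x + r), F t) := hc.comp (by fun_prop)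
  have h2 : Continuous (fun x => ∫ t in (0:ℝ)..(x - r), F t) := hc.comp (by fun_prop)
  exact continuous_const.mul (h1.sub h2)

theorem z_meas (K₀ : Set ℝ) (δ : ℝ) : MeasurableSet {x | Metric.infDist x K₀ < δ} :=
  (isOpen_lt (Metric.continuous_infDist_pt K₀) continuous_const).measurableSet

theorem z_bdd {K₀ : Set ℝ} (hK₀ : IsCompact K₀) (hne : K₀.Nonempty) (δ : ℝ) :
    ∃ R, 0 ≤ R ∧ {x | Metric.infDist x K₀ < δ} ⊆ Icc (-R) R := by
  obtain ⟨R, hR⟩ := hK₀.isBounded.subset_closedBall 0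
  refine ⟨|R| + |δ|, by positivity, fun x hx => ?_⟩
  obtain ⟨y, hy, hxy⟩ := (Metric.infDist_lt_iff hne).1 hx
  have h1 := hR hy
  rw [Metric.mem_closedBall, Real.dist_eq, sub_zero] at h1
  rw [Real.dist_eq] at hxy
  have h2 : |x| ≤ |R| + |δ| := by
    have h3 : |x| ≤ |x - y| + |y| := by
      have := abs_add_le (x - y) y
      simpa using this
    have h4 := le_abs_self R
    have h5 := le_abs_self δ
    linarith
  exact abs_le.1 h2

theorem zII.on {G : ℝ → ℝ} (hG : zII G) {K₀ : Set ℝ} (hK₀ : IsCompact K₀) (hne : K₀.Nonempty)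
    (δ : ℝ) : IntegrableOn G {x | Metric.infDist x K₀ < δ} volume := by
  obtain ⟨R, hR0, hR⟩ := z_bdd hK₀ hne δ
  exact ((intervalIntegrable_iff_integrableOn_Icc_of_le (by linarith)).1 (hG (-R) R)).mono_set hR

theorem z_fin {K₀ : Set ℝ} (hK₀ : IsCompact K₀) (hne : K₀.Nonempty) (δ : ℝ) :
    volume {x | Metric.infDist x K₀ < δ} < ⊤ := by
  obtain ⟨R, hR0, hR⟩ := z_bdd hK₀ hne δ
  refine (measure_mono hR).trans_lt ?_
  rw [Real.volume_Icc]
  exact ENNReal.ofReal_lt_top

theorem z_shift {G : ℝ → ℝ} (hG : zII G) (h0 : ∀ x, 0 ≤ G x) {K₀ : Set ℝ} (hK₀ : IsCompact K₀)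
    (hne : K₀.Nonempty) (c δ δ' : ℝ) (hc : δ + |c| ≤ δ') :
    ∫ x in {x | Metric.infDist x K₀ < δ}, G (x + c) ≤
      ∫ x in {x | Metric.infDist x K₀ < δ'}, G x := by
  have h1 := (measurePreserving_add_right volume c).setIntegral_preimage_emb
    (measurableEmbedding_addRight c) G {x | Metric.infDist x K₀ < δ'}
  rw [← h1]
  apply setIntegral_mono_set
  · have : IntegrableOn (G ∘ fun x => x + c) ((fun x => x + c) ⁻¹' {x | Metric.infDist x K₀ < δ'})
        volume :=
      ((measurePreserving_add_right volume c).integrableOn_comp_preimage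
        (measurableEmbedding_addRight c)).2 (hG.on hK₀ hne δ')
    exact this
  · exact Filter.Eventually.of_forall fun x => h0 _
  · refine Filter.Eventually.of_forall fun x hx => ?_
    have hx' : Metric.infDist x K₀ < δ := hx
    change Metric.infDist (x + c) K₀ < δ'
    have h2 : Metric.infDist (x + c) K₀ ≤ Metric.infDist x K₀ + dist (x + c) x :=
      Metric.infDist_le_infDist_add_dist
    rw [Real.dist_eq, add_sub_cancel_left] at h2
    linarith

theorem z_step {F : ℝ → ℝ} (hF : zII F) {K₀ : Set ℝ} (hK₀ : IsCompact K₀)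
    (hne : K₀.Nonempty) (r δ : ℝ) (hr : 0 < r) (hδ : δ ≤ r / 2) :
    ∫ x in {x | Metric.infDist x K₀ < δ},
      |(F (x + r) - F (x - r)) / (2 * r) - (F (x + r / 2) - F (x - r / 2)) / (2 * (r / 2))| ≤
      (r / 2)⁻¹ * (∫ x in {x | Metric.infDist x K₀ < 8 * (r / 2)}, |A F x (r / 2) - F x|) +
      2 * (r⁻¹ * ∫ x in {x | Metric.infDist x K₀ < 8 * r}, |A F x r - F x|) := by
  have hD' : zII (fun x => |A F x (r / 2) - F x|) := ((hF.avg (r / 2)).sub hF).abs
  have hD : zII (fun x => |A F x r - F x|) := ((hF.avg r).sub hF).abs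
  have hr2 : 2 * (r / 2) = r := by ring
  have hab : |r| = r := abs_of_pos hr
  have hab2 : |r / 2| = r / 2 := abs_of_pos (by positivity)
  have i1 := z_shift hD' (fun x => abs_nonneg _) hK₀ hne r δ (8 * (r / 2)) (by rw [hab]; linarith)
  have i2 := z_shift hD' (fun x => abs_nonneg _) hK₀ hne (-r) δ (8 * (r / 2))
    (by rw [abs_neg, hab]; linarith)
  have i3 := z_shift hD (fun x => abs_nonneg _) hK₀ hne (r / 2) δ (8 * r)
    (by rw [hab2]; linarith)
  have i4 := z_shift hD (fun x => abs_nonneg _) hK₀ hne (-(r / 2)) δ (8 * r)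
    (by rw [abs_neg, hab2]; linarith)
  simp only [← sub_eq_add_neg] at i2 i4
  have hle : ∫ x in {x | Metric.infDist x K₀ < δ},
      |(F (x + r) - F (x - r)) / (2 * r) - (F (x + r / 2) - F (x - r / 2)) / (2 * (r / 2))| ≤
      ∫ x in {x | Metric.infDist x K₀ < δ},
      ((|A F (x + r) (r / 2) - F (x + r)| + |A F (x - r) (r / 2) - F (x - r)|) / (2 * r) +
      (|A F (x + r / 2) r - F (x + r / 2)| + |A F (x - r / 2) r - F (x - r / 2)|) / r) := by
    apply setIntegral_mono_on
    · exact (((((hF.shift r).sub (hF.shift' r)).div (2 * r)).sub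
        (((hF.shift (r / 2)).sub (hF.shift' (r / 2))).div (2 * (r / 2)))).abs).on hK₀ hne δ
    · exact ((((hD'.shift r).add (hD'.shift' r)).div (2 * r)).add
        (((hD.shift (r / 2)).add (hD.shift' (r / 2))).div r)).on hK₀ hne δ
    · exact z_meas K₀ δ
    · intro x _
      rw [hr2]
      exact C5b F hF x r hr
  have heq : ∫ x in {x | Metric.infDist x K₀ < δ},
      ((|A F (x + r) (r / 2) - F (x + r)| + |A F (x - r) (r / 2) - F (x - r)|) / (2 * r) +
      (|A F (x + r / 2) r - F (x + r / 2)| + |A F (x - r / 2) r - F (x - r / 2)|) / r)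
      = ((∫ x in {x | Metric.infDist x K₀ < δ}, |A F (x + r) (r / 2) - F (x + r)|) +
        ∫ x in {x | Metric.infDist x K₀ < δ}, |A F (x - r) (r / 2) - F (x - r)|) / (2 * r) +
        ((∫ x in {x | Metric.infDist x K₀ < δ}, |A F (x + r / 2) r - F (x + r / 2)|) +
        ∫ x in {x | Metric.infDist x K₀ < δ}, |A F (x - r / 2) r - F (x - r / 2)|) / r := by
    rw [integral_add, integral_div, integral_div, integral_add, integral_add]
    · exact (hD.shift (r / 2)).on hK₀ hne δ
    · exact (hD.shift' (r / 2)).on hK₀ hne δ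
    · exact (hD'.shift r).on hK₀ hne δ
    · exact (hD'.shift' r).on hK₀ hne δ
    · exact (((hD'.shift r).add (hD'.shift' r)).div (2 * r)).on hK₀ hne δ
    · exact (((hD.shift (r / 2)).add (hD.shift' (r / 2))).div r).on hK₀ hne δ
  rw [heq] at hle
  refine hle.trans ?_
  set I1 := ∫ x in {x | Metric.infDist x K₀ < 8 * (r / 2)}, |A F x (r / 2) - F x| with hI1
  set I2 := ∫ x in {x | Metric.infDist x K₀ < 8 * r}, |A F x r - F x| with hI2
  have hI1' : 0 ≤ I1 := setIntegral_nonneg (z_meas _ _) fun x _ => abs_nonneg _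
  have j1 := add_le_add i1 i2
  have j2 := add_le_add i3 i4
  have k1 := div_le_div_of_nonneg_right j1 (show 0 ≤ 2 * r by positivity)
  have k2 := div_le_div_of_nonneg_right j2 hr.le
  refine (add_le_add k1 k2).trans ?_
  have e1 : (I1 + I1) / (2 * r) = I1 / r := by field_simp; ring
  have e2 : (r / 2)⁻¹ * I1 = 2 * (I1 / r) := by field_simp
  have e3 : (I2 + I2) / r = 2 * (r⁻¹ * I2) := by field_simp; ring
  rw [e1, e2, e3]
  have : 0 ≤ I1 / r := div_nonneg hI1' hr.le
  linarith

theorem z_fub (μ : Measure ℝ) [IsFiniteMeasure μ] (Z : Set ℝ) (hZ : MeasurableSet Z) (r : ℝ) :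
    ∫⁻ x in Z, μ (Icc (x - r) (x + r)) = ∫⁻ y, volume (Z ∩ Icc (y - r) (y + r)) ∂μ := by
  have hS : MeasurableSet {p : ℝ × ℝ | p.1 - r ≤ p.2 ∧ p.2 ≤ p.1 + r} :=
    (measurableSet_le (measurable_fst.sub_const r) measurable_snd).inter
      (measurableSet_le measurable_snd (measurable_fst.add_const r))
  have h1 : ∀ x, μ (Icc (x - r) (x + r)) = ∫⁻ y, ({p : ℝ × ℝ | p.1 - r ≤ p.2 ∧
      p.2 ≤ p.1 + r}.indicator (fun _ => (1 : ENNReal))) (x, y) ∂μ := by
    intro x
    have : (fun y => ({p : ℝ × ℝ | p.1 - r ≤ p.2 ∧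
      p.2 ≤ p.1 + r}.indicator (fun _ => (1 : ENNReal))) (x, y))
        = (Icc (x - r) (x + r)).indicator (fun _ => 1) := by
      funext y; rfl
    rw [this, lintegral_indicator measurableSet_Icc, lintegral_const, one_mul,
      Measure.restrict_apply_univ]
  have h2 : ∀ y, volume (Z ∩ Icc (y - r) (y + r)) = ∫⁻ x in Z, ({p : ℝ × ℝ | p.1 - r ≤ p.2 ∧
      p.2 ≤ p.1 + r}.indicator (fun _ => (1 : ENNReal))) (x, y) := by
    intro y
    have : (fun x => ({p : ℝ × ℝ | p.1 - r ≤ p.2 ∧
      p.2 ≤ p.1 + r}.indicator (fun _ => (1 : ENNReal))) (x, y))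
        = (Icc (y - r) (y + r)).indicator (fun _ => 1) := by
      funext x
      by_cases h : x ∈ Icc (y - r) (y + r)
      · rw [Set.indicator_of_mem h, Set.indicator_of_mem]
        exact ⟨by linarith [h.2], by linarith [h.1]⟩
      · rw [Set.indicator_of_notMem h, Set.indicator_of_notMem]
        intro h'
        exact h ⟨by linarith [h'.2], by linarith [h'.1]⟩
    rw [this, lintegral_indicator measurableSet_Icc, lintegral_const, one_mul,
      Measure.restrict_apply_univ, Measure.restrict_apply measurableSet_Icc, Set.inter_comm]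
  simp_rw [h1, h2]
  rw [lintegral_lintegral_swap]
  exact (measurable_const.indicator hS).aemeasurable

theorem z_low (μ : Measure ℝ) [IsFiniteMeasure μ] {K₀ : Set ℝ} (hK₀ : IsCompact K₀) (r : ℝ)
    (hr : 0 < r) :
    ENNReal.ofReal (2 * r) * μ K₀ ≤
      ∫⁻ x in {x | Metric.infDist x K₀ < r}, μ (Icc (x - r) (x + r)) := by
  rw [z_fub μ _ (z_meas K₀ r)]
  calc ENNReal.ofReal (2 * r) * μ K₀ = ∫⁻ y in K₀, ENNReal.ofReal (2 * r) ∂μ := by
        rw [lintegral_const, Measure.restrict_apply_univ]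
    _ ≤ ∫⁻ y in K₀, volume ({x | Metric.infDist x K₀ < r} ∩ Icc (y - r) (y + r)) ∂μ := by
        apply setLIntegral_mono' hK₀.measurableSet
        intro y hy
        have : Ioo (y - r) (y + r) ⊆ {x | Metric.infDist x K₀ < r} ∩ Icc (y - r) (y + r) := by
          intro x hx
          refine ⟨?_, Ioo_subset_Icc_self hx⟩
          change Metric.infDist x K₀ < r
          refine (Metric.infDist_le_dist_of_mem hy).trans_lt ?_
          rw [Real.dist_eq, abs_lt]
          constructor <;> linarith [hx.1, hx.2]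
        refine le_trans (le_of_eq ?_) (measure_mono this)
        rw [Real.volume_Ioo]
        congr 1; ring
    _ ≤ _ := setLIntegral_le_lintegral _ _

theorem z_up (μ : Measure ℝ) [IsFiniteMeasure μ] {K₀ : Set ℝ} (r : ℝ)
    (hr : 0 < r) :
    ∫⁻ x in {x | Metric.infDist x K₀ < r}, μ (Icc (x - r) (x + r)) ≤
      ENNReal.ofReal (2 * r) * μ {x | Metric.infDist x K₀ < 2 * r} := by
  rw [z_fub μ _ (z_meas K₀ r)]
  calc ∫⁻ y, volume ({x | Metric.infDist x K₀ < r} ∩ Icc (y - r) (y + r)) ∂μ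
      ≤ ∫⁻ y, {x | Metric.infDist x K₀ < 2 * r}.indicator (fun _ => ENNReal.ofReal (2 * r)) y ∂μ := by
        apply lintegral_mono
        intro y
        by_cases hy : y ∈ {x | Metric.infDist x K₀ < 2 * r}
        · simp only [Set.indicator_of_mem hy]
          refine (measure_mono Set.inter_subset_right).trans ?_
          rw [Real.volume_Icc]
          apply le_of_eq
          congr 1; ring
        · simp only [Set.indicator_of_notMem hy]
          have : {x | Metric.infDist x K₀ < r} ∩ Icc (y - r) (y + r) = ∅ := by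
            rw [Set.eq_empty_iff_forall_notMem]
            rintro x ⟨hx, hx'⟩
            apply hy
            change Metric.infDist y K₀ < 2 * r
            have hx0 : Metric.infDist x K₀ < r := hx
            have h2 : Metric.infDist y K₀ ≤ Metric.infDist x K₀ + dist y x :=
              Metric.infDist_le_infDist_add_dist
            have h3 : dist y x ≤ r := by
              rw [Real.dist_eq, abs_le]
              constructor <;> linarith [hx'.1, hx'.2]
            linarith
          rw [this, measure_empty]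
    _ = _ := by
        rw [lintegral_indicator (z_meas _ _), lintegral_const, Measure.restrict_apply_univ]

theorem z_measIcc (μ : Measure ℝ) [IsFiniteMeasure μ] (r : ℝ) :
    Measurable (fun x => μ (Icc (x - r) (x + r))) := by
  have hS : MeasurableSet {p : ℝ × ℝ | p.1 - r ≤ p.2 ∧ p.2 ≤ p.1 + r} :=
    (measurableSet_le (measurable_fst.sub_const r) measurable_snd).inter
      (measurableSet_le measurable_snd (measurable_fst.add_const r))
  exact measurable_measure_prodMk_left hS

theorem z_intIcc (μ : Measure ℝ) [IsFiniteMeasure μ] {K₀ : Set ℝ} (hK₀ : IsCompact K₀)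
    (hne : K₀.Nonempty) (r δ : ℝ) :
    IntegrableOn (fun x => (μ (Icc (x - r) (x + r))).toReal) {x | Metric.infDist x K₀ < δ}
      volume := by
  apply Measure.integrableOn_of_bounded (M := (μ univ).toReal) (z_fin hK₀ hne δ).ne
  · exact (z_measIcc μ r).ennreal_toReal.aestronglyMeasurable
  · refine Filter.Eventually.of_forall fun x => ?_
    rw [Real.norm_eq_abs, abs_of_nonneg ENNReal.toReal_nonneg]
    exact ENNReal.toReal_mono (measure_ne_top _ _) (measure_mono (subset_univ _))

theorem z_lowR (μ : Measure ℝ) [IsFiniteMeasure μ] {K₀ : Set ℝ} (hK₀ : IsCompact K₀)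
    (hne : K₀.Nonempty) (r : ℝ) (hr : 0 < r) :
    2 * r * (μ K₀).toReal ≤
      ∫ x in {x | Metric.infDist x K₀ < r}, (μ (Icc (x - r) (x + r))).toReal := by
  rw [integral_toReal (z_measIcc μ r).aemeasurable
    (Filter.Eventually.of_forall fun x => measure_lt_top _ _)]
  have h1 := z_low μ hK₀ r hr
  have h2 := z_up μ (K₀ := K₀) r hr
  have h3 : ∫⁻ x in {x | Metric.infDist x K₀ < r}, μ (Icc (x - r) (x + r)) ≠ ⊤ :=
    (h2.trans_lt (ENNReal.mul_lt_top ENNReal.ofReal_lt_top (measure_lt_top _ _))).ne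
  have h4 := ENNReal.toReal_mono h3 h1
  rwa [ENNReal.toReal_mul, ENNReal.toReal_ofReal (by positivity)] at h4

theorem z_upR (μ : Measure ℝ) [IsFiniteMeasure μ] {K₀ : Set ℝ} (r : ℝ) (hr : 0 < r) :
    ∫ x in {x | Metric.infDist x K₀ < r}, (μ (Icc (x - r) (x + r))).toReal ≤
      2 * r * (μ {x | Metric.infDist x K₀ < 2 * r}).toReal := by
  rw [integral_toReal (z_measIcc μ r).aemeasurable
    (Filter.Eventually.of_forall fun x => measure_lt_top _ _)]
  have h2 := z_up μ (K₀ := K₀) r hr
  have h3 : ENNReal.ofReal (2 * r) * μ {x | Metric.infDist x K₀ < 2 * r} ≠ ⊤ :=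
    (ENNReal.mul_lt_top ENNReal.ofReal_lt_top (measure_lt_top _ _)).ne
  have h4 := ENNReal.toReal_mono h3 h2
  rwa [ENNReal.toReal_mul, ENNReal.toReal_ofReal (by positivity)] at h4

theorem z_lower {F : ℝ → ℝ} (hF : zII F) (κ n : Measure ℝ) [IsFiniteMeasure κ]
    [IsFiniteMeasure n]
    (hlo : ∀ x y, x ≤ y → (κ (Icc x y)).toReal - (n (Icc x y)).toReal ≤ F y - F x)
    {K₀ : Set ℝ} (hK₀ : IsCompact K₀) (hne : K₀.Nonempty) (r : ℝ) (hr : 0 < r) :
    (κ K₀).toReal - (n {x | Metric.infDist x K₀ < 2 * r}).toReal ≤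
      ∫ x in {x | Metric.infDist x K₀ < r}, (F (x + r) - F (x - r)) / (2 * r) := by
  have h1 := z_lowR κ hK₀ hne r hr
  have h2 := z_upR n (K₀ := K₀) r hr
  have h3 : ∫ x in {x | Metric.infDist x K₀ < r},
      ((κ (Icc (x - r) (x + r))).toReal - (n (Icc (x - r) (x + r))).toReal) / (2 * r) ≤
      ∫ x in {x | Metric.infDist x K₀ < r}, (F (x + r) - F (x - r)) / (2 * r) := by
    apply setIntegral_mono_on
    · exact ((z_intIcc κ hK₀ hne r r).sub (z_intIcc n hK₀ hne r r)).div_const _
    · exact (((hF.shift r).sub (hF.shift' r)).div (2 * r)).on hK₀ hne r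
    · exact z_meas K₀ r
    · intro x _
      apply div_le_div_of_nonneg_right _ (by positivity)
      exact hlo _ _ (by linarith)
  refine le_trans ?_ h3
  rw [integral_div, integral_sub (z_intIcc κ hK₀ hne r r) (z_intIcc n hK₀ hne r r),
    le_div_iff₀ (by positivity)]
  linarith

/-- finite total asymmetry forces absolute continuity on `K₀` -/
theorem C6 (F : ℝ → ℝ) (hF : ∀ a b, IntervalIntegrable F volume a b)
    (κ n : Measure ℝ) [IsFiniteMeasure κ] [IsFiniteMeasure n]
    (hup : ∀ x y, x ≤ y → F y - F x ≤ (κ (Icc x y)).toReal + (n (Icc x y)).toReal)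
    (hlo : ∀ x y, x ≤ y → (κ (Icc x y)).toReal - (n (Icc x y)).toReal ≤ F y - F x)
    (K₀ : Set ℝ) (hK₀ : IsCompact K₀) (hne : K₀.Nonempty) (hv : volume K₀ = 0) (hn : n K₀ = 0)
    (r₀ : ℝ) (hr₀ : 0 < r₀) (B : ℝ) (hB : ∀ N : ℕ, ∑ k ∈ Finset.range N, (r₀ / 2 ^ k)⁻¹ *
      ∫ x in {x | Metric.infDist x K₀ < 8 * (r₀ / 2 ^ k)}, |A F x (r₀ / 2 ^ k) - F x| ≤ B) :
    κ K₀ = 0 := by
  have hF' : zII F := hF
  set rr : ℕ → ℝ := fun k => r₀ / 2 ^ k with hrr
  have hrr0 : ∀ k, 0 < rr k := fun k => by rw [hrr]; positivity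
  have hrr2 : ∀ k, rr (k + 1) = rr k / 2 := fun k => by
    simp only [hrr, pow_succ]; field_simp
  have hanti : Antitone rr := by
    refine antitone_nat_of_succ_le fun k => ?_
    rw [hrr2]; linarith [hrr0 k]
  have hlim : Tendsto rr atTop (𝓝 0) := by
    have h1 : Tendsto (fun k : ℕ => r₀ * (1 / 2 : ℝ) ^ k) atTop (𝓝 (r₀ * 0)) :=
      (tendsto_pow_atTop_nhds_zero_of_lt_one (by norm_num) (by norm_num)).const_mul r₀
    rw [mul_zero] at h1
    refine h1.congr fun k => ?_
    simp only [hrr, one_div, inv_pow]; rw [div_eq_mul_inv]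
  set b : ℕ → ℝ := fun k => (rr k)⁻¹ *
    ∫ x in {x | Metric.infDist x K₀ < 8 * rr k}, |A F x (rr k) - F x| with hb
  have hb0 : ∀ k, 0 ≤ b k := fun k => mul_nonneg (inv_nonneg.2 (hrr0 k).le)
    (setIntegral_nonneg (z_meas _ _) fun x _ => abs_nonneg _)
  have hbs : ∀ N : ℕ, ∑ k ∈ Finset.range N, b k ≤ B := hB
  have hsum : Summable b := summable_of_sum_range_le hb0 hbs
  set ρ : ℕ → ℝ → ℝ := fun k x => (F (x + rr k) - F (x - rr k)) / (2 * rr k) with hρ
  have hρI : ∀ k, zII (ρ k) := fun k => ((hF'.shift (rr k)).sub (hF'.shift' (rr k))).div _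
  have hstep : ∀ N k, k + 1 ≤ N → ∫ x in {x | Metric.infDist x K₀ < rr N},
      |ρ k x - ρ (k + 1) x| ≤ b (k + 1) + 2 * b k := by
    intro N k hk
    have h1 : rr N ≤ rr k / 2 := by rw [← hrr2]; exact hanti hk
    have h2 := z_step hF' hK₀ hne (rr k) (rr N) (hrr0 k) h1
    simp only [hb, hρ, hrr2]
    exact h2
  have htele : ∀ N k2 j, k2 ≤ j → j ≤ N → ∫ x in {x | Metric.infDist x K₀ < rr N},
      |ρ j x - ρ k2 x| ≤ ∑ k ∈ Finset.Ico k2 j, (b (k + 1) + 2 * b k) := by
    intro N k2 j hj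
    induction j, hj using Nat.le_induction with
    | base => intro _; simp
    | succ j hj ih =>
      intro hjN
      rw [Finset.sum_Ico_succ_top hj]
      have h1 := ih (by omega)
      have h2 := hstep N j hjN
      refine le_trans ?_ (add_le_add h1 h2)
      rw [← integral_add (((hρI j).sub (hρI k2)).abs.on hK₀ hne _)
        (((hρI j).sub (hρI (j + 1))).abs.on hK₀ hne _)]
      apply setIntegral_mono_on
      · exact ((hρI (j + 1)).sub (hρI k2)).abs.on hK₀ hne _
      · exact ((((hρI j).sub (hρI k2)).abs).add ((hρI j).sub (hρI (j + 1))).abs).on hK₀ hne _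
      · exact z_meas _ _
      · intro x _
        have := abs_sub_abs_le_abs_sub (ρ (j + 1) x - ρ k2 x) (ρ j x - ρ k2 x)
        have e : (ρ (j + 1) x - ρ k2 x) - (ρ j x - ρ k2 x) = -(ρ j x - ρ (j + 1) x) := by ring
        rw [e, abs_neg] at this
        linarith
  set m : ℝ := (κ univ).toReal + (n univ).toReal with hm
  have hm0 : 0 ≤ m := add_nonneg ENNReal.toReal_nonneg ENNReal.toReal_nonneg
  have hρb : ∀ k x, ρ k x ≤ m / (2 * rr k) := by
    intro k x
    simp only [hρ]
    apply div_le_div_of_nonneg_right _ (by have := hrr0 k; positivity)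
    refine (hup _ _ (by linarith [hrr0 k])).trans ?_
    exact add_le_add (ENNReal.toReal_mono (measure_ne_top _ _) (measure_mono (subset_univ _)))
      (ENNReal.toReal_mono (measure_ne_top _ _) (measure_mono (subset_univ _)))
  set tl : ℕ → ℝ := fun k2 => (∑' k, b k) - ∑ k ∈ Finset.range k2, b k with htl
  have htail : ∀ k2 N, k2 ≤ N → ∑ k ∈ Finset.Ico k2 N, (b (k + 1) + 2 * b k) ≤ 3 * tl k2 := by
    intro k2 N hk
    have h1 : ∀ M, k2 ≤ M → ∑ k ∈ Finset.Ico k2 M, b k ≤ tl k2 := by
      intro M hM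
      have h2 : ∑ k ∈ Finset.range M, b k ≤ ∑' k, b k :=
        hsum.sum_le_tsum _ fun k _ => hb0 k
      rw [Finset.sum_Ico_eq_sub _ hM]
      simp only [htl]
      linarith
    rw [Finset.sum_add_distrib, ← Finset.mul_sum]
    have h3 := h1 N hk
    have h4 : ∑ k ∈ Finset.Ico k2 N, b (k + 1) ≤ tl k2 := by
      refine le_trans ?_ (h1 (N + 1) (by omega))
      rw [Finset.sum_Ico_add' b k2 N 1]
      apply Finset.sum_le_sum_of_subset_of_nonneg
      · intro k hk'
        rw [Finset.mem_Ico] at hk' ⊢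
        omega
      · intro k _ _
        exact hb0 k
    linarith
  have hmain : ∀ k2 N, k2 ≤ N → (κ K₀).toReal ≤
      (n {x | Metric.infDist x K₀ < 2 * rr N}).toReal +
      (volume {x | Metric.infDist x K₀ < rr N}).toReal * (m / (2 * rr k2)) + 3 * tl k2 := by
    intro k2 N hk
    have h1 := z_lower hF' κ n hlo hK₀ hne (rr N) (hrr0 N)
    have h2 : ∫ x in {x | Metric.infDist x K₀ < rr N}, ρ N x ≤
        (∫ x in {x | Metric.infDist x K₀ < rr N}, |ρ N x - ρ k2 x|) +
        ∫ x in {x | Metric.infDist x K₀ < rr N}, m / (2 * rr k2) := by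
      rw [← integral_add (((hρI N).sub (hρI k2)).abs.on hK₀ hne _)
        (integrableOn_const (z_fin hK₀ hne _).ne)]
      apply setIntegral_mono_on
      · exact (hρI N).on hK₀ hne _
      · exact (((hρI N).sub (hρI k2)).abs.on hK₀ hne _).add
          (integrableOn_const (z_fin hK₀ hne _).ne)
      · exact z_meas _ _
      · intro x _
        have := hρb k2 x
        have := le_abs_self (ρ N x - ρ k2 x)
        linarith
    have h3 := (htele N k2 N hk le_rfl).trans (htail k2 N hk)
    have h4 : ∫ x in {x | Metric.infDist x K₀ < rr N}, m / (2 * rr k2) =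
        (volume {x | Metric.infDist x K₀ < rr N}).toReal * (m / (2 * rr k2)) := by
      rw [setIntegral_const, smul_eq_mul]; rfl
    rw [h4] at h2
    have h5 : ∫ x in {x | Metric.infDist x K₀ < rr N}, ρ N x =
      ∫ x in {x | Metric.infDist x K₀ < rr N}, (F (x + rr N) - F (x - rr N)) / (2 * rr N) := rfl
    rw [h5] at h2
    linarith
  have hthick : ∀ δ : ℝ, {x | Metric.infDist x K₀ < δ} = Metric.thickening δ K₀ := by
    intro δ
    ext x
    rw [Metric.mem_thickening_iff]
    exact Metric.infDist_lt_iff hne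
  have hlimN : ∀ (μ : Measure ℝ) (c : ℝ) (_ : 0 < c) (_ : μ K₀ = 0)
      (_ : μ (Metric.thickening 1 K₀) ≠ ⊤),
      Tendsto (fun N => (μ {x | Metric.infDist x K₀ < c * rr N}).toReal) atTop (𝓝 0) := by
    intro μ c hc h0 hfin
    have h1 := tendsto_measure_thickening_of_isClosed (μ := μ) ⟨1, one_pos, hfin⟩
      hK₀.isClosed
    rw [h0] at h1
    have h2 : Tendsto (fun N => c * rr N) atTop (𝓝[>] 0) := by
      rw [tendsto_nhdsWithin_iff]
      refine ⟨by simpa using hlim.const_mul c, Filter.Eventually.of_forall fun N => ?_⟩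
      exact mul_pos hc (hrr0 N)
    have h3 := (ENNReal.tendsto_toReal ENNReal.zero_ne_top).comp (h1.comp h2)
    rw [ENNReal.toReal_zero] at h3
    refine h3.congr fun N => ?_
    simp only [Function.comp]
    rw [hthick]
  have hkey : ∀ k2, (κ K₀).toReal ≤ 3 * tl k2 := by
    intro k2
    have h1 := hlimN n 2 (by norm_num) hn (measure_ne_top _ _)
    have h2 := hlimN volume 1 one_pos hv (by rw [← hthick]; exact (z_fin hK₀ hne 1).ne)
    simp only [one_mul] at h2
    have h3 : Tendsto (fun N => (n {x | Metric.infDist x K₀ < 2 * rr N}).toReal +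
      (volume {x | Metric.infDist x K₀ < rr N}).toReal * (m / (2 * rr k2)) + 3 * tl k2) atTop
      (𝓝 (0 + 0 * (m / (2 * rr k2)) + 3 * tl k2)) :=
      (h1.add (h2.mul_const _)).add_const _
    rw [zero_mul, zero_add, zero_add] at h3
    refine ge_of_tendsto h3 ?_
    filter_upwards [eventually_ge_atTop k2] with N hN
    exact hmain k2 N hN
  have hfinal : (κ K₀).toReal ≤ 0 := by
    have h1 : Tendsto (fun k2 => 3 * tl k2) atTop (𝓝 (3 * ((∑' k, b k) - ∑' k, b k))) :=
      (tendsto_const_nhds.sub hsum.hasSum.tendsto_sum_nat).const_mul 3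
    rw [sub_self, mul_zero] at h1
    exact ge_of_tendsto' h1 hkey
  have h0 : (κ K₀).toReal = 0 := le_antisymm hfinal ENNReal.toReal_nonneg
  exact (ENNReal.toReal_eq_zero_iff _).1 h0 |>.resolve_right (measure_ne_top _ _)

end Pool.Agent.BV653
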