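import Pool.Agent.BV653.Defs
import Pool.Agent.BV653.C4
import Pool.Agent.BV653.C5
import Pool.Agent.BV653.C6
set_option autoImplicit false
open MeasureTheory Set Filter Topology
namespace Pool.Agent.BV653
/-- no singular continuous increasing part sits on a null contact set -/
theorem lemmaC (F : ℝ → ℝ) (hF : ∀ a b, IntervalIntegrable F volume a b) (K : Set ℝ)
    (hK : IsCompact K) (hK0 : volume K = 0) (κ n : Measure ℝ) [IsFiniteMeasure κ]
    [IsFiniteMeasure n] (hκK : κ Kᶜ = 0) (hnK : n K = 0) (hκa : ∀ x, κ {x} = 0)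
    (hup : ∀ x y, x ≤ y → F y - F x ≤ (κ (Icc x y)).toReal + (n (Icc x y)).toReal)
    (hlo : ∀ x y, x ≤ y → (κ (Icc x y)).toReal - (n (Icc x y)).toReal ≤ F y - F x)
    (hcon : ∀ q ∈ K, ∀ r > 0, A F q r ≤ F q) : κ = 0 := by
  by_contra hκ
  obtain ⟨K₀, hsub, hK₀, hpos, ρ₁, hρ₁, hη⟩ := C5 K hK κ n hκK hnK hκ (1 / 2 ^ 20) (by positivity)
  have hne : K₀.Nonempty := by
    rw [Set.nonempty_iff_ne_empty]
    rintro rfl
    simp at hpos
  obtain ⟨r₀, hr₀, B, hB⟩ := C3 F hF K hK hK0 κ n hκK hnK hκa hup hlo hcon K₀ hK₀ hne ρ₁ hρ₁ hη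
  have hv : volume K₀ = 0 := measure_mono_null hsub hK0
  have hn : n K₀ = 0 := measure_mono_null hsub hnK
  exact hpos.ne' (C6 F hF κ n hup hlo K₀ hK₀ hne hv hn r₀ hr₀ B hB)

end Pool.Agent.BV653
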