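import Mathlib
set_option autoImplicit false
open MeasureTheory Set Filter Topology
namespace Pool.Agent.BV653

/-- centred average of `f` over `[x-r, x+r]` -/
noncomputable def A (f : ℝ → ℝ) (x r : ℝ) : ℝ := (2 * r)⁻¹ * ∫ t in (x - r)..(x + r), f t

/-- total fall of `f` along any monotone sample in `s` is at most `c` -/
def FallsLE (f : ℝ → ℝ) (s : Set ℝ) (c : ℝ) : Prop :=
  ∀ (n : ℕ) (x : ℕ → ℝ), Monotone x → (∀ i, x i ∈ s) →
    ∑ i ∈ Finset.range n, max (f (x i) - f (x (i + 1))) 0 ≤ c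

/-- total rise of `f` along any monotone sample in `s` is at most `c` -/
def RisesLE (f : ℝ → ℝ) (s : Set ℝ) (c : ℝ) : Prop :=
  ∀ (n : ℕ) (x : ℕ → ℝ), Monotone x → (∀ i, x i ∈ s) →
    ∑ i ∈ Finset.range n, max (f (x (i + 1)) - f (x i)) 0 ≤ c

/-- centred maximal function (of a not necessarily nonnegative function) -/
noncomputable def M (u : ℝ → ℝ) (x : ℝ) : ℝ := ⨆ r : Set.Ioi (0 : ℝ), A u x r

/-- maximal function with radii `≥ δ` -/
noncomputable def HH (δ : ℝ) (u : ℝ → ℝ) (x : ℝ) : ℝ := ⨆ r : Set.Ici δ, A u x r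

/-- maximal function with radii `< δ` -/
noncomputable def MM (δ : ℝ) (u : ℝ → ℝ) (x : ℝ) : ℝ := ⨆ r : Set.Ioo (0 : ℝ) δ, A u x r

/-- family of windows `(centre, radius)` closed under passing to sub-windows -/
def Hereditary (W : Set (ℝ × ℝ)) : Prop :=
  ∀ x r x' r' : ℝ, (x, r) ∈ W → 0 < r' → x - r ≤ x' - r' → x' + r' ≤ x + r → (x', r') ∈ W

/-- levels at which `t` is the leftmost top of a bounded run above the level, all `φ` along the
run being at most the level -/
def Lam (n : ℕ) (g φ : ℕ → ℝ) (t : ℕ) : Set ℝ :=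
  {l | l < g t ∧ ∃ a b : ℕ, a < t ∧ t < b ∧ b ≤ n ∧ g a ≤ l ∧ g b ≤ l ∧
    (∀ i, a < i → i < b → l < g i) ∧ (∀ i, a < i → i < t → g i < g t) ∧
    (∀ i, t < i → i < b → g i ≤ g t) ∧ (∀ i, a < i → i ≤ b → φ i ≤ l)}

open Classical in
/-- contribution of a valley `(s,[p,q],t)` with parameter `θ` to the cut given by the upper set `U` -/
noncomputable def cutS (θ s p q t : ℝ) (U : Set ℝ) : ℝ :=
  if s ∉ U ∧ t ∈ U then θ - (1 - (volume (U ∩ Icc p q)).toReal / (q - p)) else 0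

/-- `min (distance from x to the next point of K on the right) r` -/
noncomputable def gapR (K : Set ℝ) (r x : ℝ) : ℝ := sInf (insert r {z | 0 ≤ z ∧ x + z ∈ K})

end Pool.Agent.BV653
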