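import Pool.Agent.BV653.Defs
set_option autoImplicit false
open MeasureTheory Set Filter Topology
namespace Pool.Agent.BV653
theorem TL_fin (μ : SignedMeasure ℝ) (F : Set ℝ) (hF : F.Finite) (h : ∀ x ∈ F, μ {x} = 0) :
    μ F = 0 := by
  induction F, hF using Set.Finite.induction_on with
  | empty => exact μ.empty
  | @insert x s hx hs ih =>
    have h1 : μ (insert x s) = μ {x} + μ s := by
      rw [Set.insert_eq]
      exact VectorMeasure.of_union (by rw [Set.disjoint_singleton_left]; exact hx)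
        (measurableSet_singleton x) hs.measurableSet
    rw [h1, h x (Set.mem_insert _ _), ih (fun y hy => h y (Set.mem_insert_of_mem _ hy)), add_zero]

theorem TL_eps (μ : SignedMeasure ℝ) (f : ℝ → ℝ) (K : Set ℝ) (hK : IsCompact K)
    (L : ℝ) (hL : 0 ≤ L) (hf : ∀ x ∈ K, ∀ y ∈ K, x ≤ y → μ (Icc x y) = f y - f x)
    (hLip : ∀ x ∈ K, ∀ y ∈ K, |f y - f x| ≤ L * |y - x|) (ρ : ℝ) (hρ : 0 < ρ) :
    ∃ V : Set ℝ, MeasurableSet V ∧ V ⊆ Metric.cthickening ρ K ∧ (K \ V).Finite ∧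
      |μ V| ≤ L * (volume V).toReal := by
  classical
  obtain ⟨R, hR⟩ := hK.isBounded.subset_closedBall (0 : ℝ)
  obtain ⟨N, hN⟩ := exists_int_gt (R / ρ)
  obtain ⟨S, hS⟩ : ∃ S : Finset ℤ, ∀ m, m ∈ S ↔ m ∈ Finset.Icc (-N) N ∧
      (K ∩ Icc ((m : ℝ) * ρ) (((m : ℝ) + 1) * ρ)).Nonempty :=
    ⟨(Finset.Icc (-N) N).filter (fun m : ℤ =>
      (K ∩ Icc ((m : ℝ) * ρ) (((m : ℝ) + 1) * ρ)).Nonempty), fun m => Finset.mem_filter⟩
  have hab : ∀ m : ℤ, ∃ a b : ℝ, m ∈ S → (a ∈ K ∧ b ∈ K ∧ (m : ℝ) * ρ ≤ a ∧ a ≤ b ∧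
      b ≤ ((m : ℝ) + 1) * ρ ∧ K ∩ Icc ((m : ℝ) * ρ) (((m : ℝ) + 1) * ρ) ⊆ Icc a b) := by
    intro m
    by_cases hm : m ∈ S
    · have hne := ((hS m).1 hm).2
      have hc : IsCompact (K ∩ Icc ((m : ℝ) * ρ) (((m : ℝ) + 1) * ρ)) := hK.inter_right isClosed_Icc
      obtain ⟨a, ha⟩ := hc.exists_isLeast hne
      obtain ⟨b, hb⟩ := hc.exists_isGreatest hne
      refine ⟨a, b, fun _ => ⟨ha.1.1, hb.1.1, ha.1.2.1, ha.2 hb.1, hb.1.2.2, ?_⟩⟩
      intro x hx
      exact ⟨ha.2 hx, hb.2 hx⟩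
    · exact ⟨0, 0, fun h => absurd h hm⟩
  choose a b hab using hab
  have hsing : ∀ x ∈ K, μ {x} = 0 := by
    intro x hx
    have h1 := hf x hx x hx le_rfl
    rwa [Icc_self, sub_self] at h1
  have hJ : ∀ m ∈ S, μ (Ioc (a m) (b m)) = f (b m) - f (a m) := by
    intro m hm
    obtain ⟨h1, h2, h3, h4, h5, h6⟩ := hab m hm
    rw [← hf _ h1 _ h2 h4]
    have h7 : Icc (a m) (b m) = {a m} ∪ Ioc (a m) (b m) := by
      ext x
      simp only [Set.mem_Icc, Set.mem_union, Set.mem_singleton_iff, Set.mem_Ioc]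
      constructor
      · rintro ⟨h8, h9⟩
        rcases eq_or_lt_of_le h8 with h10 | h10
        · exact Or.inl h10.symm
        · exact Or.inr ⟨h10, h9⟩
      · rintro (h8 | h8)
        · rw [h8]; exact ⟨le_rfl, h4⟩
        · exact ⟨h8.1.le, h8.2⟩
    rw [h7, VectorMeasure.of_union _ (measurableSet_singleton _) measurableSet_Ioc, hsing _ h1,
      zero_add]
    rw [Set.disjoint_singleton_left]
    exact fun h => lt_irrefl _ h.1
  have hdisj : Set.PairwiseDisjoint (↑S : Set ℤ) (fun m => Ioc (a m) (b m)) := by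
    have key : ∀ m ∈ S, ∀ m' ∈ S, m < m' → Disjoint (Ioc (a m) (b m)) (Ioc (a m') (b m')) := by
      intro m hm m' hm' hlt
      obtain ⟨_, _, h3, _, h5, _⟩ := hab m hm
      obtain ⟨_, _, h3', _, h5', _⟩ := hab m' hm'
      rw [Set.disjoint_left]
      intro x hx hx'
      have h6 : ((m : ℝ) + 1) ≤ m' := by exact_mod_cast hlt
      have h7 : ((m : ℝ) + 1) * ρ ≤ m' * ρ := mul_le_mul_of_nonneg_right h6 hρ.le
      have h8 := hx.2
      have h9 := hx'.1
      linarith
    intro m hm m' hm' hne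
    rcases lt_or_gt_of_ne hne with h | h
    · exact key m hm m' hm' h
    · exact (key m' hm' m hm h).symm
  refine ⟨⋃ m ∈ S, Ioc (a m) (b m), ?_, ?_, ?_, ?_⟩
  · exact Finset.measurableSet_biUnion S fun m _ => measurableSet_Ioc
  · intro x hx
    simp only [Set.mem_iUnion] at hx
    obtain ⟨m, hm, hx⟩ := hx
    obtain ⟨h1, h2, h3, h4, h5, h6⟩ := hab m hm
    refine Metric.mem_cthickening_of_dist_le x (a m) ρ K h1 ?_
    rw [Real.dist_eq, abs_le]
    have h7 := hx.1
    have h8 := hx.2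
    constructor <;> linarith
  · refine (S.image a).finite_toSet.subset ?_
    rintro x ⟨hxK, hxV⟩
    have hxR := hR hxK
    rw [mem_closedBall_zero_iff, Real.norm_eq_abs, abs_le] at hxR
    have h1 := Int.floor_le (x / ρ)
    have h2 := Int.lt_floor_add_one (x / ρ)
    have h3 : (⌊x / ρ⌋ : ℝ) * ρ ≤ x := by rwa [le_div_iff₀ hρ] at h1
    have h4 : x ≤ ((⌊x / ρ⌋ : ℝ) + 1) * ρ := by
      rw [div_lt_iff₀ hρ] at h2
      exact h2.le
    have hmem : ⌊x / ρ⌋ ∈ S := by
      rw [hS, Finset.mem_Icc]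
      refine ⟨⟨?_, ?_⟩, x, hxK, h3, h4⟩
      · rw [Int.le_floor]
        push_cast
        rw [le_div_iff₀ hρ]
        rw [div_lt_iff₀ hρ] at hN
        linarith
      · have h5 : x / ρ < N := by
          refine lt_of_le_of_lt ?_ hN
          exact div_le_div_of_nonneg_right hxR.2 hρ.le
        have h6 : (⌊x / ρ⌋ : ℝ) < N := lt_of_le_of_lt h1 h5
        exact_mod_cast h6.le
    obtain ⟨_, _, _, _, _, h6⟩ := hab _ hmem
    have h7 := h6 ⟨hxK, h3, h4⟩
    rw [Finset.mem_coe, Finset.mem_image]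
    refine ⟨_, hmem, ?_⟩
    by_contra hne
    apply hxV
    simp only [Set.mem_iUnion]
    exact ⟨_, hmem, lt_of_le_of_ne h7.1 hne, h7.2⟩
  · rw [VectorMeasure.of_biUnion_finset hdisj (fun m _ => measurableSet_Ioc),
      measure_biUnion_finset hdisj (fun m _ => measurableSet_Ioc),
      ENNReal.toReal_sum (fun m _ => by rw [Real.volume_Ioc]; exact ENNReal.ofReal_ne_top),
      Finset.mul_sum]
    refine (Finset.abs_sum_le_sum_abs _ _).trans (Finset.sum_le_sum fun m hm => ?_)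
    obtain ⟨h1, h2, h3, h4, h5, h6⟩ := hab m hm
    rw [hJ m hm, Real.volume_Ioc, ENNReal.toReal_ofReal (by linarith)]
    have h7 := hLip _ h1 _ h2
    rwa [abs_of_nonneg (show 0 ≤ b m - a m by linarith)] at h7

/-- a signed measure given by the increments of a function that is Lipschitz on a compact null set
does not charge that set -/
theorem TL (μ : SignedMeasure ℝ) (f : ℝ → ℝ) (K : Set ℝ) (hK : IsCompact K) (hK0 : volume K = 0)
    (L : ℝ) (hL : 0 ≤ L) (hf : ∀ x ∈ K, ∀ y ∈ K, x ≤ y → μ (Icc x y) = f y - f x)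
    (hLip : ∀ x ∈ K, ∀ y ∈ K, |f y - f x| ≤ L * |y - x|) : μ K = 0 := by
  have hKm : MeasurableSet K := hK.isClosed.measurableSet
  have hsing : ∀ x ∈ K, μ {x} = 0 := by
    intro x hx
    have h1 := hf x hx x hx le_rfl
    rwa [Icc_self, sub_self] at h1
  obtain ⟨τ, hτ⟩ : ∃ τ : Measure ℝ, τ = μ.totalVariation := ⟨_, rfl⟩
  haveI : IsFiniteMeasure τ := by rw [hτ]; infer_instance
  have key : ∀ ε : ℝ, 0 < ε → |μ K| ≤ (L + 1) * ε := by
    intro ε hε
    have hε' : 0 < ENNReal.ofReal ε := ENNReal.ofReal_pos.2 hε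
    have h1 := tendsto_measure_cthickening_of_isCompact (μ := τ) hK
    have h2 := tendsto_measure_cthickening_of_isCompact (μ := (volume : Measure ℝ)) hK
    rw [hK0] at h2
    have h3 := h1.eventually (gt_mem_nhds (ENNReal.lt_add_right (measure_ne_top τ K) hε'.ne'))
    have h4 := h2.eventually (gt_mem_nhds hε')
    have h5 : ∀ᶠ r in 𝓝[>] (0:ℝ), τ (Metric.cthickening r K) < τ K + ENNReal.ofReal ε ∧
        volume (Metric.cthickening r K) < ENNReal.ofReal ε ∧ 0 < r := by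
      filter_upwards [h3.filter_mono nhdsWithin_le_nhds, h4.filter_mono nhdsWithin_le_nhds,
        self_mem_nhdsWithin] with r hr1 hr2 hr3
      exact ⟨hr1, hr2, hr3⟩
    obtain ⟨ρ, hρ1, hρ2, hρ⟩ := h5.exists
    obtain ⟨V, hV, hVsub, hVfin, hVle⟩ := TL_eps μ f K hK L hL hf hLip ρ hρ
    have h6 : μ (K \ V) = 0 := TL_fin μ _ hVfin fun x hx => hsing x hx.1
    have h7 : μ K = μ (K ∩ V) + μ (K \ V) := by
      rw [← VectorMeasure.of_union (by
        rw [Set.disjoint_left]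
        rintro x ⟨_, hx⟩ ⟨_, hx'⟩
        exact hx' hx) (hKm.inter hV) (hKm.diff hV), Set.inter_union_sdiff]
    have h8 : μ V = μ (V ∩ K) + μ (V \ K) := by
      rw [← VectorMeasure.of_union (by
        rw [Set.disjoint_left]
        rintro x ⟨_, hx⟩ ⟨_, hx'⟩
        exact hx' hx) (hV.inter hKm) (hV.diff hKm), Set.inter_union_sdiff]
    have h9 : μ K = μ V - μ (V \ K) := by
      rw [h7, h6, h8, Set.inter_comm V K]; ring
    have h10 : |μ (V \ K)| ≤ ε := by
      have h11 := SignedMeasure.norm_le_totalVariation μ (V \ K)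
      rw [Real.norm_eq_abs, ← hτ] at h11
      refine h11.trans ?_
      have h12 : τ (V \ K) ≤ ENNReal.ofReal ε := by
        have h13 : V \ K ⊆ Metric.cthickening ρ K \ K := Set.sdiff_subset_sdiff_left hVsub
        refine (measure_mono h13).trans ?_
        rw [measure_sdiff (Metric.self_subset_cthickening K) hKm.nullMeasurableSet
          (measure_ne_top τ K)]
        rw [tsub_le_iff_left]
        exact hρ1.le
      exact ENNReal.toReal_le_of_le_ofReal hε.le h12
    have h14 : (volume V).toReal ≤ ε :=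
      ENNReal.toReal_le_of_le_ofReal hε.le ((measure_mono hVsub).trans hρ2.le)
    rw [h9]
    have h15 := abs_sub (μ V) (μ (V \ K))
    have h16 : L * (volume V).toReal ≤ L * ε := mul_le_mul_of_nonneg_left h14 hL
    have h17 : |μ V - μ (V \ K)| ≤ |μ V| + |μ (V \ K)| := h15
    linarith
  have h0 : |μ K| ≤ 0 := by
    refine le_of_forall_pos_le_add fun ε hε => ?_
    have h1 := key (ε / (L + 1)) (by positivity)
    rw [mul_div_cancel₀ _ (by positivity : L + 1 ≠ 0)] at h1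
    linarith
  exact abs_nonpos_iff.1 h0

end Pool.Agent.BV653
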