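import Pool.Agent.BV653.Defs
set_option autoImplicit false
open MeasureTheory Set Filter Topology
namespace Pool.Agent.BV653
theorem V2_mirA {f : ℝ → ℝ} {s : Set ℝ} {c : ℝ} (h : RisesLE f s c) :
    FallsLE (fun x => f (-x)) {x | -x ∈ s} c := by
  intro n x hx hxs
  have h1 := h n (fun i => - x (n - i)) (by
    intro i j hij
    have : x (n - j) ≤ x (n - i) := hx (by omega)
    simp only
    linarith) (fun i => hxs _)
  refine le_trans (le_of_eq ?_) h1
  rw [← Finset.sum_range_reflect]
  refine Finset.sum_congr rfl (fun j hj => ?_)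
  have hj' := Finset.mem_range.mp hj
  have e1 : n - 1 - j = n - (j + 1) := by omega
  have e2 : n - 1 - j + 1 = n - j := by omega
  simp only [e1]
  have e3 : n - (j + 1) + 1 = n - j := by omega
  rw [e3]

theorem V2_mirB {f : ℝ → ℝ} {s : Set ℝ} {c : ℝ} (h : FallsLE f s c) :
    RisesLE (fun x => f (-x)) {x | -x ∈ s} c := by
  intro n x hx hxs
  have h1 := h n (fun i => - x (n - i)) (by
    intro i j hij
    have : x (n - j) ≤ x (n - i) := hx (by omega)
    simp only
    linarith) (fun i => hxs _)
  refine le_trans (le_of_eq ?_) h1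
  rw [← Finset.sum_range_reflect]
  refine Finset.sum_congr rfl (fun j hj => ?_)
  have hj' := Finset.mem_range.mp hj
  have e1 : n - 1 - j = n - (j + 1) := by omega
  simp only [e1]
  have e3 : n - (j + 1) + 1 = n - j := by omega
  rw [e3]

theorem falls_mirror (f : ℝ → ℝ) (s : Set ℝ) (c : ℝ) :
    FallsLE (fun x => f (-x)) {x | -x ∈ s} c ↔ RisesLE f s c := by
  constructor
  · intro h
    have := V2_mirB h
    simpa using this
  · exact V2_mirA

theorem rises_mirror (f : ℝ → ℝ) (s : Set ℝ) (c : ℝ) :
    RisesLE (fun x => f (-x)) {x | -x ∈ s} c ↔ FallsLE f s c := by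
  constructor
  · intro h
    have := V2_mirA h
    simpa using this
  · exact V2_mirB

theorem FallsLE.mono {f : ℝ → ℝ} {s t : Set ℝ} {c d : ℝ} (h : FallsLE f t c) (hst : s ⊆ t)
    (hcd : c ≤ d) : FallsLE f s d := by
  intro n x hx hxs
  exact (h n x hx (fun i => hst (hxs i))).trans hcd

theorem RisesLE.mono {f : ℝ → ℝ} {s t : Set ℝ} {c d : ℝ} (h : RisesLE f t c) (hst : s ⊆ t)
    (hcd : c ≤ d) : RisesLE f s d := by
  intro n x hx hxs
  exact (h n x hx (fun i => hst (hxs i))).trans hcd

theorem FallsLE.add {f g : ℝ → ℝ} {s : Set ℝ} {c d : ℝ} (hf : FallsLE f s c)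
    (hg : FallsLE g s d) : FallsLE (fun x => f x + g x) s (c + d) := by
  intro n x hx hxs
  have h1 := hf n x hx hxs
  have h2 := hg n x hx hxs
  refine le_trans ?_ (add_le_add h1 h2)
  rw [← Finset.sum_add_distrib]
  refine Finset.sum_le_sum (fun i _ => ?_)
  refine max_le ?_ ?_
  · have := le_max_left (f (x i) - f (x (i + 1))) 0
    have := le_max_left (g (x i) - g (x (i + 1))) 0
    linarith
  · have := le_max_right (f (x i) - f (x (i + 1))) 0
    have := le_max_right (g (x i) - g (x (i + 1))) 0
    linarith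

theorem falls_clamp {f : ℝ → ℝ} {a b c : ℝ} (hab : a ≤ b) (h : FallsLE f (Icc a b) c) :
    FallsLE (fun x => f (max a (min b x))) univ c := by
  intro n x hx _
  have hm : Monotone (fun i => max a (min b (x i))) := by
    intro i j hij
    exact max_le_max le_rfl (min_le_min le_rfl (hx hij))
  exact h n (fun i => max a (min b (x i))) hm
    (fun i => ⟨le_max_left _ _, max_le hab (min_le_left _ _)⟩)

theorem bv_basic (u : ℝ → ℝ) (hu : BoundedVariationOn u univ) :
    Measurable u ∧ (∃ C, ∀ x, |u x| ≤ C) ∧ (∀ a b, IntervalIntegrable u volume a b) ∧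
      {x | ¬ ContinuousAt u x}.Countable := by
  obtain ⟨p, q, hp, hq, hpq⟩ := hu.locallyBoundedVariationOn.exists_monotoneOn_sub_monotoneOn
  rw [monotoneOn_univ] at hp hq
  refine ⟨?_, ?_, ?_, ?_⟩
  · rw [hpq]
    exact hp.measurable.sub hq.measurable
  · refine ⟨|u 0| + (eVariationOn u univ).toReal, fun x => ?_⟩
    have := hu.dist_le (mem_univ x) (mem_univ 0)
    rw [Real.dist_eq] at this
    have h2 : |u x| ≤ |u 0| + |u x - u 0| := by
      have := abs_add_le (u 0) (u x - u 0)
      simpa using this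
    linarith
  · intro a b
    rw [hpq]
    exact hp.intervalIntegrable.sub hq.intervalIntegrable
  · refine (hp.countable_not_continuousAt.union hq.countable_not_continuousAt).mono ?_
    intro x hx
    by_contra hcon
    simp only [mem_union, mem_setOf_eq, not_or, not_not] at hcon
    apply hx
    rw [hpq]
    exact hcon.1.sub hcon.2

theorem evar_mirror (f : ℝ → ℝ) (s : Set ℝ) :
    eVariationOn (fun x => f (-x)) {x | -x ∈ s} = eVariationOn f s := by
  have h := eVariationOn.comp_eq_of_antitoneOn f (t := {x : ℝ | -x ∈ s}) (fun x : ℝ => -x)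
    (fun a _ b _ hab => neg_le_neg hab)
  have h2 : (fun x : ℝ => -x) '' {x : ℝ | -x ∈ s} = s := by
    ext y
    constructor
    · rintro ⟨x, hx, rfl⟩
      exact hx
    · intro hy
      exact ⟨-y, by simpa using hy, by simp⟩
  rw [h2] at h
  exact h

end Pool.Agent.BV653
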