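import Pool.Agent.BV653.Defs
import Pool.Agent.BV653.A1
import Pool.Agent.BV653.A2
import Pool.Agent.BV653.C7
import Pool.Agent.BV653.E1
import Pool.Agent.BV653.V2
set_option autoImplicit false
open MeasureTheory Set Filter Topology
namespace Pool.Agent.BV653
theorem contact_pos_sing (P N : Measure ℝ) [IsFiniteMeasure P] [IsFiniteMeasure N]
    (h : P ⟂ₘ N) (K : Set ℝ) (hK : MeasurableSet K)
    (hle : ∀ E ⊆ K, MeasurableSet E → (N E).toReal ≤ (P E).toReal) : N K = 0 := by
  obtain ⟨S, hS, h1, h2⟩ := h
  have h3 : N (K ∩ S) = 0 := by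
    have h4 := hle (K ∩ S) inter_subset_left (hK.inter hS)
    have h5 : P (K ∩ S) = 0 := measure_mono_null inter_subset_right h1
    rw [h5, ENNReal.toReal_zero] at h4
    have h6 := le_antisymm h4 ENNReal.toReal_nonneg
    exact ((ENNReal.toReal_eq_zero_iff _).1 h6).resolve_right (measure_ne_top _ _)
  have h7 : N (K \ S) = 0 := measure_mono_null (fun x hx => hx.2) h2
  rw [← measure_inter_add_sdiff K hS, h3, h7, add_zero]

theorem contact_pos_up (P N : Measure ℝ) [IsFiniteMeasure P] [IsFiniteMeasure N] (K : Set ℝ)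
    (hK : MeasurableSet K) (a b : ℝ) :
    (P (Ioc a b)).toReal - (N (Ioc a b)).toReal ≤
      ((P.restrict K) (Icc a b)).toReal + (((P + N).restrict Kᶜ) (Icc a b)).toReal := by
  have h1 : P (Ioc a b) ≤ (P.restrict K) (Icc a b) + ((P + N).restrict Kᶜ) (Icc a b) := by
    rw [Measure.restrict_apply measurableSet_Icc, Measure.restrict_apply measurableSet_Icc,
      Measure.add_apply]
    calc P (Ioc a b) = P (Ioc a b ∩ K) + P (Ioc a b \ K) := (measure_inter_add_sdiff _ hK).symm
      _ ≤ P (Icc a b ∩ K) + (P (Icc a b ∩ Kᶜ) + N (Icc a b ∩ Kᶜ)) := by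
        refine add_le_add (measure_mono (inter_subset_inter_left _ Ioc_subset_Icc_self))
          ((measure_mono ?_).trans le_self_add)
        exact fun x hx => ⟨Ioc_subset_Icc_self hx.1, hx.2⟩
  have h2 := ENNReal.toReal_mono
    (ENNReal.add_ne_top.2 ⟨measure_ne_top _ _, measure_ne_top _ _⟩) h1
  rw [ENNReal.toReal_add (measure_ne_top _ _) (measure_ne_top _ _)] at h2
  have h3 : 0 ≤ (N (Ioc a b)).toReal := ENNReal.toReal_nonneg
  linarith

theorem contact_pos_lo (P N : Measure ℝ) [IsFiniteMeasure P] [IsFiniteMeasure N] (K : Set ℝ)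
    (hK : MeasurableSet K) (hNK : N K = 0) (hat : ∀ x ∈ K, P {x} = 0) (a b : ℝ) :
    ((P.restrict K) (Icc a b)).toReal - (((P + N).restrict Kᶜ) (Icc a b)).toReal ≤
      (P (Ioc a b)).toReal - (N (Ioc a b)).toReal := by
  have h1 : (P.restrict K) (Icc a b) ≤ P (Ioc a b) := by
    rw [Measure.restrict_apply measurableSet_Icc]
    have hsub : Icc a b ∩ K ⊆ Ioc a b ∪ ({a} ∩ K) := by
      rintro x ⟨hx, hxK⟩
      rcases hx.1.eq_or_lt with h | h
      · exact Or.inr ⟨h.symm, hxK⟩
      · exact Or.inl ⟨h, hx.2⟩
    have h0 : P ({a} ∩ K) = 0 := by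
      by_cases ha : a ∈ K
      · exact measure_mono_null inter_subset_left (hat a ha)
      · rw [singleton_inter_eq_empty.2 ha, measure_empty]
    calc P (Icc a b ∩ K) ≤ P (Ioc a b ∪ ({a} ∩ K)) := measure_mono hsub
      _ ≤ P (Ioc a b) + P ({a} ∩ K) := measure_union_le _ _
      _ = P (Ioc a b) := by rw [h0, add_zero]
  have h2 : N (Ioc a b) ≤ ((P + N).restrict Kᶜ) (Icc a b) := by
    rw [Measure.restrict_apply measurableSet_Icc, Measure.add_apply]
    have h0 : N (Ioc a b ∩ K) = 0 := measure_mono_null inter_subset_right hNK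
    calc N (Ioc a b) = N (Ioc a b ∩ K) + N (Ioc a b \ K) := (measure_inter_add_sdiff _ hK).symm
      _ = N (Ioc a b \ K) := by rw [h0, zero_add]
      _ ≤ N (Icc a b ∩ Kᶜ) := measure_mono fun x hx => ⟨Ioc_subset_Icc_self hx.1, hx.2⟩
      _ ≤ _ := le_add_self
  have h3 := ENNReal.toReal_mono (measure_ne_top _ _) h1
  have h4 := ENNReal.toReal_mono (measure_ne_top _ _) h2
  linarith

theorem contact_pos_atom (P : Measure ℝ) (K : Set ℝ)
    (hat : ∀ x ∈ K, P {x} = 0) (x : ℝ) : (P.restrict K) {x} = 0 := by
  rw [Measure.restrict_apply (measurableSet_singleton x)]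
  by_cases hx : x ∈ K
  · exact measure_mono_null inter_subset_left (hat x hx)
  · rw [singleton_inter_eq_empty.2 hx, measure_empty]

theorem contact_pos_Ioc (u : ℝ → ℝ) (hu : BoundedVariationOn u univ)
    (hur : ∀ x, ContinuousWithinAt u (Ici x) x) (a b : ℝ) (hab : a ≤ b) :
    ((SignedMeasure.toJordanDecomposition hu.vectorMeasure).posPart (Ioc a b)).toReal -
      ((SignedMeasure.toJordanDecomposition hu.vectorMeasure).negPart (Ioc a b)).toReal = u b - u a := by
  have h1 : ∀ x, u.rightLim x = u x := fun x => (hur x).rightLim_eq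
  have h2 := SignedMeasure.apply_eq_posPart_real_sub_negPart_real hu.vectorMeasure
    (measurableSet_Ioc (a := a) (b := b))
  rw [hu.vectorMeasure_Ioc hab, h1, h1] at h2
  exact h2.symm

theorem contact_pos_single (u : ℝ → ℝ) (hu : BoundedVariationOn u univ) (x : ℝ)
    (hx : ContinuousAt u x) :
    ((SignedMeasure.toJordanDecomposition hu.vectorMeasure).posPart {x}).toReal =
      ((SignedMeasure.toJordanDecomposition hu.vectorMeasure).negPart {x}).toReal := by
  have h2 := SignedMeasure.apply_eq_posPart_real_sub_negPart_real hu.vectorMeasure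
    (measurableSet_singleton x)
  rw [hu.vectorMeasure_singleton, hx.continuousWithinAt.rightLim_eq,
    hx.continuousWithinAt.leftLim_eq, sub_self] at h2
  have h3 : (0 : ℝ) = ((SignedMeasure.toJordanDecomposition hu.vectorMeasure).posPart {x}).toReal -
      ((SignedMeasure.toJordanDecomposition hu.vectorMeasure).negPart {x}).toReal := h2
  linarith

/-- contact sets carry no positive diffuse part of `u` -/
theorem contact_pos (u : ℝ → ℝ) (hu : BoundedVariationOn u univ)
    (hur : ∀ x, ContinuousWithinAt u (Ici x) x) (K : Set ℝ) (hK : IsCompact K)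
    (hK0 : volume K = 0) (hKu : ∀ x ∈ K, ContinuousAt u x) (hcon : ∀ x ∈ K, M u x = u x)
    (hpos : ∀ E ⊆ K, MeasurableSet E → 0 ≤ hu.vectorMeasure E) : hu.vectorMeasure K = 0 := by
  have hKm := hK.measurableSet
  have hsing := (SignedMeasure.toJordanDecomposition hu.vectorMeasure).mutuallySingular
  have hIoc := contact_pos_Ioc u hu hur
  have hat0 := fun x (hx : x ∈ K) => contact_pos_single u hu x (hKu x hx)
  have happ := fun E (hE : MeasurableSet E) =>
    SignedMeasure.apply_eq_posPart_real_sub_negPart_real hu.vectorMeasure hE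
  set P := (SignedMeasure.toJordanDecomposition hu.vectorMeasure).posPart with hP
  set N := (SignedMeasure.toJordanDecomposition hu.vectorMeasure).negPart with hN
  have hNK : N K = 0 := by
    refine contact_pos_sing P N hsing K hKm fun E hEK hE => ?_
    have h1 := hpos E hEK hE
    rw [happ E hE] at h1
    have h2 : 0 ≤ (P E).toReal - (N E).toReal := h1
    linarith
  have hat : ∀ x ∈ K, P {x} = 0 := by
    intro x hx
    have h1 : N {x} = 0 := measure_mono_null (singleton_subset_iff.2 hx) hNK
    have h2 := hat0 x hx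
    rw [h1, ENNReal.toReal_zero] at h2
    exact ((ENNReal.toReal_eq_zero_iff _).1 h2).resolve_right (measure_ne_top _ _)
  obtain ⟨hmeas, ⟨C, hC⟩, hint, -⟩ := bv_basic u hu
  obtain ⟨hM, -⟩ := M_basic u hint C hC
  have hκ : P.restrict K = 0 := by
    refine lemmaC u hint K hK hK0 (P.restrict K) ((P + N).restrict Kᶜ) ?_ ?_
      (contact_pos_atom P K hat) ?_ ?_ ?_
    · rw [Measure.restrict_apply hKm.compl, compl_inter_self, measure_empty]
    · rw [Measure.restrict_apply hKm, inter_compl_self, measure_empty]
    · intro x y hxy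
      rw [← hIoc x y hxy]
      exact contact_pos_up P N K hKm x y
    · intro x y hxy
      rw [← hIoc x y hxy]
      exact contact_pos_lo P N K hKm hNK hat x y
    · intro q hq r hr
      rw [← hcon q hq]
      exact hM q r hr
  have hPK : P K = 0 := by
    rw [← Measure.restrict_apply_self, hκ]
    rfl
  rw [happ K hKm]
  show (P K).toReal - (N K).toReal = 0
  rw [hPK, hNK, sub_self]

/-- contact sets carry no negative diffuse part of `u` -/
theorem contact_neg (u : ℝ → ℝ) (hu : BoundedVariationOn u univ)
    (hur : ∀ x, ContinuousWithinAt u (Ici x) x) (K : Set ℝ) (hK : IsCompact K)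
    (hK0 : volume K = 0) (hKu : ∀ x ∈ K, ContinuousAt u x) (hcon : ∀ x ∈ K, M u x = u x)
    (hneg : ∀ E ⊆ K, MeasurableSet E → hu.vectorMeasure E ≤ 0) : hu.vectorMeasure K = 0 := by
  have hKm := hK.measurableSet
  have hsing := (SignedMeasure.toJordanDecomposition hu.vectorMeasure).mutuallySingular
  have hIoc := contact_pos_Ioc u hu hur
  have hat0 := fun x (hx : x ∈ K) => contact_pos_single u hu x (hKu x hx)
  have happ := fun E (hE : MeasurableSet E) =>
    SignedMeasure.apply_eq_posPart_real_sub_negPart_real hu.vectorMeasure hE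
  set P := (SignedMeasure.toJordanDecomposition hu.vectorMeasure).posPart with hP
  set N := (SignedMeasure.toJordanDecomposition hu.vectorMeasure).negPart with hN
  have hPK : P K = 0 := by
    refine contact_pos_sing N P hsing.symm K hKm fun E hEK hE => ?_
    have h1 := hneg E hEK hE
    rw [happ E hE] at h1
    have h2 : (P E).toReal - (N E).toReal ≤ 0 := h1
    linarith
  have hat : ∀ x ∈ K, N {x} = 0 := by
    intro x hx
    have h1 : P {x} = 0 := measure_mono_null (singleton_subset_iff.2 hx) hPK
    have h2 := hat0 x hx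
    rw [h1, ENNReal.toReal_zero] at h2
    exact ((ENNReal.toReal_eq_zero_iff _).1 h2.symm).resolve_right (measure_ne_top _ _)
  obtain ⟨hmeas, ⟨C, hC⟩, hint, -⟩ := bv_basic u hu
  obtain ⟨hM, -⟩ := M_basic u hint C hC
  have hnm : Measurable (fun x : ℝ => -x) := measurable_neg
  have hIcc : ∀ x y : ℝ, (fun x : ℝ => -x) ⁻¹' (Icc x y) = Icc (-y) (-x) := by
    intro x y
    ext z
    simp only [mem_preimage, mem_Icc]
    constructor <;> rintro ⟨h1, h2⟩ <;> constructor <;> linarith
  have hFint : ∀ a b, IntervalIntegrable (fun x => u (-x)) volume a b := by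
    intro a b
    have h1 := (IntervalIntegrable.iff_comp_neg (f := u) (a := -a) (b := -b)).1 (hint (-a) (-b))
    rw [neg_neg, neg_neg] at h1
    exact h1
  have hκ : (N.restrict K).map (fun x : ℝ => -x) = 0 := by
    refine lemmaC (fun x => u (-x)) hFint ((fun x : ℝ => -x) ⁻¹' K) ?_ ?_
      ((N.restrict K).map (fun x : ℝ => -x)) (((N + P).restrict Kᶜ).map (fun x : ℝ => -x))
      ?_ ?_ ?_ ?_ ?_ ?_
    · exact (Homeomorph.neg ℝ).isCompact_preimage.2 hK
    · exact (Measure.measure_preimage_neg volume K).trans hK0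
    · rw [Measure.map_apply hnm (hnm hKm).compl, preimage_compl, preimage_preimage]
      simp only [neg_neg, preimage_id']
      rw [Measure.restrict_apply hKm.compl, compl_inter_self, measure_empty]
    · rw [Measure.map_apply hnm (hnm hKm), preimage_preimage]
      simp only [neg_neg, preimage_id']
      rw [Measure.restrict_apply hKm, inter_compl_self, measure_empty]
    · intro x
      rw [Measure.map_apply hnm (measurableSet_singleton x)]
      have h1 : (fun x : ℝ => -x) ⁻¹' {x} = {-x} := by
        ext z
        simp only [mem_preimage, mem_singleton_iff]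
        constructor <;> intro h <;> linarith
      rw [h1]
      exact contact_pos_atom N K hat (-x)
    · intro x y hxy
      rw [Measure.map_apply hnm measurableSet_Icc, Measure.map_apply hnm measurableSet_Icc, hIcc]
      have h1 := hIoc (-y) (-x) (by linarith)
      have h2 := contact_pos_up N P K hKm (-y) (-x)
      show u (-y) - u (-x) ≤ _
      linarith
    · intro x y hxy
      rw [Measure.map_apply hnm measurableSet_Icc, Measure.map_apply hnm measurableSet_Icc, hIcc]
      have h1 := hIoc (-y) (-x) (by linarith)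
      have h2 := contact_pos_lo N P K hKm hPK hat (-y) (-x)
      show _ ≤ u (-y) - u (-x)
      linarith
    · intro q hq r hr
      have h1 := hM (-q) r hr
      rw [hcon (-q) hq] at h1
      have h2 : A (fun x => u (-x)) q r = A u (-q) r := by
        unfold A
        rw [intervalIntegral.integral_comp_neg]
        congr 2 <;> ring
      rw [h2]
      exact h1
  have hNK : N K = 0 := by
    have h1 : (N.restrict K).map (fun x : ℝ => -x) univ = 0 := by rw [hκ]; rfl
    rw [Measure.map_apply hnm MeasurableSet.univ, preimage_univ, Measure.restrict_apply_univ] at h1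
    exact h1
  rw [happ K hKm]
  show (P K).toReal - (N K).toReal = 0
  rw [hPK, hNK, sub_self]

end Pool.Agent.BV653
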