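import Pool.Agent.BV653.Defs
import Pool.Agent.BV653.A1
import Pool.Agent.BV653.A2
import Pool.Agent.BV653.E1
import Pool.Agent.BV653.E2
import Pool.Agent.BV653.V2
set_option autoImplicit false
open MeasureTheory Set Filter Topology
namespace Pool.Agent.BV653
/-- inner regularity: a signed measure vanishing on the compact subsets of `E` vanishes on the
measurable subsets of `E` -/
theorem no_cantor_IR (ν : SignedMeasure ℝ) (E : Set ℝ)
    (h : ∀ K' ⊆ E, IsCompact K' → ν K' = 0) : ∀ E' ⊆ E, MeasurableSet E' → ν E' = 0 := by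
  intro E' hE' hm
  by_contra hne
  have hε : 0 < ‖ν E'‖ := norm_pos_iff.2 hne
  obtain ⟨K', hK'E, hK'c, hK'⟩ := hm.exists_isCompact_sdiff_lt
    (μ := ν.totalVariation) (measure_ne_top _ _)
    (ε := ENNReal.ofReal ‖ν E'‖) (ENNReal.ofReal_pos.2 hε).ne'
  have h1 : ν K' + ν (E' \ K') = ν E' :=
    VectorMeasure.of_add_of_sdiff hK'c.measurableSet hm hK'E
  rw [h K' (hK'E.trans hE') hK'c, zero_add] at h1
  have h2 := ν.norm_le_totalVariation (E' \ K')
  rw [h1] at h2
  have h3 : ν.totalVariation.real (E' \ K') < ‖ν E'‖ := by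
    rw [measureReal_def]
    have h4 := (ENNReal.toReal_lt_toReal (measure_ne_top _ _) ENNReal.ofReal_ne_top).2 hK'
    rwa [ENNReal.toReal_ofReal hε.le] at h4
  linarith

theorem no_cantor_Icc (f : ℝ → ℝ) (hf : BoundedVariationOn f univ) (x y : ℝ) (hxy : x ≤ y)
    (hx : ContinuousAt f x) (hy : ContinuousAt f y) : hf.vectorMeasure (Icc x y) = f y - f x := by
  rw [hf.vectorMeasure_Icc hxy,
    rightLim_eq_of_tendsto (hy.tendsto.mono_left nhdsWithin_le_nhds),
    leftLim_eq_of_tendsto (hx.tendsto.mono_left nhdsWithin_le_nhds)]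

/-- the derivative of the maximal function does not charge compact null sets of continuity points -/
theorem no_cantor (u : ℝ → ℝ) (hu : BoundedVariationOn u univ)
    (hur : ∀ x, ContinuousWithinAt u (Ici x) x) (hF : BoundedVariationOn (M u) univ)
    (K : Set ℝ) (hK : IsCompact K) (hK0 : volume K = 0) (hKu : ∀ x ∈ K, ContinuousAt u x)
    (hKF : ∀ x ∈ K, ContinuousAt (M u) x) : hF.vectorMeasure K = 0 := by
  obtain ⟨hum, ⟨C, hC⟩, hui, -⟩ := bv_basic u hu
  obtain ⟨hM1, hM2, hM3, hMm⟩ := M_basic u hui C hC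
  have hC0 : 0 ≤ C := (abs_nonneg _).trans (hC 0)
  -- monotonicity of `HH`
  have hHM : ∀ δ > 0, ∀ x, HH δ u x ≤ M u x := by
    intro δ hδ x
    obtain ⟨-, h2, -, -⟩ := HH_basic u hui C hC δ hδ
    refine le_of_forall_pos_le_add (fun η hη => ?_)
    obtain ⟨r, hr, hr2⟩ := h2 x η hη
    have := hM1 x r (lt_of_lt_of_le hδ hr)
    linarith
  have hHH : ∀ δ > 0, ∀ δ' ≥ δ, ∀ x, HH δ' u x ≤ HH δ u x := by
    intro δ hδ δ' hδ' x
    obtain ⟨h1, -, -, -⟩ := HH_basic u hui C hC δ hδ
    obtain ⟨-, h2, -, -⟩ := HH_basic u hui C hC δ' (lt_of_lt_of_le hδ hδ')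
    refine le_of_forall_pos_le_add (fun η hη => ?_)
    obtain ⟨r, hr, hr2⟩ := h2 x η hη
    have := h1 x r (le_trans hδ' hr)
    linarith
  have hδm : ∀ m : ℕ, (0 : ℝ) < 1 / ((m : ℝ) + 1) := fun m => by positivity
  set D : ℕ → Set ℝ := fun m => {x | HH (1 / ((m : ℝ) + 1)) u x = M u x} with hD
  have hDm : ∀ m, MeasurableSet (D m) := by
    intro m
    obtain ⟨-, -, -, h4⟩ := HH_basic u hui C hC (1 / ((m : ℝ) + 1)) (hδm m)
    have hcont : Continuous (HH (1 / ((m : ℝ) + 1)) u) := by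
      have hL : LipschitzWith (Real.toNNReal (C / (1 / ((m : ℝ) + 1)))) (HH (1 / ((m : ℝ) + 1)) u) := by
        refine LipschitzWith.of_dist_le_mul (fun x y => ?_)
        rw [Real.coe_toNNReal _ (div_nonneg hC0 (hδm m).le), Real.dist_eq, Real.dist_eq]
        exact h4 x y
      exact hL.continuous
    exact measurableSet_eq_fun hcont.measurable hMm
  -- step 1
  have step1 : ∀ m, ∀ E' ⊆ K ∩ D m, MeasurableSet E' → hF.vectorMeasure E' = 0 := by
    intro m
    refine no_cantor_IR _ _ (fun K' hK' hK'c => ?_)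
    obtain ⟨-, -, -, h4⟩ := HH_basic u hui C hC (1 / ((m : ℝ) + 1)) (hδm m)
    refine TL _ (M u) K' hK'c (measure_mono_null (fun x hx => (hK' hx).1) hK0)
      (C / (1 / ((m : ℝ) + 1))) (div_nonneg hC0 (hδm m).le) ?_ ?_
    · intro x hx y hy hxy
      exact no_cantor_Icc _ hF x y hxy (hKF x (hK' hx).1) (hKF y (hK' hy).1)
    · intro x hx y hy
      have e1 : HH (1 / ((m : ℝ) + 1)) u x = M u x := (hK' hx).2
      have e2 : HH (1 / ((m : ℝ) + 1)) u y = M u y := (hK' hy).2
      rw [← e1, ← e2]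
      exact h4 y x
  -- step 2
  set Cs : Set ℝ := K \ ⋃ m, D m with hCs
  have hCsm : MeasurableSet Cs := hK.measurableSet.diff (MeasurableSet.iUnion hDm)
  have hCsK : Cs ⊆ K := sdiff_subset
  have hcon : ∀ x ∈ Cs, M u x = u x := by
    intro x hx
    refine M_eq_of_contact u hui C hC x (hKu x hx.1) (fun δ hδ => ?_)
    obtain ⟨m, hm⟩ := exists_nat_one_div_lt hδ
    have h1 := hHH _ (hδm m) δ hm.le x
    have h2 := hHM _ (hδm m) x
    have h3 : HH (1 / ((m : ℝ) + 1)) u x ≠ M u x := by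
      intro h
      exact hx.2 (mem_iUnion.2 ⟨m, h⟩)
    exact lt_of_le_of_lt h1 (lt_of_le_of_ne h2 h3)
  have step2 : ∀ E' ⊆ Cs, MeasurableSet E' → hF.vectorMeasure E' = hu.vectorMeasure E' := by
    intro E' hE' hE'm
    have h1 : (hF.vectorMeasure - hu.vectorMeasure : SignedMeasure ℝ) E' = 0 := by
      refine no_cantor_IR _ Cs (fun K' hK' hK'c => ?_) E' hE' hE'm
      refine TL _ (fun x => M u x - u x) K' hK'c (measure_mono_null (fun x hx => (hK' hx).1) hK0)
        0 le_rfl ?_ ?_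
      · intro x hx y hy hxy
        have e1 := no_cantor_Icc _ hF x y hxy (hKF x (hK' hx).1) (hKF y (hK' hy).1)
        have e2 := no_cantor_Icc _ hu x y hxy (hKu x (hK' hx).1) (hKu y (hK' hy).1)
        rw [_root_.sub_apply, e1, e2]
        ring
      · intro x hx y hy
        simp only [hcon x (hK' hx), hcon y (hK' hy)]
        simp
    rw [_root_.sub_apply, sub_eq_zero] at h1
    exact h1
  -- step 3
  obtain ⟨P, hPm, hP1, hP2⟩ := MeasureTheory.SignedMeasure.exists_compl_positive_negative hu.vectorMeasure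
  have step3a : hu.vectorMeasure (Cs ∩ P) = 0 := by
    refine no_cantor_IR _ (Cs ∩ P) (fun K' hK' hK'c => ?_) _ Subset.rfl (hCsm.inter hPm)
    refine contact_pos u hu hur K' hK'c (measure_mono_null (fun x hx => (hK' hx).1.1) hK0)
      (fun x hx => hKu x (hK' hx).1.1) (fun x hx => hcon x (hK' hx).1) (fun E hE hEm => ?_)
    have := (VectorMeasure.restrict_le_restrict_iff _ _ hPm).1 hP1 hEm
      (fun x hx => (hK' (hE hx)).2)
    simpa using this
  have step3b : hu.vectorMeasure (Cs ∩ Pᶜ) = 0 := by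
    refine no_cantor_IR _ (Cs ∩ Pᶜ) (fun K' hK' hK'c => ?_) _ Subset.rfl (hCsm.inter hPm.compl)
    refine contact_neg u hu hur K' hK'c (measure_mono_null (fun x hx => (hK' hx).1.1) hK0)
      (fun x hx => hKu x (hK' hx).1.1) (fun x hx => hcon x (hK' hx).1) (fun E hE hEm => ?_)
    have := (VectorMeasure.restrict_le_restrict_iff _ _ hPm.compl).1 hP2 hEm
      (fun x hx => (hK' (hE hx)).2)
    simpa using this
  have hCs0 : hF.vectorMeasure Cs = 0 := by
    rw [step2 Cs Subset.rfl hCsm]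
    have h1 : Cs = (Cs ∩ P) ∪ (Cs ∩ Pᶜ) := by
      rw [← inter_union_distrib_left, union_compl_self, inter_univ]
    rw [h1, VectorMeasure.of_union ?_ (hCsm.inter hPm) (hCsm.inter hPm.compl), step3a, step3b,
      add_zero]
    exact disjoint_left.2 (fun x hx hx' => hx'.2 hx.2)
  -- the rest
  have hrest : hF.vectorMeasure (K ∩ ⋃ m, D m) = 0 := by
    have h1 : K ∩ ⋃ m, D m = ⋃ m, K ∩ disjointed D m := by
      rw [← inter_iUnion, iUnion_disjointed]
    rw [h1, VectorMeasure.of_disjoint_iUnion]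
    · have h2 : ∀ m, hF.vectorMeasure (K ∩ disjointed D m) = 0 := by
        intro m
        refine step1 m _ (inter_subset_inter_right _ (disjointed_subset D m)) ?_
        exact hK.measurableSet.inter (MeasurableSet.disjointed hDm m)
      simp [h2]
    · intro m
      exact hK.measurableSet.inter (MeasurableSet.disjointed hDm m)
    · intro m m' hmm
      exact (disjoint_disjointed D hmm).mono inter_subset_right inter_subset_right
  have hsplit : K = (K ∩ ⋃ m, D m) ∪ Cs := by
    rw [hCs, inter_union_sdiff]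
  rw [hsplit, VectorMeasure.of_union ?_ (hK.measurableSet.inter (MeasurableSet.iUnion hDm)) hCsm,
    hrest, hCs0, add_zero]
  exact disjoint_left.2 (fun x hx hx' => hx'.2 hx.2)

end Pool.Agent.BV653
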