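import Pool.Agent.BV653.Defs
set_option autoImplicit false
open MeasureTheory Set Filter Topology
namespace Pool.Agent.BV653
section ApAux
open scoped ENNReal

theorem ap_evar_le_measure (f : ℝ → ℝ) (κ1 κ2 : Measure ℝ) (a b : ℝ)
    (h : ∀ y ∈ Ioo a b, ∀ z ∈ Ioo a b, y < z →
      edist (f z) (f y) ≤ κ1 (Ioc y z) + κ2 (Ico y z)) :
    eVariationOn f (Ioo a b) ≤ κ1 (Ioo a b) + κ2 (Ioo a b) := by
  unfold eVariationOn
  refine iSup_le ?_
  rintro ⟨n, u, hu, hus⟩
  simp only
  have h1 : ∀ i ∈ Finset.range n, edist (f (u (i + 1))) (f (u i)) ≤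
      κ1 (Ioc (u i) (u (i + 1))) + κ2 (Ico (u i) (u (i + 1))) := by
    intro i _
    rcases (hu (Nat.le_succ i)).eq_or_lt with e | l
    · have e' : u (i + 1) = u i := e.symm
      rw [e', edist_self]
      exact zero_le
    · exact h _ (hus i) _ (hus (i + 1)) l
  refine (Finset.sum_le_sum h1).trans ?_
  rw [Finset.sum_add_distrib]
  have h2 : ∀ m, ∑ i ∈ Finset.range m, κ1 (Ioc (u i) (u (i + 1))) = κ1 (Ioc (u 0) (u m)) := by
    intro m
    induction m with
    | zero => simp
    | succ m ih =>
      rw [Finset.sum_range_succ, ih, ← measure_union _ measurableSet_Ioc,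
        Ioc_union_Ioc_eq_Ioc (hu (Nat.zero_le m)) (hu (Nat.le_succ m))]
      rw [Set.disjoint_left]
      intro x hx hx'
      exact absurd hx.2 (not_le.mpr hx'.1)
  have h3 : ∀ m, ∑ i ∈ Finset.range m, κ2 (Ico (u i) (u (i + 1))) = κ2 (Ico (u 0) (u m)) := by
    intro m
    induction m with
    | zero => simp
    | succ m ih =>
      rw [Finset.sum_range_succ, ih, ← measure_union _ measurableSet_Ico,
        Ico_union_Ico_eq_Ico (hu (Nat.zero_le m)) (hu (Nat.le_succ m))]
      rw [Set.disjoint_left]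
      intro x hx hx'
      exact absurd hx.2 (not_lt.mpr hx'.1)
  rw [h2, h3]
  refine add_le_add (measure_mono ?_) (measure_mono ?_)
  · intro x hx
    exact ⟨(hus 0).1.trans hx.1, hx.2.trans_lt (hus n).2⟩
  · intro x hx
    exact ⟨(hus 0).1.trans_le hx.1, hx.2.trans (hus n).2⟩

theorem ap_exists_nu (F : ℝ → ℝ) (hF : BoundedVariationOn F univ) :
    ∃ ν : Measure ℝ, IsFiniteMeasure ν ∧ ∀ t, edist (F t) (F.rightLim t) ≤ ν {t} := by
  have hl := hF.locallyBoundedVariationOn
  obtain ⟨g, hg⟩ : ∃ g : ℝ → ℝ, g = variationOnFromTo F univ 0 := ⟨_, rfl⟩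
  have gm : Monotone g := by
    rw [hg, ← monotoneOn_univ]
    exact variationOnFromTo.monotoneOn hl (mem_univ _)
  have gb : ∀ x, |g x| ≤ (eVariationOn F univ).toReal := by
    intro x
    rw [hg]
    exact variationOnFromTo.abs_le_eVariationOn hF
  have hd : ∀ b c, b ≤ c → |F c - F b| ≤ g c - g b := by
    intro b c hbc
    rw [hg]
    exact variationOnFromTo.abs_sub_le_sub_of_le hl (mem_univ _) (mem_univ _) (mem_univ _) hbc
  have hS : ∀ x, gm.stieltjesFunction x = Function.rightLim g x := fun x =>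
    gm.stieltjesFunction_eq x
  refine ⟨gm.stieltjesFunction.measure, ?_, ?_⟩
  · apply StieltjesFunction.isFiniteMeasure_of_forall_abs_le
      (C := (eVariationOn F univ).toReal) _ (fun x ↦ ?_)
    rw [hS x, abs_le]
    have h1 : g x ≤ Function.rightLim g x := gm.le_rightLim le_rfl
    have h2 : Function.rightLim g x ≤ g (x + 1) := gm.rightLim_le (by linarith)
    have h3 := abs_le.mp (gb x)
    have h4 := abs_le.mp (gb (x + 1))
    constructor <;> linarith
  · intro t
    rw [StieltjesFunction.measure_singleton, hS t, edist_dist, Real.dist_eq]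
    apply ENNReal.ofReal_le_ofReal
    have h1 : |Function.rightLim F t - F t| ≤ Function.rightLim g t - g t := by
      have e1 : Tendsto (fun y => |F y - F t|) (𝓝[>] t) (𝓝 |Function.rightLim F t - F t|) :=
        ((hF.tendsto_rightLim t).sub_const _).abs
      have e2 : Tendsto (fun y => g y - g t) (𝓝[>] t) (𝓝 (Function.rightLim g t - g t)) :=
        (gm.tendsto_rightLim t).sub_const _
      refine le_of_tendsto_of_tendsto e1 e2 ?_
      filter_upwards [self_mem_nhdsWithin] with y hy
      exact hd t y (le_of_lt hy)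
    have h2 : Function.leftLim gm.stieltjesFunction t ≤ g t := by
      have e1 := gm.stieltjesFunction.mono.tendsto_leftLim t
      refine le_of_tendsto e1 ?_
      filter_upwards [self_mem_nhdsWithin] with y hy
      rw [hS y]
      exact gm.rightLim_le hy
    rw [abs_sub_comm]
    linarith

theorem ap_exists_finset_small (κ : Measure ℝ) [IsFiniteMeasure κ] (T : Set ℝ) (hT : T.Countable)
    (ε : ℝ≥0∞) (hε : 0 < ε) : ∃ T1 : Finset ℝ, κ (T \ (T1 : Set ℝ)) ≤ ε := by
  classical
  have : Countable T := hT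
  have h1 : ∑' t : T, κ {(t : ℝ)} ≠ ∞ := by
    rw [← measure_iUnion]
    · exact measure_ne_top _ _
    · intro s t hst
      simp only [Function.onFun, Set.disjoint_singleton]
      exact fun e => hst (Subtype.ext e)
    · intro t
      exact measurableSet_singleton _
  have h2 := ENNReal.tendsto_tsum_compl_atTop_zero h1
  obtain ⟨s, hs⟩ := ((tendsto_order.1 h2).2 ε hε).exists
  refine ⟨s.image Subtype.val, ?_⟩
  refine le_trans ?_ hs.le
  refine le_trans (measure_mono ?_) (measure_iUnion_le (fun b : {x : T // x ∉ s} => {((b : T) : ℝ)}))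
  intro x hx
  rw [Set.mem_iUnion]
  refine ⟨⟨⟨x, hx.1⟩, ?_⟩, rfl⟩
  intro hxs
  apply hx.2
  simp only [Finset.coe_image, Set.mem_image, Finset.mem_coe]
  exact ⟨⟨x, hx.1⟩, hxs, rfl⟩

theorem ap_sing_part (μ : SignedMeasure ℝ) (T : Set ℝ) (hT : T.Countable)
    (h : ∀ K, IsCompact K → volume K = 0 → K ∩ T = ∅ → μ K = 0) :
    (μ.singularPart volume).totalVariation Tᶜ = 0 := by
  have hTm : MeasurableSet T := hT.measurableSet
  have hms : (μ.singularPart volume).totalVariation ⟂ₘ (volume : Measure ℝ) := by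
    rw [SignedMeasure.singularPart_totalVariation]
    exact (Measure.mutuallySingular_singularPart _ _).add_left
      (Measure.mutuallySingular_singularPart _ _)
  obtain ⟨Z, hZm, hZ1, hZ2⟩ := hms
  have h1 : (μ.singularPart volume).totalVariation (Tᶜ ∩ Zᶜ) = 0 := by
    rw [SignedMeasure.totalVariation_eq_variation,
      VectorMeasure.variation_apply_eq_zero (hTm.compl.inter hZm.compl)]
    intro E hE hEm
    have hvE : (volume : Measure ℝ) E = 0 :=
      measure_mono_null (fun x hx => (hE hx).2) hZ2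
    have h2 : μ E = (μ.singularPart volume) E + ((volume : Measure ℝ).withDensityᵥ
        (μ.rnDeriv volume)) E := by
      conv_lhs => rw [← SignedMeasure.singularPart_add_withDensity_rnDeriv_eq (s := μ) (μ := volume)]
      rfl
    have h3 : ((volume : Measure ℝ).withDensityᵥ (μ.rnDeriv volume)) E = 0 := by
      rw [withDensityᵥ_apply (SignedMeasure.integrable_rnDeriv μ volume) hEm,
        Measure.restrict_eq_zero.mpr hvE, integral_zero_measure]
    rw [h3, add_zero] at h2
    rw [← h2]
    by_contra hne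
    have hpos : (0 : ℝ) < |μ E| := abs_pos.mpr hne
    obtain ⟨K, hKE, hK, hKlt⟩ := hEm.exists_isCompact_sdiff_lt (μ := μ.totalVariation)
      (measure_ne_top _ _) (ε := ENNReal.ofReal |μ E|) (by simpa using hpos)
    have hK0 : μ K = 0 := by
      apply h K hK (measure_mono_null hKE hvE)
      rw [Set.eq_empty_iff_forall_notMem]
      intro x hx
      exact (hE (hKE hx.1)).1 hx.2
    have h4 : μ E = μ K + μ (E \ K) := by
      rw [VectorMeasure.of_add_of_sdiff hK.measurableSet hEm hKE]
    have h5 := SignedMeasure.enorm_le_totalVariation μ (E \ K)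
    rw [hK0, zero_add] at h4
    rw [← h4] at h5
    have h6 := h5.trans_lt hKlt
    rw [Real.enorm_eq_ofReal_abs] at h6
    exact lt_irrefl _ h6
  have h2 : Tᶜ ⊆ Z ∪ (Tᶜ ∩ Zᶜ) := by
    intro x hx
    by_cases hxZ : x ∈ Z
    · exact Or.inl hxZ
    · exact Or.inr ⟨hx, hxZ⟩
  refine measure_mono_null h2 ?_
  exact measure_union_null hZ1 h1

theorem ap_partition (R : ℝ) (hR : 0 < R) (δ : ℝ) (hδ : 0 < δ) (T1 : Finset ℝ) :
    ∃ (n : ℕ) (x : ℕ → ℝ), Monotone x ∧ x 0 = -R ∧ x n = R ∧ (∀ i, x (i + 1) - x i ≤ δ) ∧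
      (∀ t ∈ T1, ∀ i, t ∉ Ioo (x i) (x (i + 1))) := by
  classical
  induction T1 using Finset.induction_on with
  | empty =>
    obtain ⟨n, hn⟩ := exists_nat_gt (2 * R / δ)
    refine ⟨n, fun i => min R (-R + i * δ), ?_, ?_, ?_, ?_, ?_⟩
    · apply monotone_nat_of_le_succ
      intro i
      apply min_le_min_left
      push_cast
      nlinarith
    · simp only [Nat.cast_zero, zero_mul, add_zero]
      exact min_eq_right (by linarith)
    · apply min_eq_left
      rw [div_lt_iff₀ hδ] at hn
      linarith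
    · intro i
      push_cast
      rcases le_total R (-R + i * δ) with h | h
      · rw [min_eq_left h, min_eq_left (by nlinarith)]
        linarith
      · rw [min_eq_right h]
        have := min_le_right R (-R + ((i : ℝ) + 1) * δ)
        linarith
    · intro t ht
      simp at ht
  | insert t s hts ih =>
    obtain ⟨n, x, hx, hx0, hxn, hgap, hav⟩ := ih
    have hc1 : ∀ k, x k ≤ max (x k) (min t (x (k + 1))) := fun k => le_max_left _ _
    have hc2 : ∀ k, max (x k) (min t (x (k + 1))) ≤ x (k + 1) := fun k =>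
      max_le (hx (Nat.le_succ k)) (min_le_right _ _)
    let y : ℕ → ℝ := fun j => if j % 2 = 0 then x (j / 2) else max (x (j / 2)) (min t (x (j / 2 + 1)))
    have hy0 : ∀ k, y (2 * k) = x k := by
      intro k
      have h1 : (2 * k) % 2 = 0 := by omega
      have h2 : (2 * k) / 2 = k := by omega
      simp only [y, h1, h2, if_true]
    have hy1 : ∀ k, y (2 * k + 1) = max (x k) (min t (x (k + 1))) := by
      intro k
      have h1 : ¬ ((2 * k + 1) % 2 = 0) := by omega
      have h2 : (2 * k + 1) / 2 = k := by omega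
      simp only [y, h1, h2, if_false]
    have hy2 : ∀ k, y (2 * k + 1 + 1) = x (k + 1) := by
      intro k
      rw [show 2 * k + 1 + 1 = 2 * (k + 1) by ring]
      exact hy0 (k + 1)
    refine ⟨2 * n, y, ?_, ?_, ?_, ?_, ?_⟩
    · apply monotone_nat_of_le_succ
      intro j
      rcases Nat.even_or_odd' j with ⟨k, rfl | rfl⟩
      · rw [hy0, hy1]; exact hc1 k
      · rw [hy1, hy2]; exact hc2 k
    · have := hy0 0
      simpa [hx0] using this
    · rw [hy0, hxn]
    · intro j
      rcases Nat.even_or_odd' j with ⟨k, rfl | rfl⟩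
      · rw [hy0, hy1]
        have := hc2 k
        have := hgap k
        linarith
      · rw [hy1, hy2]
        have := hc1 k
        have := hgap k
        linarith
    · intro u hu j
      rcases Finset.mem_insert.mp hu with rfl | hu
      · rcases Nat.even_or_odd' j with ⟨k, rfl | rfl⟩
        · rw [hy0, hy1]
          rintro ⟨h1, h2⟩
          rcases lt_max_iff.mp h2 with h3 | h3
          · exact absurd h1 (not_lt.mpr h3.le)
          · exact absurd (h3.trans_le (min_le_left _ _)) (lt_irrefl _)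
        · rw [hy1, hy2]
          rintro ⟨h1, h2⟩
          rw [min_eq_left h2.le] at h1
          exact absurd ((le_max_right _ _).trans_lt h1) (lt_irrefl _)
      · rcases Nat.even_or_odd' j with ⟨k, rfl | rfl⟩
        · rw [hy0, hy1]
          rintro ⟨h1, h2⟩
          exact hav u hu k ⟨h1, h2.trans_le (hc2 k)⟩
        · rw [hy1, hy2]
          rintro ⟨h1, h2⟩
          exact hav u hu k ⟨(hc1 k).trans_lt h1, h2⟩

theorem ap_sum_measure (K : Measure ℝ) (x : ℕ → ℝ) (hx : Monotone x) (n : ℕ) (D : Set ℝ)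
    (hD : ∀ i < n, Ioo (x i) (x (i + 1)) ⊆ D) :
    ∑ i ∈ Finset.range n, K (Ioo (x i) (x (i + 1))) ≤ K D := by
  rw [← measure_biUnion_finset]
  · apply measure_mono
    intro z hz
    simp only [Set.mem_iUnion, Finset.mem_range] at hz
    obtain ⟨i, hi, hz⟩ := hz
    exact hD i hi hz
  · intro i _ j _ hij
    have key : ∀ a b : ℕ, a < b → Disjoint (Ioo (x a) (x (a + 1))) (Ioo (x b) (x (b + 1))) := by
      intro a b hab
      rw [Set.disjoint_left]
      intro z hz hz'
      have : x (a + 1) ≤ x b := hx hab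
      exact absurd (hz.2.trans_le this) (not_lt.mpr hz'.1.le)
    rcases lt_or_gt_of_ne hij with h | h
    · exact key i j h
    · exact (key j i h).symm
  · intro i _
    exact measurableSet_Ioo

end ApAux

/-- `BV` functions without singular continuous part are approximable in variation by piecewise
affine functions -/
theorem approx_piecewise (F : ℝ → ℝ) (hF : BoundedVariationOn F univ) (T : Set ℝ)
    (hT : T.Countable) (hT' : ∀ x, x ∉ T → ContinuousAt F x)
    (h : ∀ K, IsCompact K → volume K = 0 → K ∩ T = ∅ → hF.vectorMeasure K = 0)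
    (R : ℝ) (hR : 0 < R) (ε : ℝ) (hε : 0 < ε) :
    ∃ (n : ℕ) (x σ : ℕ → ℝ), Monotone x ∧ x 0 = -R ∧ x n = R ∧
      ∑ i ∈ Finset.range n, eVariationOn (fun y => F y - σ i * y) (Ioo (x i) (x (i + 1))) ≤
        ENNReal.ofReal ε := by
  classical
  obtain ⟨μ, hμ⟩ : ∃ μ : SignedMeasure ℝ, μ = hF.vectorMeasure := ⟨_, rfl⟩
  have hsing := ap_sing_part μ T hT (by rw [hμ]; exact h)
  obtain ⟨ν, hν, hνF⟩ := ap_exists_nu F hF
  obtain ⟨TV, hTV⟩ : ∃ TV : Measure ℝ, TV = (μ.singularPart volume).totalVariation := ⟨_, rfl⟩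
  rw [← hTV] at hsing
  have hTVf : IsFiniteMeasure TV := by rw [hTV]; infer_instance
  obtain ⟨ν', hν'⟩ : ∃ ν' : Measure ℝ, ν' = ν.restrict T := ⟨_, rfl⟩
  have hν'f : IsFiniteMeasure ν' := by rw [hν']; infer_instance
  have hTm : MeasurableSet T := hT.measurableSet
  have hν'T : ν' Tᶜ = 0 := by
    rw [hν', Measure.restrict_apply hTm.compl]
    simp
  have hν't : ∀ t, edist (F t) (Function.rightLim F t) ≤ ν' {t} := by
    intro t
    by_cases ht : t ∈ T
    · rw [hν', Measure.restrict_apply (measurableSet_singleton t),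
        Set.inter_eq_left.mpr (Set.singleton_subset_iff.mpr ht)]
      exact hνF t
    · have h1 : Function.rightLim F t = F t := by
        apply tendsto_nhds_unique (hF.tendsto_rightLim t)
        exact (hT' t ht).tendsto.mono_left nhdsWithin_le_nhds
      rw [h1, edist_self]
      exact zero_le
  obtain ⟨T1, hT1⟩ := ap_exists_finset_small (TV + ν' + ν') T hT (ENNReal.ofReal (ε / 4))
    (by simpa using hε)
  have hκ1 : (TV + ν' + ν') (T1 : Set ℝ)ᶜ ≤ ENNReal.ofReal (ε / 4) := by
    have h1 : (T1 : Set ℝ)ᶜ ⊆ (T \ (T1 : Set ℝ)) ∪ Tᶜ := by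
      intro t ht
      by_cases h2 : t ∈ T
      · exact Or.inl ⟨h2, ht⟩
      · exact Or.inr h2
    have h2 : (TV + ν' + ν') Tᶜ = 0 := by
      simp [hsing, hν'T]
    calc (TV + ν' + ν') (T1 : Set ℝ)ᶜ ≤ (TV + ν' + ν') ((T \ (T1 : Set ℝ)) ∪ Tᶜ) := measure_mono h1
      _ ≤ (TV + ν' + ν') (T \ (T1 : Set ℝ)) + (TV + ν' + ν') Tᶜ := measure_union_le _ _
      _ ≤ ENNReal.ofReal (ε / 4) := by rw [h2, add_zero]; exact hT1
  obtain ⟨ρ, hρ⟩ : ∃ ρ : ℝ → ℝ, ρ = μ.rnDeriv volume := ⟨_, rfl⟩
  have hρi : Integrable ρ := by rw [hρ]; exact SignedMeasure.integrable_rnDeriv μ volume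
  obtain ⟨φ, hφc, hφ1, hφcont, hφi⟩ := hρi.exists_hasCompactSupport_lintegral_sub_le
    (ε := ENNReal.ofReal (ε / 4)) (by simpa using hε)
  have huc := hφc.uniformContinuous_of_continuous hφcont
  obtain ⟨δ, hδ, hδφ⟩ := Metric.uniformContinuous_iff.mp huc (ε / (8 * R)) (by positivity)
  obtain ⟨n, x, hx, hx0, hxn, hgap, hav⟩ := ap_partition R hR (δ / 2) (by positivity) T1
  refine ⟨n, x, fun i => φ (x i), hx, hx0, hxn, ?_⟩
  obtain ⟨lam, hlam⟩ : ∃ lam : Measure ℝ, lam = (volume : Measure ℝ).withDensity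
      (fun t => ‖ρ t - φ t‖ₑ + ENNReal.ofReal (ε / (8 * R))) := ⟨_, rfl⟩
  have hmain : ∀ i, eVariationOn (fun y => F y - φ (x i) * y) (Ioo (x i) (x (i + 1))) ≤
      (TV + lam + ν') (Ioo (x i) (x (i + 1))) + ν' (Ioo (x i) (x (i + 1))) := by
    intro i
    apply ap_evar_le_measure
    intro y hy z hz hyz
    have hmid : ‖Function.rightLim F z - Function.rightLim F y - φ (x i) * (z - y)‖ₑ ≤
        TV (Ioc y z) + lam (Ioc y z) := by
      have h1 : Function.rightLim F z - Function.rightLim F y = (μ.singularPart volume) (Ioc y z)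
          + ∫ t in Ioc y z, ρ t := by
        rw [← hF.vectorMeasure_Ioc hyz.le, ← hμ]
        conv_lhs => rw [← SignedMeasure.singularPart_add_withDensity_rnDeriv_eq (s := μ)
          (μ := volume)]
        rw [hρ, ← withDensityᵥ_apply (SignedMeasure.integrable_rnDeriv μ volume) measurableSet_Ioc]
        rfl
      have h2 : φ (x i) * (z - y) = ∫ t in Ioc y z, φ (x i) := by
        rw [integral_const, measureReal_restrict_apply_univ, Real.volume_real_Ioc_of_le hyz.le,
          smul_eq_mul, mul_comm]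
      have h3 : (∫ t in Ioc y z, ρ t) - (∫ t in Ioc y z, φ (x i))
          = ∫ t in Ioc y z, (ρ t - φ (x i)) := by
        rw [integral_sub hρi.integrableOn]
        exact integrableOn_const (by simp)
      rw [h1, h2, add_sub_assoc, h3]
      refine (enorm_add_le _ _).trans (add_le_add ?_ ?_)
      · rw [hTV]
        exact SignedMeasure.enorm_le_totalVariation _ _
      · refine (enorm_integral_le_lintegral_enorm _).trans ?_
        rw [hlam, withDensity_apply _ measurableSet_Ioc]
        apply setLIntegral_mono' measurableSet_Ioc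
        intro t ht
        have h4 : ρ t - φ (x i) = (ρ t - φ t) + (φ t - φ (x i)) := by ring
        rw [h4]
        refine (enorm_add_le _ _).trans (add_le_add le_rfl ?_)
        rw [Real.enorm_eq_ofReal_abs]
        apply ENNReal.ofReal_le_ofReal
        have h5 : dist t (x i) < δ := by
          rw [Real.dist_eq, abs_lt]
          have := hgap i
          have := hy.1
          have := hz.2
          have := ht.1
          have := ht.2
          constructor <;> linarith
        have h6 := hδφ h5
        rw [Real.dist_eq] at h6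
        exact h6.le
    have e1 : (F z - φ (x i) * z) - (F y - φ (x i) * y) = (F z - Function.rightLim F z)
        + (Function.rightLim F z - Function.rightLim F y - φ (x i) * (z - y))
        + (Function.rightLim F y - F y) := by ring
    have hz1 : ‖F z - Function.rightLim F z‖ₑ ≤ ν' (Ioc y z) := by
      rw [← edist_eq_enorm_sub]
      exact (hν't z).trans (measure_mono (Set.singleton_subset_iff.mpr ⟨hyz, le_rfl⟩))
    have hy1 : ‖Function.rightLim F y - F y‖ₑ ≤ ν' (Ico y z) := by
      rw [← edist_eq_enorm_sub, edist_comm]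
      exact (hν't y).trans (measure_mono (Set.singleton_subset_iff.mpr ⟨le_rfl, hyz⟩))
    rw [edist_eq_enorm_sub, e1]
    refine (enorm_add_le _ _).trans (add_le_add ?_ hy1)
    refine (enorm_add_le _ _).trans ?_
    rw [Measure.add_apply, Measure.add_apply, add_comm (TV (Ioc y z) + lam (Ioc y z))]
    exact add_le_add hz1 hmid
  refine (Finset.sum_le_sum (fun i _ => hmain i)).trans ?_
  have hsum : ∀ i, (TV + lam + ν') (Ioo (x i) (x (i + 1))) + ν' (Ioo (x i) (x (i + 1))) =
      ((TV + ν' + ν') + lam) (Ioo (x i) (x (i + 1))) := by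
    intro i
    simp only [Measure.add_apply]
    ring
  simp only [hsum]
  refine (ap_sum_measure ((TV + ν' + ν') + lam) x hx n (Ioo (-R) R ∩ (T1 : Set ℝ)ᶜ) ?_).trans ?_
  · intro i hi t ht
    refine ⟨⟨?_, ?_⟩, ?_⟩
    · have : x 0 ≤ x i := hx (Nat.zero_le i)
      rw [hx0] at this
      exact this.trans_lt ht.1
    · have : x (i + 1) ≤ x n := hx hi
      rw [hxn] at this
      exact ht.2.trans_le this
    · intro ht1
      exact hav t ht1 i ht
  · rw [Measure.add_apply]
    have h1 : (TV + ν' + ν') (Ioo (-R) R ∩ (T1 : Set ℝ)ᶜ) ≤ ENNReal.ofReal (ε / 4) :=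
      (measure_mono Set.inter_subset_right).trans hκ1
    have h2 : lam (Ioo (-R) R ∩ (T1 : Set ℝ)ᶜ) ≤ ENNReal.ofReal (ε / 2) := by
      refine (measure_mono Set.inter_subset_left).trans ?_
      rw [hlam, withDensity_apply _ measurableSet_Ioo,
        lintegral_add_right _ measurable_const, setLIntegral_const, Real.volume_Ioo]
      have h3 : ∫⁻ t in Ioo (-R) R, ‖ρ t - φ t‖ₑ ≤ ENNReal.ofReal (ε / 4) :=
        (setLIntegral_le_lintegral _ _).trans hφ1
      have h4 : ENNReal.ofReal (ε / (8 * R)) * ENNReal.ofReal (R - -R) = ENNReal.ofReal (ε / 4) := by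
        rw [← ENNReal.ofReal_mul (by positivity)]
        congr 1
        field_simp
        norm_num
      rw [h4]
      refine (add_le_add h3 le_rfl).trans ?_
      rw [← ENNReal.ofReal_add (by positivity) (by positivity)]
      apply ENNReal.ofReal_le_ofReal
      linarith
    refine (add_le_add h1 h2).trans ?_
    rw [← ENNReal.ofReal_add (by positivity) (by positivity)]
    apply ENNReal.ofReal_le_ofReal
    linarith

end Pool.Agent.BV653
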