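import Pool.Agent.BV653.Defs
set_option autoImplicit false
open MeasureTheory Set Filter Topology
namespace Pool.Agent.BV653
theorem K_comb_mass {ι κ : Type} (S : Finset ι) (T : Finset κ) (E : ι → Set ℝ) (F : κ → Set ℝ)
    (hE : ∀ i ∈ S, MeasurableSet (E i)) (hF : ∀ j ∈ T, MeasurableSet (F j))
    (hfin : ∀ j ∈ T, volume (F j) ≠ ⊤)
    (h : ∀ l : ℝ, ∑ i ∈ S, (E i).indicator (fun _ => (1 : ENNReal)) l
      ≤ ∑ j ∈ T, (F j).indicator (fun _ => (1 : ENNReal)) l) :
    ∑ i ∈ S, (volume (E i)).toReal ≤ ∑ j ∈ T, (volume (F j)).toReal := by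
  have h1 : ∑ i ∈ S, volume (E i) ≤ ∑ j ∈ T, volume (F j) := by
    have e1 : ∑ i ∈ S, volume (E i)
        = ∫⁻ l, ∑ i ∈ S, (E i).indicator (fun _ => (1 : ENNReal)) l := by
      rw [lintegral_finsetSum' S (fun i hi =>
        (measurable_const.indicator (hE i hi)).aemeasurable)]
      refine Finset.sum_congr rfl fun i hi => ?_
      rw [lintegral_indicator_const (hE i hi), one_mul]
    have e2 : ∑ j ∈ T, volume (F j)
        = ∫⁻ l, ∑ j ∈ T, (F j).indicator (fun _ => (1 : ENNReal)) l := by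
      rw [lintegral_finsetSum' T (fun i hi =>
        (measurable_const.indicator (hF i hi)).aemeasurable)]
      refine Finset.sum_congr rfl fun i hi => ?_
      rw [lintegral_indicator_const (hF i hi), one_mul]
    rw [e1, e2]
    exact lintegral_mono h
  have hT : ∑ j ∈ T, volume (F j) ≠ ⊤ := by
    rw [ENNReal.sum_ne_top]; exact hfin
  have hS : ∀ i ∈ S, volume (E i) ≠ ⊤ := by
    have : ∑ i ∈ S, volume (E i) ≠ ⊤ := ne_top_of_le_ne_top hT h1
    rwa [ENNReal.sum_ne_top] at this
  rw [← ENNReal.toReal_sum hS, ← ENNReal.toReal_sum hfin]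
  exact ENNReal.toReal_mono hT h1

theorem K_comb_meas (n : ℕ) (g φ : ℕ → ℝ) (t : ℕ) : MeasurableSet (Lam n g φ t) := by
  unfold Lam
  rw [measurableSet_setOfPred]
  have hlt : ∀ c : ℝ, Measurable (fun l : ℝ => l < c) := fun c => by
    rw [← measurableSet_setOfPred]; exact measurableSet_Iio
  have hle : ∀ c : ℝ, Measurable (fun l : ℝ => c ≤ l) := fun c => by
    rw [← measurableSet_setOfPred]; exact measurableSet_Ici
  refine Measurable.and (hlt _) (Measurable.exists fun a => Measurable.exists fun b => ?_)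
  refine Measurable.and measurable_const (Measurable.and measurable_const
    (Measurable.and measurable_const (Measurable.and (hle _) (Measurable.and (hle _) ?_))))
  refine Measurable.and (Measurable.forall fun i => Measurable.imp measurable_const
    (Measurable.imp measurable_const (hlt _))) (Measurable.and measurable_const
    (Measurable.and measurable_const (Measurable.forall fun i => Measurable.imp measurable_const
    (Measurable.imp measurable_const (hle _)))))

theorem K_comb_fin (n : ℕ) (g φ : ℕ → ℝ) (t : ℕ) : volume (Lam n g φ t) ≠ ⊤ := by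
  obtain ⟨m, hm⟩ : ∃ m : ℝ, ∀ i ∈ Finset.range (n + 1), m ≤ g i := by
    obtain ⟨k, _, hk⟩ := Finset.exists_min_image (Finset.range (n + 1)) g ⟨0, by simp⟩
    exact ⟨g k, hk⟩
  have hsub : Lam n g φ t ⊆ Ico m (g t) := by
    rintro l ⟨hl, a, b, h1, h2, h3, h4, _⟩
    exact ⟨(hm a (by rw [Finset.mem_range]; omega)).trans h4, hl⟩
  refine ne_top_of_le_ne_top ?_ (measure_mono hsub)
  rw [Real.volume_Ico]
  exact ENNReal.ofReal_ne_top

theorem K_comb_cases (n : ℕ) (g φ e : ℕ → ℝ) (he1 : ∀ i ≤ n, e i ≤ g i)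
    (he3 : ∀ i, i < n → e i ≤ φ (i + 1)) (l : ℝ) (i : ℕ) (hi : i < n) (h1 : g (i + 1) ≤ l)
    (h2 : l < g i) :
    (∀ m, m ≤ i → l < g m) ∨
    (∃ k, k ≤ i + 1 ∧ (∀ m, k ≤ m → m ≤ i → l < g m) ∧ 1 ≤ k ∧ e k ≤ l ∧ l < φ k) ∨
    (∃ t, t ≤ i + 1 ∧ (∀ m, t ≤ m → m ≤ i → l < g m) ∧ l ∈ Lam n g φ t) := by
  by_cases hA : ∀ m, m ≤ i → l < g m
  · exact Or.inl hA
  right
  push Not at hA
  obtain ⟨m0, hm0, hm0'⟩ := hA
  obtain ⟨a, ha1, ha2, ha3⟩ : ∃ a, a < i ∧ g a ≤ l ∧ ∀ m, a < m → m ≤ i → l < g m := by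
    have hne : ((Finset.range (i + 1)).filter (fun m => g m ≤ l)).Nonempty :=
      ⟨m0, by simp only [Finset.mem_filter, Finset.mem_range]; exact ⟨by omega, hm0'⟩⟩
    refine ⟨((Finset.range (i + 1)).filter (fun m => g m ≤ l)).max' hne, ?_, ?_, ?_⟩
    · have := Finset.max'_mem _ hne
      simp only [Finset.mem_filter, Finset.mem_range] at this
      rcases Nat.lt_or_ge (((Finset.range (i + 1)).filter (fun m => g m ≤ l)).max' hne) i with h | h
      · exact h
      · have he : ((Finset.range (i + 1)).filter (fun m => g m ≤ l)).max' hne = i := by omega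
        rw [he] at this
        exact absurd h2 (not_lt.mpr this.2)
    · have := Finset.max'_mem _ hne
      simp only [Finset.mem_filter, Finset.mem_range] at this
      exact this.2
    · intro m hm1 hm2
      by_contra hcon
      push Not at hcon
      have := Finset.le_max' ((Finset.range (i + 1)).filter (fun m => g m ≤ l)) m
        (by simp only [Finset.mem_filter, Finset.mem_range]; exact ⟨by omega, hcon⟩)
      omega
  by_cases hB : ∃ k, a < k ∧ k ≤ i + 1 ∧ l < φ k
  · left
    obtain ⟨k0, hk1, hk2, hk3⟩ := hB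
    have hne : ((Finset.range (i + 2)).filter (fun k => a < k ∧ l < φ k)).Nonempty :=
      ⟨k0, by simp only [Finset.mem_filter, Finset.mem_range]; exact ⟨by omega, hk1, hk3⟩⟩
    set k := ((Finset.range (i + 2)).filter (fun k => a < k ∧ l < φ k)).max' hne with hk
    have hmem := Finset.max'_mem _ hne
    rw [← hk] at hmem
    simp only [Finset.mem_filter, Finset.mem_range] at hmem
    obtain ⟨q1, q2, q3⟩ := hmem
    refine ⟨k, by omega, fun m h3 h4 => ha3 m (by omega) h4, by omega, ?_, q3⟩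
    rcases Nat.lt_or_ge k (i + 1) with h | h
    · have hφ : φ (k + 1) ≤ l := by
        by_contra hcon
        push Not at hcon
        have := Finset.le_max' ((Finset.range (i + 2)).filter (fun k => a < k ∧ l < φ k)) (k + 1)
          (by simp only [Finset.mem_filter, Finset.mem_range]; exact ⟨by omega, by omega, hcon⟩)
        rw [← hk] at this
        omega
      exact (he3 k (by omega)).trans hφ
    · have he : k = i + 1 := by omega
      rw [he]
      exact (he1 (i + 1) (by omega)).trans h1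
  · right
    push Not at hB
    obtain ⟨t1, ht1, ht1'⟩ := Finset.exists_max_image (Finset.Ioc a i) g
      ⟨i, by simp only [Finset.mem_Ioc]; omega⟩
    have hex : ∃ t, t ∈ Finset.Ioc a i ∧ ∀ m ∈ Finset.Ioc a i, g m ≤ g t := ⟨t1, ht1, ht1'⟩
    classical
    obtain ⟨q1, q2⟩ := Nat.find_spec hex
    have q3 : ∀ m, m < Nat.find hex → m ∈ Finset.Ioc a i → g m < g (Nat.find hex) := by
      intro m hm hm2
      have := Nat.find_min hex hm
      push Not at this
      obtain ⟨m', hm', hlt⟩ := this hm2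
      exact hlt.trans_le (q2 m' hm')
    set t := Nat.find hex with ht
    rw [Finset.mem_Ioc] at q1
    have hlt : l < g t := ha3 t q1.1 q1.2
    refine ⟨t, by omega, fun m h3 h4 => ha3 m (by omega) h4, hlt, a, i + 1, q1.1, by omega,
      by omega, ha2, h1, fun j h3 h4 => ha3 j h3 (by omega), ?_, ?_, ?_⟩
    · intro j h3 h4
      exact q3 j h4 (by rw [Finset.mem_Ioc]; omega)
    · intro j h3 h4
      exact q2 j (by rw [Finset.mem_Ioc]; omega)
    · intro j h3 h4
      exact hB j h3 h4

open Classical in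
theorem K_comb_count (n : ℕ) (g φ e : ℕ → ℝ) (B : ℝ)
    (h0 : ∀ i ≤ n, g 0 - g i ≤ B) (he1 : ∀ i ≤ n, e i ≤ g i)
    (he3 : ∀ i, i < n → e i ≤ φ (i + 1)) (l : ℝ) :
    ((Finset.range n).filter (fun i => l ∈ Ico (g (i + 1)) (g i))).card ≤
      (if l ∈ Ico (g 0 - B) (g 0) then 1 else 0) +
      (((Finset.range n).filter (fun i => l ∈ Ico (e (i + 1)) (φ (i + 1)))).card +
        ((Finset.range (n + 1)).filter (fun t => l ∈ Lam n g φ t)).card) := by
  have hinj : ∀ i j k : ℕ, g (i + 1) ≤ l → k ≤ i + 1 → (∀ m, k ≤ m → m ≤ j → l < g m) →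
      ¬ i < j := by
    intro i j k h1 h2 h3 h4
    exact absurd (h3 (i + 1) h2 (by omega)) (not_lt.mpr h1)
  set D := (Finset.range n).filter (fun i => l ∈ Ico (g (i + 1)) (g i)) with hD
  set D0 := D.filter (fun i => ∀ m, m ≤ i → l < g m) with hD0
  set D1 := D.filter (fun i => ∃ k, k ≤ i + 1 ∧ (∀ m, k ≤ m → m ≤ i → l < g m) ∧ 1 ≤ k ∧
    e k ≤ l ∧ l < φ k) with hD1
  set D2 := D.filter (fun i => ∃ t, t ≤ i + 1 ∧ (∀ m, t ≤ m → m ≤ i → l < g m) ∧
    l ∈ Lam n g φ t) with hD2
  have hsub : D ⊆ D0 ∪ (D1 ∪ D2) := by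
    intro i hi
    have hi' := hi
    rw [hD, Finset.mem_filter, Finset.mem_range] at hi'
    rcases K_comb_cases n g φ e he1 he3 l i hi'.1 hi'.2.1 hi'.2.2 with h | h | h
    · exact Finset.mem_union_left _ (Finset.mem_filter.mpr ⟨hi, h⟩)
    · exact Finset.mem_union_right _ (Finset.mem_union_left _ (Finset.mem_filter.mpr ⟨hi, h⟩))
    · exact Finset.mem_union_right _ (Finset.mem_union_right _ (Finset.mem_filter.mpr ⟨hi, h⟩))
  have c0 : D0.card ≤ (if l ∈ Ico (g 0 - B) (g 0) then 1 else 0) := by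
    by_cases hne : D0.Nonempty
    · obtain ⟨i, hi⟩ := hne
      have hi' := hi
      rw [hD0, Finset.mem_filter, hD, Finset.mem_filter, Finset.mem_range] at hi'
      obtain ⟨⟨p1, p2⟩, p3⟩ := hi'
      have hl : l ∈ Ico (g 0 - B) (g 0) := by
        have := h0 (i + 1) (by omega)
        have := p2.1
        exact ⟨by linarith, p3 0 (Nat.zero_le _)⟩
      rw [if_pos hl, Finset.card_le_one]
      intro x hx y hy
      rw [hD0, Finset.mem_filter, hD, Finset.mem_filter, Finset.mem_range] at hx hy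
      have h1 := hinj x y 0 hx.1.2.1 (Nat.zero_le _) (fun m _ hm => hy.2 m hm)
      have h2 := hinj y x 0 hy.1.2.1 (Nat.zero_le _) (fun m _ hm => hx.2 m hm)
      omega
    · rw [Finset.not_nonempty_iff_eq_empty.mp hne, Finset.card_empty]
      exact Nat.zero_le _
  have c1 : D1.card ≤ ((Finset.range n).filter (fun i => l ∈ Ico (e (i + 1)) (φ (i + 1)))).card := by
    have hch : ∀ i ∈ D1, ∃ k, k ≤ i + 1 ∧ (∀ m, k ≤ m → m ≤ i → l < g m) ∧ 1 ≤ k ∧
        e k ≤ l ∧ l < φ k := fun i hi => (Finset.mem_filter.mp hi).2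
    choose! f hf using hch
    refine Finset.card_le_card_of_injOn (fun i => f i - 1) ?_ ?_
    · intro i hi
      obtain ⟨p1, p2, p3, p4, p5⟩ := hf i hi
      have hi' := (Finset.mem_filter.mp hi).1
      rw [hD, Finset.mem_filter, Finset.mem_range] at hi'
      simp only [Finset.coe_filter, Finset.mem_range, Set.mem_ofPred_eq]
      have : f i - 1 + 1 = f i := by omega
      rw [this]
      exact ⟨by omega, p4, p5⟩
    · intro x hx y hy hxy
      obtain ⟨p1, p2, p3, p4, p5⟩ := hf x hx
      obtain ⟨r1, r2, r3, r4, r5⟩ := hf y hy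
      have hxD := (Finset.mem_filter.mp (Finset.mem_coe.mp hx)).1
      have hyD := (Finset.mem_filter.mp (Finset.mem_coe.mp hy)).1
      rw [hD, Finset.mem_filter, Finset.mem_range] at hxD hyD
      have hxy' : f x = f y := by
        have : f x - 1 = f y - 1 := hxy
        omega
      have h1 := hinj x y (f x) hxD.2.1 p1 (fun m hm hm2 => r2 m (by omega) hm2)
      have h2 := hinj y x (f y) hyD.2.1 r1 (fun m hm hm2 => p2 m (by omega) hm2)
      omega
  have c2 : D2.card ≤ ((Finset.range (n + 1)).filter (fun t => l ∈ Lam n g φ t)).card := by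
    have hch : ∀ i ∈ D2, ∃ t, t ≤ i + 1 ∧ (∀ m, t ≤ m → m ≤ i → l < g m) ∧
        l ∈ Lam n g φ t := fun i hi => (Finset.mem_filter.mp hi).2
    choose! f hf using hch
    refine Finset.card_le_card_of_injOn f ?_ ?_
    · intro i hi
      obtain ⟨p1, p2, p3⟩ := hf i hi
      have hi' := (Finset.mem_filter.mp hi).1
      rw [hD, Finset.mem_filter, Finset.mem_range] at hi'
      simp only [Finset.coe_filter, Finset.mem_range, Set.mem_ofPred_eq]
      exact ⟨by omega, p3⟩
    · intro x hx y hy hxy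
      obtain ⟨p1, p2, p3⟩ := hf x hx
      obtain ⟨r1, r2, r3⟩ := hf y hy
      have hxD := (Finset.mem_filter.mp (Finset.mem_coe.mp hx)).1
      have hyD := (Finset.mem_filter.mp (Finset.mem_coe.mp hy)).1
      rw [hD, Finset.mem_filter, Finset.mem_range] at hxD hyD
      have hxy' : f x = f y := hxy
      have h1 := hinj x y (f x) hxD.2.1 p1 (fun m hm hm2 => r2 m (by omega) hm2)
      have h2 := hinj y x (f y) hyD.2.1 r1 (fun m hm hm2 => p2 m (by omega) hm2)
      omega
  calc D.card ≤ (D0 ∪ (D1 ∪ D2)).card := Finset.card_le_card hsub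
    _ ≤ D0.card + (D1 ∪ D2).card := Finset.card_union_le _ _
    _ ≤ D0.card + (D1.card + D2.card) := Nat.add_le_add_left (Finset.card_union_le _ _) _
    _ ≤ _ := by omega

open Classical in
theorem K_comb_ind {ι : Type} (S : Finset ι) (E : ι → Set ℝ) (l : ℝ) :
    ∑ i ∈ S, (E i).indicator (fun _ => (1 : ENNReal)) l
      = ((S.filter (fun i => l ∈ E i)).card : ENNReal) := by
  rw [Finset.card_filter]
  push_cast
  refine Finset.sum_congr rfl fun i _ => ?_
  by_cases h : l ∈ E i
  · simp [h]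
  · simp [h]

/-- combinatorial decomposition of the total fall of a finite sequence -/
theorem K_comb (n : ℕ) (g φ e : ℕ → ℝ) (B : ℝ) (hB : 0 ≤ B)
    (h0 : ∀ i ≤ n, g 0 - g i ≤ B) (he1 : ∀ i ≤ n, e i ≤ g i)
    (he2 : ∀ i, 1 ≤ i → i ≤ n → e i ≤ φ i) (he3 : ∀ i, i < n → e i ≤ φ (i + 1)) :
    ∑ i ∈ Finset.range n, max (g i - g (i + 1)) 0 ≤
      B + ∑ i ∈ Finset.range n, (φ (i + 1) - e (i + 1)) +
        ∑ t ∈ Finset.range (n + 1), (volume (Lam n g φ t)).toReal := by
  classical
  set F : Unit ⊕ (ℕ ⊕ ℕ) → Set ℝ := fun s => match s with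
    | Sum.inl _ => Ico (g 0 - B) (g 0)
    | Sum.inr (Sum.inl i) => Ico (e (i + 1)) (φ (i + 1))
    | Sum.inr (Sum.inr t) => Lam n g φ t with hF
  have hm := K_comb_mass (Finset.range n)
    (({()} : Finset Unit).disjSum ((Finset.range n).disjSum (Finset.range (n + 1))))
    (fun i => Ico (g (i + 1)) (g i)) F (fun _ _ => measurableSet_Ico)
    (by
      rintro (s | s | s) _
      · exact measurableSet_Ico
      · exact measurableSet_Ico
      · exact K_comb_meas n g φ s)
    (by
      rintro (s | s | s) _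
      · show volume (Ico _ _) ≠ ⊤
        rw [Real.volume_Ico]; exact ENNReal.ofReal_ne_top
      · show volume (Ico _ _) ≠ ⊤
        rw [Real.volume_Ico]; exact ENNReal.ofReal_ne_top
      · exact K_comb_fin n g φ s)
    (by
      intro l
      rw [Finset.sum_disjSum, Finset.sum_disjSum, Finset.sum_singleton,
        K_comb_ind, K_comb_ind (Finset.range n) (fun i => F (Sum.inr (Sum.inl i))),
        K_comb_ind (Finset.range (n + 1)) (fun i => F (Sum.inr (Sum.inr i)))]
      have h := K_comb_count n g φ e B h0 he1 he3 l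
      have h1 : (F (Sum.inl ())).indicator (fun _ => (1 : ENNReal)) l
          = ((if l ∈ Ico (g 0 - B) (g 0) then 1 else 0 : ℕ) : ENNReal) := by
        by_cases hl : l ∈ Ico (g 0 - B) (g 0)
        · rw [if_pos hl]
          rw [Set.indicator_of_mem (show l ∈ F (Sum.inl ()) from hl)]
          norm_num
        · rw [if_neg hl]
          rw [Set.indicator_of_notMem (show l ∉ F (Sum.inl ()) from hl)]
          norm_num
      rw [h1]
      refine le_trans (Nat.cast_le.mpr (le_trans (le_of_eq (congrArg Finset.card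
        (by ext x; simp only [Finset.mem_filter]))) h)) ?_
      rw [Nat.cast_add, Nat.cast_add]
      refine add_le_add le_rfl (add_le_add ?_ ?_)
      · exact Nat.cast_le.mpr (le_of_eq (congrArg Finset.card
          (by ext x; simp only [Finset.mem_filter, hF])))
      · exact Nat.cast_le.mpr (le_of_eq (congrArg Finset.card
          (by ext x; simp only [Finset.mem_filter, hF]))))
  rw [Finset.sum_disjSum, Finset.sum_disjSum, Finset.sum_singleton] at hm
  have e0 : ∀ x y : ℝ, (volume (Ico x y)).toReal = max (y - x) 0 := by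
    intro x y
    rw [Real.volume_Ico, ENNReal.toReal_ofReal']
  have e1 : ∑ i ∈ Finset.range n, (volume (Ico (g (i + 1)) (g i))).toReal
      = ∑ i ∈ Finset.range n, max (g i - g (i + 1)) 0 :=
    Finset.sum_congr rfl fun i _ => e0 _ _
  have e2 : (volume (F (Sum.inl ()))).toReal = B := by
    show (volume (Ico (g 0 - B) (g 0))).toReal = B
    rw [e0, sub_sub_cancel, max_eq_left hB]
  have e3 : ∑ i ∈ Finset.range n, (volume (F (Sum.inr (Sum.inl i)))).toReal
      = ∑ i ∈ Finset.range n, (φ (i + 1) - e (i + 1)) := by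
    refine Finset.sum_congr rfl fun i hi => ?_
    rw [Finset.mem_range] at hi
    show (volume (Ico (e (i + 1)) (φ (i + 1)))).toReal = _
    rw [e0, max_eq_left]
    have := he2 (i + 1) (by omega) (by omega)
    linarith
  rw [e1, e2, e3] at hm
  have e4 : ∑ t ∈ Finset.range (n + 1), (volume (F (Sum.inr (Sum.inr t)))).toReal
      = ∑ t ∈ Finset.range (n + 1), (volume (Lam n g φ t)).toReal := rfl
  rw [e4] at hm
  linarith

end Pool.Agent.BV653
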