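import Pool.Agent.BV653.Defs
set_option autoImplicit false
open MeasureTheory Set Filter Topology
namespace Pool.Agent.BV653
theorem VL_avg (f : ℝ → ℝ) (c r l : ℝ) (hr : 0 < r) (h : A f c r ≤ l) :
    ∫ t in (c - r)..(c + r), f t ≤ l * (2 * r) := by
  unfold A at h
  have h2 : (0:ℝ) < 2 * r := by linarith
  rw [inv_mul_le_iff₀ h2] at h
  linarith

theorem VL_exist (f : ℝ → ℝ) (hf : ∀ a b, IntervalIntegrable f volume a b) (a b c : ℝ)
    (hab : a ≤ b) (h : c * (b - a) < ∫ t in a..b, f t) : ∃ t ∈ Icc a b, c ≤ f t := by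
  by_contra hcon
  push Not at hcon
  have h1 : ∫ t in a..b, f t ≤ ∫ _t in a..b, c :=
    intervalIntegral.integral_mono_on hab (hf a b) (by simp) (fun t ht => (hcon t ht).le)
  simp at h1
  linarith

theorem VL_le (f : ℝ → ℝ) (hf : ∀ a b, IntervalIntegrable f volume a b) (p q l : ℝ)
    (hle : ∀ᵐ y, y ∈ Ioo p q → f y ≤ l) (a b : ℝ) (hpa : p ≤ a) (hab : a ≤ b) (hbq : b ≤ q) :
    ∫ t in a..b, f t ≤ l * (b - a) := by
  have h1 : ∫ t in a..b, f t ≤ ∫ _t in a..b, l := by
    refine intervalIntegral.integral_mono_ae_restrict hab (hf a b) (by simp) ?_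
    rw [Filter.EventuallyLE, ae_restrict_iff' measurableSet_Icc]
    have hp : ∀ᵐ y : ℝ, y ≠ p := by simp [ae_iff]
    have hq : ∀ᵐ y : ℝ, y ≠ q := by simp [ae_iff]
    filter_upwards [hle, hp, hq] with y hy hyp hyq hmem
    apply hy
    exact ⟨lt_of_le_of_ne (hpa.trans hmem.1) (Ne.symm hyp), lt_of_le_of_ne (hmem.2.trans hbq) hyq⟩
  simp at h1
  linarith

/-- a window of a type II peak produces a fat valley -/
theorem VL (f : ℝ → ℝ) (hf : ∀ a b, IntervalIntegrable f volume a b) (p x q ω l h ℓ : ℝ)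
    (hpx : p < x) (hxq : x < q) (hh : 0 < h) (hℓ : 0 < ℓ) (hω1 : 8 * ℓ < ω) (hω2 : ω ≤ 16 * ℓ)
    (hp : ∀ r > 0, x - ω ≤ p - r → p + r ≤ x + ω → A f p r ≤ l)
    (hq : ∀ r > 0, x - ω ≤ q - r → q + r ≤ x + ω → A f q r ≤ l)
    (hle : ∀ᵐ y, y ∈ Ioo p q → f y ≤ l) (hx : l + h ≤ A f x ω) :
    ∃ s u v t : ℝ, x - ω ≤ s ∧ s ≤ u ∧ u + ℓ ≤ v ∧ v ≤ t ∧ t ≤ x + ω ∧
      l + h ≤ f s ∧ l + h ≤ f t ∧ ∫ y in u..v, f y ≤ l * (v - u) := by
  have hω : 0 < ω := by linarith
  have hωh : 0 < ω * h := mul_pos hω hh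
  -- the main integral
  have hI : (l + h) * (2 * ω) ≤ ∫ t in (x - ω)..(x + ω), f t := by
    unfold A at hx
    have h2 : (0:ℝ) < 2 * ω := by linarith
    rw [le_inv_mul_iff₀ h2] at hx
    linarith
  have add : ∀ a b c : ℝ, (∫ t in a..b, f t) + ∫ t in b..c, f t = ∫ t in a..c, f t :=
    fun a b c => intervalIntegral.integral_add_adjacent_intervals (hf a b) (hf b c)
  have hleI := VL_le f hf p q l hle
  have hpI : ∀ r > 0, x - ω ≤ p - r → p + r ≤ x + ω → ∫ t in (p - r)..(p + r), f t ≤ l * (2 * r) :=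
    fun r hr h1 h2 => VL_avg f p r l hr (hp r hr h1 h2)
  have hqI : ∀ r > 0, x - ω ≤ q - r → q + r ≤ x + ω → ∫ t in (q - r)..(q + r), f t ≤ l * (2 * r) :=
    fun r hr h1 h2 => VL_avg f q r l hr (hq r hr h1 h2)
  -- Step 1
  have hLp : x - ω < p := by
    by_contra hc
    push Not at hc
    rcases le_or_gt (x + ω) q with hR | hR
    · have := hleI (x - ω) (x + ω) hc (by linarith) hR
      nlinarith
    · have h1 := hqI (x + ω - q) (by linarith) (by linarith) (by linarith)
      have e1 : q + (x + ω - q) = x + ω := by ring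
      have e2 : q - (x + ω - q) = 2 * q - (x + ω) := by ring
      rw [e1, e2] at h1
      have h2 := hleI (x - ω) (2 * q - (x + ω)) hc (by linarith) (by linarith)
      have h3 := add (x - ω) (2 * q - (x + ω)) (x + ω)
      nlinarith
  have hqR : q < x + ω := by
    by_contra hc
    push Not at hc
    have h1 := hpI (p - (x - ω)) (by linarith) (by linarith) (by linarith)
    have e1 : p - (p - (x - ω)) = x - ω := by ring
    have e2 : p + (p - (x - ω)) = 2 * p - (x - ω) := by ring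
    rw [e1, e2] at h1
    have h2 := hleI (2 * p - (x - ω)) (x + ω) (by linarith) (by linarith) hc
    have h3 := add (x - ω) (2 * p - (x - ω)) (x + ω)
    nlinarith
  -- Step 2: t
  obtain ⟨t, ⟨ht1, ht2⟩, ht3⟩ : ∃ t ∈ Icc (max q (2 * p - (x - ω))) (x + ω), l + h ≤ f t := by
    apply VL_exist f hf
    · exact max_le hqR.le (by linarith)
    · have h1 := hpI (p - (x - ω)) (by linarith) (by linarith) (by linarith)
      have e1 : p - (p - (x - ω)) = x - ω := by ring
      have e2 : p + (p - (x - ω)) = 2 * p - (x - ω) := by ring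
      rw [e1, e2] at h1
      have h3 := add (x - ω) (2 * p - (x - ω)) (x + ω)
      rcases le_total q (2 * p - (x - ω)) with hc | hc
      · rw [max_eq_right hc]
        nlinarith
      · rw [max_eq_left hc]
        have h2 := hleI (2 * p - (x - ω)) q (by linarith) hc le_rfl
        have h4 := add (2 * p - (x - ω)) q (x + ω)
        nlinarith
  have ht4 : q ≤ t := (le_max_left _ _).trans ht1
  have ht5 : 2 * p - (x - ω) ≤ t := (le_max_right _ _).trans ht1
  -- Step 2: s
  obtain ⟨s, ⟨hs1, hs2⟩, hs3⟩ : ∃ s ∈ Icc (x - ω) (min p (2 * q - (x + ω))), l + h ≤ f s := by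
    apply VL_exist f hf
    · exact le_min hLp.le (by linarith)
    · have h1 := hqI (x + ω - q) (by linarith) (by linarith) (by linarith)
      have e1 : q + (x + ω - q) = x + ω := by ring
      have e2 : q - (x + ω - q) = 2 * q - (x + ω) := by ring
      rw [e1, e2] at h1
      have h3 := add (x - ω) (2 * q - (x + ω)) (x + ω)
      rcases le_total p (2 * q - (x + ω)) with hc | hc
      · rw [min_eq_left hc]
        have h2 := hleI p (2 * q - (x + ω)) le_rfl hc (by linarith)
        have h4 := add (x - ω) p (2 * q - (x + ω))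
        nlinarith
      · rw [min_eq_right hc]
        nlinarith
  have hs4 : s ≤ p := hs2.trans (min_le_left _ _)
  have hs5 : s ≤ 2 * q - (x + ω) := hs2.trans (min_le_right _ _)
  -- Step 3
  by_cases hcase : ω / 8 ≤ x - p ∨ ω / 8 ≤ q - x
  · refine ⟨s, p, q, t, hs1, hs4, ?_, ht4, ht2, hs3, ht3, hleI p q le_rfl (by linarith) le_rfl⟩
    rcases hcase with hc | hc <;> linarith
  · push Not at hcase
    obtain ⟨hc1, hc2⟩ := hcase
    refine ⟨s, p - ω / 4, p + ω / 4, t, hs1, by linarith, by linarith, by linarith, ht2, hs3, ht3, ?_⟩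
    have h1 := hpI (ω / 4) (by linarith) (by linarith) (by linarith)
    calc _ ≤ l * (2 * (ω / 4)) := h1
      _ = _ := by ring

end Pool.Agent.BV653
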