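import Pool.Agent.BV653.Defs
set_option autoImplicit false
open MeasureTheory Set Filter Topology
namespace Pool.Agent.BV653
theorem DL1_vfin (U : Set ℝ) (p q : ℝ) : volume (U ∩ Icc p q) ≠ ⊤ := by
  refine ne_top_of_le_ne_top ?_ (measure_mono (Set.inter_subset_right))
  rw [Real.volume_Icc]; exact ENNReal.ofReal_ne_top

theorem DL1_vle (U : Set ℝ) (p q : ℝ) (hpq : p ≤ q) : (volume (U ∩ Icc p q)).toReal ≤ q - p := by
  have h := ENNReal.toReal_mono (by rw [Real.volume_Icc]; exact ENNReal.ofReal_ne_top)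
    (measure_mono (μ := volume) (Set.inter_subset_right (s := U) (t := Icc p q)))
  rwa [Real.volume_Icc, ENNReal.toReal_ofReal (by linarith)] at h

theorem DL1_diff {U U' : Set ℝ} (hU : IsUpperSet U) (hsub : U ⊆ U') (p q : ℝ) :
    (volume ((U' \ U) ∩ Icc p q)).toReal
      = (volume (U' ∩ Icc p q)).toReal - (volume (U ∩ Icc p q)).toReal := by
  have hm : MeasurableSet U := hU.ordConnected.measurableSet
  have h := measure_inter_add_sdiff (μ := volume) (U' ∩ Icc p q) hm
  have e1 : (U' ∩ Icc p q) ∩ U = U ∩ Icc p q := by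
    ext x; constructor
    · rintro ⟨⟨_, h2⟩, h3⟩; exact ⟨h3, h2⟩
    · rintro ⟨h1, h2⟩; exact ⟨⟨hsub h1, h2⟩, h1⟩
  have e2 : (U' ∩ Icc p q) \ U = (U' \ U) ∩ Icc p q := by
    ext x; constructor
    · rintro ⟨⟨h1, h2⟩, h3⟩; exact ⟨⟨h1, h3⟩, h2⟩
    · rintro ⟨⟨h1, h2⟩, h3⟩; exact ⟨⟨h1, h3⟩, h2⟩
  rw [e1, e2] at h
  rw [← h, ENNReal.toReal_add (DL1_vfin _ _ _) (DL1_vfin _ _ _)]
  ring

theorem DL1_contr (θ s p q t : ℝ) (h0 : 0 ≤ θ) (h1 : θ ≤ 1) (hsp : s ≤ p) (hpq : p < q)
    (hqt : q ≤ t) {U U' : Set ℝ} (hU : IsUpperSet U) (hU' : IsUpperSet U') (hsub : U ⊆ U') :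
    cutS θ s p q t U' - cutS θ s p q t U ≤ (volume ((U' \ U) ∩ Icc p q)).toReal / (q - p) := by
  rw [DL1_diff hU hsub]
  have hqp : 0 < q - p := by linarith
  have hL0 : 0 ≤ (volume (U ∩ Icc p q)).toReal := ENNReal.toReal_nonneg
  have hL'0 : 0 ≤ (volume (U' ∩ Icc p q)).toReal := ENNReal.toReal_nonneg
  have hLL : (volume (U ∩ Icc p q)).toReal ≤ (volume (U' ∩ Icc p q)).toReal :=
    ENNReal.toReal_mono (DL1_vfin _ _ _) (measure_mono (Set.inter_subset_inter_left _ hsub))
  rw [sub_div]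
  by_cases ht : t ∈ U
  · have ht' : t ∈ U' := hsub ht
    by_cases hs' : s ∈ U'
    · -- `U'` contains `[p,q]`
      have e : U' ∩ Icc p q = Icc p q :=
        Set.inter_eq_right.mpr (fun x hx => hU' (hsp.trans hx.1) hs')
      have e' : (volume (U' ∩ Icc p q)).toReal = q - p := by
        rw [e, Real.volume_Icc, ENNReal.toReal_ofReal hqp.le]
      rw [e', div_self hqp.ne']
      have c1 : cutS θ s p q t U' = 0 := by
        unfold cutS; rw [if_neg (fun h => h.1 hs')]
      rw [c1]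
      unfold cutS
      split_ifs with h
      · linarith
      · have : (volume (U ∩ Icc p q)).toReal / (q - p) ≤ 1 := by
          rw [div_le_one hqp]; exact DL1_vle U p q hpq.le
        linarith
    · have hs : s ∉ U := fun h => hs' (hsub h)
      unfold cutS
      rw [if_pos ⟨hs', ht'⟩, if_pos ⟨hs, ht⟩]
      linarith
  · have e : U ∩ Icc p q = ∅ := by
      rw [Set.eq_empty_iff_forall_notMem]
      rintro x ⟨hx1, hx2⟩
      exact ht (hU (hx2.2.trans hqt) hx1)
    have c1 : cutS θ s p q t U = 0 := by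
      unfold cutS; rw [if_neg (fun h => ht h.2)]
    rw [c1, e, measure_empty, ENNReal.toReal_zero, zero_div]
    unfold cutS
    have : 0 ≤ (volume (U' ∩ Icc p q)).toReal / (q - p) := div_nonneg hL'0 hqp.le
    split_ifs with h
    · linarith
    · linarith

theorem DL1_geom (K : Finset ℤ) (a : ℤ) (h : ∀ m ∈ K, a + 7 ≤ m) :
    ∑ m ∈ K, (2 : ℝ) ^ (a - m) ≤ 1 / 64 := by
  have hinj : Set.InjOn (fun m : ℤ => (m - a - 7).toNat) K := by
    intro x hx y hy hxy
    have h1 := h x hx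
    have h2 := h y hy
    have h3 : (x - a - 7).toNat = (y - a - 7).toNat := hxy
    omega
  have e : ∑ m ∈ K, (2 : ℝ) ^ (a - m)
      = ∑ i ∈ K.image (fun m : ℤ => (m - a - 7).toNat), (1 / 2 : ℝ) ^ (i + 7) := by
    rw [Finset.sum_image hinj]
    refine Finset.sum_congr rfl fun m hm => ?_
    have h1 := h m hm
    have h2 : ((m - a - 7).toNat : ℤ) = m - a - 7 := Int.toNat_of_nonneg (by omega)
    have h3 : a - m = -(((m - a - 7).toNat + 7 : ℕ) : ℤ) := by push_cast; rw [h2]; ring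
    rw [h3, zpow_neg, zpow_natCast, one_div, inv_pow]
  rw [e]
  have hs : Summable (fun i : ℕ => (1 / 2 : ℝ) ^ (i + 7)) :=
    (summable_nat_add_iff 7).mpr (summable_geometric_of_lt_one (by norm_num) (by norm_num))
  refine (hs.sum_le_tsum _ (fun i _ => by positivity)).trans ?_
  have : ∑' i : ℕ, (1 / 2 : ℝ) ^ (i + 7) = (∑' i : ℕ, (1 / 2 : ℝ) ^ i) * (1 / 2) ^ 7 := by
    rw [← tsum_mul_right]
    refine tsum_congr fun i => ?_
    rw [pow_add]
  rw [this, tsum_geometric_two]
  norm_num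

theorem DL1_key {ι : Type*} [DecidableEq ι] (T : Finset ι) (k : ι → ℤ) (s p q t : ι → ℝ)
    (hsp : ∀ j ∈ T, s j ≤ p j) (hpq : ∀ j ∈ T, p j + (2 : ℝ) ^ k j ≤ q j) (hqt : ∀ j ∈ T, q j ≤ t j)
    (hsep : ∀ i ∈ T, ∀ j ∈ T, i ≠ j →
      (k i = k j ∧ Disjoint (Icc (s i) (t i)) (Icc (s j) (t j))) ∨ k i + 7 ≤ k j ∨ k j + 7 ≤ k i)
    (sa ta : ℝ) (ka : ℤ) (hta : ta - sa ≤ 33 * (2 : ℝ) ^ ka) (hsta : sa ≤ ta)
    (ha : ∀ i ∈ T, (k i = ka ∧ Disjoint (Icc (s i) (t i)) (Icc sa ta)) ∨ ka + 7 ≤ k i)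
    (θ : ι → ℝ) (hθ : ∀ j ∈ T, 0 ≤ θ j ∧ θ j ≤ 1)
    {U U' : Set ℝ} (hU : IsUpperSet U) (hU' : IsUpperSet U') (hsub : U ⊆ U')
    (h1 : ta ∈ U) (h2 : sa ∉ U') :
    ∑ j ∈ T, cutS (θ j) (s j) (p j) (q j) (t j) U'
      - ∑ j ∈ T, cutS (θ j) (s j) (p j) (q j) (t j) U ≤ 1 := by
  have hD : U' \ U ⊆ Icc sa ta := by
    rintro x ⟨hx1, hx2⟩
    constructor
    · by_contra hcon
      push Not at hcon
      exact h2 (hU' hcon.le hx1)
    · by_contra hcon
      push Not at hcon
      exact hx2 (hU hcon.le h1)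
  have hDm : MeasurableSet (U' \ U) :=
    hU'.ordConnected.measurableSet.diff hU.ordConnected.measurableSet
  have hDfin : volume (U' \ U) ≠ ⊤ := by
    refine ne_top_of_le_ne_top ?_ (measure_mono hD)
    rw [Real.volume_Icc]; exact ENNReal.ofReal_ne_top
  have hDv : (volume (U' \ U)).toReal ≤ 33 * (2 : ℝ) ^ ka := by
    have h := ENNReal.toReal_mono (by rw [Real.volume_Icc]; exact ENNReal.ofReal_ne_top)
      (measure_mono (μ := volume) hD)
    rw [Real.volume_Icc, ENNReal.toReal_ofReal (by linarith)] at h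
    exact h.trans hta
  have h2pos : ∀ m : ℤ, (0 : ℝ) < (2 : ℝ) ^ m := fun m => zpow_pos (by norm_num) m
  rw [← Finset.sum_sub_distrib]
  have step1 : ∀ j ∈ T, cutS (θ j) (s j) (p j) (q j) (t j) U'
      - cutS (θ j) (s j) (p j) (q j) (t j) U
      ≤ if ka + 7 ≤ k j then (volume ((U' \ U) ∩ Icc (p j) (q j))).toReal * (2 : ℝ) ^ (-(k j))
        else 0 := by
    intro j hj
    have hp2 := h2pos (k j)
    have hpqj := hpq j hj
    have hc := DL1_contr (θ j) (s j) (p j) (q j) (t j) (hθ j hj).1 (hθ j hj).2 (hsp j hj)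
      (by linarith) (hqt j hj) hU hU' hsub
    refine hc.trans ?_
    split_ifs with h
    · rw [zpow_neg, ← div_eq_mul_inv]
      exact div_le_div_of_nonneg_left ENNReal.toReal_nonneg hp2 (by linarith)
    · rcases ha j hj with ⟨_, hdis⟩ | h'
      · have e : (U' \ U) ∩ Icc (p j) (q j) = ∅ := by
          rw [Set.eq_empty_iff_forall_notMem]
          rintro x ⟨hx1, hx2⟩
          exact Set.disjoint_left.mp hdis
            ⟨(hsp j hj).trans hx2.1, hx2.2.trans (hqt j hj)⟩ (hD hx1)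
        rw [e, measure_empty, ENNReal.toReal_zero, zero_div]
      · exact absurd h' h
  refine (Finset.sum_le_sum step1).trans ?_
  rw [← Finset.sum_filter]
  set T2 := T.filter (fun j => ka + 7 ≤ k j) with hT2
  have hT2m : ∀ j ∈ T2, j ∈ T ∧ ka + 7 ≤ k j := fun j hj => Finset.mem_filter.mp hj
  rw [← Finset.sum_fiberwise_of_maps_to (t := T2.image k) (g := k)
    (fun j hj => Finset.mem_image_of_mem k hj)]
  have step2 : ∀ K ∈ T2.image k, ∑ j ∈ T2.filter (fun j => k j = K),
      (volume ((U' \ U) ∩ Icc (p j) (q j))).toReal * (2 : ℝ) ^ (-(k j))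
      ≤ 33 * (2 : ℝ) ^ (ka - K) := by
    intro K _
    have e1 : ∑ j ∈ T2.filter (fun j => k j = K),
        (volume ((U' \ U) ∩ Icc (p j) (q j))).toReal * (2 : ℝ) ^ (-(k j))
        = (∑ j ∈ T2.filter (fun j => k j = K),
          (volume ((U' \ U) ∩ Icc (p j) (q j))).toReal) * (2 : ℝ) ^ (-K) := by
      rw [Finset.sum_mul]
      refine Finset.sum_congr rfl fun j hj => ?_
      rw [(Finset.mem_filter.mp hj).2]
    have e2 : ∑ j ∈ T2.filter (fun j => k j = K),
        (volume ((U' \ U) ∩ Icc (p j) (q j))).toReal ≤ (volume (U' \ U)).toReal := by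
      rw [← ENNReal.toReal_sum (fun j _ => DL1_vfin _ _ _)]
      rw [← measure_biUnion_finset]
      · exact ENNReal.toReal_mono hDfin (measure_mono
          (Set.iUnion₂_subset fun j _ => Set.inter_subset_left))
      · intro i hi j hj hij
        rw [Finset.mem_coe, Finset.mem_filter] at hi hj
        have hi2 := hT2m i hi.1
        have hj2 := hT2m j hj.1
        have hdis : Disjoint (Icc (s i) (t i)) (Icc (s j) (t j)) := by
          rcases hsep i hi2.1 j hj2.1 hij with h | h | h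
          · exact h.2
          · have := hi.2; have := hj.2; omega
          · have := hi.2; have := hj.2; omega
        refine Set.disjoint_left.mpr ?_
        rintro x ⟨_, hx1⟩ ⟨_, hx2⟩
        exact Set.disjoint_left.mp hdis
          ⟨(hsp i hi2.1).trans hx1.1, hx1.2.trans (hqt i hi2.1)⟩
          ⟨(hsp j hj2.1).trans hx2.1, hx2.2.trans (hqt j hj2.1)⟩
      · intro j _
        exact hDm.inter measurableSet_Icc
    rw [e1]
    calc _ ≤ (33 * (2 : ℝ) ^ ka) * (2 : ℝ) ^ (-K) :=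
          mul_le_mul_of_nonneg_right (e2.trans hDv) (h2pos _).le
      _ = 33 * (2 : ℝ) ^ (ka - K) := by
          rw [mul_assoc, ← zpow_add₀ (by norm_num : (2 : ℝ) ≠ 0), sub_eq_add_neg]
  refine (Finset.sum_le_sum step2).trans ?_
  rw [← Finset.mul_sum]
  have := DL1_geom (T2.image k) ka (by
    intro m hm
    obtain ⟨j, hj, rfl⟩ := Finset.mem_image.mp hm
    exact (hT2m j hj).2)
  linarith

/-- greedy choice of the parameters of a lacunary separated family of valleys -/
theorem DL1 {ι : Type*} [DecidableEq ι] (T : Finset ι) (k : ι → ℤ) (s p q t : ι → ℝ)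
    (hsp : ∀ j ∈ T, s j ≤ p j) (hpq : ∀ j ∈ T, p j + (2 : ℝ) ^ k j ≤ q j) (hqt : ∀ j ∈ T, q j ≤ t j)
    (hts : ∀ j ∈ T, t j - s j ≤ 33 * (2 : ℝ) ^ k j)
    (hsep : ∀ i ∈ T, ∀ j ∈ T, i ≠ j →
      (k i = k j ∧ Disjoint (Icc (s i) (t i)) (Icc (s j) (t j))) ∨ k i + 7 ≤ k j ∨ k j + 7 ≤ k i) :
    ∃ θ : ι → ℝ, (∀ j ∈ T, 0 ≤ θ j ∧ θ j ≤ 1) ∧
      ∀ U : Set ℝ, IsUpperSet U → 0 ≤ ∑ j ∈ T, cutS (θ j) (s j) (p j) (q j) (t j) U ∧
        ∑ j ∈ T, cutS (θ j) (s j) (p j) (q j) (t j) U ≤ 2 := by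
  induction T using Finset.induction_on_min_value k with
  | empty =>
    refine ⟨fun _ => 0, fun j hj => absurd hj (by simp), fun U _ => ?_⟩
    simp
  | insert a T haT hmin ih =>
    obtain ⟨θ', hθ', hS⟩ := ih (fun j hj => hsp j (Finset.mem_insert_of_mem hj))
      (fun j hj => hpq j (Finset.mem_insert_of_mem hj))
      (fun j hj => hqt j (Finset.mem_insert_of_mem hj))
      (fun j hj => hts j (Finset.mem_insert_of_mem hj))
      (fun i hi j hj => hsep i (Finset.mem_insert_of_mem hi) j (Finset.mem_insert_of_mem hj))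
    have hsp' : ∀ j ∈ T, s j ≤ p j := fun j hj => hsp j (Finset.mem_insert_of_mem hj)
    have hpq' : ∀ j ∈ T, p j + (2 : ℝ) ^ k j ≤ q j := fun j hj => hpq j (Finset.mem_insert_of_mem hj)
    have hqt' : ∀ j ∈ T, q j ≤ t j := fun j hj => hqt j (Finset.mem_insert_of_mem hj)
    have hsep' : ∀ i ∈ T, ∀ j ∈ T, i ≠ j →
      (k i = k j ∧ Disjoint (Icc (s i) (t i)) (Icc (s j) (t j))) ∨ k i + 7 ≤ k j ∨ k j + 7 ≤ k i :=
      fun i hi j hj => hsep i (Finset.mem_insert_of_mem hi) j (Finset.mem_insert_of_mem hj)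
    have haI := Finset.mem_insert_self a T
    have hsa := hsp a haI
    have hpa := hpq a haI
    have hqa := hqt a haI
    have hta := hts a haI
    have h2a : (0 : ℝ) < (2 : ℝ) ^ k a := zpow_pos (by norm_num) _
    have hqpa : 0 < q a - p a := by linarith
    have ha : ∀ i ∈ T, (k i = k a ∧ Disjoint (Icc (s i) (t i)) (Icc (s a) (t a))) ∨
        k a + 7 ≤ k i := by
      intro i hi
      have hne : i ≠ a := fun h => haT (h ▸ hi)
      rcases hsep i (Finset.mem_insert_of_mem hi) a haI hne with h | h | h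
      · exact Or.inl h
      · have := hmin i hi; omega
      · exact Or.inr h
    set S : Set ℝ → ℝ := fun U => ∑ j ∈ T, cutS (θ' j) (s j) (p j) (q j) (t j) U with hSdef
    have hkey : ∀ U U' : Set ℝ, IsUpperSet U → IsUpperSet U' → U ⊆ U' → t a ∈ U → s a ∉ U' →
        S U' - S U ≤ 1 := fun U U' hU hU' hsub h1 h2 =>
      DL1_key T k s p q t hsp' hpq' hqt' hsep' (s a) (t a) (k a) hta (by linarith) ha θ' hθ'
        hU hU' hsub h1 h2
    set τ : Set ℝ → ℝ := fun U => 1 - (volume (U ∩ Icc (p a) (q a))).toReal / (q a - p a) with hτ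
    have hτ0 : ∀ U, 0 ≤ τ U := by
      intro U
      have : (volume (U ∩ Icc (p a) (q a))).toReal / (q a - p a) ≤ 1 := by
        rw [div_le_one hqpa]; exact DL1_vle U _ _ (by linarith)
      simp only [hτ]; linarith
    have hτ1 : ∀ U, τ U ≤ 1 := by
      intro U
      have : 0 ≤ (volume (U ∩ Icc (p a) (q a))).toReal / (q a - p a) :=
        div_nonneg ENNReal.toReal_nonneg hqpa.le
      simp only [hτ]; linarith
    have hτm : ∀ U U' : Set ℝ, U ⊆ U' → τ U' ≤ τ U := by
      intro U U' hsub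
      have : (volume (U ∩ Icc (p a) (q a))).toReal / (q a - p a)
          ≤ (volume (U' ∩ Icc (p a) (q a))).toReal / (q a - p a) :=
        div_le_div_of_nonneg_right (ENNReal.toReal_mono (DL1_vfin _ _ _)
          (measure_mono (Set.inter_subset_inter_left _ hsub))) hqpa.le
      simp only [hτ]; linarith
    set W : Set ℝ := insert 0 {y | ∃ U : Set ℝ, IsUpperSet U ∧ s a ∉ U ∧ t a ∈ U ∧ y = τ U - S U}
      with hW
    have hWne : W.Nonempty := ⟨0, Set.mem_insert _ _⟩
    have hW1 : ∀ y ∈ W, y ≤ 1 := by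
      rintro y (rfl | ⟨U, hU, h1, h2, rfl⟩)
      · norm_num
      · have := hτ1 U
        have := (hS U hU).1
        show τ U - S U ≤ 1
        simp only [hSdef]
        linarith
    have hWb : BddAbove W := ⟨1, fun y hy => hW1 y hy⟩
    set θa := sSup W with hθa
    have hθ0 : 0 ≤ θa := le_csSup hWb (Set.mem_insert _ _)
    have hθ1 : θa ≤ 1 := csSup_le hWne hW1
    have hlow : ∀ U : Set ℝ, IsUpperSet U → s a ∉ U → t a ∈ U → τ U - S U ≤ θa :=
      fun U hU h1 h2 => le_csSup hWb (Set.mem_insert_of_mem _ ⟨U, hU, h1, h2, rfl⟩)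
    have hup : ∀ U' : Set ℝ, IsUpperSet U' → s a ∉ U' → t a ∈ U' → θa ≤ 2 - S U' + τ U' := by
      intro U' hU' h1' h2'
      refine csSup_le hWne ?_
      rintro y (rfl | ⟨U, hU, h1, h2, rfl⟩)
      · have := (hS U' hU').2
        have := hτ0 U'
        show (0 : ℝ) ≤ 2 - S U' + τ U'
        simp only [hSdef]
        linarith
      · rcases hU.total hU' with h | h
        · have e1 := hkey U U' hU hU' h h2 h1'
          have e2 := hτ1 U
          have e3 := hτ0 U'
          linarith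
        · have e1 := hτm U' U h
          have e2 := (hS U' hU').2
          have e3 := (hS U hU).1
          have e4 : S U' ≤ 2 := e2
          have e5 : 0 ≤ S U := e3
          linarith
    refine ⟨Function.update θ' a θa, ?_, ?_⟩
    · intro j hj
      rcases Finset.mem_insert.mp hj with rfl | hj
      · rw [Function.update_self]; exact ⟨hθ0, hθ1⟩
      · have hne : j ≠ a := fun h => haT (h ▸ hj)
        rw [Function.update_of_ne hne]; exact hθ' j hj
    · intro U hU
      have e : ∑ j ∈ insert a T, cutS (Function.update θ' a θa j) (s j) (p j) (q j) (t j) U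
          = cutS θa (s a) (p a) (q a) (t a) U + S U := by
        rw [Finset.sum_insert haT, Function.update_self]
        congr 1
        refine Finset.sum_congr rfl fun j hj => ?_
        have hne : j ≠ a := fun h => haT (h ▸ hj)
        rw [Function.update_of_ne hne]
      rw [e]
      have hS0 : 0 ≤ S U := (hS U hU).1
      have hS2 : S U ≤ 2 := (hS U hU).2
      by_cases hin : s a ∉ U ∧ t a ∈ U
      · have e2 : cutS θa (s a) (p a) (q a) (t a) U = θa - τ U := by
          unfold cutS; rw [if_pos hin]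
        rw [e2]
        have h1 := hlow U hU hin.1 hin.2
        have h2 := hup U hU hin.1 hin.2
        constructor <;> linarith
      · have e2 : cutS θa (s a) (p a) (q a) (t a) U = 0 := by
          unfold cutS; rw [if_neg hin]
        rw [e2]
        constructor <;> linarith

end Pool.Agent.BV653
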