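import Pool.Agent.BV653.Defs
set_option autoImplicit false
open MeasureTheory Set Filter Topology
namespace Pool.Agent.BV653
theorem lc_aux (m : ℝ → ℝ) (hm : Monotone m) (p q A B : ℝ) (hpq : p < q) (hAB : A ≤ B)
    (hA : ∀ y ∈ Icc p q, A ≤ m y) (hB : ∀ y ∈ Icc p q, m y ≤ B) :
    ∫ l in A..B, (volume ({z | l < m z} ∩ Icc p q)).toReal = (∫ y in p..q, m y) - (q - p) * A := by
  obtain ⟨μ, hμ⟩ : ∃ μ : Measure ℝ, μ = volume.restrict (Icc p q) := ⟨_, rfl⟩
  have hfin : IsFiniteMeasure μ := by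
    rw [hμ]
    infer_instance
  have hmi : IntegrableOn m (Icc p q) volume :=
    (intervalIntegrable_iff_integrableOn_Icc_of_le hpq.le).1 hm.intervalIntegrable
  have hmi' : Integrable m μ := by
    rw [hμ]
    exact hmi
  have hfi : Integrable (fun y => m y - A) μ := hmi'.sub (integrable_const A)
  have hnn : 0 ≤ᵐ[μ] (fun y => m y - A) := by
    rw [hμ]
    filter_upwards [ae_restrict_mem measurableSet_Icc] with y hy
    exact sub_nonneg.2 (hA y hy)
  have hbd : (fun y => m y - A) ≤ᵐ[μ] (fun _ => B - A) := by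
    rw [hμ]
    filter_upwards [ae_restrict_mem measurableSet_Icc] with y hy
    exact sub_le_sub_right (hB y hy) A
  have h1 := hfi.integral_eq_integral_Ioc_meas_le hnn hbd
  have h2 : ∫ t in Ioc 0 (B - A), μ.real {y | t ≤ m y - A} =
      ∫ t in Ioc 0 (B - A), (volume ({z | t + A < m z} ∩ Icc p q)).toReal := by
    apply integral_congr_ae
    filter_upwards [meas_le_ae_eq_meas_lt μ (volume.restrict (Ioc 0 (B - A)))
      (fun y => m y - A)] with t ht
    have h3 : μ.real {y | t ≤ m y - A} = (μ {y | t < m y - A}).toReal := by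
      rw [Measure.real]
      exact congrArg ENNReal.toReal ht
    rw [h3]
    have h4 : {y | t < m y - A} = {z | t + A < m z} := by
      ext y
      simp only [mem_setOf_eq]
      constructor <;> intro h <;> linarith
    have h5 : MeasurableSet {z | t + A < m z} := hm.measurable measurableSet_Ioi
    rw [h4, hμ, Measure.restrict_apply h5]
  rw [h2] at h1
  have h6 : ∫ t in Ioc 0 (B - A), (volume ({z | t + A < m z} ∩ Icc p q)).toReal =
      ∫ t in (0 : ℝ)..(B - A), (volume ({z | t + A < m z} ∩ Icc p q)).toReal := by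
    rw [intervalIntegral.integral_of_le (sub_nonneg.2 hAB)]
  have h7 := intervalIntegral.integral_comp_add_right (a := 0) (b := B - A)
    (fun l => (volume ({z | l < m z} ∩ Icc p q)).toReal) A
  rw [zero_add, sub_add_cancel] at h7
  rw [← h7, ← h6, ← h1]
  rw [hμ, integral_sub hmi (integrable_const A)]
  rw [setIntegral_const, intervalIntegral.integral_of_le hpq.le, integral_Icc_eq_integral_Ioc]
  rw [Measure.real, Real.volume_Icc, ENNReal.toReal_ofReal (sub_nonneg.2 hpq.le), smul_eq_mul]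

theorem lc_anti (m : ℝ → ℝ) (p q : ℝ) :
    Antitone (fun l => (volume ({z | l < m z} ∩ Icc p q)).toReal) := by
  intro l l' h
  apply ENNReal.toReal_mono
  · exact (measure_mono inter_subset_right).trans_lt (by simp) |>.ne
  · apply measure_mono
    intro z hz
    exact ⟨lt_of_le_of_lt h hz.1, hz.2⟩

theorem lc_cut (θ s p q t : ℝ) (hsp : s ≤ p) (hpq : p < q) (hqt : q ≤ t) (m : ℝ → ℝ)
    (hm : Monotone m) (a b : ℝ) (hab : a ≤ b) (ha : ∀ x, a ≤ m x) (hb : ∀ x, m x ≤ b) :
    IntervalIntegrable (fun l => cutS θ s p q t {z | l < m z}) volume a b ∧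
    ((1 - θ) * m t + θ * m s - (q - p)⁻¹ * ∫ y in p..q, m y) =
      - ∫ l in a..b, cutS θ s p q t {z | l < m z} := by
  classical
  have hst : m s ≤ m t := hm (by linarith)
  have hqp : 0 < q - p := by linarith
  obtain ⟨h, hh⟩ : ∃ h : ℝ → ℝ, h = fun l =>
      θ - (1 - (volume ({z | l < m z} ∩ Icc p q)).toReal / (q - p)) := ⟨_, rfl⟩
  have hanti : Antitone h := by
    intro l l' hl
    rw [hh]
    have := div_le_div_of_nonneg_right (lc_anti m p q hl) hqp.le
    simp only at this ⊢
    linarith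
  have hc : (fun l => cutS θ s p q t {z | l < m z}) = (Ico (m s) (m t)).indicator h := by
    funext l
    unfold cutS
    by_cases h1 : l ∈ Ico (m s) (m t)
    · rw [indicator_of_mem h1, if_pos ⟨fun hlt => absurd hlt (not_lt.2 h1.1), h1.2⟩, hh]
    · rw [indicator_of_notMem h1, if_neg]
      rintro ⟨h2, h3⟩
      exact h1 ⟨not_lt.1 h2, h3⟩
  have hint : IntegrableOn h (Ioc a b) volume :=
    (intervalIntegrable_iff_integrableOn_Ioc_of_le hab).1 hanti.intervalIntegrable
  refine ⟨?_, ?_⟩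
  · rw [hc, intervalIntegrable_iff_integrableOn_Ioc_of_le hab]
    exact hint.indicator measurableSet_Ico
  · rw [hc, intervalIntegral.integral_of_le hab, setIntegral_indicator measurableSet_Ico]
    have h1 : (Ioc a b ∩ Ico (m s) (m t) : Set ℝ) =ᵐ[volume] (Ioc (m s) (m t) : Set ℝ) := by
      have h2 : (Ioc a b ∩ Ico (m s) (m t) : Set ℝ) =ᵐ[volume]
          (Ioc a b ∩ Ioc (m s) (m t) : Set ℝ) :=
        (ae_eq_refl _).inter Ico_ae_eq_Ioc
      have h3 : Ioc a b ∩ Ioc (m s) (m t) = Ioc (m s) (m t) :=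
        inter_eq_right.2 (Ioc_subset_Ioc (ha s) (hb t))
      rw [h3] at h2
      exact h2
    rw [setIntegral_congr_set h1, ← intervalIntegral.integral_of_le hst]
    have h4 := lc_aux m hm p q (m s) (m t) hpq hst (fun y hy => hm (hsp.trans hy.1))
      (fun y hy => hm (hy.2.trans hqt))
    have hVi : IntervalIntegrable (fun l => (volume ({z | l < m z} ∩ Icc p q)).toReal) volume
        (m s) (m t) := (lc_anti m p q).intervalIntegrable
    have h5 : ∫ l in (m s)..(m t), h l = (θ - 1) * (m t - m s) + (q - p)⁻¹ *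
        ∫ l in (m s)..(m t), (volume ({z | l < m z} ∩ Icc p q)).toReal := by
      have h6 : h = fun l => (θ - 1) + (q - p)⁻¹ *
          (volume ({z | l < m z} ∩ Icc p q)).toReal := by
        rw [hh]
        funext l
        rw [div_eq_inv_mul]
        ring
      rw [h6, intervalIntegral.integral_add intervalIntegrable_const (hVi.const_mul _),
        intervalIntegral.integral_const_mul, intervalIntegral.integral_const, smul_eq_mul]
      ring
    rw [h5, h4]
    field_simp
    ring

/-- layer cake for the valley functional of a bounded monotone function -/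
theorem layer_cake {ι : Type*} (T : Finset ι) (θ s p q t : ι → ℝ)
    (hsp : ∀ j ∈ T, s j ≤ p j) (hpq : ∀ j ∈ T, p j < q j) (hqt : ∀ j ∈ T, q j ≤ t j)
    (hS : ∀ U : Set ℝ, IsUpperSet U → 0 ≤ ∑ j ∈ T, cutS (θ j) (s j) (p j) (q j) (t j) U ∧
        ∑ j ∈ T, cutS (θ j) (s j) (p j) (q j) (t j) U ≤ 2)
    (m : ℝ → ℝ) (hm : Monotone m) (a b : ℝ) (hab : a ≤ b) (ha : ∀ x, a ≤ m x) (hb : ∀ x, m x ≤ b) :
    -(2 * (b - a)) ≤ ∑ j ∈ T, ((1 - θ j) * m (t j) + θ j * m (s j)
        - (q j - p j)⁻¹ * ∫ y in (p j)..(q j), m y) ∧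
    ∑ j ∈ T, ((1 - θ j) * m (t j) + θ j * m (s j)
        - (q j - p j)⁻¹ * ∫ y in (p j)..(q j), m y) ≤ 0 := by
  have h1 : ∀ j ∈ T, _ := fun j hj => lc_cut (θ j) (s j) (p j) (q j) (t j) (hsp j hj) (hpq j hj)
    (hqt j hj) m hm a b hab ha hb
  have hsum : ∑ j ∈ T, ((1 - θ j) * m (t j) + θ j * m (s j)
        - (q j - p j)⁻¹ * ∫ y in (p j)..(q j), m y) =
      - ∫ l in a..b, ∑ j ∈ T, cutS (θ j) (s j) (p j) (q j) (t j) {z | l < m z} := by
    rw [intervalIntegral.integral_finsetSum (fun j hj => (h1 j hj).1), ← Finset.sum_neg_distrib]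
    exact Finset.sum_congr rfl fun j hj => (h1 j hj).2
  have hup : ∀ l : ℝ, IsUpperSet {z | l < m z} := fun l z z' hz hl =>
    lt_of_lt_of_le hl (hm hz)
  have hii : IntervalIntegrable (fun l => ∑ j ∈ T, cutS (θ j) (s j) (p j) (q j) (t j)
      {z | l < m z}) volume a b := by
    have := IntervalIntegrable.sum T (fun j hj => (h1 j hj).1)
    refine this.congr ?_
    intro l _
    exact Finset.sum_apply _ _ _
  have hlow : 0 ≤ ∫ l in a..b, ∑ j ∈ T, cutS (θ j) (s j) (p j) (q j) (t j) {z | l < m z} :=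
    intervalIntegral.integral_nonneg hab fun l _ => (hS _ (hup l)).1
  have hhigh : ∫ l in a..b, ∑ j ∈ T, cutS (θ j) (s j) (p j) (q j) (t j) {z | l < m z} ≤
      2 * (b - a) := by
    have h2 := intervalIntegral.integral_mono_on hab hii
      (intervalIntegrable_const (c := (2 : ℝ))) fun l _ => (hS _ (hup l)).2
    rw [intervalIntegral.integral_const, smul_eq_mul] at h2
    linarith
  rw [hsum]
  constructor <;> linarith

end Pool.Agent.BV653
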