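import Pool.Agent.BV653.Defs
import Pool.Agent.BV653.K6
import Pool.Agent.BV653.K7
set_option autoImplicit false
open MeasureTheory Set Filter Topology
namespace Pool.Agent.BV653
/-- sums along samples in `Iic x` -/
def j22244_S (f : ℝ → ℝ) (x : ℝ) : Set ℝ :=
  {c | ∃ (n : ℕ) (y : ℕ → ℝ), Monotone y ∧ (∀ i, y i ≤ x) ∧
    c = ∑ i ∈ Finset.range n, max (f (y i) - f (y (i + 1))) 0}

theorem j22244_ne (f : ℝ → ℝ) (x : ℝ) : (0 : ℝ) ∈ j22244_S f x :=
  ⟨0, fun _ => x, monotone_const, fun _ => le_rfl, by simp⟩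

theorem j22244_bd (f : ℝ → ℝ) (V : ℝ) (hV : FallsLE f univ V) (x : ℝ) :
    ∀ c ∈ j22244_S f x, c ≤ V := by
  rintro c ⟨n, y, hy, _, rfl⟩
  exact hV n y hy (fun i => mem_univ _)

/-- the function: total fall of `f` up to `x` -/
theorem exists_fall_fun (f : ℝ → ℝ) (V : ℝ) (hV : FallsLE f univ V) :
    ∃ N : ℝ → ℝ, Monotone N ∧ (∀ x, 0 ≤ N x ∧ N x ≤ V) ∧ Monotone (fun x => f x + N x) := by
  have hbdd : ∀ x, BddAbove (j22244_S f x) := fun x => ⟨V, j22244_bd f V hV x⟩
  refine ⟨fun x => sSup (j22244_S f x), ?_, ?_, ?_⟩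
  · intro x x' hx
    apply csSup_le_csSup (hbdd x') ⟨0, j22244_ne f x⟩
    rintro c ⟨n, y, hy, hyx, rfl⟩
    exact ⟨n, y, hy, fun i => (hyx i).trans hx, rfl⟩
  · intro x
    exact ⟨le_csSup (hbdd x) (j22244_ne f x), csSup_le ⟨0, j22244_ne f x⟩ (j22244_bd f V hV x)⟩
  · intro x y hxy
    have key : sSup (j22244_S f x) ≤ sSup (j22244_S f y) - (f x - f y) := by
      apply csSup_le ⟨0, j22244_ne f x⟩
      rintro c ⟨n, z, hz, hzx, rfl⟩
      have hmem : (∑ i ∈ Finset.range n, max (f (z i) - f (z (i + 1))) 0)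
          + max (f (z n) - f x) 0 + max (f x - f y) 0 ∈ j22244_S f y := by
        refine ⟨n + 2, fun i => if i ≤ n then z i else if i = n + 1 then x else y, ?_, ?_, ?_⟩
        · apply monotone_nat_of_le_succ
          intro i
          by_cases h1 : i + 1 ≤ n
          · rw [if_pos h1, if_pos (by omega)]
            exact hz (Nat.le_succ i)
          · by_cases h2 : i = n
            · rw [if_pos h2.le, if_neg h1, if_pos (by omega)]
              exact hzx i
            · by_cases h3 : i = n + 1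
              · rw [if_neg (by omega), if_pos h3, if_neg (by omega), if_neg (by omega)]
                exact hxy
              · rw [if_neg (by omega), if_neg h3, if_neg (by omega), if_neg (by omega)]
        · intro i
          dsimp only
          split_ifs
          · exact (hzx i).trans hxy
          · exact hxy
          · exact le_rfl
        · rw [Finset.sum_range_succ, Finset.sum_range_succ]
          have e1 : ∑ i ∈ Finset.range n, max (f (if i ≤ n then z i else if i = n + 1 then x else y)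
              - f (if i + 1 ≤ n then z (i + 1) else if i + 1 = n + 1 then x else y)) 0 =
              ∑ i ∈ Finset.range n, max (f (z i) - f (z (i + 1))) 0 := by
            refine Finset.sum_congr rfl fun i hi => ?_
            have hi' := Finset.mem_range.1 hi
            rw [if_pos (by omega), if_pos (by omega)]
          rw [e1]
          simp
      have h1 := le_csSup (hbdd y) hmem
      have h2 := le_max_right (f (z n) - f x) 0
      have h3 := le_max_left (f x - f y) 0
      linarith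
    show f x + sSup (j22244_S f x) ≤ f y + sSup (j22244_S f y)
    linarith

/-- duality lemma: total height of a separated lacunary family of fat valleys -/
theorem DL {ι : Type*} [DecidableEq ι] (T : Finset ι) (k : ι → ℤ) (s p q t h : ι → ℝ)
    (hsp : ∀ j ∈ T, s j ≤ p j) (hpq : ∀ j ∈ T, p j + (2 : ℝ) ^ k j ≤ q j) (hqt : ∀ j ∈ T, q j ≤ t j)
    (hts : ∀ j ∈ T, t j - s j ≤ 33 * (2 : ℝ) ^ k j)
    (hsep : ∀ i ∈ T, ∀ j ∈ T, i ≠ j →
      (k i = k j ∧ Disjoint (Icc (s i) (t i)) (Icc (s j) (t j))) ∨ k i + 7 ≤ k j ∨ k j + 7 ≤ k i)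
    (f : ℝ → ℝ) (hbdd : ∃ B, ∀ x, |f x| ≤ B) (V : ℝ) (hV : FallsLE f univ V)
    (hs : ∀ j ∈ T, (q j - p j)⁻¹ * (∫ y in (p j)..(q j), f y) + h j ≤ f (s j))
    (ht : ∀ j ∈ T, (q j - p j)⁻¹ * (∫ y in (p j)..(q j), f y) + h j ≤ f (t j)) :
    ∑ j ∈ T, h j ≤ 2 * V := by
  obtain ⟨B, hB⟩ := hbdd
  obtain ⟨N, hN, hNb, hm⟩ := exists_fall_fun f V hV
  obtain ⟨θ, hθ, hcut⟩ := DL1 T k s p q t hsp hpq hqt hts hsep
  have hpq' : ∀ j ∈ T, p j < q j := by
    intro j hj
    have h1 := hpq j hj
    have h2 : (0 : ℝ) < 2 ^ k j := zpow_pos (by norm_num) _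
    linarith
  have hV0 : 0 ≤ V := (hNb 0).1.trans (hNb 0).2
  have hB0 : 0 ≤ B := (abs_nonneg _).trans (hB 0)
  have h1 := (layer_cake T θ s p q t hsp hpq' hqt hcut (fun x => f x + N x) hm (-B) (B + V)
    (by linarith) (fun x => by
      have := (abs_le.1 (hB x)).1
      have := (hNb x).1
      linarith) (fun x => by
      have := (abs_le.1 (hB x)).2
      have := (hNb x).2
      linarith)).2
  have h2 := (layer_cake T θ s p q t hsp hpq' hqt hcut N hN 0 V hV0 (fun x => (hNb x).1)
    (fun x => (hNb x).2)).1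
  have h3 : ∑ j ∈ T, h j ≤
      ∑ j ∈ T, ((1 - θ j) * (f (t j) + N (t j)) + θ j * (f (s j) + N (s j))
        - (q j - p j)⁻¹ * ∫ y in (p j)..(q j), (f y + N y)) -
      ∑ j ∈ T, ((1 - θ j) * N (t j) + θ j * N (s j)
        - (q j - p j)⁻¹ * ∫ y in (p j)..(q j), N y) := by
    rw [← Finset.sum_sub_distrib]
    refine Finset.sum_le_sum fun j hj => ?_
    have hint : (∫ y in (p j)..(q j), f y) =
        (∫ y in (p j)..(q j), (f y + N y)) - ∫ y in (p j)..(q j), N y := by
      rw [← intervalIntegral.integral_sub (hm.intervalIntegrable (μ := volume))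
        (hN.intervalIntegrable (μ := volume))]
      congr 1
      funext y
      ring
    have h4 := hs j hj
    have h5 := ht j hj
    rw [hint] at h4 h5
    obtain ⟨h6, h7⟩ := hθ j hj
    have h8 := mul_le_mul_of_nonneg_left h4 h6
    have h9 := mul_le_mul_of_nonneg_left h5 (sub_nonneg.2 h7)
    nlinarith
  linarith

end Pool.Agent.BV653
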