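import Pool.Agent.BV653.Defs
set_option autoImplicit false
open MeasureTheory Set Filter Topology
namespace Pool.Agent.BV653
theorem CL_fall_mass {ι κ : Type} (S : Finset ι) (T : Finset κ) (E : ι → Set ℝ) (F : κ → Set ℝ)
    (hE : ∀ i ∈ S, MeasurableSet (E i)) (hF : ∀ j ∈ T, MeasurableSet (F j))
    (hfin : ∀ j ∈ T, volume (F j) ≠ ⊤)
    (h : ∀ l : ℝ, ∑ i ∈ S, (E i).indicator (fun _ => (1 : ENNReal)) l
      ≤ ∑ j ∈ T, (F j).indicator (fun _ => (1 : ENNReal)) l) :
    ∑ i ∈ S, (volume (E i)).toReal ≤ ∑ j ∈ T, (volume (F j)).toReal := by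
  have h1 : ∑ i ∈ S, volume (E i) ≤ ∑ j ∈ T, volume (F j) := by
    have e1 : ∑ i ∈ S, volume (E i)
        = ∫⁻ l, ∑ i ∈ S, (E i).indicator (fun _ => (1 : ENNReal)) l := by
      rw [lintegral_finsetSum' S (fun i hi =>
        (measurable_const.indicator (hE i hi)).aemeasurable)]
      refine Finset.sum_congr rfl fun i hi => ?_
      rw [lintegral_indicator_const (hE i hi), one_mul]
    have e2 : ∑ j ∈ T, volume (F j)
        = ∫⁻ l, ∑ j ∈ T, (F j).indicator (fun _ => (1 : ENNReal)) l := by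
      rw [lintegral_finsetSum' T (fun i hi =>
        (measurable_const.indicator (hF i hi)).aemeasurable)]
      refine Finset.sum_congr rfl fun i hi => ?_
      rw [lintegral_indicator_const (hF i hi), one_mul]
    rw [e1, e2]
    exact lintegral_mono h
  have hT : ∑ j ∈ T, volume (F j) ≠ ⊤ := by
    rw [ENNReal.sum_ne_top]; exact hfin
  have hS : ∀ i ∈ S, volume (E i) ≠ ⊤ := by
    have : ∑ i ∈ S, volume (E i) ≠ ⊤ := ne_top_of_le_ne_top hT h1
    rwa [ENNReal.sum_ne_top] at this
  rw [← ENNReal.toReal_sum hS, ← ENNReal.toReal_sum hfin]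
  exact ENNReal.toReal_mono hT h1

theorem CL_fall_meas (n : ℕ) (g φ : ℕ → ℝ) (t : ℕ) : MeasurableSet (Lam n g φ t) := by
  unfold Lam
  rw [measurableSet_setOfPred]
  have hlt : ∀ c : ℝ, Measurable (fun l : ℝ => l < c) := fun c => by
    rw [← measurableSet_setOfPred]; exact measurableSet_Iio
  have hle : ∀ c : ℝ, Measurable (fun l : ℝ => c ≤ l) := fun c => by
    rw [← measurableSet_setOfPred]; exact measurableSet_Ici
  refine Measurable.and (hlt _) (Measurable.exists fun a => Measurable.exists fun b => ?_)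
  refine Measurable.and measurable_const (Measurable.and measurable_const
    (Measurable.and measurable_const (Measurable.and (hle _) (Measurable.and (hle _) ?_))))
  refine Measurable.and (Measurable.forall fun i => Measurable.imp measurable_const
    (Measurable.imp measurable_const (hlt _))) (Measurable.and measurable_const
    (Measurable.and measurable_const (Measurable.forall fun i => Measurable.imp measurable_const
    (Measurable.imp measurable_const (hle _)))))

theorem CL_fall_fin (n : ℕ) (g φ : ℕ → ℝ) (t : ℕ) : volume (Lam n g φ t) ≠ ⊤ := by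
  obtain ⟨m, hm⟩ : ∃ m : ℝ, ∀ i ∈ Finset.range (n + 1), m ≤ g i := by
    obtain ⟨k, _, hk⟩ := Finset.exists_min_image (Finset.range (n + 1)) g ⟨0, by simp⟩
    exact ⟨g k, hk⟩
  have hsub : Lam n g φ t ⊆ Ico m (g t) := by
    rintro l ⟨hl, a, b, h1, h2, h3, h4, _⟩
    exact ⟨(hm a (by rw [Finset.mem_range]; omega)).trans h4, hl⟩
  refine ne_top_of_le_ne_top ?_ (measure_mono hsub)
  rw [Real.volume_Ico]
  exact ENNReal.ofReal_ne_top

open Classical in
theorem CL_fall_ind {ι : Type} (S : Finset ι) (E : ι → Set ℝ) (l : ℝ) :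
    ∑ i ∈ S, (E i).indicator (fun _ => (1 : ENNReal)) l
      = ((S.filter (fun i => l ∈ E i)).card : ENNReal) := by
  rw [Finset.card_filter]
  push_cast
  refine Finset.sum_congr rfl fun i _ => ?_
  by_cases h : l ∈ E i
  · simp [h]
  · simp [h]

/-- next element of `C` after `r` (or `r`) -/
noncomputable def CL_fall_nx (C : Finset ℕ) (r : ℕ) : ℕ :=
  if h : (C.filter (fun y => r < y)).Nonempty then (C.filter (fun y => r < y)).min' h else r

/-- previous element of `C` before `r` (or `r`) -/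
noncomputable def CL_fall_pv (C : Finset ℕ) (r : ℕ) : ℕ :=
  if h : (C.filter (fun y => y < r)).Nonempty then (C.filter (fun y => y < r)).max' h else r

theorem CL_fall_mono (n : ℕ) (x : ℕ → ℝ) (hx : ∀ i < n, x i < x (i + 1)) (i j : ℕ) (hij : i ≤ j)
    (hj : j ≤ n) : x i ≤ x j := by
  induction j with
  | zero => have : i = 0 := by omega
            rw [this]
  | succ j ih =>
    rcases Nat.lt_or_ge i (j + 1) with h | h
    · exact (ih (by omega) (by omega)).trans (hx j (by omega)).le
    · have : i = j + 1 := by omega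
      rw [this]

theorem CL_fall_tele (n : ℕ) (x : ℕ → ℝ) (hx : ∀ i < n, x i < x (i + 1)) (C : Finset ℕ) :
    (∀ t ∈ C, t ≤ n) → C.Nonempty → ∀ α β : ℝ, (∀ t ∈ C, α ≤ x t) → (∀ t ∈ C, x t ≤ β) →
    ∑ r ∈ C, (x (CL_fall_nx C r) - x r) ≤ β - α := by
  induction C using Finset.induction_on_min with
  | empty => intro _ h; exact absurd h (by simp)
  | insert a s ha ih =>
    intro hC _ α β hα hβ
    have hna : a ∉ s := fun h => lt_irrefl _ (ha a h)
    have e1 : ∀ r ∈ s, CL_fall_nx (insert a s) r = CL_fall_nx s r := by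
      intro r hr
      have : (insert a s).filter (fun y => r < y) = s.filter (fun y => r < y) := by
        rw [Finset.filter_insert, if_neg (not_lt.mpr (ha r hr).le)]
      unfold CL_fall_nx
      simp only [this]
    rw [Finset.sum_insert hna, Finset.sum_congr rfl (fun r hr => by rw [e1 r hr])]
    by_cases hs : s.Nonempty
    · have e2 : CL_fall_nx (insert a s) a = s.min' hs := by
        have : (insert a s).filter (fun y => a < y) = s := by
          rw [Finset.filter_insert, if_neg (lt_irrefl a)]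
          exact Finset.filter_true_of_mem ha
        unfold CL_fall_nx
        simp only [this]
        rw [dif_pos hs]
      have h2 := ih (fun t ht => hC t (Finset.mem_insert_of_mem ht)) hs (x (s.min' hs)) β
        (fun t ht => CL_fall_mono n x hx _ _ (Finset.min'_le _ _ ht)
          (hC t (Finset.mem_insert_of_mem ht)))
        (fun t ht => hβ t (Finset.mem_insert_of_mem ht))
      have h3 := hα a (Finset.mem_insert_self a s)
      rw [e2]
      linarith
    · have hs' := Finset.not_nonempty_iff_eq_empty.mp hs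
      subst hs'
      have e2 : CL_fall_nx (insert a ∅) a = a := by
        have : (insert a (∅ : Finset ℕ)).filter (fun y => a < y) = ∅ := by
          rw [Finset.filter_insert, if_neg (lt_irrefl a)]; rfl
        unfold CL_fall_nx
        simp only [this]
        rw [dif_neg (by simp)]
      rw [e2, Finset.sum_empty]
      have h3 := hα a (Finset.mem_insert_self a ∅)
      have h4 := hβ a (Finset.mem_insert_self a ∅)
      linarith

theorem CL_fall_tele' (n : ℕ) (x : ℕ → ℝ) (hx : ∀ i < n, x i < x (i + 1)) (C : Finset ℕ) :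
    (∀ t ∈ C, t ≤ n) → C.Nonempty → ∀ α β : ℝ, (∀ t ∈ C, α ≤ x t) → (∀ t ∈ C, x t ≤ β) →
    ∑ r ∈ C, (x r - x (CL_fall_pv C r)) ≤ β - α := by
  induction C using Finset.induction_on_max with
  | empty => intro _ h; exact absurd h (by simp)
  | insert a s ha ih =>
    intro hC _ α β hα hβ
    have hna : a ∉ s := fun h => lt_irrefl _ (ha a h)
    have e1 : ∀ r ∈ s, CL_fall_pv (insert a s) r = CL_fall_pv s r := by
      intro r hr
      have : (insert a s).filter (fun y => y < r) = s.filter (fun y => y < r) := by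
        rw [Finset.filter_insert, if_neg (not_lt.mpr (ha r hr).le)]
      unfold CL_fall_pv
      simp only [this]
    rw [Finset.sum_insert hna, Finset.sum_congr rfl (fun r hr => by rw [e1 r hr])]
    by_cases hs : s.Nonempty
    · have e2 : CL_fall_pv (insert a s) a = s.max' hs := by
        have : (insert a s).filter (fun y => y < a) = s := by
          rw [Finset.filter_insert, if_neg (lt_irrefl a)]
          exact Finset.filter_true_of_mem ha
        unfold CL_fall_pv
        simp only [this]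
        rw [dif_pos hs]
      have h2 := ih (fun t ht => hC t (Finset.mem_insert_of_mem ht)) hs α (x (s.max' hs))
        (fun t ht => hα t (Finset.mem_insert_of_mem ht))
        (fun t ht => CL_fall_mono n x hx _ _ (Finset.le_max' _ _ ht)
          (hC _ (Finset.mem_insert_of_mem (Finset.max'_mem _ hs))))
      have h3 := hβ a (Finset.mem_insert_self a s)
      rw [e2]
      linarith
    · have hs' := Finset.not_nonempty_iff_eq_empty.mp hs
      subst hs'
      have e2 : CL_fall_pv (insert a ∅) a = a := by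
        have : (insert a (∅ : Finset ℕ)).filter (fun y => y < a) = ∅ := by
          rw [Finset.filter_insert, if_neg (lt_irrefl a)]; rfl
        unfold CL_fall_pv
        simp only [this]
        rw [dif_neg (by simp)]
      rw [e2, Finset.sum_empty]
      have h3 := hα a (Finset.mem_insert_self a ∅)
      have h4 := hβ a (Finset.mem_insert_self a ∅)
      linarith

/-- between two elements of the active set there is an index with value at most the level -/
theorem CL_fall_sep (n : ℕ) (g φ : ℕ → ℝ) (l : ℝ) (t₀ : ℕ) (t t' : ℕ) (htt : t < t')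
    (h1 : g t ≤ g t₀ ∧ (g t = g t₀ → t₀ ≤ t)) (h2 : g t' ≤ g t₀ ∧ (g t' = g t₀ → t₀ ≤ t'))
    (ht : t = t₀ ∨ l ∈ Lam n g φ t) (ht' : t' = t₀ ∨ l ∈ Lam n g φ t') :
    ∃ u, t < u ∧ u < t' ∧ g u ≤ l := by
  by_cases hc : l ∈ Lam n g φ t'
  · obtain ⟨q1, a, b, q2, q3, q4, q5, q6, q7, q8, q9, _⟩ := hc
    have hta : t ≤ a := by
      by_contra hcon
      push Not at hcon
      have h3 := q8 t hcon htt
      rcases ht with rfl | ht
      · linarith [h2.1]
      · obtain ⟨r1, a2, b2, r2, r3, r4, r5, r6, r7, r8, r9, _⟩ := ht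
        rcases Nat.lt_or_ge t' b2 with h | h
        · linarith [r9 t' htt h]
        · linarith [q7 b2 (by omega) (by omega)]
    have hlt : l < g t := by
      rcases ht with rfl | ht
      · linarith [h2.1]
      · exact ht.1
    have hne : t ≠ a := by
      rintro rfl
      linarith
    exact ⟨a, by omega, q2, q5⟩
  · have ht0 : t' = t₀ := by tauto
    subst ht0
    have htl : l ∈ Lam n g φ t := by
      rcases ht with h | h
      · omega
      · exact h
    obtain ⟨r1, a2, b2, r2, r3, r4, r5, r6, r7, r8, r9, _⟩ := htl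
    have hb : b2 ≤ t' := by
      by_contra hcon
      push Not at hcon
      have h3 := r9 t' htt hcon
      have h4 := h1.2 (le_antisymm h1.1 h3)
      omega
    have hne : b2 ≠ t' := by
      rintro rfl
      linarith [h1.1]
    exact ⟨b2, r3, by omega, r6⟩

open Classical in
theorem CL_fall_cnt (n : ℕ) (g φ x : ℕ → ℝ) (hx : ∀ i < n, x i < x (i + 1)) (C : Finset ℕ)
    (hC : ∀ t ∈ C, t ≤ n) (t₀ : ℕ) (ht₀ : t₀ ∈ C)
    (htop : ∀ t ∈ C, g t ≤ g t₀ ∧ (g t = g t₀ → t₀ ≤ t))
    (c : ℝ) (hc : 0 ≤ c)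
    (hfall : ∀ r ∈ C, ∀ v, r < v → (∃ r' ∈ C, v < r') → g r - g v ≤ c * (x v - x r)) (l : ℝ) :
    ((C.erase t₀).filter (fun t => l ∈ Lam n g φ t)).card ≤
      (C.filter (fun r => l ∈ Ico (g r - c * (x (CL_fall_nx C r) - x r)) (g r))).card := by
  set Act := (C.erase t₀).filter (fun t => l ∈ Lam n g φ t) with hAct
  by_cases hne : Act.Nonempty
  swap
  · rw [Finset.not_nonempty_iff_eq_empty.mp hne, Finset.card_empty]; exact Nat.zero_le _
  have hActC : ∀ t ∈ Act, t ∈ C ∧ t ≠ t₀ ∧ l ∈ Lam n g φ t := by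
    intro t ht
    rw [hAct, Finset.mem_filter, Finset.mem_erase] at ht
    exact ⟨ht.1.2, ht.1.1, ht.2⟩
  have h0lt : l < g t₀ := by
    obtain ⟨t, ht⟩ := hne
    obtain ⟨p1, p2, p3⟩ := hActC t ht
    exact lt_of_lt_of_le p3.1 (htop t p1).1
  have ht0n : t₀ ∉ Act := fun h => (hActC t₀ h).2.1 rfl
  set S := insert t₀ Act with hS
  have hSC : ∀ t ∈ S, t ∈ C ∧ (t = t₀ ∨ l ∈ Lam n g φ t) ∧ l < g t := by
    intro t ht
    rw [hS, Finset.mem_insert] at ht
    rcases ht with rfl | ht
    · exact ⟨ht₀, Or.inl rfl, h0lt⟩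
    · obtain ⟨p1, p2, p3⟩ := hActC t ht
      exact ⟨p1, Or.inr p3, p3.1⟩
  have hSne : S.Nonempty := ⟨t₀, Finset.mem_insert_self _ _⟩
  have hcard : Act.card = (S.erase (S.max' hSne)).card := by
    rw [Finset.card_erase_of_mem (Finset.max'_mem _ _), hS, Finset.card_insert_of_notMem ht0n]
    rfl
  rw [hcard]
  have hsep : ∀ t ∈ S, ∀ t' ∈ S, t < t' → ∃ u, t < u ∧ u < t' ∧ g u ≤ l := by
    intro t ht t' ht' h
    exact CL_fall_sep n g φ l t₀ t t' h (htop t (hSC t ht).1) (htop t' (hSC t' ht').1)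
      (hSC t ht).2.1 (hSC t' ht').2.1
  have hex : ∀ t ∈ S.erase (S.max' hSne), ∃ r, r ∈ C ∧ t ≤ r ∧
      (∀ i, t ≤ i → i ≤ r → l < g i) ∧
      l ∈ Ico (g r - c * (x (CL_fall_nx C r) - x r)) (g r) := by
    intro t ht
    rw [Finset.mem_erase] at ht
    obtain ⟨ht1, ht⟩ := ht
    obtain ⟨ht3, ht4, ht5⟩ := hSC t ht
    have hM := Finset.max'_mem S hSne
    set M := S.max' hSne with hMdef
    have htM : t < M := lt_of_le_of_ne (Finset.le_max' S t ht) ht1
    obtain ⟨u, hu1, hu2, hu3⟩ := hsep t ht M hM htM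
    have hexv : ∃ v, t < v ∧ g v ≤ l := ⟨u, hu1, hu3⟩
    obtain ⟨hv1, hv2⟩ := Nat.find_spec hexv
    have hv3 : ∀ i, t < i → i < Nat.find hexv → l < g i := by
      intro i hi1 hi2
      have := Nat.find_min hexv hi2
      push Not at this
      exact this hi1
    have hvM : Nat.find hexv < M := lt_of_le_of_lt (Nat.find_min' hexv ⟨hu1, hu3⟩) hu2
    set v := Nat.find hexv with hv
    have hne2 : (C.filter (fun r => r < v)).Nonempty :=
      ⟨t, by rw [Finset.mem_filter]; exact ⟨ht3, hv1⟩⟩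
    have hrm := Finset.max'_mem _ hne2
    have hrmax : ∀ r' ∈ C, r' < v → r' ≤ (C.filter (fun r => r < v)).max' hne2 := fun r' h1 h2 =>
      Finset.le_max' _ _ (Finset.mem_filter.mpr ⟨h1, h2⟩)
    set r := (C.filter (fun r => r < v)).max' hne2 with hr
    rw [Finset.mem_filter] at hrm
    have htr : t ≤ r := hrmax t ht3 hv1
    have hrun : ∀ i, t ≤ i → i ≤ r → l < g i := by
      intro i h1 h2
      rcases Nat.lt_or_ge t i with h | h
      · exact hv3 i h (by omega)
      · have : i = t := by omega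
        rw [this]; exact ht5
    refine ⟨r, hrm.1, htr, hrun, ?_, hrun r htr le_rfl⟩
    -- next element
    have hMC : M ∈ C := (hSC M hM).1
    have hne3 : (C.filter (fun y => r < y)).Nonempty :=
      ⟨M, by rw [Finset.mem_filter]; exact ⟨hMC, by omega⟩⟩
    have hnx : CL_fall_nx C r = (C.filter (fun y => r < y)).min' hne3 := by
      unfold CL_fall_nx; rw [dif_pos hne3]
    have hnm := Finset.min'_mem _ hne3
    rw [← hnx, Finset.mem_filter] at hnm
    have hvn : v ≤ CL_fall_nx C r := by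
      by_contra hcon
      push Not at hcon
      have := hrmax _ hnm.1 hcon
      omega
    have h1 := hfall r hrm.1 v hrm.2 ⟨M, hMC, hvM⟩
    have h2 : x v ≤ x (CL_fall_nx C r) := CL_fall_mono n x hx _ _ hvn (hC _ hnm.1)
    have h3 : c * (x v - x r) ≤ c * (x (CL_fall_nx C r) - x r) :=
      mul_le_mul_of_nonneg_left (by linarith) hc
    linarith
  choose! f hf using hex
  refine Finset.card_le_card_of_injOn f ?_ ?_
  · intro t ht
    obtain ⟨p1, p2, p3, p4⟩ := hf t ht
    simp only [Finset.coe_filter, Set.mem_ofPred_eq]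
    exact ⟨p1, p4⟩
  · have key : ∀ t ∈ S.erase (S.max' hSne), ∀ t' ∈ S.erase (S.max' hSne), f t = f t' →
        ¬ t < t' := by
      intro t ht t' ht' he hlt
      obtain ⟨p1, p2, p3, p4⟩ := hf t ht
      obtain ⟨q1, q2, q3, q4⟩ := hf t' ht'
      obtain ⟨u, hu1, hu2, hu3⟩ := hsep t (Finset.mem_of_mem_erase ht) t'
        (Finset.mem_of_mem_erase ht') hlt
      exact absurd (p3 u hu1.le (by omega)) (not_lt.mpr hu3)
    intro t ht t' ht' he
    have h1 := key t ht t' ht' he
    have h2 := key t' ht' t ht he.symm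
    omega

/-- cluster lemma, falls version -/
theorem CL_fall (n : ℕ) (g φ x : ℕ → ℝ) (hx : ∀ i < n, x i < x (i + 1)) (C : Finset ℕ)
    (hC : ∀ t ∈ C, t ≤ n) (t₀ : ℕ) (ht₀ : t₀ ∈ C)
    (htop : ∀ t ∈ C, g t ≤ g t₀ ∧ (g t = g t₀ → t₀ ≤ t))
    (c α β : ℝ) (hc : 0 ≤ c) (hα : ∀ t ∈ C, α ≤ x t) (hβ : ∀ t ∈ C, x t ≤ β)
    (hfall : ∀ r ∈ C, ∀ v, r < v → (∃ r' ∈ C, v < r') → g r - g v ≤ c * (x v - x r)) :
    ∑ t ∈ C.erase t₀, (volume (Lam n g φ t)).toReal ≤ c * (β - α) := by
  classical
  have hnn : ∀ r ∈ C, 0 ≤ x (CL_fall_nx C r) - x r := by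
    intro r hr
    unfold CL_fall_nx
    split_ifs with h
    · have hm := Finset.min'_mem _ h
      rw [Finset.mem_filter] at hm
      have := CL_fall_mono n x hx r _ hm.2.le (hC _ hm.1)
      linarith
    · simp
  have hm := CL_fall_mass (C.erase t₀) C (fun t => Lam n g φ t)
    (fun r => Ico (g r - c * (x (CL_fall_nx C r) - x r)) (g r))
    (fun t _ => CL_fall_meas n g φ t) (fun _ _ => measurableSet_Ico)
    (fun _ _ => by rw [Real.volume_Ico]; exact ENNReal.ofReal_ne_top)
    (by
      intro l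
      rw [CL_fall_ind, CL_fall_ind]
      refine Nat.cast_le.mpr (le_trans (le_of_eq (congrArg Finset.card
        (by ext x; simp only [Finset.mem_filter]))) ((CL_fall_cnt n g φ x hx C hC t₀ ht₀ htop c hc
          hfall l).trans (le_of_eq (congrArg Finset.card
        (by ext x; simp only [Finset.mem_filter])))))
      )
  refine hm.trans ?_
  have e : ∑ r ∈ C, (volume (Ico (g r - c * (x (CL_fall_nx C r) - x r)) (g r))).toReal
      = c * ∑ r ∈ C, (x (CL_fall_nx C r) - x r) := by
    rw [Finset.mul_sum]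
    refine Finset.sum_congr rfl fun r hr => ?_
    rw [Real.volume_Ico, ENNReal.toReal_ofReal (by
      have := mul_nonneg hc (hnn r hr); linarith)]
    ring
  rw [e]
  exact mul_le_mul_of_nonneg_left (CL_fall_tele n x hx C hC ⟨t₀, ht₀⟩ α β hα hβ) hc

open Classical in
theorem CL_rise_cnt (n : ℕ) (g φ x : ℕ → ℝ) (hx : ∀ i < n, x i < x (i + 1)) (C : Finset ℕ)
    (hC : ∀ t ∈ C, t ≤ n) (t₀ : ℕ) (ht₀ : t₀ ∈ C)
    (htop : ∀ t ∈ C, g t ≤ g t₀ ∧ (g t = g t₀ → t₀ ≤ t))
    (c : ℝ) (hc : 0 ≤ c)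
    (hrise : ∀ r ∈ C, ∀ v, v < r → (∃ r' ∈ C, r' < v) → g r - g v ≤ c * (x r - x v)) (l : ℝ) :
    ((C.erase t₀).filter (fun t => l ∈ Lam n g φ t)).card ≤
      (C.filter (fun r => l ∈ Ico (g r - c * (x r - x (CL_fall_pv C r))) (g r))).card := by
  set Act := (C.erase t₀).filter (fun t => l ∈ Lam n g φ t) with hAct
  by_cases hne : Act.Nonempty
  swap
  · rw [Finset.not_nonempty_iff_eq_empty.mp hne, Finset.card_empty]; exact Nat.zero_le _
  have hActC : ∀ t ∈ Act, t ∈ C ∧ t ≠ t₀ ∧ l ∈ Lam n g φ t := by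
    intro t ht
    rw [hAct, Finset.mem_filter, Finset.mem_erase] at ht
    exact ⟨ht.1.2, ht.1.1, ht.2⟩
  have h0lt : l < g t₀ := by
    obtain ⟨t, ht⟩ := hne
    obtain ⟨p1, p2, p3⟩ := hActC t ht
    exact lt_of_lt_of_le p3.1 (htop t p1).1
  have ht0n : t₀ ∉ Act := fun h => (hActC t₀ h).2.1 rfl
  set S := insert t₀ Act with hS
  have hSC : ∀ t ∈ S, t ∈ C ∧ (t = t₀ ∨ l ∈ Lam n g φ t) ∧ l < g t := by
    intro t ht
    rw [hS, Finset.mem_insert] at ht
    rcases ht with rfl | ht
    · exact ⟨ht₀, Or.inl rfl, h0lt⟩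
    · obtain ⟨p1, p2, p3⟩ := hActC t ht
      exact ⟨p1, Or.inr p3, p3.1⟩
  have hSne : S.Nonempty := ⟨t₀, Finset.mem_insert_self _ _⟩
  have hcard : Act.card = (S.erase (S.min' hSne)).card := by
    rw [Finset.card_erase_of_mem (Finset.min'_mem _ _), hS, Finset.card_insert_of_notMem ht0n]
    rfl
  rw [hcard]
  have hsep : ∀ t ∈ S, ∀ t' ∈ S, t < t' → ∃ u, t < u ∧ u < t' ∧ g u ≤ l := by
    intro t ht t' ht' h
    exact CL_fall_sep n g φ l t₀ t t' h (htop t (hSC t ht).1) (htop t' (hSC t' ht').1)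
      (hSC t ht).2.1 (hSC t' ht').2.1
  have hex : ∀ t ∈ S.erase (S.min' hSne), ∃ r, r ∈ C ∧ r ≤ t ∧
      (∀ i, r ≤ i → i ≤ t → l < g i) ∧
      l ∈ Ico (g r - c * (x r - x (CL_fall_pv C r))) (g r) := by
    intro t ht
    rw [Finset.mem_erase] at ht
    obtain ⟨ht1, ht⟩ := ht
    obtain ⟨ht3, ht4, ht5⟩ := hSC t ht
    have hM := Finset.min'_mem S hSne
    set M := S.min' hSne with hMdef
    have htM : M < t := lt_of_le_of_ne (Finset.min'_le S t ht) (Ne.symm ht1)
    obtain ⟨u, hu1, hu2, hu3⟩ := hsep M hM t ht htM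
    have hnev : ((Finset.range t).filter (fun v => g v ≤ l)).Nonempty :=
      ⟨u, by rw [Finset.mem_filter, Finset.mem_range]; exact ⟨hu2, hu3⟩⟩
    have hvm := Finset.max'_mem _ hnev
    have hvmax : ∀ i, i < t → g i ≤ l → i ≤ ((Finset.range t).filter (fun v => g v ≤ l)).max' hnev :=
      fun i h1 h2 => Finset.le_max' _ _ (by
        rw [Finset.mem_filter, Finset.mem_range]; exact ⟨h1, h2⟩)
    set v := ((Finset.range t).filter (fun v => g v ≤ l)).max' hnev with hv
    rw [Finset.mem_filter, Finset.mem_range] at hvm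
    obtain ⟨hv1, hv2⟩ := hvm
    have hv3 : ∀ i, v < i → i < t → l < g i := by
      intro i hi1 hi2
      by_contra hcon
      push Not at hcon
      have := hvmax i hi2 hcon
      omega
    have hvM : M < v := lt_of_lt_of_le hu1 (hvmax u hu2 hu3)
    have hne2 : (C.filter (fun r => v < r)).Nonempty :=
      ⟨t, by rw [Finset.mem_filter]; exact ⟨ht3, hv1⟩⟩
    have hrm := Finset.min'_mem _ hne2
    have hrmin : ∀ r' ∈ C, v < r' → (C.filter (fun r => v < r)).min' hne2 ≤ r' := fun r' h1 h2 =>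
      Finset.min'_le _ _ (Finset.mem_filter.mpr ⟨h1, h2⟩)
    set r := (C.filter (fun r => v < r)).min' hne2 with hr
    rw [Finset.mem_filter] at hrm
    have htr : r ≤ t := hrmin t ht3 hv1
    have hrun : ∀ i, r ≤ i → i ≤ t → l < g i := by
      intro i h1 h2
      rcases Nat.lt_or_ge i t with h | h
      · exact hv3 i (by omega) h
      · have : i = t := by omega
        rw [this]; exact ht5
    refine ⟨r, hrm.1, htr, hrun, ?_, hrun r le_rfl htr⟩
    have hMC : M ∈ C := (hSC M hM).1
    have hne3 : (C.filter (fun y => y < r)).Nonempty :=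
      ⟨M, by rw [Finset.mem_filter]; exact ⟨hMC, by omega⟩⟩
    have hnx : CL_fall_pv C r = (C.filter (fun y => y < r)).max' hne3 := by
      unfold CL_fall_pv; rw [dif_pos hne3]
    have hnm := Finset.max'_mem _ hne3
    rw [← hnx, Finset.mem_filter] at hnm
    have hvn : CL_fall_pv C r ≤ v := by
      by_contra hcon
      push Not at hcon
      have := hrmin _ hnm.1 hcon
      omega
    have h1 := hrise r hrm.1 v hrm.2 ⟨M, hMC, hvM⟩
    have h2 : x (CL_fall_pv C r) ≤ x v := CL_fall_mono n x hx _ _ hvn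
      (le_trans (by omega) (hC r hrm.1))
    have h3 : c * (x r - x v) ≤ c * (x r - x (CL_fall_pv C r)) :=
      mul_le_mul_of_nonneg_left (by linarith) hc
    linarith
  choose! f hf using hex
  refine Finset.card_le_card_of_injOn f ?_ ?_
  · intro t ht
    obtain ⟨p1, p2, p3, p4⟩ := hf t ht
    simp only [Finset.coe_filter, Set.mem_ofPred_eq]
    exact ⟨p1, p4⟩
  · have key : ∀ t ∈ S.erase (S.min' hSne), ∀ t' ∈ S.erase (S.min' hSne), f t = f t' →
        ¬ t < t' := by
      intro t ht t' ht' he hlt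
      obtain ⟨p1, p2, p3, p4⟩ := hf t ht
      obtain ⟨q1, q2, q3, q4⟩ := hf t' ht'
      obtain ⟨u, hu1, hu2, hu3⟩ := hsep t (Finset.mem_of_mem_erase ht) t'
        (Finset.mem_of_mem_erase ht') hlt
      exact absurd (q3 u (by omega) hu2.le) (not_lt.mpr hu3)
    intro t ht t' ht' he
    have h1 := key t ht t' ht' he
    have h2 := key t' ht' t ht he.symm
    omega

/-- cluster lemma, rises version -/
theorem CL_rise (n : ℕ) (g φ x : ℕ → ℝ) (hx : ∀ i < n, x i < x (i + 1)) (C : Finset ℕ)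
    (hC : ∀ t ∈ C, t ≤ n) (t₀ : ℕ) (ht₀ : t₀ ∈ C)
    (htop : ∀ t ∈ C, g t ≤ g t₀ ∧ (g t = g t₀ → t₀ ≤ t))
    (c α β : ℝ) (hc : 0 ≤ c) (hα : ∀ t ∈ C, α ≤ x t) (hβ : ∀ t ∈ C, x t ≤ β)
    (hrise : ∀ r ∈ C, ∀ v, v < r → (∃ r' ∈ C, r' < v) → g r - g v ≤ c * (x r - x v)) :
    ∑ t ∈ C.erase t₀, (volume (Lam n g φ t)).toReal ≤ c * (β - α) := by
  classical
  have hnn : ∀ r ∈ C, 0 ≤ x r - x (CL_fall_pv C r) := by
    intro r hr
    unfold CL_fall_pv
    split_ifs with h
    · have hm := Finset.max'_mem _ h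
      rw [Finset.mem_filter] at hm
      have := CL_fall_mono n x hx _ r hm.2.le (hC _ hr)
      linarith
    · simp
  have hm := CL_fall_mass (C.erase t₀) C (fun t => Lam n g φ t)
    (fun r => Ico (g r - c * (x r - x (CL_fall_pv C r))) (g r))
    (fun t _ => CL_fall_meas n g φ t) (fun _ _ => measurableSet_Ico)
    (fun _ _ => by rw [Real.volume_Ico]; exact ENNReal.ofReal_ne_top)
    (by
      intro l
      rw [CL_fall_ind, CL_fall_ind]
      refine Nat.cast_le.mpr (le_trans (le_of_eq (congrArg Finset.card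
        (by ext x; simp only [Finset.mem_filter]))) ((CL_rise_cnt n g φ x hx C hC t₀ ht₀ htop c hc
          hrise l).trans (le_of_eq (congrArg Finset.card
        (by ext x; simp only [Finset.mem_filter])))))
      )
  refine hm.trans ?_
  have e : ∑ r ∈ C, (volume (Ico (g r - c * (x r - x (CL_fall_pv C r))) (g r))).toReal
      = c * ∑ r ∈ C, (x r - x (CL_fall_pv C r)) := by
    rw [Finset.mul_sum]
    refine Finset.sum_congr rfl fun r hr => ?_
    rw [Real.volume_Ico, ENNReal.toReal_ofReal (by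
      have := mul_nonneg hc (hnn r hr); linarith)]
    ring
  rw [e]
  exact mul_le_mul_of_nonneg_left (CL_fall_tele' n x hx C hC ⟨t₀, ht₀⟩ α β hα hβ) hc

end Pool.Agent.BV653
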