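import Pool.Agent.BV653.Defs
set_option autoImplicit false
open MeasureTheory Set Filter Topology
namespace Pool.Agent.BV653
theorem k5_high (f : ℝ → ℝ) (a b c : ℝ) (hab : a < b) (hf : IntervalIntegrable f volume a b)
    (h : c * (b - a) ≤ ∫ t in a..b, f t) : ∃ s, a ≤ s ∧ s ≤ b ∧ c ≤ f s := by
  by_contra hc
  push Not at hc
  have h1 : 0 < ∫ t in a..b, (c - f t) := by
    refine intervalIntegral.intervalIntegral_pos_of_pos_on (intervalIntegrable_const.sub hf)
      (fun t ht => ?_) hab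
    have := hc t ht.1.le ht.2.le
    linarith
  rw [intervalIntegral.integral_sub intervalIntegrable_const hf, intervalIntegral.integral_const,
    smul_eq_mul] at h1
  linarith

theorem k5_A_ge (f : ℝ → ℝ) (x r c : ℝ) (hr : 0 < r) (h : c ≤ A f x r) :
    2 * r * c ≤ ∫ t in (x - r)..(x + r), f t := by
  unfold A at h
  have h2 := mul_le_mul_of_nonneg_left h (by positivity : (0:ℝ) ≤ 2 * r)
  rwa [← mul_assoc, mul_inv_cancel₀ (by positivity), one_mul] at h2

theorem k5_A_le (f : ℝ → ℝ) (x r c : ℝ) (hr : 0 < r) (h : A f x r ≤ c) :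
    (∫ t in (x - r)..(x + r), f t) ≤ 2 * r * c := by
  unfold A at h
  have h2 := mul_le_mul_of_nonneg_left h (by positivity : (0:ℝ) ≤ 2 * r)
  rwa [← mul_assoc, mul_inv_cancel₀ (by positivity), one_mul] at h2

/-- a steep fall of the maximal function forces a high point of `f` near the left end of the window -/
theorem fall_high (f : ℝ → ℝ) (hf : ∀ a b, IntervalIntegrable f volume a b) (x v ω γ h : ℝ)
    (hxv : x < v) (hvω : v - x < ω) (hh : 0 < h)
    (hv : A f v (ω - (v - x)) ≤ γ) (hx : γ + h ≤ A f x ω) :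
    ∃ s, x - ω ≤ s ∧ s ≤ x - ω + 2 * (v - x) ∧ γ + ω / (v - x) * h ≤ f s := by
  have hd : 0 < v - x := by linarith
  have h1 := k5_A_ge f x ω _ (by linarith) hx
  have h2 := k5_A_le f v _ _ (by linarith) hv
  have e1 : v - (ω - (v - x)) = x - ω + 2 * (v - x) := by ring
  have e2 : v + (ω - (v - x)) = x + ω := by ring
  rw [e1, e2] at h2
  have h3 := intervalIntegral.integral_add_adjacent_intervals
    (hf (x - ω) (x - ω + 2 * (v - x))) (hf (x - ω + 2 * (v - x)) (x + ω))
  refine k5_high f _ _ _ (by linarith) (hf _ _) ?_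
  have e3 : (γ + ω / (v - x) * h) * (x - ω + 2 * (v - x) - (x - ω))
      = 2 * (v - x) * γ + 2 * ω * h := by
    field_simp
    ring
  rw [e3]
  nlinarith

/-- mirror image of `fall_high` -/
theorem rise_high (f : ℝ → ℝ) (hf : ∀ a b, IntervalIntegrable f volume a b) (x v ω γ h : ℝ)
    (hvx : v < x) (hvω : x - v < ω) (hh : 0 < h)
    (hv : A f v (ω - (x - v)) ≤ γ) (hx : γ + h ≤ A f x ω) :
    ∃ t, x + ω - 2 * (x - v) ≤ t ∧ t ≤ x + ω ∧ γ + ω / (x - v) * h ≤ f t := by
  have hd : 0 < x - v := by linarith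
  have h1 := k5_A_ge f x ω _ (by linarith) hx
  have h2 := k5_A_le f v _ _ (by linarith) hv
  have e1 : v - (ω - (x - v)) = x - ω := by ring
  have e2 : v + (ω - (x - v)) = x + ω - 2 * (x - v) := by ring
  rw [e1, e2] at h2
  have h3 := intervalIntegral.integral_add_adjacent_intervals
    (hf (x - ω) (x + ω - 2 * (x - v))) (hf (x + ω - 2 * (x - v)) (x + ω))
  refine k5_high f _ _ _ (by linarith) (hf _ _) ?_
  have e3 : (γ + ω / (x - v) * h) * (x + ω - (x + ω - 2 * (x - v)))
      = 2 * (x - v) * γ + 2 * ω * h := by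
    field_simp
    ring
  rw [e3]
  nlinarith

end Pool.Agent.BV653
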