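import Pool.Agent.BV653.Defs
import Pool.Agent.BV653.K3
import Pool.Agent.BV653.K5
set_option autoImplicit false
open MeasureTheory Set Filter Topology
namespace Pool.Agent.BV653
theorem cv_mono (n : ℕ) (x : ℕ → ℝ) (hx : ∀ i < n, x i < x (i + 1)) :
    ∀ i j : ℕ, i < j → j ≤ n → x i < x j := by
  intro i j hij
  induction j with
  | zero => omega
  | succ j ih =>
    intro hj
    rcases Nat.lt_succ_iff_lt_or_eq.1 hij with h | h
    · exact (ih h (by omega)).trans (hx j (by omega))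
    · subst h
      exact hx i (by omega)

theorem cv_fall (f : ℝ → ℝ) (hf : ∀ a b, IntervalIntegrable f volume a b) (n : ℕ)
    (g φ x ω : ℕ → ℝ) (hx : ∀ i < n, x i < x (i + 1)) (η : ℝ)
    (hη : ∀ i ≤ n, ∀ j ≤ n, g j < g i → 2 * η ≤ g i - g j)
    (C : Finset ℕ) (hC : ∀ t ∈ C, t ≤ n) (α ℓ : ℝ) (hℓ : 0 < ℓ)
    (hα : ∀ t ∈ C, α ≤ x t ∧ x t ≤ α + ℓ) (hω : ∀ t ∈ C, 8 * ℓ < ω t ∧ ω t ≤ 16 * ℓ)
    (hwin : ∀ t ∈ C, g t - η ≤ A f (x t) (ω t))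
    (hG : ∀ t ∈ C, ∀ v ≤ n, ∀ r > 0, x t - ω t ≤ x v - r → x v + r ≤ x t + ω t →
      A f (x v) r ≤ g v)
    (t₀ : ℕ) (ht₀ : t₀ ∈ C) (htop : ∀ t ∈ C, g t ≤ g t₀ ∧ (g t = g t₀ → t₀ ≤ t))
    (S : ℝ) (hS : S = ∑ t ∈ C.erase t₀, (volume (Lam n g φ t)).toReal) (hS0 : 0 < S) :
    ∃ v ≤ n, α ≤ x v ∧ x v ≤ α + ℓ ∧ A f (x v) (4 * ℓ) ≤ g v ∧
      ∃ s, α - 16 * ℓ ≤ s ∧ s ≤ α - 5 * ℓ ∧ g v + 2 * S ≤ f s := by
  have hc : 0 < S / (2 * ℓ) := by positivity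
  have hcl : S / (2 * ℓ) * ℓ = S / 2 := by field_simp
  have hex : ∃ r ∈ C, ∃ v, r < v ∧ (∃ r' ∈ C, v < r') ∧
      S / (2 * ℓ) * (x v - x r) < g r - g v := by
    by_contra hcon
    have h := CL_fall n g φ x hx C hC t₀ ht₀ htop (S / (2 * ℓ)) α (α + ℓ) hc.le
      (fun t ht => (hα t ht).1) (fun t ht => (hα t ht).2) (fun r hr v hv hr' => by
        by_contra hlt
        exact hcon ⟨r, hr, v, hv, hr', not_le.1 hlt⟩)
    rw [← hS, add_sub_cancel_left, hcl] at h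
    linarith
  obtain ⟨r, hr, v, hrv, ⟨r', hr', hvr'⟩, hg⟩ := hex
  have hmono := cv_mono n x hx
  have hr'n := hC r' hr'
  have hvn : v ≤ n := by omega
  have h1 : x r < x v := hmono r v hrv hvn
  have h2 : x v < x r' := hmono v r' hvr' hr'n
  have har := hα r hr
  have har' := hα r' hr'
  have hωr := hω r hr
  have hd : 0 < x v - x r := by linarith
  have hdl : x v - x r < ℓ := by linarith
  have hgr : 0 < g r - g v := lt_trans (mul_pos hc hd) hg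
  have hη1 := hη r (hC r hr) v hvn (by linarith)
  refine ⟨v, hvn, by linarith, by linarith, ?_, ?_⟩
  · exact hG r hr v hvn (4 * ℓ) (by linarith) (by linarith) (by linarith)
  · obtain ⟨s, hs1, hs2, hs3⟩ := fall_high f hf (x r) (x v) (ω r) (g v) ((g r - g v) / 2) h1
      (by linarith) (by linarith)
      (hG r hr v hvn (ω r - (x v - x r)) (by linarith) (by linarith) (by linarith))
      (by have := hwin r hr; linarith)
    refine ⟨s, by linarith, by linarith, ?_⟩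
    refine le_trans ?_ hs3
    have h3 : 2 * S ≤ ω r / (x v - x r) * ((g r - g v) / 2) := by
      rw [div_mul_eq_mul_div, le_div_iff₀ hd]
      have h4 : 8 * ℓ * (S / (2 * ℓ) * (x v - x r)) ≤ ω r * (g r - g v) :=
        mul_le_mul hωr.1.le hg.le (mul_pos hc hd).le (by linarith)
      have h5 : 8 * ℓ * (S / (2 * ℓ) * (x v - x r)) = 4 * S * (x v - x r) := by
        field_simp
        ring
      linarith
    linarith

theorem cv_rise (f : ℝ → ℝ) (hf : ∀ a b, IntervalIntegrable f volume a b) (n : ℕ)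
    (g φ x ω : ℕ → ℝ) (hx : ∀ i < n, x i < x (i + 1)) (η : ℝ)
    (hη : ∀ i ≤ n, ∀ j ≤ n, g j < g i → 2 * η ≤ g i - g j)
    (C : Finset ℕ) (hC : ∀ t ∈ C, t ≤ n) (α ℓ : ℝ) (hℓ : 0 < ℓ)
    (hα : ∀ t ∈ C, α ≤ x t ∧ x t ≤ α + ℓ) (hω : ∀ t ∈ C, 8 * ℓ < ω t ∧ ω t ≤ 16 * ℓ)
    (hwin : ∀ t ∈ C, g t - η ≤ A f (x t) (ω t))
    (hG : ∀ t ∈ C, ∀ v ≤ n, ∀ r > 0, x t - ω t ≤ x v - r → x v + r ≤ x t + ω t →
      A f (x v) r ≤ g v)
    (t₀ : ℕ) (ht₀ : t₀ ∈ C) (htop : ∀ t ∈ C, g t ≤ g t₀ ∧ (g t = g t₀ → t₀ ≤ t))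
    (S : ℝ) (hS : S = ∑ t ∈ C.erase t₀, (volume (Lam n g φ t)).toReal) (hS0 : 0 < S) :
    ∃ v ≤ n, α ≤ x v ∧ x v ≤ α + ℓ ∧ A f (x v) (4 * ℓ) ≤ g v ∧
      ∃ t, α + 6 * ℓ ≤ t ∧ t ≤ α + 17 * ℓ ∧ g v + 2 * S ≤ f t := by
  have hc : 0 < S / (2 * ℓ) := by positivity
  have hcl : S / (2 * ℓ) * ℓ = S / 2 := by field_simp
  have hex : ∃ r ∈ C, ∃ v, v < r ∧ (∃ r' ∈ C, r' < v) ∧
      S / (2 * ℓ) * (x r - x v) < g r - g v := by
    by_contra hcon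
    have h := CL_rise n g φ x hx C hC t₀ ht₀ htop (S / (2 * ℓ)) α (α + ℓ) hc.le
      (fun t ht => (hα t ht).1) (fun t ht => (hα t ht).2) (fun r hr v hv hr' => by
        by_contra hlt
        exact hcon ⟨r, hr, v, hv, hr', not_le.1 hlt⟩)
    rw [← hS, add_sub_cancel_left, hcl] at h
    linarith
  obtain ⟨r, hr, v, hvr, ⟨r', hr', hr'v⟩, hg⟩ := hex
  have hmono := cv_mono n x hx
  have hrn := hC r hr
  have hvn : v ≤ n := by omega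
  have h1 : x v < x r := hmono v r hvr hrn
  have h2 : x r' < x v := hmono r' v hr'v hvn
  have har := hα r hr
  have har' := hα r' hr'
  have hωr := hω r hr
  have hd : 0 < x r - x v := by linarith
  have hdl : x r - x v < ℓ := by linarith
  have hgr : 0 < g r - g v := lt_trans (mul_pos hc hd) hg
  have hη1 := hη r hrn v hvn (by linarith)
  refine ⟨v, hvn, by linarith, by linarith, ?_, ?_⟩
  · exact hG r hr v hvn (4 * ℓ) (by linarith) (by linarith) (by linarith)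
  · obtain ⟨t, ht1, ht2, ht3⟩ := rise_high f hf (x r) (x v) (ω r) (g v) ((g r - g v) / 2) h1
      (by linarith) (by linarith)
      (hG r hr v hvn (ω r - (x r - x v)) (by linarith) (by linarith) (by linarith))
      (by have := hwin r hr; linarith)
    refine ⟨t, by linarith, by linarith, ?_⟩
    refine le_trans ?_ ht3
    have h3 : 2 * S ≤ ω r / (x r - x v) * ((g r - g v) / 2) := by
      rw [div_mul_eq_mul_div, le_div_iff₀ hd]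
      have h4 : 8 * ℓ * (S / (2 * ℓ) * (x r - x v)) ≤ ω r * (g r - g v) :=
        mul_le_mul hωr.1.le hg.le (mul_pos hc hd).le (by linarith)
      have h5 : 8 * ℓ * (S / (2 * ℓ) * (x r - x v)) = 4 * S * (x r - x v) := by
        field_simp
        ring
      linarith
    linarith

theorem cv_A (f : ℝ → ℝ) (y ℓ : ℝ) :
    ((y + 4 * ℓ) - (y - 4 * ℓ))⁻¹ * (∫ t in (y - 4 * ℓ)..(y + 4 * ℓ), f t) = A f y (4 * ℓ) := by
  unfold A
  congr 2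
  ring

/-- a cluster of peaks with windows of the same scale produces one fat valley -/
theorem cluster_valley (f : ℝ → ℝ) (hf : ∀ a b, IntervalIntegrable f volume a b) (n : ℕ)
    (g φ x ω : ℕ → ℝ) (hx : ∀ i < n, x i < x (i + 1)) (η : ℝ)
    (hη : ∀ i ≤ n, ∀ j ≤ n, g j < g i → 2 * η ≤ g i - g j)
    (C : Finset ℕ) (hC : ∀ t ∈ C, t ≤ n) (α ℓ : ℝ) (hℓ : 0 < ℓ)
    (hα : ∀ t ∈ C, α ≤ x t ∧ x t ≤ α + ℓ) (hω : ∀ t ∈ C, 8 * ℓ < ω t ∧ ω t ≤ 16 * ℓ)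
    (hwin : ∀ t ∈ C, g t - η ≤ A f (x t) (ω t))
    (hG : ∀ t ∈ C, ∀ v ≤ n, ∀ r > 0, x t - ω t ≤ x v - r → x v + r ≤ x t + ω t →
      A f (x v) r ≤ g v)
    (t₀ : ℕ) (ht₀ : t₀ ∈ C) (htop : ∀ t ∈ C, g t ≤ g t₀ ∧ (g t = g t₀ → t₀ ≤ t))
    (S : ℝ) (hS : S = ∑ t ∈ C.erase t₀, (volume (Lam n g φ t)).toReal) (hS0 : 0 < S) :
    ∃ s u v t : ℝ, α - 16 * ℓ ≤ s ∧ s ≤ u ∧ u + ℓ ≤ v ∧ v ≤ t ∧ t ≤ α + 17 * ℓ ∧
      (v - u)⁻¹ * (∫ y in u..v, f y) + S ≤ f s ∧ (v - u)⁻¹ * (∫ y in u..v, f y) + S ≤ f t := by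
  obtain ⟨v₁, hv₁n, hv₁a, hv₁b, hv₁A, s, hs1, hs2, hs3⟩ := cv_fall f hf n g φ x ω hx η hη C hC α ℓ
    hℓ hα hω hwin hG t₀ ht₀ htop S hS hS0
  obtain ⟨v₂, hv₂n, hv₂a, hv₂b, hv₂A, t, ht1, ht2, ht3⟩ := cv_rise f hf n g φ x ω hx η hη C hC α ℓ
    hℓ hα hω hwin hG t₀ ht₀ htop S hS hS0
  rcases le_total (g v₁) (g v₂) with h | h
  · refine ⟨s, x v₁ - 4 * ℓ, x v₁ + 4 * ℓ, t, hs1, by linarith, by linarith, by linarith, ht2, ?_, ?_⟩
    · rw [cv_A]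
      linarith
    · rw [cv_A]
      linarith
  · refine ⟨s, x v₂ - 4 * ℓ, x v₂ + 4 * ℓ, t, hs1, by linarith, by linarith, by linarith, ht2, ?_, ?_⟩
    · rw [cv_A]
      linarith
    · rw [cv_A]
      linarith

end Pool.Agent.BV653
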