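import Pool.Agent.BV653.Defs
import Pool.Agent.BV653.K4
import Pool.Agent.BV653.K8
import Pool.Agent.BV653.K9
set_option autoImplicit false
open MeasureTheory Set Filter Topology
namespace Pool.Agent.BV653
theorem sL_ex {n : ℕ} {g φ : ℕ → ℝ} {t : ℕ} {η : ℝ} (hη0 : 0 < η)
    (h : 2 * η < (volume (Lam n g φ t)).toReal) :
    ∃ l ∈ Lam n g φ t, (volume (Lam n g φ t)).toReal - η ≤ g t - l := by
  by_contra hcon
  push Not at hcon
  have hsub : Lam n g φ t ⊆ Ioo (g t - ((volume (Lam n g φ t)).toReal - η)) (g t) :=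
    fun l hl => ⟨by have := hcon l hl; linarith, hl.1⟩
  have h1 : volume (Lam n g φ t) ≤ ENNReal.ofReal ((volume (Lam n g φ t)).toReal - η) := by
    refine (measure_mono hsub).trans ?_
    rw [Real.volume_Ioo]
    apply ENNReal.ofReal_le_ofReal
    linarith
  have h2 := ENNReal.toReal_mono ENNReal.ofReal_ne_top h1
  rw [ENNReal.toReal_ofReal (by linarith)] at h2
  linarith

theorem sL_mono {n : ℕ} {x : ℕ → ℝ} (hx : ∀ i < n, x i < x (i + 1)) :
    ∀ i j, i < j → j ≤ n → x i < x j := by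
  intro i j hij
  induction j, hij using Nat.le_induction with
  | base => exact fun h => hx i (by omega)
  | succ j _ ih => exact fun h => (ih (by omega)).trans (hx j (by omega))

theorem sL_valley1 (f : ℝ → ℝ) (hf : ∀ a b, IntervalIntegrable f volume a b) (n : ℕ)
    (g φ x ω : ℕ → ℝ) (hx : ∀ i < n, x i < x (i + 1)) (η : ℝ) (hη0 : 0 < η)
    (hφ : ∀ i < n, ∀ y ∈ Ioo (x i) (x (i + 1)), f y ≤ φ (i + 1))
    (t0 : ℕ) (ht0 : t0 ≤ n) (hwin : g t0 - η ≤ A f (x t0) (ω t0))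
    (hG : ∀ v ≤ n, ∀ r > 0, x t0 - ω t0 ≤ x v - r → x v + r ≤ x t0 + ω t0 → A f (x v) r ≤ g v)
    (α ℓ : ℝ) (hℓ : 0 < ℓ) (hα : α ≤ x t0 ∧ x t0 ≤ α + ℓ) (hω : 8 * ℓ < ω t0 ∧ ω t0 ≤ 16 * ℓ)
    (hbig : 2 * η < (volume (Lam n g φ t0)).toReal) :
    ∃ s u v t : ℝ, α - 16 * ℓ ≤ s ∧ s ≤ u ∧ u + ℓ ≤ v ∧ v ≤ t ∧ t ≤ α + 17 * ℓ ∧
      (v - u)⁻¹ * (∫ y in u..v, f y) + ((volume (Lam n g φ t0)).toReal - 2 * η) ≤ f s ∧
      (v - u)⁻¹ * (∫ y in u..v, f y) + ((volume (Lam n g φ t0)).toReal - 2 * η) ≤ f t := by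
  classical
  obtain ⟨l, hl, hlb⟩ := sL_ex hη0 hbig
  obtain ⟨hlt, a, b, hat, htb, hbn, hga, hgb, -, -, -, hφl⟩ := hl
  have hmono := sL_mono hx
  have hle : ∀ᵐ y, y ∈ Ioo (x a) (x b) → f y ≤ l := by
    have hnull : volume (x '' Set.Iic n) = 0 := ((Set.finite_Iic n).image x).measure_zero _
    have hae : ∀ᵐ y, y ∉ x '' Set.Iic n := measure_eq_zero_iff_ae_notMem.1 hnull
    filter_upwards [hae] with y hy hyab
    obtain ⟨i, hi1, hi2, hi3, hi4⟩ : ∃ i, a ≤ i ∧ i < b ∧ x i < y ∧ y < x (i+1) := by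
      have hex : ∃ j, a < j ∧ y < x j := ⟨b, by omega, hyab.2⟩
      have hj := Nat.find_spec hex
      have hjb : Nat.find hex ≤ b := Nat.find_min' hex ⟨by omega, hyab.2⟩
      obtain ⟨j, hj'⟩ : ∃ j, Nat.find hex = j := ⟨_, rfl⟩
      have hmin := fun m (hm : m < Nat.find hex) => Nat.find_min hex hm
      rw [hj'] at hj hjb hmin
      refine ⟨j - 1, by omega, by omega, ?_, ?_⟩
      · by_cases hja : j - 1 = a
        · rw [hja]
          exact hyab.1
        · have h1 := hmin (j - 1) (by omega)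
          have h2 : x (j - 1) ≤ y := by
            by_contra h3
            exact h1 ⟨by omega, not_le.1 h3⟩
          rcases h2.lt_or_eq with h3 | h3
          · exact h3
          · exact absurd ⟨j - 1, by simp only [Set.mem_Iic]; omega, h3⟩ hy
      · rw [Nat.sub_add_cancel (by omega)]
        exact hj.2
    exact (hφ i (by omega) y ⟨hi3, hi4⟩).trans (hφl (i+1) (by omega) (by omega))
  obtain ⟨s, u, v, t, h1, h2, h3, h4, h5, h6, h7, h8⟩ := VL f hf (x a) (x t0) (x b) (ω t0) l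
    ((volume (Lam n g φ t0)).toReal - 2 * η) ℓ (hmono a t0 hat ht0) (hmono t0 b htb hbn)
    (by linarith) hℓ hω.1 hω.2
    (fun r hr h1 h2 => (hG a (by omega) r hr h1 h2).trans hga)
    (fun r hr h1 h2 => (hG b hbn r hr h1 h2).trans hgb) hle (by linarith)
  have hvu : 0 < v - u := by linarith
  have havg : (v - u)⁻¹ * (∫ y in u..v, f y) ≤ l := by
    rw [inv_mul_le_iff₀ hvu]
    linarith
  exact ⟨s, u, v, t, by linarith [hα.1, hω.2], h2, h3, h4, by linarith [hα.2, hω.2],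
    by linarith, by linarith⟩

theorem sL_keys (f : ℝ → ℝ) (hbdd : ∃ B, ∀ x, |f x| ≤ B) (V : ℝ) (hV : FallsLE f univ V)
    (T : Finset (ℤ × ℤ)) (H : ℤ × ℤ → ℝ)
    (hval : ∀ c ∈ T, ∃ s u v t : ℝ, (c.2 : ℝ) * (2:ℝ) ^ c.1 - 16 * (2:ℝ) ^ c.1 ≤ s ∧ s ≤ u ∧
      u + (2:ℝ) ^ c.1 ≤ v ∧ v ≤ t ∧ t ≤ (c.2 : ℝ) * (2:ℝ) ^ c.1 + 17 * (2:ℝ) ^ c.1 ∧
      (v - u)⁻¹ * (∫ y in u..v, f y) + H c ≤ f s ∧ (v - u)⁻¹ * (∫ y in u..v, f y) + H c ≤ f t) :
    ∑ c ∈ T, H c ≤ 476 * V := by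
  classical
  have hval' : ∀ c : ℤ × ℤ, ∃ s u v t : ℝ, c ∈ T →
      ((c.2 : ℝ) * (2:ℝ) ^ c.1 - 16 * (2:ℝ) ^ c.1 ≤ s ∧ s ≤ u ∧
      u + (2:ℝ) ^ c.1 ≤ v ∧ v ≤ t ∧ t ≤ (c.2 : ℝ) * (2:ℝ) ^ c.1 + 17 * (2:ℝ) ^ c.1 ∧
      (v - u)⁻¹ * (∫ y in u..v, f y) + H c ≤ f s ∧
      (v - u)⁻¹ * (∫ y in u..v, f y) + H c ≤ f t) := by
    intro c
    by_cases hc : c ∈ T
    · obtain ⟨s, u, v, t, h⟩ := hval c hc
      exact ⟨s, u, v, t, fun _ => h⟩
    · exact ⟨0, 0, 0, 0, fun h => absurd h hc⟩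
  choose s u v t hc using hval'
  have hcls : ∀ r : ZMod 7 × ZMod 34,
      ∑ c ∈ T.filter (fun c : ℤ × ℤ => ((c.1 : ZMod 7), (c.2 : ZMod 34)) = r), H c ≤ 2 * V := by
    intro r
    have hT : ∀ c ∈ T.filter (fun c : ℤ × ℤ => ((c.1 : ZMod 7), (c.2 : ZMod 34)) = r), c ∈ T :=
      fun c h => (Finset.mem_filter.1 h).1
    refine DL (T.filter (fun c : ℤ × ℤ => ((c.1 : ZMod 7), (c.2 : ZMod 34)) = r))
      (fun c => c.1) s u v t H
      (fun c h => (hc c (hT c h)).2.1) (fun c h => (hc c (hT c h)).2.2.1)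
      (fun c h => (hc c (hT c h)).2.2.2.1) ?_ ?_ f hbdd V hV
      (fun c h => (hc c (hT c h)).2.2.2.2.2.1) (fun c h => (hc c (hT c h)).2.2.2.2.2.2)
    · intro c h
      have h1 := (hc c (hT c h)).1
      have h2 := (hc c (hT c h)).2.2.2.2.1
      linarith
    · intro c h c' h' hne
      have e1 := (Finset.mem_filter.1 h).2
      have e2 := (Finset.mem_filter.1 h').2
      rw [← e2] at e1
      have e3 : ((c.1 : ℤ) : ZMod 7) = ((c'.1 : ℤ) : ZMod 7) := congrArg Prod.fst e1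
      have e4 : ((c.2 : ℤ) : ZMod 34) = ((c'.2 : ℤ) : ZMod 34) := congrArg Prod.snd e1
      rw [ZMod.intCast_eq_intCast_iff_dvd_sub] at e3 e4
      by_cases hk : c.1 = c'.1
      · left
        refine ⟨hk, ?_⟩
        have hne2 : c.2 ≠ c'.2 := fun h2 => hne (Prod.ext hk h2)
        have hpos : (0 : ℝ) < (2:ℝ) ^ c.1 := by positivity
        have h1 := (hc c (hT c h)).1
        have h2 := (hc c (hT c h)).2.2.2.2.1
        have h3 := (hc c' (hT c' h')).1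
        have h4 := (hc c' (hT c' h')).2.2.2.2.1
        rw [← hk] at h3 h4
        rw [Set.disjoint_left]
        intro y hy hy'
        obtain ⟨z, hz⟩ := e4
        push_cast at hz
        have hz0 : z ≠ 0 := by
          intro hz0
          rw [hz0] at hz
          apply hne2
          omega
        rcases lt_or_gt_of_ne hz0 with hz1 | hz1
        · have h5 : c'.2 + 34 ≤ c.2 := by omega
          have h6 : ((c'.2 : ℤ) : ℝ) + 34 ≤ ((c.2 : ℤ) : ℝ) := by exact_mod_cast h5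
          have h7 := mul_le_mul_of_nonneg_right h6 hpos.le
          linarith [hy.1, hy.2, hy'.1, hy'.2]
        · have h5 : c.2 + 34 ≤ c'.2 := by omega
          have h6 : ((c.2 : ℤ) : ℝ) + 34 ≤ ((c'.2 : ℤ) : ℝ) := by exact_mod_cast h5
          have h7 := mul_le_mul_of_nonneg_right h6 hpos.le
          linarith [hy.1, hy.2, hy'.1, hy'.2]
      · right
        obtain ⟨z, hz⟩ := e3
        push_cast at hz
        have hz0 : z ≠ 0 := by
          intro hz0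
          rw [hz0] at hz
          apply hk
          omega
        rcases lt_or_gt_of_ne hz0 with hz1 | hz1
        · right
          show c'.1 + 7 ≤ c.1
          omega
        · left
          show c.1 + 7 ≤ c'.1
          omega
  rw [← Finset.sum_fiberwise T (fun c : ℤ × ℤ => ((c.1 : ZMod 7), (c.2 : ZMod 34))) H]
  calc _ ≤ ∑ r : ZMod 7 × ZMod 34, 2 * V := Finset.sum_le_sum (fun r _ => hcls r)
    _ = 476 * V := by
      rw [Finset.sum_const, Finset.card_univ, Fintype.card_prod, ZMod.card, ZMod.card,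
        nsmul_eq_mul]
      push_cast
      ring

/-- the type II levels have total measure at most `952 V` up to the error `η` -/
theorem sum_Lam_le (f : ℝ → ℝ) (hf : ∀ a b, IntervalIntegrable f volume a b)
    (hbdd : ∃ B, ∀ x, |f x| ≤ B) (V : ℝ) (hV : FallsLE f univ V) (n : ℕ)
    (g φ x ω : ℕ → ℝ) (hx : ∀ i < n, x i < x (i + 1)) (η : ℝ) (hη0 : 0 < η)
    (hη : ∀ i ≤ n, ∀ j ≤ n, g j < g i → 2 * η ≤ g i - g j)
    (hφ : ∀ i < n, ∀ y ∈ Ioo (x i) (x (i + 1)), f y ≤ φ (i + 1)) (hω0 : ∀ t ≤ n, 0 < ω t)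
    (hwin : ∀ t ≤ n, g t - η ≤ A f (x t) (ω t))
    (hG : ∀ t ≤ n, ∀ v ≤ n, ∀ r > 0, x t - ω t ≤ x v - r → x v + r ≤ x t + ω t →
      A f (x v) r ≤ g v) :
    ∑ t ∈ Finset.range (n + 1), (volume (Lam n g φ t)).toReal ≤ 952 * V + (n + 1) * (2 * η) := by
  classical
  obtain ⟨h, hh⟩ : ∃ h : ℕ → ℝ, ∀ t, h t = (volume (Lam n g φ t)).toReal := ⟨_, fun _ => rfl⟩
  have hnn : ∀ t, 0 ≤ h t := fun t => by
    rw [hh]
    exact ENNReal.toReal_nonneg
  simp only [← hh]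
  obtain ⟨T0, hT0⟩ : ∃ T0, T0 = (Finset.range (n+1)).filter (fun t => 2 * η < h t) := ⟨_, rfl⟩
  have hmem : ∀ t ∈ T0, t ≤ n ∧ 2 * η < h t := by
    intro t ht
    rw [hT0, Finset.mem_filter, Finset.mem_range] at ht
    exact ⟨by omega, ht.2⟩
  have hk : ∀ t, ∃ k : ℤ, t ≤ n → 8 * (2:ℝ)^k < ω t ∧ ω t ≤ 16 * (2:ℝ)^k := by
    intro t
    by_cases ht : t ≤ n
    · obtain ⟨k, hk⟩ := exists_mem_Ioc_zpow (x := ω t / 8) (y := (2:ℝ))
        (by have := hω0 t ht; positivity) (by norm_num)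
      refine ⟨k, fun _ => ⟨by have := hk.1; linarith, ?_⟩⟩
      have := hk.2
      rw [zpow_add_one₀ (by norm_num)] at this
      linarith
    · exact ⟨0, fun h => absurd h ht⟩
  choose k hk using hk
  obtain ⟨key, hkey⟩ : ∃ key : ℕ → ℤ × ℤ, ∀ t, key t = (k t, ⌊x t / (2:ℝ)^(k t)⌋) :=
    ⟨_, fun _ => rfl⟩
  have hloc : ∀ t, ((key t).2 : ℝ) * (2:ℝ) ^ (key t).1 ≤ x t ∧
      x t ≤ ((key t).2 : ℝ) * (2:ℝ) ^ (key t).1 + (2:ℝ) ^ (key t).1 := by
    intro t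
    rw [hkey]
    have hpos : (0 : ℝ) < (2:ℝ) ^ (k t) := by positivity
    have h1 := Int.floor_le (x t / (2:ℝ)^(k t))
    have h2 := (Int.lt_floor_add_one (x t / (2:ℝ)^(k t))).le
    rw [le_div_iff₀ hpos] at h1
    rw [div_le_iff₀ hpos] at h2
    exact ⟨h1, by linarith⟩
  obtain ⟨C, hC⟩ : ∃ C : ℤ × ℤ → Finset ℕ, ∀ c, C c = T0.filter (fun t => key t = c) :=
    ⟨_, fun _ => rfl⟩
  have htop : ∀ c : ℤ × ℤ, ∃ t0 : ℕ, c ∈ T0.image key →
      t0 ∈ C c ∧ ∀ t ∈ C c, g t ≤ g t0 ∧ (g t = g t0 → t0 ≤ t) := by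
    intro c
    by_cases hc : c ∈ T0.image key
    · have hne : (C c).Nonempty := by
        obtain ⟨t, ht, htc⟩ := Finset.mem_image.1 hc
        exact ⟨t, by rw [hC, Finset.mem_filter]; exact ⟨ht, htc⟩⟩
      obtain ⟨t1, ht1, hmax⟩ := Finset.exists_max_image (C c) g hne
      have hne2 : ((C c).filter (fun t => g t = g t1)).Nonempty :=
        ⟨t1, Finset.mem_filter.2 ⟨ht1, rfl⟩⟩
      obtain ⟨t2, ht2, hmin⟩ := Finset.exists_min_image _ (fun t => t) hne2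
      rw [Finset.mem_filter] at ht2
      refine ⟨t2, fun _ => ⟨ht2.1, fun t ht => ⟨?_, fun he => ?_⟩⟩⟩
      · rw [ht2.2]
        exact hmax t ht
      · exact hmin t (Finset.mem_filter.2 ⟨ht, he.trans ht2.2⟩)
    · exact ⟨0, fun h => absurd h hc⟩
  choose t0 ht0 using htop
  have hCmem : ∀ c, ∀ t ∈ C c, t ∈ T0 ∧ key t = c := by
    intro c t ht
    rw [hC, Finset.mem_filter] at ht
    exact ht
  obtain ⟨S, hS⟩ : ∃ S : ℤ × ℤ → ℝ, ∀ c, S c = ∑ t ∈ (C c).erase (t0 c), h t := ⟨_, fun _ => rfl⟩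
  have hS0 : ∀ c, 0 ≤ S c := fun c => by
    rw [hS]
    exact Finset.sum_nonneg (fun t _ => hnn t)
  have e1 : ∑ t ∈ T0, h t = ∑ c ∈ T0.image key, (h (t0 c) + S c) := by
    rw [← Finset.sum_fiberwise_of_maps_to (g := key) (t := T0.image key)
      (fun t ht => Finset.mem_image_of_mem key ht) h]
    refine Finset.sum_congr rfl (fun c hc => ?_)
    rw [hS, Finset.add_sum_erase _ _ (ht0 c hc).1, hC]
  have v1 : ∑ c ∈ T0.image key, (h (t0 c) - 2 * η) ≤ 476 * V := by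
    refine sL_keys f hbdd V hV _ _ (fun c hc => ?_)
    obtain ⟨h1, -⟩ := ht0 c hc
    obtain ⟨h2, h3⟩ := hCmem c _ h1
    obtain ⟨h4, h5⟩ := hmem _ h2
    have h6 := hloc (t0 c)
    rw [h3] at h6
    have h7 := hk (t0 c) h4
    have h8 : k (t0 c) = c.1 := by
      have h9 := congrArg Prod.fst h3
      rw [hkey] at h9
      exact h9
    rw [h8] at h7
    rw [hh] at h5 ⊢
    exact sL_valley1 f hf n g φ x ω hx η hη0 hφ (t0 c) h4 (hwin _ h4) (hG _ h4)
      ((c.2 : ℝ) * (2:ℝ) ^ c.1) ((2:ℝ) ^ c.1) (by positivity) h6 h7 h5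
  have v2 : ∑ c ∈ T0.image key, S c ≤ 476 * V := by
    have e2 : ∑ c ∈ T0.image key, S c = ∑ c ∈ (T0.image key).filter (fun c => 0 < S c), S c := by
      rw [Finset.sum_filter]
      refine Finset.sum_congr rfl (fun c _ => ?_)
      by_cases h0 : 0 < S c
      · rw [if_pos h0]
      · rw [if_neg h0]
        exact le_antisymm (not_lt.1 h0) (hS0 c)
    rw [e2]
    refine sL_keys f hbdd V hV _ _ (fun c hc => ?_)
    obtain ⟨hc, hpos⟩ := Finset.mem_filter.1 hc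
    obtain ⟨h1, h1'⟩ := ht0 c hc
    have hck : ∀ t ∈ C c, t ≤ n ∧ k t = c.1 := by
      intro t ht
      obtain ⟨h2, h3⟩ := hCmem c _ ht
      exact ⟨(hmem _ h2).1, by rw [← h3, hkey]⟩
    refine cluster_valley f hf n g φ x ω hx η hη (C c) (fun t ht => (hck t ht).1)
      ((c.2 : ℝ) * (2:ℝ) ^ c.1) ((2:ℝ) ^ c.1) (by positivity) (fun t ht => ?_) (fun t ht => ?_)
      (fun t ht => hwin t (hck t ht).1) (fun t ht => hG t (hck t ht).1) (t0 c) h1 h1' (S c) ?_ hpos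
    · have h6 := hloc t
      rw [(hCmem c _ ht).2] at h6
      exact h6
    · have h7 := hk t (hck t ht).1
      rw [(hck t ht).2] at h7
      exact h7
    · rw [hS]
      exact Finset.sum_congr rfl (fun t _ => hh t)
  rw [← Finset.sum_filter_add_sum_filter_not (Finset.range (n+1)) (fun t => 2 * η < h t), ← hT0,
    e1]
  have v3 : ∑ t ∈ (Finset.range (n+1)).filter (fun t => ¬ 2 * η < h t), h t ≤
      (((Finset.range (n+1)).filter (fun t => ¬ 2 * η < h t)).card : ℝ) * (2 * η) := by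
    rw [← nsmul_eq_mul, ← Finset.sum_const]
    exact Finset.sum_le_sum (fun t ht => not_lt.1 (Finset.mem_filter.1 ht).2)
  have hcard : (T0.card : ℝ) + (((Finset.range (n+1)).filter (fun t => ¬ 2 * η < h t)).card : ℝ)
      = n + 1 := by
    have := Finset.card_filter_add_card_filter_not (s := Finset.range (n+1))
      (fun t => 2 * η < h t)
    rw [← hT0, Finset.card_range] at this
    exact_mod_cast this
  have hcard2 : ((T0.image key).card : ℝ) ≤ T0.card := by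
    exact_mod_cast Finset.card_image_le
  have e3 : ∑ c ∈ T0.image key, (h (t0 c) + S c) =
      ∑ c ∈ T0.image key, (h (t0 c) - 2 * η) + ∑ c ∈ T0.image key, S c +
        ((T0.image key).card : ℝ) * (2 * η) := by
    rw [← nsmul_eq_mul, ← Finset.sum_const, ← Finset.sum_add_distrib, ← Finset.sum_add_distrib]
    refine Finset.sum_congr rfl (fun c _ => ?_)
    ring
  rw [e3]
  have hη2 : 0 < 2 * η := by linarith
  have h9 : ((T0.image key).card : ℝ) * (2 * η) ≤ T0.card * (2 * η) :=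
    mul_le_mul_of_nonneg_right hcard2 hη2.le
  have h10 : ((n : ℝ) + 1) * (2 * η) = T0.card * (2 * η) +
      (((Finset.range (n+1)).filter (fun t => ¬ 2 * η < h t)).card : ℝ) * (2 * η) := by
    rw [← hcard]
    ring
  linarith

end Pool.Agent.BV653
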