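import Pool.Agent.BV653.Defs
set_option autoImplicit false
open MeasureTheory Set Filter Topology
namespace Pool.Agent.BV653
theorem h170_sum_two (g : ℕ → ℝ) (n : ℕ) :
    ∑ k ∈ Finset.range (2 * n), g k = ∑ i ∈ Finset.range n, (g (2 * i) + g (2 * i + 1)) := by
  induction n with
  | zero => simp
  | succ n ih =>
    rw [show 2 * (n + 1) = 2 * n + 1 + 1 by ring, Finset.sum_range_succ, Finset.sum_range_succ, ih,
      Finset.sum_range_succ]
    ring

/-- type I levels are paid for by the falls of `f` -/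
theorem K_type1 (f : ℝ → ℝ) (V : ℝ) (hV : FallsLE f univ V) (n : ℕ) (x : ℕ → ℝ)
    (hx : ∀ i < n, x i < x (i + 1)) (φ e : ℕ → ℝ)
    (hφ : ∀ i < n, ∀ ε > 0, ∃ y ∈ Ioo (x i) (x (i + 1)), φ (i + 1) - ε ≤ f y)
    (he : ∀ i, 1 ≤ i → i ≤ n → ∀ ε > 0, ∀ δ > 0, ∃ z, |z - x i| < δ ∧ f z ≤ e i + ε) :
    ∑ i ∈ Finset.range n, (φ (i + 1) - e (i + 1)) ≤ V := by
  apply le_of_forall_pos_le_add
  intro ε' hε'
  obtain ⟨ε, hε, hεε⟩ : ∃ ε : ℝ, 0 < ε ∧ 2 * (n : ℝ) * ε ≤ ε' := by
    refine ⟨ε' / (2 * n + 1), by positivity, ?_⟩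
    rw [← mul_div_assoc, div_le_iff₀ (by positivity)]
    nlinarith
  have hy : ∀ i, ∃ y, i < n → (x i < y ∧ y < x (i + 1) ∧ φ (i + 1) - ε ≤ f y) := by
    intro i
    by_cases hi : i < n
    · obtain ⟨y, hy1, hy2⟩ := hφ i hi ε hε
      exact ⟨y, fun _ => ⟨hy1.1, hy1.2, hy2⟩⟩
    · exact ⟨0, fun h => absurd h hi⟩
  choose y hy using hy
  have hz : ∀ j, ∃ z, 1 ≤ j → j ≤ n → (y (j - 1) < z ∧ (j < n → z < y j) ∧ f z ≤ e j + ε) := by
    intro j
    by_cases hj : 1 ≤ j ∧ j ≤ n
    · obtain ⟨hj1, hj2⟩ := hj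
      have h1 := hy (j - 1) (by omega)
      rw [Nat.sub_add_cancel hj1] at h1
      by_cases hjn : j < n
      · have h2 := hy j hjn
        obtain ⟨z, hz1, hz2⟩ := he j hj1 hj2 ε hε (min (x j - y (j - 1)) (y j - x j))
          (lt_min (by linarith) (by linarith))
        rw [lt_min_iff, abs_lt, abs_lt] at hz1
        refine ⟨z, fun _ _ => ⟨by linarith [hz1.1.1], fun _ => by linarith [hz1.2.2], hz2⟩⟩
      · obtain ⟨z, hz1, hz2⟩ := he j hj1 hj2 ε hε (x j - y (j - 1)) (by linarith)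
        rw [abs_lt] at hz1
        exact ⟨z, fun _ _ => ⟨by linarith [hz1.1], fun h => absurd h hjn, hz2⟩⟩
    · exact ⟨0, fun h1 h2 => absurd ⟨h1, h2⟩ hj⟩
  choose z hz using hz
  obtain ⟨W, hW⟩ : ∃ W : ℕ → ℝ, W = fun k => if k % 2 = 0 then (if k / 2 < n then y (k / 2) else z n)
    else z (k / 2 + 1) := ⟨_, rfl⟩
  have hWe : ∀ i, W (2 * i) = if i < n then y i else z n := by
    intro i
    rw [hW]
    simp only [Nat.mul_mod_right, if_true]
    rw [Nat.mul_div_cancel_left i (by norm_num)]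
  have hWo : ∀ i, W (2 * i + 1) = z (i + 1) := by
    intro i
    rw [hW]
    have h1 : (2 * i + 1) % 2 = 1 := by omega
    have h2 : (2 * i + 1) / 2 = i := by omega
    simp only [h1, h2]
    rfl
  have hWm : ∀ k < 2 * n, W k ≤ W (k + 1) := by
    intro k hk
    rcases Nat.even_or_odd' k with ⟨i, rfl | rfl⟩
    · have hi : i < n := by omega
      rw [hWe, hWo, if_pos hi]
      have := (hz (i + 1) (by omega) (by omega)).1
      rw [Nat.add_sub_cancel] at this
      exact this.le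
    · have hi : i < n := by omega
      rw [hWo, show 2 * i + 1 + 1 = 2 * (i + 1) by ring, hWe]
      by_cases hi2 : i + 1 < n
      · rw [if_pos hi2]
        exact ((hz (i + 1) (by omega) (by omega)).2.1 hi2).le
      · rw [if_neg hi2]
        have : i + 1 = n := by omega
        rw [this]
  have hmono : Monotone (fun k => W (min k (2 * n))) := by
    apply monotone_nat_of_le_succ
    intro k
    show W (min k (2 * n)) ≤ W (min (k + 1) (2 * n))
    by_cases hk : k < 2 * n
    · rw [min_eq_left hk.le, min_eq_left (by omega)]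
      exact hWm k hk
    · rw [min_eq_right (by omega), min_eq_right (by omega)]
  have h1 := hV (2 * n) (fun k => W (min k (2 * n))) hmono (fun _ => mem_univ _)
  rw [h170_sum_two] at h1
  have h2 : ∑ i ∈ Finset.range n, (φ (i + 1) - e (i + 1)) ≤
      ∑ i ∈ Finset.range n, ((max (f (W (min (2 * i) (2 * n))) - f (W (min (2 * i + 1) (2 * n)))) 0 +
        max (f (W (min (2 * i + 1) (2 * n))) - f (W (min (2 * i + 1 + 1) (2 * n)))) 0) + 2 * ε) := by
    apply Finset.sum_le_sum
    intro i hi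
    rw [Finset.mem_range] at hi
    rw [min_eq_left (show 2 * i ≤ 2 * n by omega), min_eq_left (show 2 * i + 1 ≤ 2 * n by omega), hWe, hWo,
      if_pos hi]
    have h3 := (hy i hi).2.2
    have h4 := (hz (i + 1) (by omega) (by omega)).2.2
    have h5 := le_max_left (f (y i) - f (z (i + 1))) 0
    have h6 := le_max_right (f (z (i + 1)) - f (W (min (2 * i + 1 + 1) (2 * n)))) 0
    linarith
  rw [Finset.sum_add_distrib, Finset.sum_const, Finset.card_range, nsmul_eq_mul] at h2
  have h7 : (n : ℝ) * (2 * ε) = 2 * n * ε := by ring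
  linarith

end Pool.Agent.BV653
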