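import Pool.Agent.BV653.Defs
import Pool.Agent.BV653.K1
import Pool.Agent.BV653.K10
import Pool.Agent.BV653.K2
set_option autoImplicit false
open MeasureTheory Set Filter Topology
namespace Pool.Agent.BV653
/-- it suffices to bound the falls along strictly increasing samples -/
theorem falls_of_strict (f : ℝ → ℝ) (s : Set ℝ) (c : ℝ) (hc : 0 ≤ c)
    (h : ∀ (n : ℕ) (x : ℕ → ℝ), (∀ i < n, x i < x (i + 1)) → (∀ i ≤ n, x i ∈ s) →
      ∑ i ∈ Finset.range n, max (f (x i) - f (x (i + 1))) 0 ≤ c) : FallsLE f s c := by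
  intro n
  induction n with
  | zero => intro x _ _; simpa using hc
  | succ m ih =>
    intro x hx hs
    by_cases hall : ∀ i < m + 1, x i < x (i + 1)
    · exact h (m + 1) x hall (fun i _ => hs i)
    · push Not at hall
      obtain ⟨i0, hi0, hle⟩ := hall
      have heq : x i0 = x (i0 + 1) := le_antisymm (hx (Nat.le_succ i0)) hle
      have hy := ih (fun j => if j ≤ i0 then x j else x (j + 1)) (by
        intro a b hab
        show (if a ≤ i0 then x a else x (a + 1)) ≤ (if b ≤ i0 then x b else x (b + 1))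
        by_cases hb : b ≤ i0
        · rw [if_pos hb, if_pos (hab.trans hb)]
          exact hx hab
        · rw [if_neg hb]
          by_cases ha : a ≤ i0
          · rw [if_pos ha]
            exact hx (by omega)
          · rw [if_neg ha]
            exact hx (by omega)) (by
        intro j
        show (if j ≤ i0 then x j else x (j + 1)) ∈ s
        split_ifs
        · exact hs _
        · exact hs _)
      refine le_trans (le_of_eq ?_) hy
      rw [Finset.sum_range, Fin.sum_univ_succAbove _ (⟨i0, hi0⟩ : Fin (m + 1)), Finset.sum_range]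
      have h0 : max (f (x ((⟨i0, hi0⟩ : Fin (m + 1)) : ℕ)) -
          f (x (((⟨i0, hi0⟩ : Fin (m + 1)) : ℕ) + 1))) 0 = 0 := by
        simp only [heq, sub_self, max_self]
      rw [h0, zero_add]
      refine Finset.sum_congr rfl (fun j _ => ?_)
      by_cases hj : (j : ℕ) < i0
      · have e1 : (⟨i0, hi0⟩ : Fin (m + 1)).succAbove j = j.castSucc :=
          Fin.succAbove_of_castSucc_lt _ _ (by
            rw [Fin.lt_def]; exact hj)
        rw [e1, Fin.val_castSucc, if_pos (le_of_lt hj), if_pos (by omega : (j : ℕ) + 1 ≤ i0)]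
      · have e1 : (⟨i0, hi0⟩ : Fin (m + 1)).succAbove j = j.succ :=
          Fin.succAbove_of_le_castSucc _ _ (by
            rw [Fin.le_def]; exact not_lt.mp hj)
        rw [e1, Fin.val_succ, if_neg (by omega : ¬ ((j : ℕ) + 1 ≤ i0))]
        by_cases hj2 : (j : ℕ) ≤ i0
        · have e2 : (j : ℕ) = i0 := by omega
          rw [if_pos hj2, e2, heq]
        · rw [if_neg hj2]

/-- one-sided variation bound for maximal functions over hereditary families of windows -/
theorem thmK (f : ℝ → ℝ) (hf : ∀ a b, IntervalIntegrable f volume a b)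
    (hbdd : ∃ B, ∀ x, |f x| ≤ B) (V : ℝ) (hV : FallsLE f univ V) (W : Set (ℝ × ℝ))
    (hW : Hereditary W) (G : ℝ → ℝ) (s : Set ℝ)
    (hG1 : ∀ x ∈ s, ∀ r > 0, (x, r) ∈ W → A f x r ≤ G x)
    (hG2 : ∀ x ∈ s, ∀ η > 0, ∃ r > 0, (x, r) ∈ W ∧ G x - η ≤ A f x r)
    (B : ℝ) (hB0 : 0 ≤ B) (hB : ∀ x ∈ s, ∀ y ∈ s, x ≤ y → G x - G y ≤ B) :
    FallsLE G s (953 * V + B) := by
  have hV0 : 0 ≤ V := by
    have := hV 0 (fun _ => 0) monotone_const (fun _ => mem_univ _)
    simpa using this
  apply falls_of_strict G s _ (by linarith)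
  intro n x hx hs
  rcases Nat.eq_zero_or_pos n with hn | hn
  · subst hn
    simp only [Finset.range_zero, Finset.sum_empty]
    linarith
  obtain ⟨C, hC⟩ := hbdd
  have hmono : ∀ j, j ≤ n → ∀ i ≤ j, x i ≤ x j := by
    intro j
    induction j with
    | zero =>
      intro _ i hi
      rw [Nat.le_zero.mp hi]
    | succ k ih =>
      intro hk i hi
      rcases Nat.lt_or_ge i (k + 1) with h1 | h1
      · exact (ih (by omega) i (by omega)).trans (hx k (by omega)).le
      · rw [show i = k + 1 by omega]
  obtain ⟨S, hS⟩ : ∃ S : ℕ → ℝ, S = fun i => sSup (f '' Ioo (x i) (x (i + 1))) := ⟨_, rfl⟩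
  obtain ⟨φ, hφd⟩ : ∃ φ : ℕ → ℝ, φ = fun j => S (min (j - 1) (n - 1)) := ⟨_, rfl⟩
  have hφ1 : ∀ i < n, φ (i + 1) = S i := by
    intro i hi
    rw [hφd]
    show S (min (i + 1 - 1) (n - 1)) = S i
    congr 1
    omega
  have hφn : φ (n + 1) = φ n := by
    rw [hφd]
    show S (min (n + 1 - 1) (n - 1)) = S (min (n - 1) (n - 1))
    congr 1
    omega
  have hbd : ∀ i, BddAbove (f '' Ioo (x i) (x (i + 1))) := by
    intro i
    refine ⟨C, ?_⟩
    rintro _ ⟨y, _, rfl⟩
    exact (abs_le.mp (hC y)).2
  have hfS : ∀ i < n, ∀ y ∈ Ioo (x i) (x (i + 1)), f y ≤ S i := by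
    intro i _ y hy
    rw [hS]
    exact le_csSup (hbd i) ⟨y, hy, rfl⟩
  obtain ⟨g, hg⟩ : ∃ g : ℕ → ℝ, g = fun i => G (x i) := ⟨_, rfl⟩
  obtain ⟨e, he⟩ : ∃ e : ℕ → ℝ, e = fun i => min (g i) (min (φ i) (φ (i + 1))) := ⟨_, rfl⟩
  have hKc := K_comb n g φ e B hB0 (by
      intro i hi
      rw [hg]
      exact hB _ (hs 0 (by omega)) _ (hs i hi) (hmono i hi 0 (by omega)))
    (by intro i _; rw [he]; exact min_le_left _ _)
    (by intro i _ _; rw [he]; exact (min_le_right _ _).trans (min_le_left _ _))
    (by intro i _; rw [he]; exact (min_le_right _ _).trans (min_le_right _ _))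
  -- points of the left interval near `x i`
  have hleft : ∀ i, i < n → ∀ ε > 0, ∀ δ > 0, ∃ z, |z - x (i + 1)| < δ ∧ f z ≤ S i + ε := by
    intro i hi ε hε δ hδ
    have h1 := hx i hi
    have h2 : max (x i) (x (i + 1) - δ) < x (i + 1) := max_lt h1 (by linarith)
    obtain ⟨z, hz1, hz2⟩ := exists_between h2
    refine ⟨z, ?_, ?_⟩
    · rw [abs_lt]
      have := le_max_right (x i) (x (i + 1) - δ)
      constructor <;> linarith
    · have := hfS i hi z ⟨(le_max_left _ _).trans_lt hz1, hz2⟩
      linarith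
  have hright : ∀ i, i < n → ∀ ε > 0, ∀ δ > 0, ∃ z, |z - x i| < δ ∧ f z ≤ S i + ε := by
    intro i hi ε hε δ hδ
    have h1 := hx i hi
    have h2 : x i < min (x (i + 1)) (x i + δ) := lt_min h1 (by linarith)
    obtain ⟨z, hz1, hz2⟩ := exists_between h2
    refine ⟨z, ?_, ?_⟩
    · rw [abs_lt]
      have := min_le_right (x (i + 1)) (x i + δ)
      constructor <;> linarith
    · have := hfS i hi z ⟨hz1, hz2.trans_le (min_le_left _ _)⟩
      linarith
  have hK1 := K_type1 f V hV n x hx φ e (by
      intro i hi ε hε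
      rw [hφ1 i hi, hS]
      have hne : (f '' Ioo (x i) (x (i + 1))).Nonempty := (nonempty_Ioo.mpr (hx i hi)).image f
      obtain ⟨_, ⟨y, hy, rfl⟩, hlt⟩ := exists_lt_of_lt_csSup hne
        (show sSup (f '' Ioo (x i) (x (i + 1))) - ε < sSup (f '' Ioo (x i) (x (i + 1))) by linarith)
      exact ⟨y, hy, hlt.le⟩) (by
      intro i hi1 hin ε hε δ hδ
      have hpred : φ i = S (i - 1) := by
        have := hφ1 (i - 1) (by omega)
        rwa [show i - 1 + 1 = i by omega] at this
      have hL : ∃ z, |z - x i| < δ ∧ f z ≤ φ i + ε := by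
        have := hleft (i - 1) (by omega) ε hε δ hδ
        rw [show i - 1 + 1 = i by omega] at this
        rw [hpred]
        exact this
      have hR : ∃ z, |z - x i| < δ ∧ f z ≤ φ (i + 1) + ε := by
        rcases Nat.lt_or_ge i n with h1 | h1
        · rw [hφ1 i h1]
          exact hright i h1 ε hε δ hδ
        · have h2 : i = n := by omega
          subst h2
          rw [hφn]
          exact hL
      have hM : ∃ z, |z - x i| < δ ∧ f z ≤ g i + ε := by
        obtain ⟨r0, hr0, hrW, -⟩ := hG2 (x i) (hs i hin) 1 one_pos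
        have hr : 0 < min r0 (δ / 2) := lt_min hr0 (by linarith)
        have hrδ : min r0 (δ / 2) < δ := (min_le_right _ _).trans_lt (by linarith)
        obtain ⟨r, hrr⟩ : ∃ r, r = min r0 (δ / 2) := ⟨_, rfl⟩
        rw [← hrr] at hr hrδ
        have hrle : r ≤ r0 := by rw [hrr]; exact min_le_left _ _
        have hW' : (x i, r) ∈ W := hW (x i) r0 (x i) r hrW hr (by linarith) (by linarith)
        have hA := hG1 (x i) (hs i hin) r hr hW'
        by_contra hcon
        push Not at hcon
        have hint : ∫ t in (x i - r)..(x i + r), (g i + ε) ≤ ∫ t in (x i - r)..(x i + r), f t := by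
          apply intervalIntegral.integral_mono_on (by linarith) intervalIntegrable_const (hf _ _)
          intro z hz
          apply (hcon z ?_).le
          rw [abs_lt]
          constructor <;> linarith [hz.1, hz.2]
        rw [intervalIntegral.integral_const, smul_eq_mul] at hint
        have h3 : g i + ε ≤ A f (x i) r := by
          unfold A
          have h4 : x i + r - (x i - r) = 2 * r := by ring
          rw [h4] at hint
          have h5 : (2 * r)⁻¹ * (2 * r * (g i + ε)) = g i + ε := by
            have : (2 * r) ≠ 0 := by positivity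
            field_simp
          rw [← h5]
          exact mul_le_mul_of_nonneg_left hint (by positivity)
        have h6 : A f (x i) r ≤ g i := by rw [hg]; exact hA
        linarith
      rw [he]
      show ∃ z, |z - x i| < δ ∧ f z ≤ min (g i) (min (φ i) (φ (i + 1))) + ε
      rcases min_choice (g i) (min (φ i) (φ (i + 1))) with h1 | h1
      · rw [h1]; exact hM
      · rw [h1]
        rcases min_choice (φ i) (φ (i + 1)) with h2 | h2
        · rw [h2]; exact hL
        · rw [h2]; exact hR)
  have hLam : ∑ t ∈ Finset.range (n + 1), (volume (Lam n g φ t)).toReal ≤ 952 * V := by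
    have hev : ∀ᶠ η in 𝓝[>] (0 : ℝ), ∑ t ∈ Finset.range (n + 1), (volume (Lam n g φ t)).toReal ≤
        952 * V + (n + 1) * (2 * η) := by
      have h1 : ∀ᶠ η in 𝓝[>] (0 : ℝ), ∀ p ∈ Finset.range (n + 1) ×ˢ Finset.range (n + 1),
          g p.2 < g p.1 → 2 * η ≤ g p.1 - g p.2 := by
        rw [Filter.eventually_all_finset]
        intro p _
        by_cases hp : g p.2 < g p.1
        · have h2 : (0 : ℝ) < (g p.1 - g p.2) / 2 := by linarith
          filter_upwards [Ioo_mem_nhdsGT h2] with η hη _
          have := hη.2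
          linarith
        · exact Filter.Eventually.of_forall (fun η h => absurd h hp)
      filter_upwards [h1, self_mem_nhdsWithin] with η hη1 hη0
      have hη0' : 0 < η := hη0
      have hch : ∀ t : ℕ, ∃ r, t ≤ n → (0 < r ∧ (x t, r) ∈ W ∧ g t - η ≤ A f (x t) r) := by
        intro t
        by_cases ht : t ≤ n
        · obtain ⟨r, h2, h3, h4⟩ := hG2 (x t) (hs t ht) η hη0'
          refine ⟨r, fun _ => ⟨h2, h3, ?_⟩⟩
          rw [hg]
          exact h4
        · exact ⟨0, fun h => absurd h ht⟩
      choose ω hω using hch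
      apply sum_Lam_le f hf ⟨C, hC⟩ V hV n g φ x ω hx η hη0'
      · intro i hi j hj hij
        exact hη1 (i, j) (Finset.mem_product.mpr ⟨Finset.mem_range.mpr (by omega),
          Finset.mem_range.mpr (by omega)⟩) hij
      · intro i hi y hy
        rw [hφ1 i hi]
        exact hfS i hi y hy
      · intro t ht
        exact (hω t ht).1
      · intro t ht
        exact (hω t ht).2.2
      · intro t ht v hv r hr h2 h3
        rw [hg]
        exact hG1 (x v) (hs v hv) r hr (hW _ _ _ _ (hω t ht).2.1 hr h2 h3)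
    have htend : Tendsto (fun η : ℝ => 952 * V + (n + 1) * (2 * η)) (𝓝[>] (0 : ℝ))
        (𝓝 (952 * V)) := by
      have : Tendsto (fun η : ℝ => 952 * V + (n + 1) * (2 * η)) (𝓝 (0 : ℝ))
          (𝓝 (952 * V + (n + 1) * (2 * 0))) := by
        apply Continuous.tendsto
        fun_prop
      simp only [mul_zero, add_zero] at this
      exact this.mono_left nhdsWithin_le_nhds
    exact ge_of_tendsto htend hev
  have hfin : ∑ i ∈ Finset.range n, max (G (x i) - G (x (i + 1))) 0 =
      ∑ i ∈ Finset.range n, max (g i - g (i + 1)) 0 := by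
    rw [hg]
  rw [hfin]
  linarith

end Pool.Agent.BV653
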