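import Pool.Agent.BV653.Defs
import Pool.Agent.BV653.A2
set_option autoImplicit false
open MeasureTheory Set Filter Topology
namespace Pool.Agent.BV653
/-- weighted increments of a monotone function -/
theorem weighted_increments (T : Finset ℕ) (p z w : ℕ → ℝ) (hpz : ∀ i ∈ T, p i ≤ z i)
    (m : ℝ → ℝ) (hm : Monotone m) (V : ℝ) (h0 : ∀ x, 0 ≤ m x) (hV : ∀ x, m x ≤ V) (c : ℝ)
    (hc : ∀ y : ℝ, ∑ i ∈ T.filter (fun i => p i ≤ y ∧ y ≤ z i), w i ≤ c) (hw : ∀ i ∈ T, 0 ≤ w i) :
    ∑ i ∈ T, w i * (m (z i) - m (p i)) ≤ c * V := by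
  classical
  have hc0 : 0 ≤ c := le_trans (Finset.sum_nonneg fun i hi => hw i (Finset.mem_filter.mp hi).1) (hc 0)
  have hV0 : 0 ≤ V := le_trans (h0 0) (hV 0)
  have e1 : ∀ i ∈ T, w i * (m (z i) - m (p i)) =
      ∫ l, (Ico (m (p i)) (m (z i))).indicator (fun _ => w i) l := by
    intro i hi
    rw [integral_indicator measurableSet_Ico, setIntegral_const, smul_eq_mul,
      Measure.real, Real.volume_Ico, ENNReal.toReal_ofReal (by linarith [hm (hpz i hi)]), mul_comm]
  have int1 : ∀ i ∈ T, Integrable (fun l : ℝ => (Ico (m (p i)) (m (z i))).indicator (fun _ => w i) l) := by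
    intro i hi
    rw [integrable_indicator_iff measurableSet_Ico]
    exact integrableOn_const (by simp)
  have e2 : c * V = ∫ l : ℝ, (Icc 0 V).indicator (fun _ => c) l := by
    rw [integral_indicator measurableSet_Icc, setIntegral_const, smul_eq_mul,
      Measure.real, Real.volume_Icc, ENNReal.toReal_ofReal (by linarith), mul_comm]
    ring
  rw [Finset.sum_congr rfl e1, ← integral_finsetSum _ int1, e2]
  refine integral_mono (integrable_finsetSum _ int1) ?_ ?_
  · rw [integrable_indicator_iff measurableSet_Icc]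
    exact integrableOn_const (by simp)
  · intro l
    simp only
    have e3 : ∑ i ∈ T, (Ico (m (p i)) (m (z i))).indicator (fun _ => w i) l =
        ∑ i ∈ T.filter (fun i => m (p i) ≤ l ∧ l < m (z i)), w i := by
      rw [Finset.sum_filter]
      refine Finset.sum_congr rfl fun i _ => ?_
      by_cases hq : m (p i) ≤ l ∧ l < m (z i)
      · rw [if_pos hq, indicator_of_mem (by exact hq)]
      · rw [if_neg hq, indicator_of_notMem (by exact hq)]
    rw [e3]
    by_cases hne : (T.filter (fun i => m (p i) ≤ l ∧ l < m (z i))).Nonempty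
    · obtain ⟨j, hj⟩ := hne
      rw [Finset.mem_filter] at hj
      have hl : l ∈ Icc 0 V := ⟨le_trans (h0 _) hj.2.1, le_trans hj.2.2.le (hV _)⟩
      rw [indicator_of_mem hl]
      refine le_trans ?_ (hc (sInf {y | l < m y}))
      refine Finset.sum_le_sum_of_subset_of_nonneg ?_ fun i hi _ => hw i (Finset.mem_filter.mp hi).1
      intro i hi
      rw [Finset.mem_filter] at hi ⊢
      refine ⟨hi.1, ?_, ?_⟩
      · refine le_csInf ⟨z j, hj.2.2⟩ fun y hy => ?_
        by_contra hcon
        exact absurd (hm (not_le.mp hcon).le) (not_le.mpr (lt_of_le_of_lt hi.2.1 hy))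
      · refine csInf_le ⟨p j, fun y hy => ?_⟩ hi.2.2
        by_contra hcon
        exact absurd (hm (not_le.mp hcon).le) (not_le.mpr (lt_of_le_of_lt hj.2.1 hy))
    · rw [Finset.not_nonempty_iff_eq_empty] at hne
      rw [hne, Finset.sum_empty]
      exact indicator_nonneg (fun _ _ => hc0) _



theorem exists_ge_of_intv (u : ℝ → ℝ) (hu : ∀ a b, IntervalIntegrable u volume a b) (a b κ : ℝ)
    (hab : a < b) (h : κ * (b - a) ≤ ∫ t in a..b, u t) : ∃ z ∈ Icc a b, κ ≤ u z := by
  by_contra hcon
  push Not at hcon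
  have h1 : 0 < ∫ t in a..b, (κ - u t) :=
    intervalIntegral.intervalIntegral_pos_of_pos_on
      ((intervalIntegrable_const).sub (hu a b))
      (fun x hx => by linarith [hcon x (Ioo_subset_Icc_self hx)]) hab
  rw [intervalIntegral.integral_sub intervalIntegrable_const (hu a b),
    intervalIntegral.integral_const, smul_eq_mul] at h1
  linarith [mul_comm κ (b - a)]

theorem exists_le_of_intv (u : ℝ → ℝ) (hu : ∀ a b, IntervalIntegrable u volume a b) (a b κ : ℝ)
    (hab : a < b) (h : ∫ t in a..b, u t ≤ κ * (b - a)) : ∃ z ∈ Icc a b, u z ≤ κ := by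
  by_contra hcon
  push Not at hcon
  have h1 : 0 < ∫ t in a..b, (u t - κ) :=
    intervalIntegral.intervalIntegral_pos_of_pos_on
      ((hu a b).sub (intervalIntegrable_const))
      (fun x hx => by linarith [hcon x (Ioo_subset_Icc_self hx)]) hab
  rw [intervalIntegral.integral_sub (hu a b) intervalIntegrable_const,
    intervalIntegral.integral_const, smul_eq_mul] at h1
  linarith [mul_comm κ (b - a)]

theorem typeA_step (u : ℝ → ℝ) (hu : ∀ a b, IntervalIntegrable u volume a b) (p X r lam h : ℝ)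
    (hpX : p < X) (hr : X - p < r) (h1 : A u p (r - (X - p)) ≤ lam) (h2 : lam + h ≤ A u X r) :
    ∃ z ∈ Icc (X + r - 2 * (X - p)) (X + r), lam + r / (X - p) * h ≤ u z := by
  have hd : 0 < X - p := by linarith
  have hr0 : 0 < r := by linarith
  refine exists_ge_of_intv u hu _ _ _ (by linarith) ?_
  unfold A at h1 h2
  have e1 : p - (r - (X - p)) = X - r := by ring
  have e2 : p + (r - (X - p)) = X + r - 2 * (X - p) := by ring
  rw [e1, e2] at h1
  have h3 : ∫ t in (X - r)..(X + r - 2 * (X - p)), u t ≤ lam * (2 * (r - (X - p))) := by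
    rw [inv_mul_le_iff₀ (by linarith)] at h1
    linarith
  have h4 : (lam + h) * (2 * r) ≤ ∫ t in (X - r)..(X + r), u t := by
    rw [le_inv_mul_iff₀ (by linarith)] at h2
    linarith
  have h5 := intervalIntegral.integral_add_adjacent_intervals (hu (X - r) (X + r - 2 * (X - p)))
    (hu (X + r - 2 * (X - p)) (X + r))
  have h6 : r / (X - p) * h * (2 * (X - p)) = 2 * r * h := by
    field_simp
  nlinarith [h3, h4, h5, h6]

/-- variation from `R` -/
noncomputable def Vr (u : ℝ → ℝ) (R y : ℝ) : ℝ := (eVariationOn u (Icc R y)).toReal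

theorem Vr_mono (u : ℝ → ℝ) (R : ℝ) (hf : eVariationOn u (Ici R) ≠ ⊤) : Monotone (Vr u R) := by
  intro a b hab
  unfold Vr
  refine ENNReal.toReal_mono ?_ (eVariationOn.mono _ (Icc_subset_Icc_right hab))
  exact ne_top_of_le_ne_top hf (eVariationOn.mono _ Icc_subset_Ici_self)

theorem Vr_sub (u : ℝ → ℝ) (R : ℝ) (hf : eVariationOn u (Ici R) ≠ ⊤) (a b : ℝ) (ha : R ≤ a)
    (hab : a ≤ b) : |u b - u a| ≤ Vr u R b - Vr u R a := by
  have h1 := eVariationOn.Icc_add_Icc u (s := univ) ha hab (mem_univ _)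
  simp only [univ_inter] at h1
  have hfin : ∀ c d, R ≤ c → eVariationOn u (Icc c d) ≠ ⊤ := fun c d hc =>
    ne_top_of_le_ne_top hf (eVariationOn.mono _ (fun x hx => le_trans hc hx.1))
  have h2 : Vr u R b = Vr u R a + (eVariationOn u (Icc a b)).toReal := by
    unfold Vr
    rw [← h1, ENNReal.toReal_add (hfin _ _ le_rfl) (hfin _ _ ha)]
  have h3 := eVariationOn.edist_le u (right_mem_Icc.mpr hab) (left_mem_Icc.mpr hab)
  have h4 := ENNReal.toReal_mono (hfin a b ha) h3
  rw [edist_dist, ENNReal.toReal_ofReal dist_nonneg, Real.dist_eq] at h4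
  linarith

theorem exists_rho (n : ℕ) (x : ℕ → ℝ) (R : ℝ) (hx : ∀ i < n, x i < x (i + 1)) (hxR : R < x 0) :
    ∃ ρ > 0, ρ < x 0 - R ∧ ∀ i < n, ρ ≤ x (i + 1) - x i := by
  induction n with
  | zero => exact ⟨(x 0 - R) / 2, by linarith, by linarith, fun i hi => absurd hi (Nat.not_lt_zero i)⟩
  | succ n ih =>
    obtain ⟨ρ, h1, h2, h3⟩ := ih (fun i hi => hx i (by omega))
    refine ⟨min ρ (x (n + 1) - x n), lt_min h1 (by linarith [hx n (by omega)]),
      lt_of_le_of_lt (min_le_left _ _) h2, fun i hi => ?_⟩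
    rcases Nat.lt_succ_iff_lt_or_eq.mp hi with h | h
    · exact le_trans (min_le_left _ _) (h3 i h)
    · subst h
      exact min_le_right _ _

theorem x_mono (n : ℕ) (x : ℕ → ℝ) (hx : ∀ i < n, x i < x (i + 1)) :
    ∀ j ≤ n, ∀ i ≤ j, x i ≤ x j := by
  intro j
  induction j with
  | zero => intro _ i hi; rw [Nat.le_zero.mp hi]
  | succ j ih =>
    intro hj i hi
    rcases Nat.lt_or_eq_of_le hi with h | h
    · exact le_trans (ih (by omega) i (by omega)) (hx j (by omega)).le
    · rw [h]

/-- rises of `M u` on `(R,∞)` caused by windows reaching to the left of `R` -/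
theorem tail_typeA (u : ℝ → ℝ) (hu : ∀ a b, IntervalIntegrable u volume a b) (C : ℝ)
    (hC : ∀ x, |u x| ≤ C) (R V : ℝ) (hV0 : 0 ≤ V)
    (hV : eVariationOn u (Ici R) ≤ ENNReal.ofReal V) (n : ℕ) (x : ℕ → ℝ)
    (hx : ∀ i < n, x i < x (i + 1)) (hxR : R < x 0) (T : Finset ℕ) (hT : ∀ i ∈ T, i < n)
    (ω : ℕ → ℝ) (hω : ∀ i ∈ T, x (i + 1) - R < ω i) (η : ℝ) (hη : 0 ≤ η)
    (h1 : ∀ i ∈ T, M u (x (i + 1)) - η ≤ A u (x (i + 1)) (ω i)) :
    ∑ i ∈ T, max (M u (x (i + 1)) - M u (x i) - η) 0 ≤ 4 * V := by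
  classical
  obtain ⟨hM1, -, -, -⟩ := M_basic u hu C hC
  obtain ⟨ρ, hρ0, hρR, hρ⟩ := exists_rho n x R hx hxR
  have hmono := x_mono n x hx
  have hf : eVariationOn u (Ici R) ≠ ⊤ := ne_top_of_le_ne_top ENNReal.ofReal_ne_top hV
  set T' := T.filter (fun i => 0 < M u (x (i + 1)) - M u (x i) - η) with hT'
  have hsum : ∑ i ∈ T, max (M u (x (i + 1)) - M u (x i) - η) 0 =
      ∑ i ∈ T', (M u (x (i + 1)) - M u (x i) - η) := by
    rw [hT', Finset.sum_filter]
    refine Finset.sum_congr rfl fun i _ => ?_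
    split_ifs with hq
    · exact max_eq_left hq.le
    · exact max_eq_right (not_lt.mp hq)
  have hT1 : ∀ i ∈ T', i ∈ T ∧ 0 < M u (x (i + 1)) - M u (x i) - η := fun i hi =>
    Finset.mem_filter.mp hi
  -- the points
  have hz : ∀ i ∈ T', ∃ z ∈ Icc (x (i + 1) + ω i - 2 * (x (i + 1) - x i)) (x (i + 1) + ω i),
      M u (x i) + ω i / (x (i + 1) - x i) * (M u (x (i + 1)) - M u (x i) - η) ≤ u z := by
    intro i hi
    obtain ⟨hiT, hpos⟩ := hT1 i hi
    have hin := hT i hiT
    have hx0 : x 0 ≤ x i := hmono i hin.le 0 (Nat.zero_le _)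
    have hωi := hω i hiT
    refine typeA_step u hu (x i) (x (i + 1)) (ω i) _ _ (hx i hin) (by linarith)
      (hM1 _ _ (by linarith)) ?_
    have := h1 i hiT
    linarith
  have hp : ∀ i ∈ T', ∃ p ∈ Icc (x i - ρ) (x i + ρ), u p ≤ M u (x i) := by
    intro i hi
    refine exists_le_of_intv u hu _ _ _ (by linarith) ?_
    have h2 := hM1 (x i) ρ hρ0
    unfold A at h2
    rw [inv_mul_le_iff₀ (by linarith)] at h2
    linarith
  choose! z hz1 hz2 using hz
  choose! p hp1 hp2 using hp
  -- basic facts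
  have hbas : ∀ i ∈ T', i < n ∧ 0 < x (i + 1) - x i ∧ x (i + 1) - R < ω i ∧ x 0 ≤ x i ∧
      R < z i ∧ R < p i ∧ z i ≤ x (i + 1) + ω i ∧ x i - ρ ≤ p i ∧ p i ≤ x (i + 1) ∧
      x i - ρ ≤ z i ∧ 0 < ω i := by
    intro i hi
    obtain ⟨hiT, hpos⟩ := hT1 i hi
    have hin := hT i hiT
    have hx0 : x 0 ≤ x i := hmono i hin.le 0 (Nat.zero_le _)
    have hωi := hω i hiT
    have a1 := hz1 i hi
    have a2 := hp1 i hi
    have a3 := hρ i hin
    have a4 := hx i hin
    rw [mem_Icc] at a1 a2
    refine ⟨hin, by linarith, hωi, hx0, by linarith, by linarith, a1.2, a2.1, by linarith,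
      by linarith, by linarith⟩
  rw [hsum]
  have key := weighted_increments T' (fun i => min (z i) (p i)) (fun i => max (z i) (p i))
    (fun i => (x (i + 1) - x i) / ω i) (fun i _ => min_le_max) (Vr u R) (Vr_mono u R hf) V
    (fun y => ENNReal.toReal_nonneg)
    (fun y => by
      have h2 := ENNReal.toReal_mono ENNReal.ofReal_ne_top
        ((eVariationOn.mono u (Icc_subset_Ici_self : Icc R y ⊆ Ici R)).trans hV)
      rwa [ENNReal.toReal_ofReal hV0] at h2) 4 ?_
    (fun i hi => by
      obtain ⟨b1, b2, b3, b4, b5, b6, b7, b8, b9, b10, b11⟩ := hbas i hi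
      positivity)
  · refine le_trans (Finset.sum_le_sum fun i hi => ?_) key
    obtain ⟨b1, b2, b3, b4, b5, b6, b7, b8, b9, b10, b11⟩ := hbas i hi
    have h2 := hz2 i hi
    have h3 := hp2 i hi
    have h4 : |u (z i) - u (p i)| ≤ Vr u R (max (z i) (p i)) - Vr u R (min (z i) (p i)) := by
      rcases le_total (z i) (p i) with h | h
      · rw [max_eq_right h, min_eq_left h, abs_sub_comm]
        exact Vr_sub u R hf _ _ b5.le h
      · rw [max_eq_left h, min_eq_right h]
        exact Vr_sub u R hf _ _ b6.le h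
    have h5 : ω i / (x (i + 1) - x i) * (M u (x (i + 1)) - M u (x i) - η) ≤
        Vr u R (max (z i) (p i)) - Vr u R (min (z i) (p i)) := by
      have := le_abs_self (u (z i) - u (p i))
      linarith
    rw [div_mul_eq_mul_div, div_le_iff₀ b2] at h5
    show _ ≤ (x (i + 1) - x i) / ω i * (Vr u R (max (z i) (p i)) - Vr u R (min (z i) (p i)))
    rw [div_mul_eq_mul_div, le_div_iff₀ b11]
    linarith
  · intro y
    set F := T'.filter (fun i => min (z i) (p i) ≤ y ∧ y ≤ max (z i) (p i)) with hF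
    have hF1 : ∀ i ∈ F, i ∈ T' ∧ x i - ρ ≤ y ∧ y ≤ x (i + 1) + ω i := by
      intro i hi
      rw [hF, Finset.mem_filter] at hi
      obtain ⟨b1, b2, b3, b4, b5, b6, b7, b8, b9, b10, b11⟩ := hbas i hi.1
      refine ⟨hi.1, le_trans (le_min b10 b8) hi.2.1, le_trans hi.2.2 (max_le b7 (by linarith))⟩
    rw [← Finset.sum_filter_add_sum_filter_not F (fun i => x (i + 1) ≤ y)]
    have hS1 : ∑ i ∈ F.filter (fun i => x (i + 1) ≤ y), (x (i + 1) - x i) / ω i ≤ 2 := by
      rcases (F.filter (fun i => x (i + 1) ≤ y)).eq_empty_or_nonempty with he | hne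
      · rw [he, Finset.sum_empty]; norm_num
      · have hyR : 0 < y - R := by
          obtain ⟨j, hj⟩ := hne
          rw [Finset.mem_filter] at hj
          obtain ⟨b1, b2, b3, b4, b5, b6, b7, b8, b9, b10, b11⟩ := hbas j (hF1 j hj.1).1
          linarith [hj.2]
        have h2 : ∀ i ∈ F.filter (fun i => x (i + 1) ≤ y), (x (i + 1) - x i) / ω i ≤
            2 / (y - R) * (x (i + 1) - x i) := by
          intro i hi
          rw [Finset.mem_filter] at hi
          obtain ⟨c1, c2, c3⟩ := hF1 i hi.1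
          obtain ⟨b1, b2, b3, b4, b5, b6, b7, b8, b9, b10, b11⟩ := hbas i c1
          rw [div_mul_eq_mul_div, div_le_div_iff₀ b11 hyR]
          nlinarith
        refine le_trans (Finset.sum_le_sum h2) ?_
        rw [← Finset.mul_sum, div_mul_eq_mul_div, div_le_iff₀ hyR]
        have h3 : ∑ i ∈ F.filter (fun i => x (i + 1) ≤ y), (x (i + 1) - x i) ≤ y - R := by
          set k := (F.filter (fun i => x (i + 1) ≤ y)).max' hne with hk
          have hkm := Finset.max'_mem _ hne
          rw [← hk, Finset.mem_filter] at hkm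
          obtain ⟨b1, b2, b3, b4, b5, b6, b7, b8, b9, b10, b11⟩ := hbas k (hF1 k hkm.1).1
          have h4 : F.filter (fun i => x (i + 1) ≤ y) ⊆ Finset.range (k + 1) := by
            intro i hi
            rw [Finset.mem_range]
            have := Finset.le_max' _ i hi
            omega
          refine le_trans (Finset.sum_le_sum_of_subset_of_nonneg h4 ?_) ?_
          · intro i hi _
            rw [Finset.mem_range] at hi
            linarith [hx i (by omega)]
          · rw [Finset.sum_range_sub]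
            linarith [hkm.2, hxR]
        linarith
    have hS2 : ∑ i ∈ F.filter (fun i => ¬ x (i + 1) ≤ y), (x (i + 1) - x i) / ω i ≤ 2 := by
      rcases (F.filter (fun i => ¬ x (i + 1) ≤ y)).eq_empty_or_nonempty with he | hne
      · rw [he, Finset.sum_empty]; norm_num
      · have h2 : ∀ i ∈ F.filter (fun i => ¬ x (i + 1) ≤ y), (x (i + 1) - x i) / ω i ≤ 1 := by
          intro i hi
          rw [Finset.mem_filter] at hi
          obtain ⟨b1, b2, b3, b4, b5, b6, b7, b8, b9, b10, b11⟩ := hbas i (hF1 i hi.1).1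
          rw [div_le_one b11]
          linarith
        set k := (F.filter (fun i => ¬ x (i + 1) ≤ y)).min' hne with hk
        have hkm := Finset.min'_mem _ hne
        rw [← hk, Finset.mem_filter] at hkm
        have hcard : (F.filter (fun i => ¬ x (i + 1) ≤ y)).card ≤ 2 := by
          have hsub : F.filter (fun i => ¬ x (i + 1) ≤ y) ⊆ {k, k + 1} := by
            intro i hi
            have hki := Finset.min'_le _ i hi
            rw [← hk] at hki
            rw [Finset.mem_filter] at hi
            obtain ⟨c1, c2, c3⟩ := hF1 i hi.1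
            obtain ⟨b1, b2, b3, b4, b5, b6, b7, b8, b9, b10, b11⟩ := hbas i c1
            rw [Finset.mem_insert, Finset.mem_singleton]
            by_contra hcon
            have hk2 : k + 2 ≤ i := by omega
            have h5 := hmono i b1.le (k + 2) hk2
            have h6 := hρ (k + 1) (by omega)
            have h7 := hkm.2
            have h8 : x (k + 1 + 1) = x (k + 2) := rfl
            linarith
          exact (Finset.card_le_card hsub).trans Finset.card_le_two
        refine le_trans (Finset.sum_le_card_nsmul _ _ 1 h2) ?_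
        rw [nsmul_eq_mul, mul_one]
        exact_mod_cast hcard
    linarith

end Pool.Agent.BV653
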