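import Pool.Agent.BV653.Defs
set_option autoImplicit false
open MeasureTheory Set Filter Topology
namespace Pool.Agent.BV653
theorem fr_split (f : ℝ → ℝ) (x : ℕ → ℝ) (n : ℕ) :
    ∑ i ∈ Finset.range n, |f (x (i+1)) - f (x i)| =
      ∑ i ∈ Finset.range n, max (f (x i) - f (x (i + 1))) 0 +
      ∑ i ∈ Finset.range n, max (f (x (i + 1)) - f (x i)) 0 := by
  rw [← Finset.sum_add_distrib]
  refine Finset.sum_congr rfl fun i _ => ?_
  rcases le_total (f (x i)) (f (x (i+1))) with h | h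
  · rw [abs_of_nonneg (by linarith), max_eq_right (by linarith), max_eq_left (by linarith)]; ring
  · rw [abs_of_nonpos (by linarith), max_eq_left (by linarith), max_eq_right (by linarith)]; ring

theorem fr_tele (f : ℝ → ℝ) (x : ℕ → ℝ) (n : ℕ) :
    ∑ i ∈ Finset.range n, max (f (x (i + 1)) - f (x i)) 0 -
      ∑ i ∈ Finset.range n, max (f (x i) - f (x (i + 1))) 0 = f (x n) - f (x 0) := by
  rw [← Finset.sum_sub_distrib]
  have h2 := Finset.sum_range_sub (fun i => f (x i)) n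
  rw [← h2]
  refine Finset.sum_congr rfl fun i _ => ?_
  rcases le_total (f (x i)) (f (x (i+1))) with h | h
  · rw [max_eq_left (by linarith), max_eq_right (by linarith)]; ring
  · rw [max_eq_right (by linarith), max_eq_left (by linarith)]; ring

theorem fr_edist (f : ℝ → ℝ) (x : ℕ → ℝ) (n : ℕ) :
    ∑ i ∈ Finset.range n, edist (f (x (i+1))) (f (x i)) =
      ENNReal.ofReal (∑ i ∈ Finset.range n, |f (x (i+1)) - f (x i)|) := by
  rw [ENNReal.ofReal_sum_of_nonneg (fun i _ => abs_nonneg _)]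
  refine Finset.sum_congr rfl fun i _ => ?_
  rw [edist_dist, Real.dist_eq]

theorem fr_falls_nn (f : ℝ → ℝ) (x : ℕ → ℝ) (n : ℕ) :
    0 ≤ ∑ i ∈ Finset.range n, max (f (x i) - f (x (i + 1))) 0 :=
  Finset.sum_nonneg fun i _ => le_max_right _ _

theorem fr_rises_nn (f : ℝ → ℝ) (x : ℕ → ℝ) (n : ℕ) :
    0 ≤ ∑ i ∈ Finset.range n, max (f (x (i + 1)) - f (x i)) 0 :=
  Finset.sum_nonneg fun i _ => le_max_right _ _

/-- extended sample -/
noncomputable def fr_ext (x : ℕ → ℝ) (a b : ℝ) (n : ℕ) (i : ℕ) : ℝ :=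
  if i = 0 then a else if i ≤ n + 1 then x (i - 1) else b

theorem fr_ext_mono {x : ℕ → ℝ} {a b : ℝ} (n : ℕ) (hx : Monotone x) (hm : ∀ i, x i ∈ Icc a b)
    (hab : a ≤ b) : Monotone (fr_ext x a b n) := by
  refine monotone_nat_of_le_succ fun i => ?_
  unfold fr_ext
  rcases Nat.eq_zero_or_pos i with h0 | h0
  · subst h0
    simp only [if_true, zero_add]
    rw [if_neg (by omega), if_pos (by omega)]
    exact (hm _).1
  · rw [if_neg (by omega), if_neg (by omega : ¬ (i + 1 = 0))]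
    by_cases h1 : i ≤ n + 1
    · rw [if_pos h1]
      by_cases h2 : i + 1 ≤ n + 1
      · rw [if_pos h2]
        exact hx (by omega)
      · rw [if_neg h2]
        exact (hm _).2
    · rw [if_neg h1, if_neg (by omega)]

theorem fr_ext_mem {x : ℕ → ℝ} {a b : ℝ} (n : ℕ) (hm : ∀ i, x i ∈ Icc a b)
    (hab : a ≤ b) (i : ℕ) : fr_ext x a b n i ∈ Icc a b := by
  unfold fr_ext
  split_ifs
  · exact ⟨le_refl _, hab⟩
  · exact hm _
  · exact ⟨hab, le_refl _⟩

theorem fr_ext_sum (F : ℝ → ℝ → ℝ) (hF : ∀ u v, 0 ≤ F u v) (x : ℕ → ℝ) (a b : ℝ) (n : ℕ) :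
    ∑ i ∈ Finset.range n, F (x i) (x (i+1)) ≤
      ∑ i ∈ Finset.range (n+2), F (fr_ext x a b n i) (fr_ext x a b n (i+1)) := by
  rw [Finset.sum_range_succ, Finset.sum_range_succ']
  have e : ∑ i ∈ Finset.range n, F (x i) (x (i+1)) =
      ∑ i ∈ Finset.range n, F (fr_ext x a b n (i+1)) (fr_ext x a b n (i+1+1)) := by
    refine Finset.sum_congr rfl fun i hi => ?_
    have hi := Finset.mem_range.1 hi
    unfold fr_ext
    rw [if_neg (by omega), if_pos (by omega), if_neg (by omega), if_pos (by omega)]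
    simp
  rw [← e]
  have h1 := hF (fr_ext x a b n 0) (fr_ext x a b n (0+1))
  have h2 := hF (fr_ext x a b n (n+1)) (fr_ext x a b n (n+1+1))
  linarith

theorem fr_ext_zero (x : ℕ → ℝ) (a b : ℝ) (n : ℕ) : fr_ext x a b n 0 = a := by
  unfold fr_ext; simp

theorem fr_ext_last (x : ℕ → ℝ) (a b : ℝ) (n : ℕ) : fr_ext x a b n (n+2) = b := by
  unfold fr_ext; simp

theorem falls_of_evar {f : ℝ → ℝ} {s : Set ℝ} {V : ℝ} (hV : 0 ≤ V)
    (h : eVariationOn f s ≤ ENNReal.ofReal V) : FallsLE f s V ∧ RisesLE f s V := by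
  have key : ∀ (n : ℕ) (x : ℕ → ℝ), Monotone x → (∀ i, x i ∈ s) →
      ∑ i ∈ Finset.range n, |f (x (i+1)) - f (x i)| ≤ V := by
    intro n x hx hs
    have h1 := (eVariationOn.sum_le (f := f) (n := n) hx hs).trans h
    rw [fr_edist] at h1
    exact (ENNReal.ofReal_le_ofReal_iff hV).1 h1
  refine ⟨fun n x hx hs => ?_, fun n x hx hs => ?_⟩
  · have h1 := key n x hx hs
    rw [fr_split] at h1
    have h2 := fr_rises_nn f x n
    linarith
  · have h1 := key n x hx hs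
    rw [fr_split] at h1
    have h2 := fr_falls_nn f x n
    linarith

theorem evar_le_of_falls {f : ℝ → ℝ} {s : Set ℝ} {c B : ℝ} (hB0 : 0 ≤ B) (h : FallsLE f s c)
    (hB : ∀ x ∈ s, ∀ y ∈ s, |f x - f y| ≤ B) : eVariationOn f s ≤ ENNReal.ofReal (2 * c + B) := by
  refine iSup_le fun p => ?_
  obtain ⟨n, x, hx, hs⟩ := p
  show ∑ i ∈ Finset.range n, edist (f (x (i+1))) (f (x i)) ≤ _
  rw [fr_edist]
  refine ENNReal.ofReal_le_ofReal ?_
  rw [fr_split]
  have h1 := h n x hx hs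
  have h2 := fr_tele f x n
  have h3 := (abs_le.1 (hB _ (hs n) _ (hs 0))).2
  linarith

theorem evar_Icc_of_falls {f : ℝ → ℝ} {a b c : ℝ} (hab : a ≤ b) (h : FallsLE f (Icc a b) c) :
    eVariationOn f (Icc a b) ≤ ENNReal.ofReal (f b - f a + 2 * c) := by
  refine iSup_le fun p => ?_
  obtain ⟨n, x, hx, hs⟩ := p
  show ∑ i ∈ Finset.range n, edist (f (x (i+1))) (f (x i)) ≤ _
  rw [fr_edist]
  refine ENNReal.ofReal_le_ofReal ?_
  have h0 := fr_ext_sum (fun u v => |f v - f u|) (fun _ _ => abs_nonneg _) x a b n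
  refine h0.trans ?_
  have h4 := fr_split f (fr_ext x a b n) (n+2)
  have h1 := h (n+2) _ (fr_ext_mono n hx hs hab) (fr_ext_mem n hs hab)
  have h2 := fr_tele f (fr_ext x a b n) (n+2)
  rw [fr_ext_zero, fr_ext_last] at h2
  show ∑ i ∈ Finset.range (n+2), |f (fr_ext x a b n (i+1)) - f (fr_ext x a b n i)| ≤ _
  rw [h4]
  linarith

theorem evar_Icc_of_rises {f : ℝ → ℝ} {a b c : ℝ} (hab : a ≤ b) (h : RisesLE f (Icc a b) c) :
    eVariationOn f (Icc a b) ≤ ENNReal.ofReal (f a - f b + 2 * c) := by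
  refine iSup_le fun p => ?_
  obtain ⟨n, x, hx, hs⟩ := p
  show ∑ i ∈ Finset.range n, edist (f (x (i+1))) (f (x i)) ≤ _
  rw [fr_edist]
  refine ENNReal.ofReal_le_ofReal ?_
  have h0 := fr_ext_sum (fun u v => |f v - f u|) (fun _ _ => abs_nonneg _) x a b n
  refine h0.trans ?_
  have h4 := fr_split f (fr_ext x a b n) (n+2)
  have h1 := h (n+2) _ (fr_ext_mono n hx hs hab) (fr_ext_mem n hs hab)
  have h2 := fr_tele f (fr_ext x a b n) (n+2)
  rw [fr_ext_zero, fr_ext_last] at h2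
  show ∑ i ∈ Finset.range (n+2), |f (fr_ext x a b n (i+1)) - f (fr_ext x a b n i)| ≤ _
  rw [h4]
  linarith

theorem falls_Icc_of_evar {f : ℝ → ℝ} {a b c : ℝ} (hab : a ≤ b) (hc : 0 ≤ f b - f a + 2 * c)
    (h : eVariationOn f (Icc a b) ≤ ENNReal.ofReal (f b - f a + 2 * c)) :
    FallsLE f (Icc a b) c := by
  intro n x hx hs
  have h0 := fr_ext_sum (fun u v => max (f u - f v) 0) (fun _ _ => le_max_right _ _) x a b n
  refine h0.trans ?_
  have h4 := fr_split f (fr_ext x a b n) (n+2)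
  have h1 := (eVariationOn.sum_le (f := f) (n := n+2) (fr_ext_mono n hx hs hab)
    (fr_ext_mem n hs hab)).trans h
  rw [fr_edist] at h1
  have h1' := (ENNReal.ofReal_le_ofReal_iff hc).1 h1
  have h2 := fr_tele f (fr_ext x a b n) (n+2)
  rw [fr_ext_zero, fr_ext_last] at h2
  show ∑ i ∈ Finset.range (n+2), max (f (fr_ext x a b n i) - f (fr_ext x a b n (i+1))) 0 ≤ c
  linarith

theorem rises_Icc_of_evar {f : ℝ → ℝ} {a b c : ℝ} (hab : a ≤ b) (hc : 0 ≤ f a - f b + 2 * c)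
    (h : eVariationOn f (Icc a b) ≤ ENNReal.ofReal (f a - f b + 2 * c)) :
    RisesLE f (Icc a b) c := by
  intro n x hx hs
  have h0 := fr_ext_sum (fun u v => max (f v - f u) 0) (fun _ _ => le_max_right _ _) x a b n
  refine h0.trans ?_
  have h4 := fr_split f (fr_ext x a b n) (n+2)
  have h1 := (eVariationOn.sum_le (f := f) (n := n+2) (fr_ext_mono n hx hs hab)
    (fr_ext_mem n hs hab)).trans h
  rw [fr_edist] at h1
  have h1' := (ENNReal.ofReal_le_ofReal_iff hc).1 h1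
  have h2 := fr_tele f (fr_ext x a b n) (n+2)
  rw [fr_ext_zero, fr_ext_last] at h2
  show ∑ i ∈ Finset.range (n+2), max (f (fr_ext x a b n (i+1)) - f (fr_ext x a b n i)) 0 ≤ c
  linarith

end Pool.Agent.BV653
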