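import Pool.Agent.BV653.Defs
import Pool.Agent.BV653.A1
import Pool.Agent.BV653.A2
import Pool.Agent.BV653.K11
import Pool.Agent.BV653.T1
import Pool.Agent.BV653.V1
set_option autoImplicit false
open MeasureTheory Set Filter Topology
namespace Pool.Agent.BV653
theorem tr_A_le (u : ℝ → ℝ) (hu : ∀ a b, IntervalIntegrable u volume a b) (x r c : ℝ) (hr : 0 < r)
    (h : ∀ y, x - r ≤ y → y ≤ x + r → u y ≤ c) : A u x r ≤ c := by
  have h1 : (∫ t in (x - r)..(x + r), u t) ≤ ∫ _t in (x - r)..(x + r), c :=
    intervalIntegral.integral_mono_on (by linarith) (hu _ _) intervalIntegrable_const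
      (fun y hy => h y hy.1 hy.2)
  rw [intervalIntegral.integral_const, smul_eq_mul] at h1
  unfold A
  calc (2 * r)⁻¹ * ∫ t in (x - r)..(x + r), u t ≤ (2 * r)⁻¹ * ((x + r - (x - r)) * c) :=
        mul_le_mul_of_nonneg_left h1 (by positivity)
    _ = c := by field_simp; ring

theorem tr_le_A (u : ℝ → ℝ) (hu : ∀ a b, IntervalIntegrable u volume a b) (x r c : ℝ) (hr : 0 < r)
    (h : ∀ y, x - r ≤ y → y ≤ x + r → c ≤ u y) : c ≤ A u x r := by
  have h1 : (∫ _t in (x - r)..(x + r), c) ≤ ∫ t in (x - r)..(x + r), u t :=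
    intervalIntegral.integral_mono_on (by linarith) intervalIntegrable_const (hu _ _)
      (fun y hy => h y hy.1 hy.2)
  rw [intervalIntegral.integral_const, smul_eq_mul] at h1
  unfold A
  calc c = (2 * r)⁻¹ * ((x + r - (x - r)) * c) := by field_simp; ring
    _ ≤ (2 * r)⁻¹ * ∫ t in (x - r)..(x + r), u t :=
        mul_le_mul_of_nonneg_left h1 (by positivity)

theorem tr_clamp_int (u : ℝ → ℝ) (hu : ∀ a b, IntervalIntegrable u volume a b) (R a b : ℝ) :
    IntervalIntegrable (fun x => u (max R x)) volume a b := by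
  classical
  have hf : (fun x => u (max R x)) = (Iic R).piecewise (fun _ => u R) u := by
    funext x
    by_cases h : x ≤ R
    · rw [Set.piecewise_eq_of_mem _ _ _ (show x ∈ Iic R from h), max_eq_left h]
    · rw [Set.piecewise_eq_of_notMem _ _ _ (show x ∉ Iic R from h), max_eq_right (not_le.mp h).le]
  rw [hf, intervalIntegrable_iff]
  refine Integrable.piecewise measurableSet_Iic ?_ ?_
  · have h1 : IntervalIntegrable (fun _ : ℝ => u R) volume a b := intervalIntegrable_const
    rw [intervalIntegrable_iff] at h1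
    exact Integrable.integrableOn h1
  · have h1 := hu a b
    rw [intervalIntegrable_iff] at h1
    exact Integrable.integrableOn h1

/-- maximal function with windows inside the half line -/
noncomputable def tr_N (u : ℝ → ℝ) (R : ℝ) (x : ℝ) : ℝ := sSup ((fun r => A u x r) '' Ioc 0 (x - R))

theorem tr_bdd (u : ℝ → ℝ) (C : ℝ) (hC : ∀ x, |u x| ≤ C) (R x : ℝ) :
    BddAbove ((fun r => A u x r) '' Ioc 0 (x - R)) := by
  refine ⟨C, ?_⟩
  rintro _ ⟨r, hr, rfl⟩
  exact (abs_le.mp (A_abs_le u C hC x r hr.1)).2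

theorem tr_osc (u : ℝ → ℝ) (R V : ℝ) (hV0 : 0 ≤ V)
    (hV : eVariationOn u (Ici R) ≤ ENNReal.ofReal V) (s t : ℝ) (hs : R ≤ s) (ht : R ≤ t) :
    u s ≤ u t + V := by
  have h1 := (eVariationOn.edist_le u (show s ∈ Ici R from hs) (show t ∈ Ici R from ht)).trans hV
  rw [edist_dist, ENNReal.ofReal_le_ofReal_iff hV0, Real.dist_eq] at h1
  linarith [(abs_le.mp h1).2]

theorem tr_K (u : ℝ → ℝ) (hu : ∀ a b, IntervalIntegrable u volume a b) (C : ℝ)
    (hC : ∀ x, |u x| ≤ C) (R V : ℝ) (hV0 : 0 ≤ V)
    (hV : eVariationOn u (Ici R) ≤ ENNReal.ofReal V) :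
    FallsLE (tr_N u R) (Ioi R) (953 * V + V) ∧
      ∀ x ∈ Ioi R, ∀ y ∈ Ioi R, tr_N u R x - tr_N u R y ≤ V := by
  have hosc := tr_osc u R V hV0 hV
  have hB : ∀ x ∈ Ioi R, ∀ y ∈ Ioi R, tr_N u R x - tr_N u R y ≤ V := by
    intro x hx y hy
    have hx' : R < x := hx
    have hy' : R < y := hy
    have h1 : tr_N u R x ≤ tr_N u R y + V := by
      refine csSup_le ⟨_, x - R, ⟨by linarith, le_rfl⟩, rfl⟩ ?_
      rintro _ ⟨r, hr, rfl⟩
      have h2 : A u x r - V ≤ A u y (y - R) := by
        refine tr_le_A u hu y (y - R) _ (by linarith) ?_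
        intro t ht1 ht2
        have h3 : A u x r ≤ u t + V := by
          refine tr_A_le u hu x r _ hr.1 ?_
          intro s hs1 hs2
          exact hosc s t (by linarith [hr.2]) (by linarith)
        linarith
      have h4 : A u y (y - R) ≤ tr_N u R y :=
        le_csSup (tr_bdd u C hC R y) ⟨y - R, ⟨by linarith, le_rfl⟩, rfl⟩
      change A u x r ≤ tr_N u R y + V
      linarith
    linarith
  refine ⟨?_, hB⟩
  have hfu : ∀ x r, 0 < r → R ≤ x - r → A (fun x => u (max R x)) x r = A u x r := by
    intro x r hr hxr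
    refine A_congr _ _ x r hr ?_
    intro y hy1 hy2
    change u (max R y) = u y
    rw [max_eq_right (by linarith)]
  refine thmK (fun x => u (max R x)) (tr_clamp_int u hu R) ⟨C, fun x => hC _⟩ V ?_
    {p : ℝ × ℝ | R ≤ p.1 - p.2} ?_ (tr_N u R) (Ioi R) ?_ ?_ V hV0 (fun x hx y hy _ => hB x hx y hy)
  · intro n x hx _
    exact (falls_of_evar hV0 hV).1 n (fun i => max R (x i))
      (fun i j hij => max_le_max le_rfl (hx hij)) (fun i => show R ≤ max R (x i) from le_max_left _ _)
  · intro x r x' r' h1 h2 h3 h4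
    have h1' : R ≤ x - r := h1
    change R ≤ x' - r'
    linarith
  · intro x hx r hr hW
    have hW' : R ≤ x - r := hW
    rw [hfu x r hr hW']
    exact le_csSup (tr_bdd u C hC R x) ⟨r, ⟨hr, by linarith⟩, rfl⟩
  · intro x hx η hη
    have hx' : R < x := hx
    have hne : ((fun r => A u x r) '' Ioc 0 (x - R)).Nonempty :=
      ⟨_, x - R, ⟨by linarith, le_rfl⟩, rfl⟩
    obtain ⟨_, ⟨r, hr, rfl⟩, hlt⟩ := exists_lt_of_lt_csSup hne
      (show tr_N u R x - η < sSup ((fun r => A u x r) '' Ioc 0 (x - R)) by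
        change tr_N u R x - η < tr_N u R x
        linarith)
    refine ⟨r, hr.1, ?_, ?_⟩
    · change R ≤ x - r
      linarith [hr.2]
    · rw [hfu x r hr.1 (by linarith [hr.2])]
      exact hlt.le

/-- rises of the maximal function on a half line are controlled by the variation there -/
theorem tail_rises (u : ℝ → ℝ) (hu : ∀ a b, IntervalIntegrable u volume a b) (C : ℝ)
    (hC : ∀ x, |u x| ≤ C) (R V : ℝ) (hV0 : 0 ≤ V)
    (hV : eVariationOn u (Ici R) ≤ ENNReal.ofReal V) : RisesLE (M u) (Ioi R) (1000 * V) := by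
  classical
  obtain ⟨hM1, hM2, _, _⟩ := M_basic u hu C hC
  obtain ⟨hN, hNosc⟩ := tr_K u hu C hC R V hV0 hV
  have hfalls : FallsLE (fun x => - M u x) (Ioi R) (1000 * V) := by
    refine falls_of_strict _ _ _ (by positivity) ?_
    intro n x hx hxs
    refine le_of_forall_pos_le_add fun ε hε => ?_
    obtain ⟨η, hη⟩ : ∃ η, η = ε / ((n : ℝ) + 1) := ⟨_, rfl⟩
    have hη0 : 0 < η := by rw [hη]; positivity
    have hnη : n * η ≤ ε := by
      rw [hη, mul_div_assoc', div_le_iff₀ (by positivity)]
      nlinarith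
    choose! ω hω0 hω1 using fun i : ℕ => hM2 (x (i + 1)) η hη0
    have hxR : ∀ i ≤ n, R < x i := hxs
    have hA := tail_typeA u hu C hC R V hV0 hV n x hx (hxR 0 (Nat.zero_le _))
      ((Finset.range n).filter (fun i => x (i + 1) - R < ω i))
      (fun i hi => Finset.mem_range.mp (Finset.mem_filter.mp hi).1) ω
      (fun i hi => (Finset.mem_filter.mp hi).2) η hη0.le (fun i _ => hω1 i)
    -- rises of N
    have hNr : ∑ i ∈ Finset.range n, max (tr_N u R (x (i + 1)) - tr_N u R (x i)) 0 ≤ 955 * V := by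
      have h1 : ∑ i ∈ Finset.range n, max (tr_N u R (x i) - tr_N u R (x (i + 1))) 0 ≤
          953 * V + V := by
        have h2 := hN n (fun i => x (min i n)) (by
          refine monotone_nat_of_le_succ fun i => ?_
          by_cases hi : i < n
          · rw [min_eq_left hi.le, min_eq_left (show i + 1 ≤ n by omega)]
            exact (hx i hi).le
          · rw [min_eq_right (show n ≤ i by omega), min_eq_right (show n ≤ i + 1 by omega)])
          (fun i => hxs _ (min_le_right _ _))
        refine le_trans (le_of_eq ?_) h2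
        refine Finset.sum_congr rfl fun i hi => ?_
        have hi' := Finset.mem_range.mp hi
        rw [min_eq_left hi'.le, min_eq_left (show i + 1 ≤ n by omega)]
      have h3 : ∑ i ∈ Finset.range n, max (tr_N u R (x (i + 1)) - tr_N u R (x i)) 0 =
          ∑ i ∈ Finset.range n, max (tr_N u R (x i) - tr_N u R (x (i + 1))) 0 +
          (tr_N u R (x n) - tr_N u R (x 0)) := by
        rw [← Finset.sum_range_sub (fun i => tr_N u R (x i)) n, ← Finset.sum_add_distrib]
        refine Finset.sum_congr rfl fun i _ => ?_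
        rcases le_total (tr_N u R (x i)) (tr_N u R (x (i + 1))) with h | h
        · rw [max_eq_left (by linarith), max_eq_right (by linarith)]; ring
        · rw [max_eq_right (by linarith), max_eq_left (by linarith)]; ring
      have h4 := hNosc (x n) (hxs n le_rfl) (x 0) (hxs 0 (Nat.zero_le _))
      rw [h3]
      linarith
    -- type B
    have hB : ∑ i ∈ (Finset.range n).filter (fun i => ¬ (x (i + 1) - R < ω i)),
        max (M u (x (i + 1)) - M u (x i) - η) 0 ≤ 955 * V := by
      refine le_trans ?_ hNr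
      refine le_trans (Finset.sum_le_sum (g := fun i =>
        max (tr_N u R (x (i + 1)) - tr_N u R (x i)) 0) ?_)
        (Finset.sum_le_sum_of_subset_of_nonneg (Finset.filter_subset _ _)
          (fun i _ _ => le_max_right _ _))
      intro i hi
      obtain ⟨hi1, hi2⟩ := Finset.mem_filter.mp hi
      have hi1' := Finset.mem_range.mp hi1
      push Not at hi2
      refine max_le_max ?_ le_rfl
      have h1 : A u (x (i + 1)) (ω i) ≤ tr_N u R (x (i + 1)) :=
        le_csSup (tr_bdd u C hC R _) ⟨ω i, ⟨hω0 i, hi2⟩, rfl⟩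
      have h2 : tr_N u R (x i) ≤ M u (x i) := by
        have := hxR i hi1'.le
        refine csSup_le ⟨_, x i - R, ⟨by linarith, le_rfl⟩, rfl⟩ ?_
        rintro _ ⟨r, hr, rfl⟩
        exact hM1 _ r hr.1
      have h3 := hω1 i
      linarith
    have htot : ∑ i ∈ Finset.range n, max (-M u (x i) - -M u (x (i + 1))) 0 ≤
        ∑ i ∈ Finset.range n, (max (M u (x (i + 1)) - M u (x i) - η) 0 + η) := by
      refine Finset.sum_le_sum fun i _ => ?_
      refine max_le ?_ ?_
      · have := le_max_left (M u (x (i + 1)) - M u (x i) - η) 0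
        linarith
      · have := le_max_right (M u (x (i + 1)) - M u (x i) - η) 0
        linarith
    have hsplit := Finset.sum_filter_add_sum_filter_not (Finset.range n)
      (fun i => x (i + 1) - R < ω i) (fun i => max (M u (x (i + 1)) - M u (x i) - η) 0)
    rw [Finset.sum_add_distrib, Finset.sum_const, Finset.card_range, nsmul_eq_mul] at htot
    calc _ ≤ _ := htot
      _ ≤ 1000 * V + ε := by linarith
  intro n x hx hxs
  have h := hfalls n x hx hxs
  refine le_trans (le_of_eq ?_) h
  refine Finset.sum_congr rfl fun i _ => ?_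
  congr 1
  ring

end Pool.Agent.BV653
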