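import Pool.Agent.BV653.Defs
import Pool.Agent.BV653.A1
import Pool.Agent.BV653.A2
import Pool.Agent.BV653.K11
import Pool.Agent.BV653.T2
import Pool.Agent.BV653.V1
import Pool.Agent.BV653.V2
set_option autoImplicit false
open MeasureTheory Set Filter Topology
namespace Pool.Agent.BV653
theorem tails_evar_sub (f g : ℝ → ℝ) (s : Set ℝ) :
    eVariationOn f s ≤ eVariationOn g s + eVariationOn (fun x => f x - g x) s := by
  refine iSup_le ?_
  rintro ⟨n, ⟨x, hx, hxs⟩⟩
  show ∑ i ∈ Finset.range n, edist (f (x (i + 1))) (f (x i)) ≤ _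
  have h1 : ∀ i ∈ Finset.range n, edist (f (x (i + 1))) (f (x i)) ≤
      edist (g (x (i + 1))) (g (x i)) +
      edist (f (x (i + 1)) - g (x (i + 1))) (f (x i) - g (x i)) := by
    intro i _
    have := edist_add_add_le (g (x (i + 1))) (f (x (i + 1)) - g (x (i + 1))) (g (x i))
      (f (x i) - g (x i))
    rwa [add_sub_cancel, add_sub_cancel] at this
  refine (Finset.sum_le_sum h1).trans ?_
  rw [Finset.sum_add_distrib]
  exact add_le_add (eVariationOn.sum_le (f := g) hx hxs)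
    (eVariationOn.sum_le (f := fun x => f x - g x) hx hxs)

theorem tails_rises_evar {f : ℝ → ℝ} {s : Set ℝ} {c B : ℝ} (hB0 : 0 ≤ B) (h : RisesLE f s c)
    (hB : ∀ x ∈ s, ∀ y ∈ s, |f x - f y| ≤ B) : eVariationOn f s ≤ ENNReal.ofReal (2 * c + B) := by
  have h1 := (falls_mirror f s c).2 h
  have h2 := evar_le_of_falls hB0 h1 (fun x hx y hy => hB (-x) hx (-y) hy)
  rwa [evar_mirror] at h2

theorem tails_right (u : ℝ → ℝ) (hu : BoundedVariationOn u univ)
    (hM : BoundedVariationOn (M u) univ) (U : ℕ → ℝ → ℝ)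
    (hU : ∀ j, BoundedVariationOn (U j) univ) (c : ℕ → ℝ) (hc : Tendsto c atTop (𝓝 0))
    (hUc : ∀ j x, |U j x - u x| ≤ c j)
    (hvar : ∀ j, eVariationOn (fun x => U j x - u x) univ ≤ ENNReal.ofReal (c j))
    (ε : ℝ) (hε : 0 < ε) :
    ∃ R₀ > 0, ∀ R ≥ R₀, ∀ᶠ j in atTop,
      eVariationOn (M (U j)) (Ici R) ≤ ENNReal.ofReal ε ∧
      eVariationOn (M u) (Ici R) ≤ ENNReal.ofReal ε := by
  obtain ⟨δ, hδdef⟩ : ∃ δ : ℝ, δ = ε / 10000 := ⟨_, rfl⟩
  have hδ : 0 < δ := by rw [hδdef]; positivity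
  have hlim : ∀ f : ℝ → ℝ, BoundedVariationOn f univ →
      ∀ᶠ R in atTop, eVariationOn f (Ici R) ≤ ENNReal.ofReal δ := by
    intro f hf
    have h1 := hf.tendsto_eVariationOn_Ici_zero_of_filter atTop (fun y _ => by
      rw [univ_inter]
      exact Ici_mem_atTop y)
    simp only [univ_inter] at h1
    have h2 : (0 : ENNReal) < ENNReal.ofReal δ := ENNReal.ofReal_pos.2 hδ
    filter_upwards [h1.eventually (gt_mem_nhds h2)] with R hR
    exact hR.le
  obtain ⟨R1, hR1⟩ := eventually_atTop.1 ((hlim u hu).and (hlim (M u) hM))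
  refine ⟨max (R1 + 1) 1, lt_of_lt_of_le one_pos (le_max_right _ _), ?_⟩
  intro R hR
  have hR1' : R1 ≤ R - 1 := by
    have := (le_max_left (R1 + 1) 1).trans hR
    linarith
  obtain ⟨hu1, _⟩ := hR1 (R - 1) hR1'
  obtain ⟨_, hu2⟩ := hR1 R (by linarith)
  have hcj : ∀ᶠ j in atTop, c j < δ := hc.eventually (gt_mem_nhds hδ)
  filter_upwards [hcj] with j hj
  have hc0 : 0 ≤ c j := (abs_nonneg _).trans (hUc j 0)
  refine ⟨?_, hu2.trans (ENNReal.ofReal_le_ofReal (by rw [hδdef]; linarith))⟩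
  obtain ⟨_, ⟨C1, hC1⟩, hui, _⟩ := bv_basic u hu
  obtain ⟨_, ⟨C2, hC2⟩, hUi, _⟩ := bv_basic (U j) (hU j)
  have hV : eVariationOn (U j) (Ici (R - 1)) ≤ ENNReal.ofReal (2 * δ) := by
    refine (tails_evar_sub (U j) u _).trans ?_
    have h1 : eVariationOn (fun x => U j x - u x) (Ici (R - 1)) ≤ ENNReal.ofReal δ :=
      (eVariationOn.mono _ (subset_univ _)).trans
        ((hvar j).trans (ENNReal.ofReal_le_ofReal hj.le))
    refine (add_le_add hu1 h1).trans ?_
    rw [← ENNReal.ofReal_add hδ.le hδ.le]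
    exact ENNReal.ofReal_le_ofReal (by linarith)
  have hr := tail_rises (U j) hUi C2 hC2 (R - 1) (2 * δ) (by linarith) hV
  have hr' : RisesLE (M (U j)) (Ici R) (1000 * (2 * δ)) := by
    intro n x hx hxs
    apply hr n x hx
    intro i
    have := hxs i
    simp only [mem_Ici] at this
    simp only [mem_Ioi]
    linarith
  have hosc : ∀ x ∈ Ici R, ∀ y ∈ Ici R, |M (U j) x - M (U j) y| ≤ 3 * δ := by
    intro x hx y hy
    have h1 : |M u x - M u y| ≤ δ := by
      have h2 := (eVariationOn.edist_le (M u) hx hy).trans hu2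
      rw [edist_dist, ENNReal.ofReal_le_ofReal_iff hδ.le, Real.dist_eq] at h2
      exact h2
    have hMs : ∀ x, |M (U j) x - M u x| ≤ c j := fun x =>
      (M_sub_le (U j) u hUi hui (max C1 C2) (fun x => (hC2 x).trans (le_max_right _ _))
        (fun x => (hC1 x).trans (le_max_left _ _)) (c j) (hUc j) x).1
    have h3 := hMs x
    have h4 := hMs y
    rw [abs_le] at *
    constructor <;> linarith
  refine (tails_rises_evar (by linarith) hr' hosc).trans (ENNReal.ofReal_le_ofReal ?_)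
  rw [hδdef]
  linarith

/-- Kurka's theorem -/
theorem M_bv (u : ℝ → ℝ) (hu : BoundedVariationOn u univ) : BoundedVariationOn (M u) univ := by
  obtain ⟨_, ⟨C, hC⟩, hui, _⟩ := bv_basic u hu
  have hC0 : 0 ≤ C := (abs_nonneg _).trans (hC 0)
  obtain ⟨hM1, hM2, hM3, _⟩ := M_basic u hui C hC
  have hV := (falls_of_evar (f := u) (s := univ) (V := (eVariationOn u univ).toReal)
    ENNReal.toReal_nonneg (by rw [ENNReal.ofReal_toReal hu])).1
  have hosc : ∀ x ∈ (univ : Set ℝ), ∀ y ∈ (univ : Set ℝ), |M u x - M u y| ≤ 2 * C := by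
    intro x _ y _
    have h1 := hM3 x
    have h2 := hM3 y
    rw [abs_le] at *
    constructor <;> linarith
  have hK := thmK u hui ⟨C, hC⟩ _ hV univ (fun _ _ _ _ _ _ _ _ => mem_univ _) (M u) univ
    (fun x _ r hr _ => hM1 x r hr)
    (fun x _ η hη => by
      obtain ⟨r, hr, h⟩ := hM2 x η hη
      exact ⟨r, hr, mem_univ _, h⟩)
    (2 * C) (by linarith) (fun x hx y hy _ => (le_abs_self _).trans (hosc x hx y hy))
  have h := evar_le_of_falls (by linarith) hK hosc
  exact ne_top_of_le_ne_top ENNReal.ofReal_ne_top h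

/-- uniform smallness of the variation near infinity -/
theorem tails (u : ℝ → ℝ) (hu : BoundedVariationOn u univ) (U : ℕ → ℝ → ℝ)
    (hU : ∀ j, BoundedVariationOn (U j) univ) (c : ℕ → ℝ) (hc : Tendsto c atTop (𝓝 0))
    (hUc : ∀ j x, |U j x - u x| ≤ c j)
    (hvar : ∀ j, eVariationOn (fun x => U j x - u x) univ ≤ ENNReal.ofReal (c j))
    (ε : ℝ) (hε : 0 < ε) :
    ∃ R₀ > 0, ∀ R ≥ R₀, ∀ᶠ j in atTop,
      eVariationOn (M (U j)) (Ici R) ≤ ENNReal.ofReal ε ∧
      eVariationOn (M (U j)) (Iic (-R)) ≤ ENNReal.ofReal ε ∧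
      eVariationOn (M u) (Ici R) ≤ ENNReal.ofReal ε ∧
      eVariationOn (M u) (Iic (-R)) ≤ ENNReal.ofReal ε := by
  have hrefl : ∀ f : ℝ → ℝ, BoundedVariationOn f univ → BoundedVariationOn (fun x => f (-x)) univ := by
    intro f hf
    have h1 := evar_mirror f univ
    have h2 : {x : ℝ | -x ∈ (univ : Set ℝ)} = univ := by
      ext x
      simp
    rw [h2] at h1
    unfold BoundedVariationOn
    rw [h1]
    exact hf
  obtain ⟨R1, hR1, h1⟩ := tails_right u hu (M_bv u hu) U hU c hc hUc hvar ε hε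
  obtain ⟨R2, hR2, h2⟩ := tails_right (fun x => u (-x)) (hrefl u hu)
    (M_bv _ (hrefl u hu)) (fun j x => U j (-x)) (fun j => hrefl _ (hU j)) c hc
    (fun j x => hUc j (-x))
    (fun j => by
      have h3 := evar_mirror (fun x => U j x - u x) univ
      have h4 : {x : ℝ | -x ∈ (univ : Set ℝ)} = univ := by
        ext x
        simp
      rw [h4] at h3
      show eVariationOn (fun x => U j (-x) - u (-x)) univ ≤ _
      rw [h3]
      exact hvar j) ε hε
  have hmir : ∀ (f : ℝ → ℝ) (R : ℝ), eVariationOn (M (fun x => f (-x))) (Ici R) =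
      eVariationOn (M f) (Iic (-R)) := by
    intro f R
    rw [← evar_mirror (M f) (Iic (-R))]
    have h3 : {x : ℝ | -x ∈ Iic (-R)} = Ici R := by
      ext x
      simp
    rw [h3]
    congr 1
    funext x
    exact M_reflect f x
  refine ⟨max R1 R2, lt_of_lt_of_le hR1 (le_max_left _ _), ?_⟩
  intro R hR
  filter_upwards [h1 R ((le_max_left _ _).trans hR), h2 R ((le_max_right _ _).trans hR)]
    with j hj1 hj2
  rw [hmir (U j) R, hmir u R] at hj2
  exact ⟨hj1.1, hj2.1, hj1.2, hj2.2⟩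

end Pool.Agent.BV653
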