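import Pool.Agent.BV653.Defs
set_option autoImplicit false
open MeasureTheory Set Filter Topology
namespace Pool.Agent.BV653
section auxH1

lemma aux_C {u : ℝ → ℝ} {C : ℝ} (hC : ∀ x, |u x| ≤ C) : 0 ≤ C := (abs_nonneg _).trans (hC 0)

lemma aux_A_le {u : ℝ → ℝ} {C : ℝ} (hC : ∀ x, |u x| ≤ C) (x r : ℝ) (hr : 0 < r) : |A u x r| ≤ C := by
  unfold A
  rw [abs_mul, abs_of_pos (by positivity : 0 < (2 * r)⁻¹)]
  have h1 : ‖∫ t in (x - r)..(x + r), u t‖ ≤ C * |x + r - (x - r)| :=
    intervalIntegral.norm_integral_le_of_norm_le_const fun t _ => by rw [Real.norm_eq_abs]; exact hC t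
  rw [Real.norm_eq_abs] at h1
  have h2 : |x + r - (x - r)| = 2 * r := by
    rw [abs_of_pos] <;> linarith
  rw [h2] at h1
  calc (2 * r)⁻¹ * |∫ t in (x - r)..(x + r), u t| ≤ (2 * r)⁻¹ * (C * (2 * r)) :=
        mul_le_mul_of_nonneg_left h1 (by positivity)
    _ = C := by field_simp

lemma aux_bdd {u : ℝ → ℝ} {C : ℝ} (hC : ∀ x, |u x| ≤ C) {δ : ℝ} (hδ : 0 < δ) (y : ℝ) :
    BddAbove (Set.range fun r : Set.Ici δ => A u y r) := by
  refine ⟨C, ?_⟩
  rintro _ ⟨⟨r, hr⟩, rfl⟩
  exact (abs_le.1 (aux_A_le hC y r (lt_of_lt_of_le hδ hr))).2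

lemma aux_le_HH {u : ℝ → ℝ} {C : ℝ} (hC : ∀ x, |u x| ≤ C) {δ : ℝ} (hδ : 0 < δ) (y r : ℝ) (hr : δ ≤ r) :
    A u y r ≤ HH δ u y :=
  le_ciSup (aux_bdd hC hδ y) (⟨r, hr⟩ : Set.Ici δ)

lemma aux_tendsto {u : ℝ → ℝ} (hu : ∀ a b, IntervalIntegrable u volume a b) {C : ℝ}
    (hC : ∀ x, |u x| ≤ C) {L₁ L₂ : ℝ} (h1 : Tendsto u atBot (𝓝 L₁)) (h2 : Tendsto u atTop (𝓝 L₂)) (x : ℝ) :
    Tendsto (fun r => A u x r) atTop (𝓝 ((L₁ + L₂) / 2)) := by
  have key : Tendsto (fun r : ℝ => ∫ s in (-1 : ℝ)..1, u (x + r * s)) atTop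
      (𝓝 (∫ s in (-1 : ℝ)..1, (if 0 < s then L₂ else L₁))) := by
    refine intervalIntegral.tendsto_integral_filter_of_dominated_convergence (fun _ => C) ?_ ?_ ?_ ?_
    · filter_upwards [eventually_gt_atTop (0 : ℝ)] with r hr
      have h3 := ((hu (x + r * (-1)) (x + r * 1)).comp_add_left (c := x)).comp_mul_left (c := r)
      have e1 : (x + r * (-1) - x) / r = -1 := by field_simp; ring
      have e2 : (x + r * 1 - x) / r = 1 := by field_simp; ring
      rw [e1, e2] at h3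
      exact (intervalIntegrable_iff.1 h3).aestronglyMeasurable
    · refine Eventually.of_forall fun r => Eventually.of_forall fun s _ => ?_
      rw [Real.norm_eq_abs]
      exact hC _
    · exact intervalIntegrable_const
    · have h0 : ∀ᵐ s : ℝ, s ≠ 0 := by
        simp [ae_iff, measure_singleton]
      filter_upwards [h0] with s hs _
      by_cases hs0 : 0 < s
      · rw [if_pos hs0]
        refine h2.comp ?_
        exact tendsto_atTop_add_const_left _ _ (tendsto_id.atTop_mul_const hs0)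
      · rw [if_neg hs0]
        refine h1.comp ?_
        have hs1 : s < 0 := lt_of_le_of_ne (not_lt.1 hs0) hs
        exact tendsto_atBot_add_const_left _ _ (tendsto_id.atTop_mul_const_of_neg hs1)
  have hval : ∫ s in (-1 : ℝ)..1, (if 0 < s then L₂ else L₁) = L₁ + L₂ := by
    have hI : ∀ a b : ℝ, IntervalIntegrable (fun s : ℝ => if 0 < s then L₂ else L₁) volume a b := by
      intro a b
      have : Monotone (fun s : ℝ => (if 0 < s then (1:ℝ) else 0)) := by
        intro p q hpq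
        simp only
        split_ifs with h1 h2 h2
        · exact le_rfl
        · exact absurd (lt_of_lt_of_le h1 hpq) h2
        · exact zero_le_one
        · exact le_rfl
      have h3 := ((this.intervalIntegrable (μ := volume) (a := a) (b := b)).const_mul (L₂ - L₁)).add
        (intervalIntegrable_const (c := L₁))
      refine h3.congr ?_
      intro s _
      simp only
      split_ifs <;> ring
    rw [← intervalIntegral.integral_add_adjacent_intervals (hI (-1) 0) (hI 0 1)]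
    have e1 : ∫ s in (-1 : ℝ)..0, (if 0 < s then L₂ else L₁) = L₁ := by
      rw [intervalIntegral.integral_congr_ae (g := fun _ => L₁)]
      · simp
      · refine Eventually.of_forall fun s hs => ?_
        rw [uIoc_of_le (by norm_num)] at hs
        simp [not_lt.2 hs.2]
    have e2 : ∫ s in (0 : ℝ)..1, (if 0 < s then L₂ else L₁) = L₂ := by
      rw [intervalIntegral.integral_congr_ae (g := fun _ => L₂)]
      · simp
      · refine Eventually.of_forall fun s hs => ?_
        rw [uIoc_of_le (by norm_num)] at hs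
        simp [hs.1]
    rw [e1, e2]
  rw [hval] at key
  have key2 := key.const_mul (1 / 2)
  have e : (1 / 2) * (L₁ + L₂) = (L₁ + L₂) / 2 := by ring
  rw [e] at key2
  refine key2.congr' ?_
  filter_upwards [eventually_gt_atTop (0 : ℝ)] with r hr
  rw [intervalIntegral.integral_comp_add_mul (fun t => u t) hr.ne' x]
  unfold A
  have e3 : x + r * (-1) = x - r := by ring
  have e4 : x + r * 1 = x + r := by ring
  rw [e3, e4, smul_eq_mul, mul_inv]
  ring

lemma aux_cont {u : ℝ → ℝ} (hu : ∀ a b, IntervalIntegrable u volume a b) (x : ℝ) :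
    ContinuousOn (fun r => A u x r) (Set.Ioi 0) := by
  unfold A
  refine ContinuousOn.mul ?_ ?_
  · refine ContinuousOn.inv₀ (by fun_prop) ?_
    intro r hr
    have : (0:ℝ) < r := hr
    positivity
  · have h0 : ∀ r, ∫ t in (x - r)..(x + r), u t = (∫ t in (0:ℝ)..(x + r), u t) - ∫ t in (0:ℝ)..(x - r), u t := by
      intro r
      rw [intervalIntegral.integral_interval_sub_left (hu _ _) (hu _ _)]
    have hp := intervalIntegral.continuous_primitive hu 0
    have : Continuous (fun r => ∫ t in (x - r)..(x + r), u t) := by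
      simp_rw [h0]
      exact (hp.comp (by fun_prop : Continuous fun r => x + r)).sub (hp.comp (by fun_prop : Continuous fun r => x - r))
    exact this.continuousOn

lemma aux_touch_right {f ψ : ℝ → ℝ} {x d e η : ℝ} (hd : HasDerivAt f d x) (hψ : HasDerivAt ψ e 0)
    (h0 : ψ 0 = f x) (hη : 0 < η) (h : ∀ t, 0 < t → t < η → ψ t ≤ f (x + t)) : e ≤ d := by
  have h1 := hd.tendsto_slope_zero_right
  have h2 := hψ.tendsto_slope_zero_right
  refine le_of_tendsto_of_tendsto h2 h1 ?_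
  have : ∀ᶠ t in 𝓝[>] (0:ℝ), t ∈ Set.Ioo 0 η := Ioo_mem_nhdsGT hη
  filter_upwards [this] with t ht
  rw [zero_add, smul_eq_mul, smul_eq_mul, h0]
  have := h t ht.1 ht.2
  exact mul_le_mul_of_nonneg_left (by linarith) (inv_nonneg.2 ht.1.le)

lemma aux_touch_left {f ψ : ℝ → ℝ} {x d e η : ℝ} (hd : HasDerivAt f d x) (hψ : HasDerivAt ψ e 0)
    (h0 : ψ 0 = f x) (hη : 0 < η) (h : ∀ t, -η < t → t < 0 → ψ t ≤ f (x + t)) : d ≤ e := by
  have h1 := hd.tendsto_slope_zero_left
  have h2 := hψ.tendsto_slope_zero_left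
  refine le_of_tendsto_of_tendsto h1 h2 ?_
  have : ∀ᶠ t in 𝓝[<] (0:ℝ), t ∈ Set.Ioo (-η) 0 := Ioo_mem_nhdsLT (by linarith)
  filter_upwards [this] with t ht
  rw [zero_add, smul_eq_mul, smul_eq_mul, h0]
  have := h t ht.1 ht.2
  exact mul_le_mul_of_nonpos_left (by linarith) (inv_nonpos.2 ht.2.le)

lemma aux_int_ge {u : ℝ → ℝ} (hu : ∀ a b, IntervalIntegrable u volume a b) {a b c : ℝ} (hab : a ≤ b)
    (h : ∀ z ∈ Set.Icc a b, c ≤ u z) : (b - a) * c ≤ ∫ t in a..b, u t := by
  have := intervalIntegral.integral_mono_on (f := fun _ => c) (g := u) hab intervalIntegrable_const (hu a b) h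
  rwa [intervalIntegral.integral_const, smul_eq_mul] at this

lemma aux_int_le {u : ℝ → ℝ} (hu : ∀ a b, IntervalIntegrable u volume a b) {a b c : ℝ} (hab : a ≤ b)
    (h : ∀ z ∈ Set.Icc a b, u z ≤ c) : ∫ t in a..b, u t ≤ (b - a) * c := by
  have := intervalIntegral.integral_mono_on (f := u) (g := fun _ => c) hab (hu a b) intervalIntegrable_const h
  rwa [intervalIntegral.integral_const, smul_eq_mul] at this

lemma aux_der1 (ω A0 c : ℝ) (hω : 0 < ω) :
    HasDerivAt (fun t : ℝ => (2 * ω * A0 + 2 * t * c) / (2 * (ω + t))) ((c - A0) / ω) 0 := by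
  have h1 : HasDerivAt (fun t : ℝ => 2 * ω * A0 + 2 * t * c) (2 * c) 0 := by
    have := (((hasDerivAt_id (0:ℝ)).const_mul 2).mul_const c).const_add (2 * ω * A0)
    simpa using this
  have h2 : HasDerivAt (fun t : ℝ => 2 * (ω + t)) 2 0 := by
    have := ((hasDerivAt_id (0:ℝ)).const_add ω).const_mul 2
    simpa using this
  have h3 := h1.div h2 (by simp; exact hω.ne')
  have e : (c - A0) / ω = (2 * c * (2 * (ω + 0)) - (2 * ω * A0 + 2 * 0 * c) * 2) / (2 * (ω + 0)) ^ 2 := by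
    rw [add_zero]
    field_simp
    ring
  rw [e]
  exact h3

lemma aux_v1 (ω A0 c : ℝ) (hω : 0 < ω) : (2 * ω * A0 + 2 * 0 * c) / (2 * (ω + 0)) = A0 := by
  rw [add_zero, mul_zero, zero_mul, add_zero]
  field_simp

lemma aux_v2 (ω A0 c : ℝ) (hω : 0 < ω) : (2 * ω * A0 - 2 * 0 * c) / (2 * (ω - 0)) = A0 := by
  rw [sub_zero, mul_zero, zero_mul, sub_zero]
  field_simp

lemma aux_v3 (ω A0 c : ℝ) (hω : 0 < ω) : (2 * ω)⁻¹ * (2 * ω * A0 + 0 * c) = A0 := by
  rw [zero_mul, add_zero]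
  field_simp

lemma aux_der2 (ω A0 c : ℝ) (hω : 0 < ω) :
    HasDerivAt (fun t : ℝ => (2 * ω * A0 - 2 * t * c) / (2 * (ω - t))) ((A0 - c) / ω) 0 := by
  have h1 : HasDerivAt (fun t : ℝ => 2 * ω * A0 - 2 * t * c) (-(2 * c)) 0 := by
    have := (((hasDerivAt_id (0:ℝ)).const_mul 2).mul_const c).const_sub (2 * ω * A0)
    simpa using this
  have h2 : HasDerivAt (fun t : ℝ => 2 * (ω - t)) (-2) 0 := by
    have := ((hasDerivAt_id (0:ℝ)).const_sub ω).const_mul 2
    simpa using this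
  have h3 := h1.div h2 (by simp; exact hω.ne')
  have e : (A0 - c) / ω = (-(2 * c) * (2 * (ω - 0)) - (2 * ω * A0 - 2 * 0 * c) * (-2)) / (2 * (ω - 0)) ^ 2 := by
    rw [sub_zero]
    field_simp
    ring
  rw [e]
  exact h3

lemma aux_der3 (ω A0 c : ℝ) (hω : 0 < ω) :
    HasDerivAt (fun t : ℝ => (2 * ω)⁻¹ * (2 * ω * A0 + t * c)) (c / (2 * ω)) 0 := by
  have h1 : HasDerivAt (fun t : ℝ => 2 * ω * A0 + t * c) c 0 := by
    have := ((hasDerivAt_id (0:ℝ)).mul_const c).const_add (2 * ω * A0)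
    simpa using this
  have h3 := h1.const_mul ((2 * ω)⁻¹)
  have e : c / (2 * ω) = (2 * ω)⁻¹ * c := by field_simp
  rw [e]
  exact h3

lemma aux_int_A {u : ℝ → ℝ} {x ω : ℝ} (hω : 0 < ω) : ∫ t in (x - ω)..(x + ω), u t = 2 * ω * A u x ω := by
  unfold A
  field_simp

end auxH1

/-- the supremum over radii `≥ δ` is attained, possibly at infinity -/
theorem HH_attained (u : ℝ → ℝ) (hu : ∀ a b, IntervalIntegrable u volume a b) (C : ℝ)
    (hC : ∀ x, |u x| ≤ C) (L₁ L₂ : ℝ) (h1 : Tendsto u atBot (𝓝 L₁)) (h2 : Tendsto u atTop (𝓝 L₂))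
    (δ : ℝ) (hδ : 0 < δ) :
    (∀ x, (L₁ + L₂) / 2 ≤ HH δ u x) ∧
    ∀ x, (∃ ω ≥ δ, A u x ω = HH δ u x) ∨ HH δ u x = (L₁ + L₂) / 2 := by
  have hle : ∀ x, (L₁ + L₂) / 2 ≤ HH δ u x := by
    intro x
    refine le_of_tendsto (aux_tendsto hu hC h1 h2 x) ?_
    filter_upwards [eventually_ge_atTop δ] with r hr
    exact aux_le_HH hC hδ x r hr
  refine ⟨hle, fun x => ?_⟩
  by_cases hx : HH δ u x = (L₁ + L₂) / 2
  · right; exact hx
  · left
    have hlt : (L₁ + L₂) / 2 < HH δ u x := lt_of_le_of_ne (hle x) (Ne.symm hx)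
    obtain ⟨ε, hε1, hε2⟩ := exists_between hlt
    have hev := (aux_tendsto hu hC h1 h2 x).eventually (gt_mem_nhds hε1)
    obtain ⟨r0, hr0⟩ := (hev.and (eventually_ge_atTop δ)).exists_forall_of_atTop
    set r1 := max r0 δ with hr1
    have hcomp : IsCompact (Set.Icc δ r1) := isCompact_Icc
    obtain ⟨ω, hω, hmax⟩ := hcomp.exists_isMaxOn ⟨δ, le_rfl, le_max_right _ _⟩
      ((aux_cont hu x).mono fun r hr => lt_of_lt_of_le hδ hr.1)
    refine ⟨ω, hω.1, ?_⟩
    refine le_antisymm (aux_le_HH hC hδ x ω hω.1) ?_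
    by_contra hcon
    push Not at hcon
    have hall : HH δ u x ≤ max (A u x ω) ε := by
      haveI : Nonempty (Set.Ici δ) := ⟨⟨δ, Set.mem_Ici.2 le_rfl⟩⟩
      refine ciSup_le fun r => ?_
      by_cases hr : (r : ℝ) ≤ r1
      · exact (hmax (show (r : ℝ) ∈ Set.Icc δ r1 from ⟨r.2, hr⟩)).trans (le_max_left _ _)
      · push Not at hr
        have := (hr0 r ((le_max_left _ _).trans hr.le)).1
        exact this.le.trans (le_max_right _ _)
    have := max_lt hcon hε2
    linarith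

/-- one-sided windows: the right end point moves -/
theorem HH_deriv_right (u : ℝ → ℝ) (hu : ∀ a b, IntervalIntegrable u volume a b) (C : ℝ)
    (hC : ∀ x, |u x| ≤ C) (δ : ℝ) (hδ : 0 < δ) (x ω d γ ε τ : ℝ) (hω : δ < ω)
    (hopt : A u x ω = HH δ u x) (hd : HasDerivAt (HH δ u) d x) (hτ : 0 < τ)
    (hγ : ∀ z, |z - (x + ω)| < τ → |u z - γ| ≤ ε) : |d - (γ - A u x ω) / ω| ≤ ε / ω := by
  have hω0 : 0 < ω := hδ.trans hω
  have hη : 0 < min (τ / 2) (ω - δ) := lt_min (by linarith) (by linarith)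
  have hval : ∀ t, |t| < min (τ / 2) (ω - δ) → A u (x + t) (ω + t) =
      (2 * ω * A u x ω + ∫ z in (x + ω)..(x + ω + 2 * t), u z) / (2 * (ω + t)) := by
    intro t ht
    have h1 : x + t - (ω + t) = x - ω := by ring
    have h2 : x + t + (ω + t) = x + ω + 2 * t := by ring
    rw [← aux_int_A hω0, intervalIntegral.integral_add_adjacent_intervals (hu _ _) (hu _ _)]
    unfold A
    rw [h1, h2]
    field_simp
  have hge : ∀ t, |t| < min (τ / 2) (ω - δ) → A u (x + t) (ω + t) ≤ HH δ u (x + t) := by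
    intro t ht
    refine aux_le_HH hC hδ _ _ ?_
    have := (abs_lt.1 (ht.trans_le (min_le_right _ _))).1
    linarith
  have hγ' : ∀ z, |z - (x + ω)| < τ → γ - ε ≤ u z ∧ u z ≤ γ + ε := by
    intro z hz
    have := abs_le.1 (hγ z hz)
    constructor <;> linarith
  have hb1 : (γ - ε - A u x ω) / ω ≤ d := by
    refine aux_touch_right hd (aux_der1 ω (A u x ω) (γ - ε) hω0) ?_ hη ?_
    · rw [← hopt]; exact aux_v1 _ _ _ hω0
    · intro t ht0 ht1
      have hta : |t| < min (τ / 2) (ω - δ) := by rw [abs_of_pos ht0]; exact ht1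
      refine le_trans ?_ (hge t hta)
      rw [hval t hta]
      have hI : (x + ω + 2 * t - (x + ω)) * (γ - ε) ≤ ∫ z in (x + ω)..(x + ω + 2 * t), u z := by
        refine aux_int_ge hu (by linarith) fun z hz => (hγ' z ?_).1
        have := ht1.trans_le (min_le_left _ _)
        rw [abs_lt]; constructor <;> linarith [hz.1, hz.2]
      refine div_le_div_of_nonneg_right ?_ (by positivity)
      linarith
  have hb2 : d ≤ (γ + ε - A u x ω) / ω := by
    refine aux_touch_left hd (aux_der1 ω (A u x ω) (γ + ε) hω0) ?_ hη ?_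
    · rw [← hopt]; exact aux_v1 _ _ _ hω0
    · intro t ht0 ht1
      have hta : |t| < min (τ / 2) (ω - δ) := by rw [abs_of_neg ht1]; linarith
      refine le_trans ?_ (hge t hta)
      rw [hval t hta]
      have hωt : 0 < ω + t := by
        have := (abs_lt.1 (hta.trans_le (min_le_right _ _))).1
        linarith
      have hI : ∫ z in (x + ω + 2 * t)..(x + ω), u z ≤ (x + ω - (x + ω + 2 * t)) * (γ + ε) := by
        refine aux_int_le hu (by linarith) fun z hz => (hγ' z ?_).2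
        have := (abs_lt.1 (hta.trans_le (min_le_left _ _))).1
        rw [abs_lt]; constructor <;> linarith [hz.1, hz.2]
      rw [intervalIntegral.integral_symm (x + ω + 2 * t) (x + ω)]
      refine div_le_div_of_nonneg_right ?_ (by positivity)
      linarith
  rw [abs_le]
  have e1 : (γ - ε - A u x ω) / ω = (γ - A u x ω) / ω - ε / ω := by field_simp; ring
  have e2 : (γ + ε - A u x ω) / ω = (γ - A u x ω) / ω + ε / ω := by field_simp; ring
  constructor <;> linarith

/-- one-sided windows: the left end point moves -/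
theorem HH_deriv_left (u : ℝ → ℝ) (hu : ∀ a b, IntervalIntegrable u volume a b) (C : ℝ)
    (hC : ∀ x, |u x| ≤ C) (δ : ℝ) (hδ : 0 < δ) (x ω d γ ε τ : ℝ) (hω : δ < ω)
    (hopt : A u x ω = HH δ u x) (hd : HasDerivAt (HH δ u) d x) (hτ : 0 < τ)
    (hγ : ∀ z, |z - (x - ω)| < τ → |u z - γ| ≤ ε) : |d - (A u x ω - γ) / ω| ≤ ε / ω := by
  have hω0 : 0 < ω := hδ.trans hω
  have hη : 0 < min (τ / 2) (ω - δ) := lt_min (by linarith) (by linarith)
  have hval : ∀ t, |t| < min (τ / 2) (ω - δ) → A u (x + t) (ω - t) =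
      (2 * ω * A u x ω - ∫ z in (x - ω)..(x - ω + 2 * t), u z) / (2 * (ω - t)) := by
    intro t ht
    have h1 : x + t - (ω - t) = x - ω + 2 * t := by ring
    have h2 : x + t + (ω - t) = x + ω := by ring
    have h3 := intervalIntegral.integral_add_adjacent_intervals (hu (x - ω) (x - ω + 2 * t)) (hu (x - ω + 2 * t) (x + ω))
    rw [← aux_int_A hω0, ← h3]
    unfold A
    rw [h1, h2]
    field_simp
    ring
  have hge : ∀ t, |t| < min (τ / 2) (ω - δ) → A u (x + t) (ω - t) ≤ HH δ u (x + t) := by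
    intro t ht
    refine aux_le_HH hC hδ _ _ ?_
    have := (abs_lt.1 (ht.trans_le (min_le_right _ _))).2
    linarith
  have hγ' : ∀ z, |z - (x - ω)| < τ → γ - ε ≤ u z ∧ u z ≤ γ + ε := by
    intro z hz
    have := abs_le.1 (hγ z hz)
    constructor <;> linarith
  have hb1 : (A u x ω - (γ + ε)) / ω ≤ d := by
    refine aux_touch_right hd (aux_der2 ω (A u x ω) (γ + ε) hω0) ?_ hη ?_
    · rw [← hopt]; exact aux_v2 _ _ _ hω0
    · intro t ht0 ht1
      have hta : |t| < min (τ / 2) (ω - δ) := by rw [abs_of_pos ht0]; exact ht1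
      refine le_trans ?_ (hge t hta)
      rw [hval t hta]
      have hωt : 0 < ω - t := by
        have := (abs_lt.1 (hta.trans_le (min_le_right _ _))).2
        linarith
      have hI : ∫ z in (x - ω)..(x - ω + 2 * t), u z ≤ (x - ω + 2 * t - (x - ω)) * (γ + ε) := by
        refine aux_int_le hu (by linarith) fun z hz => (hγ' z ?_).2
        have := ht1.trans_le (min_le_left _ _)
        rw [abs_lt]; constructor <;> linarith [hz.1, hz.2]
      refine div_le_div_of_nonneg_right ?_ (by positivity)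
      linarith
  have hb2 : d ≤ (A u x ω - (γ - ε)) / ω := by
    refine aux_touch_left hd (aux_der2 ω (A u x ω) (γ - ε) hω0) ?_ hη ?_
    · rw [← hopt]; exact aux_v2 _ _ _ hω0
    · intro t ht0 ht1
      have hta : |t| < min (τ / 2) (ω - δ) := by rw [abs_of_neg ht1]; linarith
      refine le_trans ?_ (hge t hta)
      rw [hval t hta]
      have hωt : 0 < ω - t := by linarith
      have hI : (x - ω - (x - ω + 2 * t)) * (γ - ε) ≤ ∫ z in (x - ω + 2 * t)..(x - ω), u z := by
        refine aux_int_ge hu (by linarith) fun z hz => (hγ' z ?_).1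
        have := (abs_lt.1 (hta.trans_le (min_le_left _ _))).1
        rw [abs_lt]; constructor <;> linarith [hz.1, hz.2]
      rw [intervalIntegral.integral_symm (x - ω + 2 * t) (x - ω)]
      refine div_le_div_of_nonneg_right ?_ (by positivity)
      linarith
  rw [abs_le]
  have e1 : (A u x ω - (γ + ε)) / ω = (A u x ω - γ) / ω - ε / ω := by field_simp; ring
  have e2 : (A u x ω - (γ - ε)) / ω = (A u x ω - γ) / ω + ε / ω := by field_simp; ring
  constructor <;> linarith

lemma aux_trans_val {u : ℝ → ℝ} (hu : ∀ a b, IntervalIntegrable u volume a b) {x ω : ℝ} (hω0 : 0 < ω) (t : ℝ) :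
    A u (x + t) ω = (2 * ω)⁻¹ * (2 * ω * A u x ω + (∫ z in (x + ω)..(x + ω + t), u z) -
      ∫ z in (x - ω)..(x - ω + t), u z) := by
  have h1 : x + t - ω = x - ω + t := by ring
  have h2 : x + t + ω = x + ω + t := by ring
  have h3 := intervalIntegral.integral_add_adjacent_intervals (hu (x - ω) (x + ω)) (hu (x + ω) (x + ω + t))
  have h4 := intervalIntegral.integral_add_adjacent_intervals (hu (x - ω) (x - ω + t)) (hu (x - ω + t) (x + ω + t))
  rw [← aux_int_A hω0]
  unfold A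
  rw [h1, h2]
  congr 1
  linarith

/-- translated windows -/
theorem HH_deriv_trans (u : ℝ → ℝ) (hu : ∀ a b, IntervalIntegrable u volume a b) (C : ℝ)
    (hC : ∀ x, |u x| ≤ C) (δ : ℝ) (hδ : 0 < δ) (x ω d γ₁ γ₂ ε τ : ℝ) (hω : δ ≤ ω)
    (hopt : A u x ω = HH δ u x) (hd : HasDerivAt (HH δ u) d x) (hτ : 0 < τ)
    (hγ₁ : ∀ z, |z - (x - ω)| < τ → |u z - γ₁| ≤ ε)
    (hγ₂ : ∀ z, |z - (x + ω)| < τ → |u z - γ₂| ≤ ε) :
    |d - (γ₂ - γ₁) / (2 * ω)| ≤ ε / ω := by
  have hω0 : 0 < ω := hδ.trans_le hω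
  have hge : ∀ t, A u (x + t) ω ≤ HH δ u (x + t) := fun t => aux_le_HH hC hδ _ _ hω
  have hγ1' : ∀ z, |z - (x - ω)| < τ → γ₁ - ε ≤ u z ∧ u z ≤ γ₁ + ε := by
    intro z hz
    have := abs_le.1 (hγ₁ z hz)
    constructor <;> linarith
  have hγ2' : ∀ z, |z - (x + ω)| < τ → γ₂ - ε ≤ u z ∧ u z ≤ γ₂ + ε := by
    intro z hz
    have := abs_le.1 (hγ₂ z hz)
    constructor <;> linarith
  have hb1 : (γ₂ - γ₁ - 2 * ε) / (2 * ω) ≤ d := by
    refine aux_touch_right hd (aux_der3 ω (A u x ω) (γ₂ - γ₁ - 2 * ε) hω0) ?_ hτ ?_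
    · rw [← hopt]; exact aux_v3 _ _ _ hω0
    · intro t ht0 ht1
      refine le_trans ?_ (hge t)
      rw [aux_trans_val hu hω0]
      have hI1 : (x + ω + t - (x + ω)) * (γ₂ - ε) ≤ ∫ z in (x + ω)..(x + ω + t), u z := by
        refine aux_int_ge hu (by linarith) fun z hz => (hγ2' z ?_).1
        rw [abs_lt]; constructor <;> linarith [hz.1, hz.2]
      have hI2 : ∫ z in (x - ω)..(x - ω + t), u z ≤ (x - ω + t - (x - ω)) * (γ₁ + ε) := by
        refine aux_int_le hu (by linarith) fun z hz => (hγ1' z ?_).2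
        rw [abs_lt]; constructor <;> linarith [hz.1, hz.2]
      refine mul_le_mul_of_nonneg_left ?_ (by positivity)
      linarith
  have hb2 : d ≤ (γ₂ - γ₁ + 2 * ε) / (2 * ω) := by
    refine aux_touch_left hd (aux_der3 ω (A u x ω) (γ₂ - γ₁ + 2 * ε) hω0) ?_ hτ ?_
    · rw [← hopt]; exact aux_v3 _ _ _ hω0
    · intro t ht0 ht1
      refine le_trans ?_ (hge t)
      rw [aux_trans_val hu hω0]
      have hI1 : ∫ z in (x + ω + t)..(x + ω), u z ≤ (x + ω - (x + ω + t)) * (γ₂ + ε) := by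
        refine aux_int_le hu (by linarith) fun z hz => (hγ2' z ?_).2
        rw [abs_lt]; constructor <;> linarith [hz.1, hz.2]
      have hI2 : (x - ω - (x - ω + t)) * (γ₁ - ε) ≤ ∫ z in (x - ω + t)..(x - ω), u z := by
        refine aux_int_ge hu (by linarith) fun z hz => (hγ1' z ?_).1
        rw [abs_lt]; constructor <;> linarith [hz.1, hz.2]
      rw [intervalIntegral.integral_symm (x + ω + t) (x + ω), intervalIntegral.integral_symm (x - ω + t) (x - ω)]
      refine mul_le_mul_of_nonneg_left ?_ (by positivity)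
      linarith
  rw [abs_le]
  have e1 : (γ₂ - γ₁ - 2 * ε) / (2 * ω) = (γ₂ - γ₁) / (2 * ω) - ε / ω := by field_simp
  have e2 : (γ₂ - γ₁ + 2 * ε) / (2 * ω) = (γ₂ - γ₁) / (2 * ω) + ε / ω := by field_simp
  constructor <;> linarith

/-- crude bound -/
theorem HH_deriv_crude (u : ℝ → ℝ) (hu : ∀ a b, IntervalIntegrable u volume a b) (C : ℝ)
    (hC : ∀ x, |u x| ≤ C) (δ : ℝ) (hδ : 0 < δ) (x ω d : ℝ) (hω : δ ≤ ω)
    (hopt : A u x ω = HH δ u x) (hd : HasDerivAt (HH δ u) d x) : |d| ≤ C / ω := by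
  have h := HH_deriv_trans u hu C hC δ hδ x ω d 0 0 C 1 hω hopt hd one_pos
    (fun z _ => by rw [sub_zero]; exact hC z) (fun z _ => by rw [sub_zero]; exact hC z)
  rw [sub_self, zero_div, sub_zero] at h
  exact h

end Pool.Agent.BV653
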