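import Pool.Agent.BV653.Defs
import Pool.Agent.BV653.A1
import Pool.Agent.BV653.A2
import Pool.Agent.BV653.H1
import Pool.Agent.BV653.V2
set_option autoImplicit false
open MeasureTheory Set Filter Topology
namespace Pool.Agent.BV653
theorem A_lim_aux (u : ℝ → ℝ) (hm : Measurable u) (C : ℝ) (hC : ∀ x, |u x| ≤ C) (L₁ L₂ : ℝ)
    (h1 : Tendsto u atBot (𝓝 L₁)) (h2 : Tendsto u atTop (𝓝 L₂)) (x : ℝ)
    (hu : ∀ a b, IntervalIntegrable u volume a b) :
    Tendsto (fun r => A u x r) atTop (𝓝 ((L₁ + L₂) / 2)) := by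
  have e1 : ∀ r : ℝ, 0 < r → A u x r =
      (1/2) * ((∫ s in (-1:ℝ)..0, u (x + r * s)) + ∫ s in (0:ℝ)..1, u (x + r * s)) := by
    intro r hr
    unfold A
    rw [intervalIntegral.integral_comp_add_mul _ hr.ne',
      intervalIntegral.integral_comp_add_mul _ hr.ne', ← smul_add,
      intervalIntegral.integral_add_adjacent_intervals (hu _ _) (hu _ _), smul_eq_mul]
    have ea : x + r * (-1) = x - r := by ring
    have eb : x + r * 1 = x + r := by ring
    rw [ea, eb, ← mul_assoc]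
    congr 1
    field_simp
  have hae : ∀ᵐ s : ℝ, s ≠ 0 := by
    have := (Set.countable_singleton (0:ℝ)).ae_notMem volume
    filter_upwards [this] with s hs
    simpa using hs
  have l1 : Tendsto (fun r : ℝ => ∫ s in (-1:ℝ)..0, u (x + r * s)) atTop
      (𝓝 (∫ s in (-1:ℝ)..0, L₁)) := by
    apply intervalIntegral.tendsto_integral_filter_of_dominated_convergence (fun _ => C)
    · exact Eventually.of_forall (fun r => (hm.comp (by fun_prop)).aestronglyMeasurable)
    · exact Eventually.of_forall (fun r => Eventually.of_forall (fun s _ => hC _))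
    · exact intervalIntegrable_const
    · filter_upwards [hae] with s hs hs2
      rw [uIoc_of_le (by norm_num)] at hs2
      have hs3 : s < 0 := lt_of_le_of_ne hs2.2 hs
      exact h1.comp (tendsto_atBot_add_const_left _ _ (tendsto_id.atTop_mul_const_of_neg hs3))
  have l2 : Tendsto (fun r : ℝ => ∫ s in (0:ℝ)..1, u (x + r * s)) atTop
      (𝓝 (∫ s in (0:ℝ)..1, L₂)) := by
    apply intervalIntegral.tendsto_integral_filter_of_dominated_convergence (fun _ => C)
    · exact Eventually.of_forall (fun r => (hm.comp (by fun_prop)).aestronglyMeasurable)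
    · exact Eventually.of_forall (fun r => Eventually.of_forall (fun s _ => hC _))
    · exact intervalIntegrable_const
    · refine Eventually.of_forall ?_
      intro s hs2
      rw [uIoc_of_le (by norm_num)] at hs2
      have hs3 : 0 < s := hs2.1
      exact h2.comp (tendsto_atTop_add_const_left _ _ (tendsto_id.atTop_mul_const hs3))
  have l3 := (l1.add l2).const_mul (1/2 : ℝ)
  have e2 : (1/2 : ℝ) * ((∫ s in (-1:ℝ)..0, L₁) + ∫ s in (0:ℝ)..1, L₂) = (L₁ + L₂) / 2 := by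
    simp
    ring
  rw [e2] at l3
  refine l3.congr' ?_
  filter_upwards [eventually_gt_atTop (0:ℝ)] with r hr
  exact (e1 r hr).symm

theorem near_aux (u : ℝ → ℝ) (V : ℕ → ℝ → ℝ) (c : ℕ → ℝ) (hc : Tendsto c atTop (𝓝 0))
    (hVc : ∀ j x, |V j x - u x| ≤ c j) (p : ℝ) (q : ℕ → ℝ) (hq : Tendsto q atTop (𝓝 p))
    (hp : ContinuousAt u p) (ε : ℝ) (hε : 0 < ε) :
    ∃ τ > 0, ∀ᶠ k in atTop, ∀ z, |z - q k| < τ → |V k z - u p| ≤ ε := by
  rw [Metric.continuousAt_iff] at hp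
  obtain ⟨ρ, hρ, h⟩ := hp (ε / 2) (by positivity)
  refine ⟨ρ / 2, by positivity, ?_⟩
  have e1 : ∀ᶠ k in atTop, |q k - p| < ρ / 2 := by
    have := (Metric.tendsto_nhds.1 hq) (ρ / 2) (by positivity)
    simpa [Real.dist_eq] using this
  have e2 : ∀ᶠ k in atTop, c k < ε / 2 := hc.eventually_lt_const (by positivity)
  filter_upwards [e1, e2] with k h1 h2 z hz
  have h3 : dist z p < ρ := by
    rw [Real.dist_eq]
    have : z - p = (z - q k) + (q k - p) := by ring
    rw [this]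
    have := abs_add_le (z - q k) (q k - p)
    linarith
  have h4 := h h3
  rw [Real.dist_eq] at h4
  have h5 := hVc k z
  have : V k z - u p = (V k z - u z) + (u z - u p) := by ring
  rw [this]
  have := abs_add_le (V k z - u z) (u z - u p)
  linarith

theorem sq_aux (a b w : ℕ → ℝ) (δ D : ℝ) (hδ : 0 < δ) (hb : Tendsto b atTop (𝓝 D))
    (h : ∀ ε > 0, ∀ᶠ k in atTop, δ ≤ w k ∧ |a k - b k| ≤ ε / w k) : Tendsto a atTop (𝓝 D) := by
  have h0 : Tendsto (fun k => a k - b k) atTop (𝓝 0) := by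
    rw [Metric.tendsto_nhds]
    intro ε hε
    filter_upwards [h (ε * δ / 2) (by positivity)] with k hk
    rw [Real.dist_eq, sub_zero]
    refine lt_of_le_of_lt hk.2 ?_
    have hw : 0 < w k := lt_of_lt_of_le hδ hk.1
    rw [div_lt_iff₀ hw]
    have : ε * δ ≤ ε * w k := by
      apply mul_le_mul_of_nonneg_left hk.1 hε.le
    have : 0 < ε * δ := by positivity
    linarith
  have := h0.add hb
  simpa using this

theorem Aconv_aux (u : ℝ → ℝ) (hu : ∀ a b, IntervalIntegrable u volume a b)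
    (V : ℕ → ℝ → ℝ) (hV : ∀ j a b, IntervalIntegrable (V j) volume a b)
    (c : ℕ → ℝ) (hc : Tendsto c atTop (𝓝 0)) (hVc : ∀ j x, |V j x - u x| ≤ c j) (x ω : ℝ)
    (hω0 : 0 < ω) (w : ℕ → ℝ) (hw : Tendsto w atTop (𝓝 ω)) :
    Tendsto (fun k => A (V k) x (w k)) atTop (𝓝 (A u x ω)) := by
  have h1 : Tendsto (fun k => A u x (w k)) atTop (𝓝 (A u x ω)) := by
    have := (A_continuous_radius u hu x).continuousAt (Ioi_mem_nhds hω0)
    exact this.tendsto.comp hw
  have h2 : Tendsto (fun k => A (V k) x (w k) - A u x (w k)) atTop (𝓝 0) := by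
    apply squeeze_zero_norm' _ hc
    filter_upwards [hw.eventually_const_lt hω0] with k hk
    rw [Real.norm_eq_abs]
    exact A_sub_le (V k) u (hV k) hu (c k) (hVc k) x (w k) hk
  simpa using h2.add h1

theorem key1_aux (u : ℝ → ℝ)
    (V : ℕ → ℝ → ℝ) (hV : ∀ j a b, IntervalIntegrable (V j) volume a b)
    (C : ℝ) (hC : ∀ j x, |V j x| ≤ C)
    (c : ℕ → ℝ) (hc : Tendsto c atTop (𝓝 0)) (hVc : ∀ j x, |V j x - u x| ≤ c j) (δ : ℝ)
    (hδ : 0 < δ) (x ω : ℝ) (hω0 : 0 < ω) (w d : ℕ → ℝ) (hw : Tendsto w atTop (𝓝 ω))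
    (ho : ∀ᶠ k in atTop, δ ≤ w k ∧ A (V k) x (w k) = HH δ (V k) x)
    (hd : ∀ k, HasDerivAt (HH δ (V k)) (d k) x)
    (c1 : ContinuousAt u (x - ω)) (c2 : ContinuousAt u (x + ω)) :
    Tendsto d atTop (𝓝 ((u (x + ω) - u (x - ω)) / (2 * ω))) := by
  apply sq_aux d (fun k => (u (x + ω) - u (x - ω)) / (2 * w k)) w δ _ hδ
  · exact tendsto_const_nhds.div (hw.const_mul 2) (by positivity)
  · intro ε hε
    obtain ⟨τ1, hτ1, e1⟩ := near_aux u V c hc hVc (x - ω) (fun k => x - w k)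
      (tendsto_const_nhds.sub hw) c1 ε hε
    obtain ⟨τ2, hτ2, e2⟩ := near_aux u V c hc hVc (x + ω) (fun k => x + w k)
      (tendsto_const_nhds.add hw) c2 ε hε
    filter_upwards [e1, e2, ho] with k h1 h2 h3
    refine ⟨h3.1, ?_⟩
    exact HH_deriv_trans (V k) (hV k) C (hC k) δ hδ x (w k) (d k) _ _ ε (min τ1 τ2) h3.1 h3.2
      (hd k) (lt_min hτ1 hτ2) (fun z hz => h1 z (lt_of_lt_of_le hz (min_le_left _ _)))
      (fun z hz => h2 z (lt_of_lt_of_le hz (min_le_right _ _)))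

theorem key2_aux (u : ℝ → ℝ) (hu : ∀ a b, IntervalIntegrable u volume a b)
    (V : ℕ → ℝ → ℝ) (hV : ∀ j a b, IntervalIntegrable (V j) volume a b)
    (C : ℝ) (hC : ∀ j x, |V j x| ≤ C)
    (c : ℕ → ℝ) (hc : Tendsto c atTop (𝓝 0)) (hVc : ∀ j x, |V j x - u x| ≤ c j) (δ : ℝ)
    (hδ : 0 < δ) (x ω : ℝ) (hω : δ < ω) (w d : ℕ → ℝ) (hw : Tendsto w atTop (𝓝 ω))
    (ho : ∀ᶠ k in atTop, δ ≤ w k ∧ A (V k) x (w k) = HH δ (V k) x)
    (hd : ∀ k, HasDerivAt (HH δ (V k)) (d k) x)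
    (c2 : ContinuousAt u (x + ω)) :
    Tendsto d atTop (𝓝 ((u (x + ω) - A u x ω) / ω)) := by
  have hω0 : 0 < ω := hδ.trans hω
  apply sq_aux d (fun k => (u (x + ω) - A (V k) x (w k)) / w k) w δ _ hδ
  · exact (tendsto_const_nhds.sub (Aconv_aux u hu V hV c hc hVc x ω hω0 w hw)).div hw hω0.ne'
  · intro ε hε
    obtain ⟨τ2, hτ2, e2⟩ := near_aux u V c hc hVc (x + ω) (fun k => x + w k)
      (tendsto_const_nhds.add hw) c2 ε hε
    filter_upwards [hw.eventually_const_lt hω, e2, ho] with k h1 h2 h3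
    refine ⟨h3.1, ?_⟩
    exact HH_deriv_right (V k) (hV k) C (hC k) δ hδ x (w k) (d k) _ ε τ2 h1 h3.2
      (hd k) hτ2 h2

theorem key3_aux (u : ℝ → ℝ) (hu : ∀ a b, IntervalIntegrable u volume a b)
    (V : ℕ → ℝ → ℝ) (hV : ∀ j a b, IntervalIntegrable (V j) volume a b)
    (C : ℝ) (hC : ∀ j x, |V j x| ≤ C)
    (c : ℕ → ℝ) (hc : Tendsto c atTop (𝓝 0)) (hVc : ∀ j x, |V j x - u x| ≤ c j) (δ : ℝ)
    (hδ : 0 < δ) (x ω : ℝ) (hω : δ < ω) (w d : ℕ → ℝ) (hw : Tendsto w atTop (𝓝 ω))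
    (ho : ∀ᶠ k in atTop, δ ≤ w k ∧ A (V k) x (w k) = HH δ (V k) x)
    (hd : ∀ k, HasDerivAt (HH δ (V k)) (d k) x)
    (c2 : ContinuousAt u (x - ω)) :
    Tendsto d atTop (𝓝 ((A u x ω - u (x - ω)) / ω)) := by
  have hω0 : 0 < ω := hδ.trans hω
  apply sq_aux d (fun k => (A (V k) x (w k) - u (x - ω)) / w k) w δ _ hδ
  · exact ((Aconv_aux u hu V hV c hc hVc x ω hω0 w hw).sub tendsto_const_nhds).div hw hω0.ne'
  · intro ε hε
    obtain ⟨τ2, hτ2, e2⟩ := near_aux u V c hc hVc (x - ω) (fun k => x - w k)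
      (tendsto_const_nhds.sub hw) c2 ε hε
    filter_upwards [hw.eventually_const_lt hω, e2, ho] with k h1 h2 h3
    refine ⟨h3.1, ?_⟩
    exact HH_deriv_left (V k) (hV k) C (hC k) δ hδ x (w k) (d k) _ ε τ2 h1 h3.2
      (hd k) hτ2 h2

/-- almost everywhere convergence of the derivatives of the maximal functions with radii `≥ δ` -/
theorem HH_deriv_conv (u : ℝ → ℝ) (hu : BoundedVariationOn u univ) (U : ℕ → ℝ → ℝ)
    (hU : ∀ j, BoundedVariationOn (U j) univ) (c : ℕ → ℝ) (hc : Tendsto c atTop (𝓝 0))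
    (hUc : ∀ j x, |U j x - u x| ≤ c j) (δ : ℝ) (hδ : 0 < δ) :
    ∀ᵐ x, Tendsto (fun j => deriv (HH δ (U j)) x) atTop (𝓝 (deriv (HH δ u) x)) := by
  obtain ⟨hum, ⟨C0, hC0⟩, hui, hcount⟩ := bv_basic u hu
  have hUi : ∀ j a b, IntervalIntegrable (U j) volume a b := fun j => (bv_basic (U j) (hU j)).2.2.1
  have hUm : ∀ j, Measurable (U j) := fun j => (bv_basic (U j) (hU j)).1
  obtain ⟨K, hK⟩ := hc.bddAbove_range
  have hK' : ∀ j, c j ≤ K := fun j => hK ⟨j, rfl⟩
  have hc0 : ∀ j, 0 ≤ c j := fun j => (abs_nonneg _).trans (hUc j 0)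
  have hK0 : 0 ≤ K := (hc0 0).trans (hK' 0)
  set C := C0 + K with hCdef
  have hCu : ∀ x, |u x| ≤ C := fun x => by have := hC0 x; linarith
  have hCU : ∀ j x, |U j x| ≤ C := by
    intro j x
    have h1 := hC0 x
    have h2 := hUc j x
    have h3 := hK' j
    have : U j x = (U j x - u x) + u x := by ring
    rw [this]
    have := abs_add_le (U j x - u x) (u x)
    linarith
  have hC0' : 0 ≤ C := (abs_nonneg _).trans (hCu 0)
  have hlip : ∀ v : ℝ → ℝ, (∀ a b, IntervalIntegrable v volume a b) → (∀ x, |v x| ≤ C) →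
      ∀ᵐ x, DifferentiableAt ℝ (HH δ v) x := by
    intro v hv hvC
    have := (HH_basic v hv C hvC δ hδ).2.2.2
    have hl : LipschitzWith (Real.toNNReal (C / δ)) (HH δ v) := by
      apply LipschitzWith.of_dist_le_mul
      intro x y
      rw [Real.coe_toNNReal _ (by positivity), Real.dist_eq, Real.dist_eq]
      exact this x y
    exact hl.ae_differentiableAt_real
  have hall : ∀ᵐ x, ∀ j, DifferentiableAt ℝ (HH δ (U j)) x :=
    ae_all_iff.2 (fun j => hlip (U j) (hUi j) (hCU j))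
  set dc := {x | ¬ ContinuousAt u x} with hdc
  have hn1 : ∀ᵐ x : ℝ, x ∉ (fun p : ℝ × ℝ => (p.1 + p.2) / 2) '' (dc ×ˢ dc) :=
    ((hcount.prod hcount).image _).ae_notMem volume
  have hn2 : ∀ᵐ x : ℝ, x ∉ (fun p : ℝ => p + δ) '' dc := (hcount.image _).ae_notMem volume
  have hn3 : ∀ᵐ x : ℝ, x ∉ (fun p : ℝ => p - δ) '' dc := (hcount.image _).ae_notMem volume
  obtain ⟨L1, hL1⟩ : ∃ l, Tendsto u atBot (𝓝 l) := ⟨_, hu.tendsto_atBot_limUnder⟩
  obtain ⟨L2, hL2⟩ : ∃ l, Tendsto u atTop (𝓝 l) := ⟨_, hu.tendsto_atTop_limUnder⟩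
  have hm1 : ∀ j, ∃ l, Tendsto (U j) atBot (𝓝 l) := fun j => ⟨_, (hU j).tendsto_atBot_limUnder⟩
  have hm2 : ∀ j, ∃ l, Tendsto (U j) atTop (𝓝 l) := fun j => ⟨_, (hU j).tendsto_atTop_limUnder⟩
  choose M1 hM1 using hm1
  choose M2 hM2 using hm2
  have hd1 : ∀ j, |M1 j - L1| ≤ c j := fun j =>
    le_of_tendsto ((hM1 j).sub hL1).abs (Eventually.of_forall (fun t => hUc j t))
  have hd2 : ∀ j, |M2 j - L2| ≤ c j := fun j =>
    le_of_tendsto ((hM2 j).sub hL2).abs (Eventually.of_forall (fun t => hUc j t))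
  filter_upwards [hall, hlip u hui hCu, hn1, hn2, hn3] with x hxU hxu hx1 hx2 hx3
  have hHj : ∀ j, |HH δ (U j) x - HH δ u x| ≤ c j := fun j =>
    (M_sub_le (U j) u (hUi j) hui C (hCU j) hCu (c j) (hUc j) x).2 δ hδ
  have hρ : ∀ j, ∃ ρ ∈ Icc (0:ℝ) (1/δ),
      (ρ = 0 ∧ HH δ (U j) x = (M1 j + M2 j) / 2) ∨
      (0 < ρ ∧ δ ≤ ρ⁻¹ ∧ A (U j) x ρ⁻¹ = HH δ (U j) x) := by
    intro j
    rcases (HH_attained (U j) (hUi j) C (hCU j) _ _ (hM1 j) (hM2 j) δ hδ).2 x with ⟨ω, hω, he⟩ | h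
    · have hω0 : 0 < ω := lt_of_lt_of_le hδ hω
      refine ⟨ω⁻¹, ⟨by positivity, ?_⟩, Or.inr ⟨by positivity, by rw [inv_inv]; exact hω, by
        rw [inv_inv]; exact he⟩⟩
      rw [one_div]
      exact inv_anti₀ hδ hω
    · exact ⟨0, ⟨le_rfl, by positivity⟩, Or.inl ⟨rfl, h⟩⟩
  choose ρ hρI hρc using hρ
  apply tendsto_of_subseq_tendsto
  intro ns hns
  obtain ⟨ρ0, hρ0, φ, hφ, hlim⟩ := isCompact_Icc.tendsto_subseq (fun n => hρI (ns n))
  refine ⟨φ, ?_⟩
  have hsub : Tendsto (fun k => ns (φ k)) atTop atTop := hns.comp hφ.tendsto_atTop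
  have hcs : Tendsto (fun k => c (ns (φ k))) atTop (𝓝 0) := hc.comp hsub
  have hHs : Tendsto (fun k => HH δ (U (ns (φ k))) x) atTop (𝓝 (HH δ u x)) := by
    have h2 : Tendsto (fun k => HH δ (U (ns (φ k))) x - HH δ u x) atTop (𝓝 0) :=
      squeeze_zero_norm (fun k => hHj _) hcs
    simpa using h2.add_const (HH δ u x)
  have hlim' : Tendsto (fun k => ρ (ns (φ k))) atTop (𝓝 ρ0) := hlim
  rcases hρ0.1.eq_or_lt with h0 | hpos
  · -- ρ0 = 0
    subst h0
    have hD : Tendsto (fun k => deriv (HH δ (U (ns (φ k)))) x) atTop (𝓝 0) := by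
      have hb : Tendsto (fun k => C * ρ (ns (φ k))) atTop (𝓝 0) := by
        simpa using hlim'.const_mul C
      apply squeeze_zero_norm _ hb
      intro k
      set j := ns (φ k)
      rcases hρc j with ⟨hz, he⟩ | ⟨hp, hge, he⟩
      · have hmin : IsLocalMin (HH δ (U j)) x := by
          refine Eventually.of_forall (fun y => ?_)
          rw [he]
          exact (HH_attained (U j) (hUi j) C (hCU j) _ _ (hM1 j) (hM2 j) δ hδ).1 y
        rw [hmin.deriv_eq_zero, hz]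
        simp
      · have := HH_deriv_crude (U j) (hUi j) C (hCU j) δ hδ x _ _ hge he (hxU j).hasDerivAt
        rw [Real.norm_eq_abs]
        rw [div_inv_eq_mul] at this
        exact this
    have hHL : Tendsto (fun k => HH δ (U (ns (φ k))) x) atTop (𝓝 ((L1 + L2) / 2)) := by
      have hAl := A_lim_aux u hum C hCu L1 L2 hL1 hL2 x hui
      rw [Metric.tendsto_nhds]
      intro ε hε
      have e1 : ∀ᶠ r in atTop, dist (A u x r) ((L1 + L2) / 2) < ε / 2 :=
        (Metric.tendsto_nhds.1 hAl) _ (by positivity)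
      obtain ⟨R, hR⟩ := eventually_atTop.1 e1
      have hRpos : (0:ℝ) < (max R 1)⁻¹ := by positivity
      filter_upwards [hlim'.eventually_lt_const hRpos, hcs.eventually_lt_const (half_pos hε)] with
        k hk1 hk2
      set j := ns (φ k)
      rcases hρc j with ⟨hz, he⟩ | ⟨hp, hge, he⟩
      · rw [he, Real.dist_eq]
        have e3 : (M1 j + M2 j) / 2 - (L1 + L2) / 2 = ((M1 j - L1) + (M2 j - L2)) / 2 := by ring
        rw [e3, abs_div, abs_two]
        have h3 := abs_add_le (M1 j - L1) (M2 j - L2)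
        have h4 := hd1 j
        have h5 := hd2 j
        linarith
      · have h6 : max R 1 ≤ (ρ j)⁻¹ := by
          rw [le_inv_comm₀ (by positivity) hp]
          exact hk1.le
        have h7 := hR _ ((le_max_left R 1).trans h6)
        have h8 := A_sub_le (U j) u (hUi j) hui (c j) (hUc j) x (ρ j)⁻¹ (by positivity)
        rw [← he]
        rw [Real.dist_eq] at h7 ⊢
        have e3 : A (U j) x (ρ j)⁻¹ - (L1 + L2) / 2 = (A (U j) x (ρ j)⁻¹ - A u x (ρ j)⁻¹) +
          (A u x (ρ j)⁻¹ - (L1 + L2) / 2) := by ring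
        rw [e3]
        have h3 := abs_add_le (A (U j) x (ρ j)⁻¹ - A u x (ρ j)⁻¹)
          (A u x (ρ j)⁻¹ - (L1 + L2) / 2)
        linarith
    have hHe : HH δ u x = (L1 + L2) / 2 := tendsto_nhds_unique hHs hHL
    have hmin : IsLocalMin (HH δ u) x := by
      refine Eventually.of_forall (fun y => ?_)
      rw [hHe]
      exact (HH_attained u hui C hCu _ _ hL1 hL2 δ hδ).1 y
    rw [hmin.deriv_eq_zero]
    exact hD
  · -- ρ0 > 0
    set ω := ρ0⁻¹ with hω
    have hω0 : 0 < ω := by positivity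
    have hδω : δ ≤ ω := by
      rw [hω, le_inv_comm₀ hδ hpos, ← one_div]
      exact hρ0.2
    set w := fun k => (ρ (ns (φ k)))⁻¹ with hwdef
    have hw : Tendsto w atTop (𝓝 ω) := hlim'.inv₀ hpos.ne'
    have ho : ∀ᶠ k in atTop, δ ≤ w k ∧ A (U (ns (φ k))) x (w k) = HH δ (U (ns (φ k))) x := by
      filter_upwards [hlim'.eventually_const_lt hpos] with k hk
      rcases hρc (ns (φ k)) with ⟨hz, he⟩ | ⟨hp, hge, he⟩
      · exact absurd hz hk.ne'
      · exact ⟨hge, he⟩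
    have hAω : A u x ω = HH δ u x := by
      have h1 := Aconv_aux u hui (fun k => U (ns (φ k))) (fun k => hUi _) (fun k => c (ns (φ k)))
        hcs (fun k => hUc _) x ω hω0 w hw
      apply tendsto_nhds_unique h1
      refine hHs.congr' ?_
      filter_upwards [ho] with k hk
      exact hk.2.symm
    have hz : Tendsto (fun _ : ℕ => (0:ℝ)) atTop (𝓝 0) := tendsto_const_nhds
    have hwc : Tendsto (fun _ : ℕ => ω) atTop (𝓝 ω) := tendsto_const_nhds
    have hoc : ∀ᶠ k : ℕ in atTop, δ ≤ (fun _ : ℕ => ω) k ∧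
        A ((fun _ : ℕ => u) k) x ((fun _ : ℕ => ω) k) = HH δ ((fun _ : ℕ => u) k) x :=
      Eventually.of_forall (fun _ => ⟨hδω, hAω⟩)
    have hself : ∀ (j : ℕ) (x : ℝ), |(fun _ : ℕ => u) j x - u x| ≤ (fun _ : ℕ => (0:ℝ)) j := by
      intro j x; simp
    by_cases c1 : ContinuousAt u (x - ω)
    · by_cases c2 : ContinuousAt u (x + ω)
      · have t1 := key1_aux u (fun k => U (ns (φ k))) (fun k => hUi _) C (fun k => hCU _)
          (fun k => c (ns (φ k))) hcs (fun k => hUc _) δ hδ x ω hω0 w _ hw ho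
          (fun k => (hxU _).hasDerivAt) c1 c2
        have t2 := key1_aux u (fun _ => u) (fun _ => hui) C (fun _ => hCu) (fun _ => 0) hz hself
          δ hδ x ω hω0 (fun _ => ω) (fun _ => deriv (HH δ u) x) hwc hoc
          (fun _ => hxu.hasDerivAt) c1 c2
        rw [tendsto_nhds_unique tendsto_const_nhds t2]
        exact t1
      · have hlt : δ < ω := by
          refine lt_of_le_of_ne hδω (fun h => ?_)
          exact hx3 ⟨x + ω, c2, by simp [h]⟩
        have t1 := key3_aux u hui (fun k => U (ns (φ k))) (fun k => hUi _) C (fun k => hCU _)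
          (fun k => c (ns (φ k))) hcs (fun k => hUc _) δ hδ x ω hlt w _ hw ho
          (fun k => (hxU _).hasDerivAt) c1
        have t2 := key3_aux u hui (fun _ => u) (fun _ => hui) C (fun _ => hCu) (fun _ => 0) hz
          hself δ hδ x ω hlt (fun _ => ω) (fun _ => deriv (HH δ u) x) hwc hoc
          (fun _ => hxu.hasDerivAt) c1
        rw [tendsto_nhds_unique tendsto_const_nhds t2]
        exact t1
    · have hlt : δ < ω := by
        refine lt_of_le_of_ne hδω (fun h => ?_)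
        exact hx2 ⟨x - ω, c1, by simp [h]⟩
      have c2 : ContinuousAt u (x + ω) := by
        by_contra c2
        exact hx1 ⟨(x - ω, x + ω), ⟨c1, c2⟩, by simp⟩
      have t1 := key2_aux u hui (fun k => U (ns (φ k))) (fun k => hUi _) C (fun k => hCU _)
        (fun k => c (ns (φ k))) hcs (fun k => hUc _) δ hδ x ω hlt w _ hw ho
        (fun k => (hxU _).hasDerivAt) c2
      have t2 := key2_aux u hui (fun _ => u) (fun _ => hui) C (fun _ => hCu) (fun _ => 0) hz
        hself δ hδ x ω hlt (fun _ => ω) (fun _ => deriv (HH δ u) x) hwc hoc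
        (fun _ => hxu.hasDerivAt) c2
      rw [tendsto_nhds_unique tendsto_const_nhds t2]
      exact t1

end Pool.Agent.BV653
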