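import Pool.Agent.BV653.Defs
set_option autoImplicit false
open MeasureTheory Set Filter Topology
namespace Pool.Agent.BV653
/-- the density -/
noncomputable def F1 (h G : ℝ → ℝ) : ℝ → ℝ :=
  Set.indicator {x | G x = h x} fun x => max (-(deriv h x)) 0

theorem F1_nonneg (h G : ℝ → ℝ) (x : ℝ) : 0 ≤ F1 h G x := by
  unfold F1
  apply Set.indicator_nonneg
  intro x _
  exact le_max_right _ _

theorem deriv_bd {h : ℝ → ℝ} {L : NNReal} (hh : LipschitzWith L h) (x : ℝ) :
    |deriv h x| ≤ L := by
  rw [← Real.norm_eq_abs]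
  exact norm_deriv_le_of_lipschitz hh

theorem max_bd {h : ℝ → ℝ} {L : NNReal} (hh : LipschitzWith L h) (x : ℝ) :
    max (-(deriv h x)) 0 ≤ L := by
  have := abs_le.1 (deriv_bd hh x)
  exact max_le (by linarith [this.1]) L.2

theorem F1_le {h G : ℝ → ℝ} {L : NNReal} (hh : LipschitzWith L h) (x : ℝ) : F1 h G x ≤ L := by
  unfold F1
  rw [Set.indicator_apply]
  split_ifs
  · exact max_bd hh x
  · exact L.2

theorem meas_E {h G : ℝ → ℝ} {L : NNReal} (hh : LipschitzWith L h) (hG : Measurable G) :
    MeasurableSet {x | G x = h x} :=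
  measurableSet_eq_fun hG hh.continuous.measurable

theorem meas_max (h : ℝ → ℝ) : Measurable fun x => max (-(deriv h x)) 0 :=
  ((measurable_deriv h).neg).max measurable_const

theorem F1_meas {h G : ℝ → ℝ} {L : NNReal} (hh : LipschitzWith L h) (hG : Measurable G) :
    Measurable (F1 h G) :=
  (meas_max h).indicator (meas_E hh hG)

theorem bdd_ii {F : ℝ → ℝ} (hF : Measurable F) (B : ℝ) (hB : ∀ x, |F x| ≤ B) (p q : ℝ) :
    IntervalIntegrable F volume p q := by
  apply IntervalIntegrable.mono_fun (g := F) (f := fun _ : ℝ => B)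
    (intervalIntegrable_const) hF.aestronglyMeasurable.restrict
  filter_upwards with x
  rw [Real.norm_eq_abs, Real.norm_eq_abs]
  exact (hB x).trans (le_abs_self B)

theorem F1_ii {h G : ℝ → ℝ} {L : NNReal} (hh : LipschitzWith L h) (hG : Measurable G) (p q : ℝ) :
    IntervalIntegrable (F1 h G) volume p q :=
  bdd_ii (F1_meas hh hG) L (fun x => by rw [abs_of_nonneg (F1_nonneg h G x)]; exact F1_le hh x) p q

theorem F1_int {h G : ℝ → ℝ} {L : NNReal} (hh : LipschitzWith L h) (hG : Measurable G)
    {a b : ℝ} (hab : a ≤ b) :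
    ∫ x in Icc a b ∩ {x | G x = h x}, max (-(deriv h x)) 0 = ∫ x in a..b, F1 h G x := by
  rw [intervalIntegral.integral_of_le hab, ← integral_Icc_eq_integral_Ioc]
  unfold F1
  rw [setIntegral_indicator (meas_E hh hG)]

theorem ftc {h : ℝ → ℝ} {L : NNReal} (hh : LipschitzWith L h) (p q : ℝ) :
    ∫ x in p..q, deriv h x = h q - h p :=
  (hh.lipschitzOnWith.absolutelyContinuousOnInterval).integral_deriv_eq_sub

theorem claim1 {a b : ℝ} {g h G : ℝ → ℝ} {L : NNReal} (hh : LipschitzWith L h)
    (hGm : Measurable G) (hG : ∀ x ∈ Icc a b, G x = max (g x) (h x)) {p q : ℝ} (hp : a ≤ p)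
    (hpq : p ≤ q) (hq : q ≤ b) {ε : ℝ} (hε : 0 < ε) :
    ∃ w, p ≤ w ∧ w ≤ q ∧
      max (G p - G q) 0 ≤ (∫ x in p..w, F1 h G x) + ε + max (g w - g q) 0 := by
  have hpm : p ∈ Icc a b := ⟨hp, hpq.trans hq⟩
  have hqm : q ∈ Icc a b := ⟨hp.trans hpq, hq⟩
  have hGq : g q ≤ G q := by rw [hG q hqm]; exact le_max_left _ _
  have hGq' : h q ≤ G q := by rw [hG q hqm]; exact le_max_right _ _
  have hnn : ∀ w, p ≤ w → 0 ≤ ∫ x in p..w, F1 h G x := fun w hw =>
    intervalIntegral.integral_nonneg hw fun x _ => F1_nonneg h G x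
  -- falls of h where h > g
  have hfall : ∀ z, p ≤ z → z ≤ q → (∀ x ∈ Ioo p z, g x < h x) →
      h p - h z ≤ ∫ x in p..z, F1 h G x := by
    intro z hpz hzq hx
    have h1 : h p - h z = ∫ x in p..z, -(deriv h x) := by
      rw [intervalIntegral.integral_neg, ftc hh]; ring
    rw [h1]
    apply intervalIntegral.integral_mono_on_of_le_Ioo hpz
    · exact (bdd_ii (measurable_deriv h) L (fun x => deriv_bd hh x) p z).neg
    · exact F1_ii hh hGm p z
    · intro x hxm
      have hxG : G x = h x := by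
        rw [hG x ⟨hp.trans hxm.1.le, (hxm.2.le.trans hzq).trans hq⟩]
        exact max_eq_right (hx x hxm).le
      unfold F1
      rw [Set.indicator_of_mem (show x ∈ {x | G x = h x} from hxG)]
      exact le_max_left _ _
  by_cases h1 : h p ≤ g p
  · refine ⟨p, le_refl _, hpq, ?_⟩
    rw [intervalIntegral.integral_same]
    have h2 : G p = g p := by rw [hG p hpm]; exact max_eq_left h1
    have h3 : G p - G q ≤ g p - g q := by rw [h2]; linarith
    have h4 := max_le_max_right (0 : ℝ) h3
    linarith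
  push Not at h1
  have h2 : G p = h p := by rw [hG p hpm]; exact max_eq_right h1.le
  by_cases hB : ∃ z ∈ Icc p q, h z ≤ g z
  · set B : Set ℝ := {z | z ∈ Icc p q ∧ h z ≤ g z} with hBdef
    have hBne : B.Nonempty := hB
    have hBbd : BddBelow B := ⟨p, fun z hz => hz.1.1⟩
    set z0 := sInf B with hz0
    have hpz0 : p ≤ z0 := le_csInf hBne fun z hz => hz.1.1
    have hz0q : z0 ≤ q := by
      obtain ⟨z, hz⟩ := hBne
      exact (csInf_le hBbd hz).trans hz.1.2
    have hlt : ∀ x ∈ Ioo p z0, g x < h x := by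
      intro x hx
      by_contra hno
      push Not at hno
      have : z0 ≤ x := csInf_le hBbd ⟨⟨hx.1.le, hx.2.le.trans hz0q⟩, hno⟩
      exact absurd hx.2 (not_lt.2 this)
    obtain ⟨w, hw, hwlt⟩ := exists_lt_of_csInf_lt hBne
      (show sInf B < z0 + ε / (L + 1) by
        have : 0 < ε / ((L : ℝ) + 1) := div_pos hε (by have := L.2; positivity)
        linarith)
    have hz0w : z0 ≤ w := csInf_le hBbd hw
    refine ⟨w, hw.1.1, hw.1.2, ?_⟩
    have h3 := hfall z0 hpz0 hz0q hlt
    have h4 : ∫ x in p..z0, F1 h G x ≤ ∫ x in p..w, F1 h G x := by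
      apply intervalIntegral.integral_mono_interval le_rfl hpz0 hz0w
      · filter_upwards with x using F1_nonneg h G x
      · exact F1_ii hh hGm p w
    have h5 : h z0 - h w ≤ L * (w - z0) := by
      have := hh.dist_le_mul z0 w
      rw [Real.dist_eq, Real.dist_eq, abs_sub_comm z0 w, abs_of_nonneg (sub_nonneg.2 hz0w)] at this
      exact (le_abs_self _).trans this
    have h6 : (L : ℝ) * (w - z0) ≤ ε := by
      have hL1 : (0 : ℝ) < L + 1 := by have := L.2; positivity
      have h7 : w - z0 < ε / (L + 1) := by linarith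
      rw [lt_div_iff₀ hL1] at h7
      have h8 : 0 ≤ w - z0 := sub_nonneg.2 hz0w
      nlinarith
    have h9 := hw.2
    apply max_le
    · rw [h2]
      have h10 := le_max_left (g w - g q) 0
      linarith
    · have := hnn w hw.1.1
      have h10 := le_max_right (g w - g q) 0
      linarith
  · push Not at hB
    refine ⟨q, hpq, le_refl _, ?_⟩
    have h3 := hfall q hpq le_rfl fun x hx => hB x ⟨hx.1.le, hx.2.le⟩
    have h5 := hnn q hpq
    rw [sub_self, max_self]
    apply max_le
    · rw [h2]; linarith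
    · linarith

/-- a partition estimate for the falls of a maximum -/
theorem S1a (a b : ℝ) (hab : a ≤ b) (φ : ℝ) (g h G : ℝ → ℝ) (L : NNReal)
    (hg : FallsLE g (Icc a b) φ) (hh : LipschitzWith L h) (hGm : Measurable G)
    (hG : ∀ x ∈ Icc a b, G x = max (g x) (h x)) :
    FallsLE G (Icc a b) (φ + ∫ x in Icc a b ∩ {x | G x = h x}, max (-(deriv h x)) 0) := by
  rw [F1_int hh hGm hab]
  intro n x hxm hx
  apply le_of_forall_pos_le_add
  intro ε hε
  have hε' : 0 < ε / (n + 1) := by positivity
  have hcl : ∀ i, ∃ w, x i ≤ w ∧ w ≤ x (i + 1) ∧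
      max (G (x i) - G (x (i + 1))) 0 ≤
        (∫ t in (x i)..w, F1 h G t) + ε / (n + 1) + max (g w - g (x (i + 1))) 0 := fun i =>
    claim1 hh hGm hG (hx i).1 (hxm (Nat.le_succ i)) (hx (i + 1)).2 hε'
  choose w hw1 hw2 hw3 using hcl
  -- sum of the g-terms
  have hgsum : ∑ i ∈ Finset.range n, max (g (w i) - g (x (i + 1))) 0 ≤ φ := by
    let y : ℕ → ℝ := fun k => if k % 2 = 0 then w (k / 2) else x (k / 2 + 1)
    have hye : ∀ i, y (2 * i) = w i := by
      intro i
      simp only [y]
      rw [if_pos (by omega), show 2 * i / 2 = i by omega]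
    have hyo : ∀ i, y (2 * i + 1) = x (i + 1) := by
      intro i
      simp only [y]
      rw [if_neg (by omega), show (2 * i + 1) / 2 = i by omega]
    have hym : Monotone y := by
      apply monotone_nat_of_le_succ
      intro k
      rcases Nat.even_or_odd' k with ⟨i, hi | hi⟩
      · rw [hi, hye, hyo]
        exact hw2 i
      · rw [hi, hyo, show 2 * i + 1 + 1 = 2 * (i + 1) by ring, hye]
        exact hw1 (i + 1)
    have hymem : ∀ k, y k ∈ Icc a b := by
      intro k
      rcases Nat.even_or_odd' k with ⟨i, hi | hi⟩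
      · rw [hi, hye]
        exact ⟨(hx i).1.trans (hw1 i), (hw2 i).trans (hx (i + 1)).2⟩
      · rw [hi, hyo]
        exact hx (i + 1)
    have h1 := hg (2 * n) y hym hymem
    refine le_trans ?_ h1
    have h2 : ∀ m : ℕ, ∑ i ∈ Finset.range m, max (g (w i) - g (x (i + 1))) 0 ≤
        ∑ i ∈ Finset.range (2 * m), max (g (y i) - g (y (i + 1))) 0 := by
      intro m
      induction m with
      | zero => simp
      | succ m ih =>
        rw [Finset.sum_range_succ, show 2 * (m + 1) = 2 * m + 1 + 1 by ring,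
          Finset.sum_range_succ, Finset.sum_range_succ, hye, hyo]
        have h3 := le_max_right (g (x (m + 1)) - g (y (2 * m + 1 + 1))) 0
        linarith [ih]
    exact h2 n
  -- sum of the integrals
  have hIsum : ∀ m : ℕ, ∑ i ∈ Finset.range m, ∫ t in (x i)..(w i), F1 h G t ≤
      ∫ t in a..(x m), F1 h G t := by
    intro m
    induction m with
    | zero =>
      simp only [Finset.range_zero, Finset.sum_empty]
      exact intervalIntegral.integral_nonneg (hx 0).1 fun t _ => F1_nonneg h G t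
    | succ m ih =>
      rw [Finset.sum_range_succ]
      have h1 : ∫ t in a..(x (m + 1)), F1 h G t = (∫ t in a..(x m), F1 h G t) +
          ∫ t in (x m)..(x (m + 1)), F1 h G t :=
        (intervalIntegral.integral_add_adjacent_intervals (F1_ii hh hGm _ _)
          (F1_ii hh hGm _ _)).symm
      have h2 : ∫ t in (x m)..(w m), F1 h G t ≤ ∫ t in (x m)..(x (m + 1)), F1 h G t := by
        apply intervalIntegral.integral_mono_interval le_rfl (hw1 m) (hw2 m)
        · filter_upwards with t using F1_nonneg h G t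
        · exact F1_ii hh hGm _ _
      linarith
  have hIb : ∫ t in a..(x n), F1 h G t ≤ ∫ t in a..b, F1 h G t := by
    apply intervalIntegral.integral_mono_interval le_rfl (hx n).1 (hx n).2
    · filter_upwards with t using F1_nonneg h G t
    · exact F1_ii hh hGm _ _
  have hεs : ∑ i ∈ Finset.range n, ε / ((n : ℝ) + 1) ≤ ε := by
    rw [Finset.sum_const, Finset.card_range, nsmul_eq_mul, mul_div_assoc', div_le_iff₀ (by positivity)]
    nlinarith
  calc ∑ i ∈ Finset.range n, max (G (x i) - G (x (i + 1))) 0 ≤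
      ∑ i ∈ Finset.range n, ((∫ t in (x i)..(w i), F1 h G t) + ε / (n + 1) +
        max (g (w i) - g (x (i + 1))) 0) := Finset.sum_le_sum fun i _ => hw3 i
    _ = (∑ i ∈ Finset.range n, ∫ t in (x i)..(w i), F1 h G t) +
        (∑ i ∈ Finset.range n, ε / ((n : ℝ) + 1)) +
        ∑ i ∈ Finset.range n, max (g (w i) - g (x (i + 1))) 0 := by
        rw [Finset.sum_add_distrib, Finset.sum_add_distrib]
    _ ≤ φ + (∫ t in a..b, F1 h G t) + ε := by linarith [hIsum n]

/-- the set of falls up to `x` -/
def FS (G : ℝ → ℝ) (a b x : ℝ) : Set ℝ :=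
  {v | ∃ (n : ℕ) (s : ℕ → ℝ), Monotone s ∧ (∀ i, s i ∈ Icc a b) ∧ (∀ i, s i ≤ max a x) ∧
    v = ∑ i ∈ Finset.range n, max (G (s i) - G (s (i + 1))) 0}

theorem FS_zero (G : ℝ → ℝ) {a b : ℝ} (hab : a ≤ b) (x : ℝ) : 0 ∈ FS G a b x :=
  ⟨0, fun _ => a, monotone_const, fun _ => ⟨le_rfl, hab⟩, fun _ => le_max_left _ _, by simp⟩

theorem FS_le {G : ℝ → ℝ} {a b c : ℝ} (hG : FallsLE G (Icc a b) c) (x : ℝ) {v : ℝ}
    (hv : v ∈ FS G a b x) : v ≤ c := by
  obtain ⟨n, s, hs, hm, _, rfl⟩ := hv
  exact hG n s hs hm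

noncomputable def NN (G : ℝ → ℝ) (a b x : ℝ) : ℝ := sSup (FS G a b x)

theorem NN_mono {G : ℝ → ℝ} {a b c : ℝ} (hab : a ≤ b) (hG : FallsLE G (Icc a b) c) :
    Monotone (NN G a b) := by
  intro x y hxy
  apply csSup_le_csSup ⟨c, fun v hv => FS_le hG y hv⟩ ⟨0, FS_zero G hab x⟩
  rintro v ⟨n, s, hs, hm, hx, rfl⟩
  exact ⟨n, s, hs, hm, fun i => (hx i).trans (max_le_max_left _ hxy), rfl⟩

theorem NN_nonneg {G : ℝ → ℝ} {a b c : ℝ} (hab : a ≤ b) (hG : FallsLE G (Icc a b) c) (x : ℝ) :
    0 ≤ NN G a b x :=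
  le_csSup ⟨c, fun v hv => FS_le hG x hv⟩ (FS_zero G hab x)

theorem NN_le {G : ℝ → ℝ} {a b c : ℝ} (hab : a ≤ b) (hG : FallsLE G (Icc a b) c) (x : ℝ) :
    NN G a b x ≤ c :=
  csSup_le ⟨0, FS_zero G hab x⟩ fun v hv => FS_le hG x hv

theorem NN_step {G : ℝ → ℝ} {a b c : ℝ} (hab : a ≤ b) (hG : FallsLE G (Icc a b) c) {x y : ℝ}
    (hx : x ∈ Icc a b) (hy : y ∈ Icc a b) (hxy : x ≤ y) :
    NN G a b x + (G x - G y) ≤ NN G a b y := by
  have h1 : NN G a b x ≤ NN G a b y - (G x - G y) := by
    apply csSup_le ⟨0, FS_zero G hab x⟩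
    rintro v ⟨n, s, hs, hm, hsx, rfl⟩
    have hmx : max a x = x := max_eq_right hx.1
    rw [hmx] at hsx
    let s' : ℕ → ℝ := fun i => if i ≤ n then s i else if i = n + 1 then x else y
    have hs'1 : ∀ i, i ≤ n → s' i = s i := fun i hi => by simp only [s']; rw [if_pos hi]
    have hs'2 : s' (n + 1) = x := by
      simp only [s']; rw [if_neg (by omega)]; simp
    have hs'3 : ∀ i, n + 1 < i → s' i = y := fun i hi => by
      simp only [s']; rw [if_neg (by omega), if_neg (by omega)]
    have hmono : Monotone s' := by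
      apply monotone_nat_of_le_succ
      intro i
      rcases lt_trichotomy i n with h | h | h
      · rw [hs'1 i h.le, hs'1 (i + 1) h]
        exact hs (Nat.le_succ i)
      · rw [h, hs'1 n le_rfl, hs'2]
        exact hsx n
      · rcases Nat.lt_or_ge (n + 1) i with h2 | h2
        · rw [hs'3 i h2, hs'3 (i + 1) (by omega)]
        · have : i = n + 1 := by omega
          rw [this, hs'2, hs'3 (n + 1 + 1) (by omega)]
          exact hxy
    have hmem : ∀ i, s' i ∈ Icc a b := by
      intro i
      rcases Nat.lt_or_ge n i with h | h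
      · rcases Nat.lt_or_ge (n + 1) i with h2 | h2
        · rw [hs'3 i h2]; exact hy
        · have : i = n + 1 := by omega
          rw [this, hs'2]; exact hx
      · rw [hs'1 i h]; exact hm i
    have hle : ∀ i, s' i ≤ max a y := by
      intro i
      have h2 : ∀ j, s' j ≤ y := by
        intro j
        rcases Nat.lt_or_ge n j with h | h
        · rcases Nat.lt_or_ge (n + 1) j with h2 | h2
          · rw [hs'3 j h2]
          · have : j = n + 1 := by omega
            rw [this, hs'2]; exact hxy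
        · rw [hs'1 j h]; exact (hsx j).trans hxy
      exact (h2 i).trans (le_max_right _ _)
    have hin : ∑ i ∈ Finset.range (n + 2), max (G (s' i) - G (s' (i + 1))) 0 ∈ FS G a b y :=
      ⟨n + 2, s', hmono, hmem, hle, rfl⟩
    have h3 := le_csSup (⟨c, fun v hv => FS_le hG y hv⟩ : BddAbove (FS G a b y)) hin
    rw [Finset.sum_range_succ, Finset.sum_range_succ, hs'2, hs'3 (n + 1 + 1) (by omega)] at h3
    have h4 : ∑ i ∈ Finset.range n, max (G (s' i) - G (s' (i + 1))) 0 =
        ∑ i ∈ Finset.range n, max (G (s i) - G (s (i + 1))) 0 := by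
      apply Finset.sum_congr rfl
      intro i hi
      rw [Finset.mem_range] at hi
      rw [hs'1 i hi.le, hs'1 (i + 1) hi]
    rw [h4] at h3
    have h5 := le_max_right (G (s' n) - G x) 0
    have h6 := le_max_left (G x - G y) 0
    have h7 : sSup (FS G a b y) = NN G a b y := rfl
    linarith
  linarith

/-- on the coincidence set the derivative of `h` is that of `G` -/
theorem S1c (a b : ℝ) (hab : a ≤ b) (h G : ℝ → ℝ) (L : NNReal) (hh : LipschitzWith L h)
    (hGm : Measurable G) (c : ℝ) (hG : FallsLE G (Icc a b) c)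
    (hGb : ∃ B, ∀ x ∈ Icc a b, |G x| ≤ B) :
    ∫ x in Icc a b ∩ {x | G x = h x}, max (-(deriv h x)) 0 ≤ c := by
  set N := NN G a b with hN
  have hNm : Monotone N := NN_mono hab hG
  set E : Set ℝ := Icc a b ∩ {x | G x = h x} with hE
  have hEm : MeasurableSet E := measurableSet_Icc.inter (meas_E hh hGm)
  have hiso : ∀ᵐ x : ℝ, ¬ (x ∈ E ∧ 𝓝[E ∩ Ioi x] x = ⊥) := by
    have h1 := (countable_setOfPred_isolated_right_within (s := E)).ae_notMem volume
    filter_upwards [h1] with x hx hx2
    exact hx hx2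
  have hNd : ∀ᵐ x : ℝ, DifferentiableAt ℝ N x := hNm.ae_differentiableAt
  have hhd : ∀ᵐ x : ℝ, DifferentiableAt ℝ h x := by
    exact hh.ae_differentiableAt
  have hNn : ∀ x, 0 ≤ deriv N x := fun x => hNm.deriv_nonneg
  have hpt : ∀ᵐ x : ℝ, x ∈ E → max (-(deriv h x)) 0 ≤ deriv N x := by
    filter_upwards [hiso, hNd, hhd] with x h1 h2 h3 hxE
    apply max_le _ (hNn x)
    have h4 : (𝓝[E ∩ Ioi x] x).NeBot := ⟨fun h => h1 ⟨hxE, h⟩⟩
    have h5 : HasDerivWithinAt (fun y => h y + N y) (deriv h x + deriv N x) (E ∩ Ioi x) x :=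
      (h3.hasDerivAt.add h2.hasDerivAt).hasDerivWithinAt
    rw [hasDerivWithinAt_iff_tendsto_slope] at h5
    have h6 : (E ∩ Ioi x) \ {x} = E ∩ Ioi x := by
      apply diff_singleton_eq_self
      intro hx
      exact lt_irrefl x hx.2
    rw [h6] at h5
    have h7 : 0 ≤ deriv h x + deriv N x := by
      apply ge_of_tendsto h5
      filter_upwards [self_mem_nhdsWithin] with y hy
      rw [slope_def_field]
      apply div_nonneg
      · have h8 := NN_step hab hG hxE.1 hy.1.1 (le_of_lt hy.2)
        have h9 : G x = h x := hxE.2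
        have h10 : G y = h y := hy.1.2
        rw [h9, h10] at h8
        have h11 : NN G a b x = N x := rfl
        have h12 : NN G a b y = N y := rfl
        rw [h11, h12] at h8
        show 0 ≤ h y + N y - (h x + N x)
        linarith
      · have : x < y := hy.2
        linarith
    linarith
  have hii : IntervalIntegrable (deriv N) volume a b :=
    (hNm.monotoneOn _).intervalIntegrable_deriv
  have hIcc : IntegrableOn (deriv N) (Icc a b) volume :=
    (intervalIntegrable_iff_integrableOn_Icc_of_le hab).1 hii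
  have hint := (hNm.monotoneOn (uIcc a b)).intervalIntegral_deriv_mem_uIcc
  have hNab : N a ≤ N b := hNm hab
  rw [uIcc_of_le (sub_nonneg.2 hNab)] at hint
  have hfin : ∫ x in a..b, deriv N x ≤ c := by
    have h1 := NN_nonneg hab hG a
    have h2 := NN_le hab hG b
    have h11 : NN G a b a = N a := rfl
    have h12 : NN G a b b = N b := rfl
    rw [h11] at h1
    rw [h12] at h2
    linarith [hint.2]
  calc ∫ x in E, max (-(deriv h x)) 0 ≤ ∫ x in E, deriv N x := by
        apply setIntegral_mono_on_ae _ (hIcc.mono_set inter_subset_left) hEm hpt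
        have h1 : IntegrableOn (fun x => max (-(deriv h x)) 0) (Icc a b) volume :=
          (intervalIntegrable_iff_integrableOn_Icc_of_le hab).1 (bdd_ii (meas_max h) L (fun x => by
            rw [abs_of_nonneg (le_max_right _ _)]; exact max_bd hh x) a b)
        exact h1.mono_set inter_subset_left
    _ ≤ ∫ x in Icc a b, deriv N x := by
        apply setIntegral_mono_set hIcc
        · filter_upwards with x using hNn x
        · exact (inter_subset_left).eventuallyLE
    _ = ∫ x in a..b, deriv N x := by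
        rw [intervalIntegral.integral_of_le hab, integral_Icc_eq_integral_Ioc]
    _ ≤ c := hfin

/-- upper semicontinuity of the falls for maxima -/
theorem S1 (a b : ℝ) (hab : a ≤ b) (φ c : ℝ) (g h G : ℕ → ℝ → ℝ) (h0 G0 : ℝ → ℝ) (L : NNReal)
    (hg : ∀ᶠ j in atTop, FallsLE (g j) (Icc a b) φ) (hh : ∀ j, LipschitzWith L (h j))
    (hh0 : LipschitzWith L h0)
    (hconv : ∀ᵐ x, Tendsto (fun j => deriv (h j) x) atTop (𝓝 (deriv h0 x)))
    (hGm : ∀ j, Measurable (G j)) (hG0m : Measurable G0)
    (hG : ∀ j, ∀ x ∈ Icc a b, G j x = max (g j x) (h j x))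
    (hGlim : ∀ x ∈ Icc a b, Tendsto (fun j => G j x) atTop (𝓝 (G0 x)))
    (hhlim : ∀ x ∈ Icc a b, Tendsto (fun j => h j x) atTop (𝓝 (h0 x)))
    (hG0 : FallsLE G0 (Icc a b) c) (hG0b : ∃ B, ∀ x ∈ Icc a b, |G0 x| ≤ B) :
    ∀ ε > 0, ∀ᶠ j in atTop, FallsLE (G j) (Icc a b) (c + φ + ε) := by
  intro ε hε
  set E0 : Set ℝ := {x | G0 x = h0 x} with hE0
  have hE0m : MeasurableSet E0 := meas_E hh0 hG0m
  let ψ : ℕ → ℝ → ℝ := fun j =>
    Set.indicator (E0 ∪ {x | G j x = h j x}) fun x => max (-(deriv (h j) x)) 0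
  have hψm : ∀ j, Measurable (ψ j) := fun j =>
    (meas_max (h j)).indicator (hE0m.union (meas_E (hh j) (hGm j)))
  have hψn : ∀ j x, 0 ≤ ψ j x := fun j x =>
    Set.indicator_nonneg (fun x _ => le_max_right _ _) x
  have hψL : ∀ j x, ψ j x ≤ L := by
    intro j x
    simp only [ψ]
    rw [Set.indicator_apply]
    split_ifs
    · exact max_bd (hh j) x
    · exact L.2
  have hlim : Tendsto (fun j => ∫ x in Icc a b, ψ j x) atTop
      (𝓝 (∫ x in Icc a b, E0.indicator (fun x => max (-(deriv h0 x)) 0) x)) := by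
    apply tendsto_integral_of_dominated_convergence (fun _ => (L : ℝ))
    · exact fun j => (hψm j).aestronglyMeasurable
    · exact integrable_const _
    · intro j
      filter_upwards with x
      rw [Real.norm_eq_abs, abs_of_nonneg (hψn j x)]
      exact hψL j x
    · rw [ae_restrict_iff' measurableSet_Icc]
      filter_upwards [hconv] with x hx hxI
      by_cases hxE : x ∈ E0
      · rw [Set.indicator_of_mem hxE]
        have h1 : ∀ j, ψ j x = max (-(deriv (h j) x)) 0 := fun j =>
          Set.indicator_of_mem (show x ∈ E0 ∪ {x | G j x = h j x} from Or.inl hxE) _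
        simp only [h1]
        exact (hx.neg).max tendsto_const_nhds
      · rw [Set.indicator_of_notMem hxE]
        apply tendsto_const_nhds.congr'
        have h2 : Tendsto (fun j => G j x - h j x) atTop (𝓝 (G0 x - h0 x)) :=
          (hGlim x hxI).sub (hhlim x hxI)
        have h3 : G0 x - h0 x ≠ 0 := fun h => hxE (sub_eq_zero.1 h)
        filter_upwards [h2.eventually_ne h3] with j hj
        symm
        apply Set.indicator_of_notMem
        rintro (h4 | h4)
        · exact hxE h4
        · exact hj (sub_eq_zero.2 h4)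
  have hlimval : ∫ x in Icc a b, E0.indicator (fun x => max (-(deriv h0 x)) 0) x ≤ c := by
    rw [setIntegral_indicator hE0m]
    exact S1c a b hab h0 G0 L hh0 hG0m c hG0 hG0b
  have hev : ∀ᶠ j in atTop, ∫ x in Icc a b, ψ j x < c + ε := by
    apply hlim.eventually_lt_const
    linarith
  filter_upwards [hg, hev] with j hgj hej
  have h1 := S1a a b hab φ (g j) (h j) (G j) L hgj (hh j) (hGm j) (hG j)
  have h2 : ∫ x in Icc a b ∩ {x | G j x = h j x}, max (-(deriv (h j) x)) 0 ≤
      ∫ x in Icc a b, ψ j x := by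
    rw [← setIntegral_indicator (meas_E (hh j) (hGm j))]
    have hfi : ∀ F : ℝ → ℝ, Measurable F → (∀ x, |F x| ≤ L) → IntegrableOn F (Icc a b) volume :=
      fun F hF hB => (intervalIntegrable_iff_integrableOn_Icc_of_le hab).1 (bdd_ii hF L hB a b)
    apply setIntegral_mono_on
    · apply hfi _ ((meas_max (h j)).indicator (meas_E (hh j) (hGm j)))
      intro x
      have := F1_nonneg (h j) (G j) x
      have h3 := F1_le (G := G j) (hh j) x
      unfold F1 at this h3
      rw [abs_of_nonneg this]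
      exact h3
    · apply hfi _ (hψm j)
      intro x
      rw [abs_of_nonneg (hψn j x)]
      exact hψL j x
    · exact measurableSet_Icc
    · intro x _
      apply Set.indicator_le_indicator_of_subset subset_union_right
      intro x
      exact le_max_right _ _
  intro n x hx hxm
  refine (h1 n x hx hxm).trans ?_
  linarith

end Pool.Agent.BV653
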