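import Pool.Agent.BV653.Defs
import Pool.Agent.BV653.A1
import Pool.Agent.BV653.A2
import Pool.Agent.BV653.H5
import Pool.Agent.BV653.K11
import Pool.Agent.BV653.S1
import Pool.Agent.BV653.V1
import Pool.Agent.BV653.V2
set_option autoImplicit false
open MeasureTheory Set Filter Topology
namespace Pool.Agent.BV653
theorem S2_two {f : ℝ → ℝ} {s : Set ℝ} {V : ℝ} (h : FallsLE f s V) {x y : ℝ} (hx : x ∈ s)
    (hy : y ∈ s) (hxy : x ≤ y) : f x - f y ≤ V := by
  have h1 := h 1 (fun i => if i = 0 then x else y) (by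
    intro i j hij
    by_cases hj : j = 0
    · have : i = 0 := by omega
      simp [hj, this]
    · by_cases hi : i = 0
      · simp [hi, hj, hxy]
      · simp [hi, hj]) (by
    intro i
    by_cases hi : i = 0
    · simp [hi, hx]
    · simp [hi, hy])
  simp at h1
  linarith [h1.1]

theorem S2_nonneg {f : ℝ → ℝ} {s : Set ℝ} {V : ℝ} (h : FallsLE f s V) {x : ℝ} (hx : x ∈ s) :
    0 ≤ V := by
  have h1 := h 0 (fun _ => x) (fun _ _ _ => le_rfl) (fun _ => hx)
  simpa using h1

theorem S2_avg {f : ℝ → ℝ} (hf : ∀ a b, IntervalIntegrable f volume a b) {V : ℝ}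
    (h : FallsLE f univ V) {x y r : ℝ} (hr : 0 < r) (hxy : x ≤ y) :
    A f x r - A f y r ≤ V := by
  unfold A
  have h1 : ∫ t in (y - r)..(y + r), f t = ∫ t in (x - r)..(x + r), f (t + (y - x)) := by
    rw [intervalIntegral.integral_comp_add_right]
    congr 1 <;> ring
  have hi2 : IntervalIntegrable (fun t => f (t + (y - x))) volume (x - r) (x + r) := by
    have := (hf (x - r + (y - x)) (x + r + (y - x))).comp_add_right (y - x)
    simpa using this
  have h2 : (∫ t in (x - r)..(x + r), f t) - ∫ t in (x - r)..(x + r), f (t + (y - x))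
      ≤ ∫ t in (x - r)..(x + r), V := by
    rw [← intervalIntegral.integral_sub (hf _ _) hi2]
    apply intervalIntegral.integral_mono_on (by linarith) ((hf _ _).sub hi2)
      intervalIntegrable_const
    intro t _
    exact S2_two h (mem_univ _) (mem_univ _) (by linarith)
  rw [intervalIntegral.integral_const] at h2
  rw [h1, ← mul_sub]
  have h3 : (x + r - (x - r)) • V = 2 * r * V := by rw [smul_eq_mul]; ring
  rw [h3] at h2
  have hr2 : 0 < (2 * r)⁻¹ := by positivity
  calc (2 * r)⁻¹ * _ ≤ (2 * r)⁻¹ * (2 * r * V) := by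
        exact mul_le_mul_of_nonneg_left h2 hr2.le
    _ = V := by field_simp

theorem S2_one (v : ℝ → ℝ) (hv : BoundedVariationOn v univ) (σ a b δ e' : ℝ) (hab : a ≤ b)
    (hδ : 0 < δ) (hfall : FallsLE (fun x => v x - σ * x) (Icc (a - δ) (b + δ)) e') :
    FallsLE (fun x => MM δ v x - σ * x) (Icc a b) (954 * e') := by
  obtain ⟨hvm, ⟨C, hC⟩, hvi, -⟩ := bv_basic v hv
  obtain ⟨hM1, hM2, -⟩ := MM_basic v hvi C hC δ hδ
  have hab' : a - δ ≤ b + δ := by linarith
  set f : ℝ → ℝ := fun x => v (max (a - δ) (min (b + δ) x)) - σ * (max (a - δ) (min (b + δ) x))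
    with hf
  have hfalls : FallsLE f univ e' := falls_clamp hab' hfall
  have he' : 0 ≤ e' := S2_nonneg hfalls (mem_univ 0)
  have hfm : Measurable f := by
    have h1 : Measurable fun x : ℝ => max (a - δ) (min (b + δ) x) := by fun_prop
    exact (hvm.comp h1).sub (h1.const_mul σ)
  have hfb : ∃ B, ∀ x, |f x| ≤ B := by
    refine ⟨C + |σ| * (|a - δ| + |b + δ|), fun x => ?_⟩
    simp only [hf]
    have h1 : |max (a - δ) (min (b + δ) x)| ≤ |a - δ| + |b + δ| := by
      have h2 : a - δ ≤ max (a - δ) (min (b + δ) x) := le_max_left _ _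
      have h3 : max (a - δ) (min (b + δ) x) ≤ b + δ := max_le hab' (min_le_left _ _)
      rw [abs_le]
      constructor
      · linarith [neg_abs_le (a - δ), abs_nonneg (b + δ)]
      · linarith [le_abs_self (b + δ), abs_nonneg (a - δ)]
    calc |v (max (a - δ) (min (b + δ) x)) - σ * (max (a - δ) (min (b + δ) x))|
        ≤ |v (max (a - δ) (min (b + δ) x))| + |σ * (max (a - δ) (min (b + δ) x))| := abs_sub _ _
      _ ≤ C + |σ| * (|a - δ| + |b + δ|) := by
          rw [abs_mul]
          exact add_le_add (hC _) (mul_le_mul_of_nonneg_left h1 (abs_nonneg _))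
  have hfi : ∀ p q, IntervalIntegrable f volume p q := by
    intro p q
    obtain ⟨B, hB⟩ := hfb
    rw [intervalIntegrable_iff]
    refine Measure.integrableOn_of_bounded (M := B) ?_ hfm.aestronglyMeasurable ?_
    · exact measure_Ioc_lt_top.ne
    · exact Filter.Eventually.of_forall (fun x => by rw [Real.norm_eq_abs]; exact hB x)
  let W : Set (ℝ × ℝ) := {p | a - δ ≤ p.1 - p.2 ∧ p.1 + p.2 ≤ b + δ ∧ p.2 < δ}
  have hW : Hereditary W := by
    intro x r x' r' hx hr' h1 h2
    obtain ⟨h3, h4, h5⟩ := hx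
    simp only at h3 h4 h5
    refine ⟨?_, ?_, ?_⟩ <;> simp only <;> linarith
  have hA : ∀ x r, 0 < r → (x, r) ∈ W → A f x r = A v x r - σ * x := by
    intro x r hr hx
    obtain ⟨h3, h4, h5⟩ := hx
    simp only at h3 h4 h5
    rw [← A_tilt v hvi σ x r hr]
    apply A_congr _ _ _ _ hr
    intro y hy1 hy2
    simp only [hf]
    have e1 : min (b + δ) y = y := min_eq_right (by linarith)
    have e2 : max (a - δ) y = y := max_eq_right (by linarith)
    rw [e1, e2]
  have hG1 : ∀ x ∈ Icc a b, ∀ r > 0, (x, r) ∈ W → A f x r ≤ MM δ v x - σ * x := by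
    intro x _ r hr hxr
    rw [hA x r hr hxr]
    have := hM1 x r hr hxr.2.2
    linarith
  have hG2 : ∀ x ∈ Icc a b, ∀ η > 0, ∃ r > 0, (x, r) ∈ W ∧ (MM δ v x - σ * x) - η ≤ A f x r ∧
      r < δ := by
    intro x hx η hη
    obtain ⟨r, hr, hrδ, h1⟩ := hM2 x η hη
    have hxr : (x, r) ∈ W := ⟨by simp only; linarith [hx.1], by simp only; linarith [hx.2], hrδ⟩
    refine ⟨r, hr, hxr, ?_, hrδ⟩
    rw [hA x r hr hxr]
    linarith
  have hB : ∀ x ∈ Icc a b, ∀ y ∈ Icc a b, x ≤ y →
      (MM δ v x - σ * x) - (MM δ v y - σ * y) ≤ e' := by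
    intro x hx y hy hxy
    apply le_of_forall_pos_le_add
    intro η hη
    obtain ⟨r, hr, hxr, h1, hrδ⟩ := hG2 x hx η hη
    have hyr : (y, r) ∈ W := ⟨by simp only; linarith [hy.1], by simp only; linarith [hy.2], hrδ⟩
    have h2 := hG1 y hy r hr hyr
    have h3 := S2_avg hfi hfalls hr hxy
    linarith
  have hK := thmK f hfi hfb e' hfalls W hW (fun x => MM δ v x - σ * x) (Icc a b) hG1
    (fun x hx η hη => by
      obtain ⟨r, hr, hxr, h1, -⟩ := hG2 x hx η hη
      exact ⟨r, hr, hxr, h1⟩) e' he' hB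
  have e1 : 953 * e' + e' = 954 * e' := by ring
  rwa [e1] at hK

/-- one piece on which the tilted function is nearly increasing -/
theorem S_piece (u : ℝ → ℝ) (hu : BoundedVariationOn u univ) (U : ℕ → ℝ → ℝ)
    (hU : ∀ j, BoundedVariationOn (U j) univ) (c : ℕ → ℝ) (hc : Tendsto c atTop (𝓝 0))
    (hUc : ∀ j x, |U j x - u x| ≤ c j)
    (hvar : ∀ j, eVariationOn (fun x => U j x - u x) univ ≤ ENNReal.ofReal (c j))
    (σ a b δ e : ℝ) (hab : a ≤ b) (hδ : 0 < δ)
    (hfall : FallsLE (fun x => u x - σ * x) (Icc (a - δ) (b + δ)) e) (C₀ : ℝ)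
    (hF : FallsLE (fun x => M u x - σ * x) (Icc a b) C₀) :
    ∀ ε > 0, ∀ᶠ j in atTop,
      FallsLE (fun x => M (U j) x - σ * x) (Icc a b) (C₀ + 954 * e + ε) := by
  intro ε hε
  obtain ⟨hum, ⟨Cu, hCu⟩, hui, -⟩ := bv_basic u hu
  obtain ⟨Cc, hCc⟩ := hc.bddAbove_range
  have hcj : ∀ j, c j ≤ Cc := fun j => hCc ⟨j, rfl⟩
  have hc0 : ∀ j, 0 ≤ c j := fun j => (abs_nonneg _).trans (hUc j 0)
  set C : ℝ := Cu + Cc with hCdef
  have hCu' : ∀ x, |u x| ≤ C := fun x => by
    have := hCu x; have := hcj 0; have := hc0 0; linarith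
  have hCU : ∀ j x, |U j x| ≤ C := by
    intro j x
    have h1 : U j x = u x + (U j x - u x) := by ring
    have h2 := abs_add_le (u x) (U j x - u x)
    rw [← h1] at h2
    have := hCu x; have := hUc j x; have := hcj j
    linarith
  have hC0 : 0 ≤ C := (abs_nonneg _).trans (hCu' 0)
  have hUi : ∀ j, ∀ a b, IntervalIntegrable (U j) volume a b := fun j => (bv_basic (U j) (hU j)).2.2.1
  have hHu := HH_basic u hui C hCu' δ hδ
  have hHU := fun j => HH_basic (U j) (hUi j) C (hCU j) δ hδ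
  have hLip : ∀ (H : ℝ → ℝ), (∀ x y, |H x - H y| ≤ C / δ * |x - y|) →
      LipschitzWith (Real.toNNReal (C / δ + |σ|)) (fun x => H x - σ * x) := by
    intro H hH
    apply LipschitzWith.of_dist_le_mul
    intro x y
    rw [Real.dist_eq, Real.dist_eq, Real.coe_toNNReal _ (by positivity)]
    have h1 : H x - σ * x - (H y - σ * y) = (H x - H y) - σ * (x - y) := by ring
    rw [h1]
    calc |(H x - H y) - σ * (x - y)| ≤ |H x - H y| + |σ * (x - y)| := abs_sub _ _
      _ ≤ C / δ * |x - y| + |σ| * |x - y| := by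
          rw [abs_mul]; linarith [hH x y]
      _ = (C / δ + |σ|) * |x - y| := by ring
  have hLip0 : ∀ (H : ℝ → ℝ), (∀ x y, |H x - H y| ≤ C / δ * |x - y|) →
      LipschitzWith (Real.toNNReal (C / δ)) H := by
    intro H hH
    apply LipschitzWith.of_dist_le_mul
    intro x y
    rw [Real.dist_eq, Real.dist_eq, Real.coe_toNNReal _ (by positivity)]
    exact hH x y
  have hdiff : ∀ (H : ℝ → ℝ), (∀ x y, |H x - H y| ≤ C / δ * |x - y|) →
      ∀ᵐ x, deriv (fun x => H x - σ * x) x = deriv H x - σ := by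
    intro H hH
    filter_upwards [(hLip0 H hH).ae_differentiableAt_real] with x hx
    rw [deriv_fun_sub hx (by fun_prop)]
    congr 1
    simp
  have hD0 := hdiff _ hHu.2.2.2
  have hDj : ∀ᵐ x, ∀ j, deriv (fun x => HH δ (U j) x - σ * x) x = deriv (HH δ (U j)) x - σ := by
    rw [ae_all_iff]
    exact fun j => hdiff _ (hHU j).2.2.2
  have hconv : ∀ᵐ x, Tendsto (fun j => deriv (fun x => HH δ (U j) x - σ * x) x) atTop
      (𝓝 (deriv (fun x => HH δ u x - σ * x) x)) := by
    filter_upwards [HH_deriv_conv u hu U hU c hc hUc δ hδ, hD0, hDj] with x h1 h2 h3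
    simp only [h2, h3]
    exact h1.sub_const σ
  have hMlim : ∀ x, Tendsto (fun j => M (U j) x) atTop (𝓝 (M u x)) := by
    intro x
    rw [tendsto_iff_norm_sub_tendsto_zero]
    refine squeeze_zero (fun j => norm_nonneg _) (fun j => ?_) hc
    rw [Real.norm_eq_abs]
    exact (M_sub_le (U j) u (hUi j) hui C (hCU j) hCu' (c j) (hUc j) x).1
  have hHlim : ∀ x, Tendsto (fun j => HH δ (U j) x) atTop (𝓝 (HH δ u x)) := by
    intro x
    rw [tendsto_iff_norm_sub_tendsto_zero]
    refine squeeze_zero (fun j => norm_nonneg _) (fun j => ?_) hc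
    rw [Real.norm_eq_abs]
    exact (M_sub_le (U j) u (hUi j) hui C (hCU j) hCu' (c j) (hUc j) x).2 δ hδ
  have hgj : ∀ j, FallsLE (fun x => MM δ (U j) x - σ * x) (Icc a b) (954 * (e + c j)) := by
    intro j
    apply S2_one (U j) (hU j) σ a b δ (e + c j) hab hδ
    have h1 : FallsLE (fun x => U j x - u x) (Icc (a - δ) (b + δ)) (c j) :=
      (falls_of_evar (hc0 j) (hvar j)).1.mono (subset_univ _) le_rfl
    have h2 := hfall.add h1
    have e1 : (fun x => u x - σ * x + (U j x - u x)) = fun x => U j x - σ * x := by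
      funext x; ring
    rwa [e1] at h2
  have hg : ∀ᶠ j in atTop, FallsLE (fun x => MM δ (U j) x - σ * x) (Icc a b)
      (954 * e + ε / 2) := by
    have h1 : ∀ᶠ j in atTop, c j < ε / (2 * 954) := by
      exact hc.eventually_lt_const (by positivity)
    filter_upwards [h1] with j hj
    apply (hgj j).mono (subset_refl _)
    have : 954 * (ε / (2 * 954)) = ε / 2 := by ring
    linarith
  have hfinal := S1 a b hab (954 * e + ε / 2) C₀ (fun j x => MM δ (U j) x - σ * x)
    (fun j x => HH δ (U j) x - σ * x) (fun j x => M (U j) x - σ * x)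
    (fun x => HH δ u x - σ * x) (fun x => M u x - σ * x) (Real.toNNReal (C / δ + |σ|)) hg
    (fun j => hLip _ (hHU j).2.2.2) (hLip _ hHu.2.2.2) hconv
    (fun j => (M_basic (U j) (hUi j) C (hCU j)).2.2.2.sub (measurable_id.const_mul σ))
    ((M_basic u hui C hCu').2.2.2.sub (measurable_id.const_mul σ))
    (fun j x _ => by
      show M (U j) x - σ * x = max (MM δ (U j) x - σ * x) (HH δ (U j) x - σ * x)
      rw [(MM_basic (U j) (hUi j) C (hCU j) δ hδ).2.2 x, max_sub_sub_right])
    (fun x _ => (hMlim x).sub_const _) (fun x _ => (hHlim x).sub_const _) hF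
    ⟨C + |σ| * (|a| + |b|), fun x hx => by
      have h1 := (M_basic u hui C hCu').2.2.1 x
      have h2 : |x| ≤ |a| + |b| := by
        rw [abs_le]
        constructor
        · linarith [hx.1, neg_abs_le a, abs_nonneg b]
        · linarith [hx.2, le_abs_self b, abs_nonneg a]
      calc |M u x - σ * x| ≤ |M u x| + |σ * x| := abs_sub _ _
        _ ≤ C + |σ| * (|a| + |b|) := by
          rw [abs_mul]
          exact add_le_add h1 (mul_le_mul_of_nonneg_left h2 (abs_nonneg _))⟩
    (ε / 2) (by positivity)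
  filter_upwards [hfinal] with j hj
  apply hj.mono (subset_refl _)
  linarith

end Pool.Agent.BV653
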