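import Pool.Agent.BV653.Defs
import Pool.Agent.BV653.V1
import Pool.Agent.BV653.V2
set_option autoImplicit false
open MeasureTheory Set Filter Topology
namespace Pool.Agent.BV653
theorem gp_small (v : ℝ → ℝ) (hv : ∀ x y, BoundedVariationOn v (Icc x y)) (x : ℝ)
    (hx : ContinuousAt v x) (η : ℝ) (hη : 0 < η) :
    ∀ᶠ δ in 𝓝[>] (0 : ℝ), eVariationOn v (Icc (x - δ) x) ≤ ENNReal.ofReal η ∧
      eVariationOn v (Icc x (x + δ)) ≤ ENNReal.ofReal η := by
  have hs : Icc (x - 1) (x + 1) ∈ 𝓝 x := Icc_mem_nhds (by linarith) (by linarith)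
  have h1 := (hv (x - 1) (x + 1)).tendsto_eVariationOn_Icc_zero_left (x := x)
    hx.continuousWithinAt
  have h2 := (hv (x - 1) (x + 1)).tendsto_eVariationOn_Icc_zero_right x
    hx.continuousWithinAt
  rw [nhdsWithin_eq_nhds.2 hs] at h1 h2
  have hpos : (0 : ENNReal) < ENNReal.ofReal η := ENNReal.ofReal_pos.2 hη
  have h3 := (h1.eventually_lt_const hpos).and (h2.eventually_lt_const hpos)
  obtain ⟨r, hr, h4⟩ := Metric.eventually_nhds_iff.1 h3
  have hr' : 0 < min r 1 := lt_min hr one_pos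
  filter_upwards [Ioo_mem_nhdsGT hr'] with δ hδ
  have hδ0 : 0 < δ := hδ.1
  have hδr : δ < r := lt_of_lt_of_le hδ.2 (min_le_left _ _)
  have hδ1 : δ < 1 := lt_of_lt_of_le hδ.2 (min_le_right _ _)
  constructor
  · have h5 := (h4 (y := x - δ) (by rw [Real.dist_eq]; rw [abs_lt]; constructor <;> linarith)).1
    refine le_of_eq_of_le ?_ h5.le
    congr 1
    ext t
    simp only [mem_Icc, mem_inter_iff]
    constructor
    · rintro ⟨a, b⟩
      exact ⟨⟨by linarith, by linarith⟩, a, b⟩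
    · rintro ⟨_, a, b⟩
      exact ⟨a, b⟩
  · have h5 := (h4 (y := x + δ) (by rw [Real.dist_eq]; rw [abs_lt]; constructor <;> linarith)).2
    refine le_of_eq_of_le ?_ h5.le
    congr 1
    ext t
    simp only [mem_Icc, mem_inter_iff]
    constructor
    · rintro ⟨a, b⟩
      exact ⟨⟨by linarith, by linarith⟩, a, b⟩
    · rintro ⟨_, a, b⟩
      exact ⟨a, b⟩

theorem gp_dense (v : ℝ → ℝ) (a b : ℝ)
    (hvr : ∀ x, ContinuousWithinAt v (Ici x) x)
    (hcount : {x | ¬ ContinuousAt v x}.Countable) (hb : ContinuousAt v b) :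
    eVariationOn v (Icc a b) ≤ eVariationOn v {x | x ∈ Icc a b ∧ ContinuousAt v x} := by
  have hd : Dense ({x | ¬ ContinuousAt v x}ᶜ) := hcount.dense_compl ℝ
  have hex : ∀ k j : ℕ, ∃ z : ℝ, ContinuousAt v z ∧ a + (j : ℝ) / (k + 1) < z ∧
      z < a + ((j : ℝ) + 1) / (k + 1) := by
    intro k j
    have hk : (0 : ℝ) < k + 1 := by positivity
    have hlt : a + (j : ℝ) / (k + 1) < a + ((j : ℝ) + 1) / (k + 1) := by
      have : (j : ℝ) / (k + 1) < ((j : ℝ) + 1) / (k + 1) := by
        apply div_lt_div_of_pos_right _ hk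
        linarith
      linarith
    obtain ⟨z, hz, hz1, hz2⟩ := hd.exists_between hlt
    exact ⟨z, not_not.1 hz, hz1, hz2⟩
  choose d hdc hdl hdu using hex
  have hdm : ∀ k, Monotone (d k) := by
    intro k
    apply monotone_nat_of_le_succ
    intro j
    have h1 := hdu k j
    have h2 := hdl k (j + 1)
    push_cast at h2
    linarith
  obtain ⟨φ, hφ⟩ : ∃ φ : ℕ → ℝ → ℝ, φ = fun k x => min (d k (⌊(x - a) * (k + 1)⌋₊ + 1)) b :=
    ⟨_, rfl⟩
  have hφmono : ∀ k, MonotoneOn (φ k) (Icc a b) := by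
    intro k x _ y _ hxy
    rw [hφ]
    apply min_le_min_right
    apply hdm k
    apply Nat.succ_le_succ
    apply Nat.floor_le_floor
    apply mul_le_mul_of_nonneg_right _ (by positivity)
    linarith
  have hφb : ∀ (k : ℕ) (x : ℝ), x ∈ Icc a b → x ≤ φ k x ∧ φ k x ≤ x + 2 * (1 / ((k : ℝ) + 1)) := by
    intro k x hx
    have hk : (0 : ℝ) < k + 1 := by positivity
    obtain ⟨m, hm⟩ : ∃ m : ℕ, m = ⌊(x - a) * (k + 1)⌋₊ := ⟨_, rfl⟩
    have hm1 : (m : ℝ) ≤ (x - a) * (k + 1) := by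
      rw [hm]
      apply Nat.floor_le
      apply mul_nonneg _ hk.le
      linarith [hx.1]
    have hm2 : (x - a) * (k + 1) < (m : ℝ) + 1 := by
      rw [hm]
      exact Nat.lt_floor_add_one _
    have h1 := hdl k (m + 1)
    have h2 := hdu k (m + 1)
    push_cast at h1 h2
    have h3 : x - a < ((m : ℝ) + 1) / (k + 1) := by
      rw [lt_div_iff₀ hk]
      exact hm2
    have h4 : ((m : ℝ) + 1 + 1) / (k + 1) ≤ (x - a) + 2 * (1 / ((k : ℝ) + 1)) := by
      rw [div_le_iff₀ hk]
      have : ((x - a) + 2 * (1 / ((k : ℝ) + 1))) * (k + 1) = (x - a) * (k + 1) + 2 := by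
        field_simp
      rw [this]
      linarith
    rw [hφ]
    show x ≤ min (d k (⌊(x - a) * (k + 1)⌋₊ + 1)) b ∧ min (d k (⌊(x - a) * (k + 1)⌋₊ + 1)) b ≤ _
    rw [← hm]
    constructor
    · apply le_min _ hx.2
      linarith
    · apply (min_le_left _ _).trans
      linarith
  have hφC : ∀ k, MapsTo (φ k) (Icc a b) {x | x ∈ Icc a b ∧ ContinuousAt v x} := by
    intro k x hx
    refine ⟨⟨hx.1.trans (hφb k x hx).1, ?_⟩, ?_⟩
    · rw [hφ]
      exact min_le_right _ _
    · rw [hφ]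
      show ContinuousAt v (min (d k (⌊(x - a) * (k + 1)⌋₊ + 1)) b)
      rcases min_choice (d k (⌊(x - a) * (k + 1)⌋₊ + 1)) b with h | h
      · rw [h]
        exact hdc _ _
      · rw [h]
        exact hb
  have hlim : ∀ x ∈ Icc a b, Tendsto (fun k => (v ∘ φ k) x) atTop (𝓝 (v x)) := by
    intro x hx
    have h1 : Tendsto (fun k => φ k x) atTop (𝓝 x) := by
      have h0 : Tendsto (fun k : ℕ => x + 2 * (1 / ((k : ℝ) + 1))) atTop (𝓝 (x + 2 * 0)) :=
        (tendsto_one_div_add_atTop_nhds_zero_nat.const_mul 2).const_add x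
      rw [mul_zero, add_zero] at h0
      exact tendsto_of_tendsto_of_tendsto_of_le_of_le tendsto_const_nhds h0
        (fun k => (hφb k x hx).1) (fun k => (hφb k x hx).2)
    have h2 : Tendsto (fun k => φ k x) atTop (𝓝[≥] x) :=
      tendsto_nhdsWithin_iff.2 ⟨h1, Eventually.of_forall fun k => (hφb k x hx).1⟩
    exact (hvr x).tendsto.comp h2
  apply le_of_forall_lt
  intro c hc
  obtain ⟨k, hk⟩ := (eVariationOn.lowerSemicontinuous_aux hlim hc).exists
  exact hk.trans_le (eVariationOn.comp_le_of_monotoneOn v (φ k) (hφmono k) (hφC k))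

theorem gp_sample (v : ℝ → ℝ) (a b : ℝ) (hab : a < b)
    (hv : ∀ x y, BoundedVariationOn v (Icc x y)) (hvr : ∀ x, ContinuousWithinAt v (Ici x) x)
    (hcount : {x | ¬ ContinuousAt v x}.Countable)
    (ha : ContinuousAt v a) (hb : ContinuousAt v b) (ε : ℝ) (hε : 0 < ε) :
    ∃ (n : ℕ) (u : ℕ → ℝ), Monotone u ∧ (∀ i, u i ∈ Icc a b ∧ ContinuousAt v (u i)) ∧
      eVariationOn v (Icc a b) ≤
        ∑ i ∈ Finset.range n, edist (v (u (i + 1))) (v (u i)) + ENNReal.ofReal ε := by
  by_contra hcon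
  push Not at hcon
  have hpos : (0 : ENNReal) < ENNReal.ofReal ε := ENNReal.ofReal_pos.2 hε
  have h1 : eVariationOn v {x | x ∈ Icc a b ∧ ContinuousAt v x} ≤
      eVariationOn v (Icc a b) - ENNReal.ofReal ε := by
    refine iSup_le ?_
    rintro ⟨n, u, hu, ut⟩
    exact ENNReal.le_sub_of_add_le_right ENNReal.ofReal_ne_top (hcon n u hu ut).le
  have h2 := (gp_dense v a b hvr hcount hb).trans h1
  have h3 : eVariationOn v (Icc a b) ≠ 0 := by
    have := hcon 0 (fun _ => a) (fun _ _ _ => le_rfl) (fun _ => ⟨left_mem_Icc.2 hab.le, ha⟩)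
    rw [Finset.sum_range_zero, zero_add] at this
    exact (hpos.trans this).ne'
  exact absurd h2 (not_le.2 (ENNReal.sub_lt_self (hv a b) h3 hpos.ne'))

/-- partition into nearly monotone pieces -/
theorem good_partition (v : ℝ → ℝ) (a b : ℝ) (hab : a < b)
    (hv : ∀ x y, BoundedVariationOn v (Icc x y)) (hvr : ∀ x, ContinuousWithinAt v (Ici x) x)
    (hcount : {x | ¬ ContinuousAt v x}.Countable)
    (ha : ContinuousAt v a) (hb : ContinuousAt v b) (ε : ℝ) (hε : 0 < ε) :
    ∃ (N : ℕ) (y e : ℕ → ℝ) (δ : ℝ), 0 < δ ∧ Monotone y ∧ y 0 = a ∧ y N = b ∧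
      (∑ i ∈ Finset.range N, e i ≤ ε) ∧
      ∀ i < N, FallsLE v (Icc (y i - δ) (y (i + 1) + δ)) (e i) ∨
        RisesLE v (Icc (y i - δ) (y (i + 1) + δ)) (e i) := by
  obtain ⟨n, u, hu, huC, hsum⟩ := gp_sample v a b hab hv hvr hcount ha hb (ε / 2) (by linarith)
  obtain ⟨y, hy⟩ : ∃ y : ℕ → ℝ, y = fun i => if i = 0 then a else if i ≤ n + 1 then u (i - 1) else b :=
    ⟨_, rfl⟩
  have hy0 : y 0 = a := by rw [hy]; simp
  have hy1 : ∀ i, i ≤ n → y (i + 1) = u i := by
    intro i hi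
    rw [hy]
    show (if i + 1 = 0 then a else if i + 1 ≤ n + 1 then u (i + 1 - 1) else b) = u i
    rw [if_neg (Nat.succ_ne_zero i), if_pos (by omega), Nat.add_sub_cancel]
  have hy2 : ∀ i, n + 1 < i → y i = b := by
    intro i hi
    rw [hy]
    show (if i = 0 then a else if i ≤ n + 1 then u (i - 1) else b) = b
    rw [if_neg (by omega), if_neg (by omega)]
  have hymem : ∀ i, y i ∈ Icc a b ∧ ContinuousAt v (y i) := by
    intro i
    by_cases h0 : i = 0
    · rw [h0, hy0]
      exact ⟨left_mem_Icc.2 hab.le, ha⟩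
    · by_cases h1 : i ≤ n + 1
      · obtain ⟨j, rfl⟩ := Nat.exists_eq_succ_of_ne_zero h0
        rw [Nat.succ_eq_add_one, hy1 j (by omega)]
        exact huC j
      · rw [hy2 i (by omega)]
        exact ⟨right_mem_Icc.2 hab.le, hb⟩
  have hymono : Monotone y := by
    apply monotone_nat_of_le_succ
    intro i
    by_cases h0 : i = 0
    · rw [h0, hy0]
      exact (hymem _).1.1
    · by_cases h1 : i ≤ n
      · obtain ⟨j, rfl⟩ := Nat.exists_eq_succ_of_ne_zero h0
        rw [Nat.succ_eq_add_one, hy1 j (by omega), hy1 (j + 1) h1]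
        exact hu (Nat.le_succ j)
      · rw [hy2 (i + 1) (by omega)]
        exact (hymem i).1.2
  obtain ⟨N, hN⟩ : ∃ N : ℕ, N = n + 2 := ⟨_, rfl⟩
  have hyN : y N = b := hy2 N (by omega)
  obtain ⟨Vr, hVr⟩ : ∃ Vr : ℕ → ℝ, Vr = fun i => (eVariationOn v (Icc (y i) (y (i + 1)))).toReal :=
    ⟨_, rfl⟩
  obtain ⟨d, hd⟩ : ∃ d : ℕ → ℝ, d = fun i => |v (y (i + 1)) - v (y i)| := ⟨_, rfl⟩
  have hVsum : ∑ i ∈ Finset.range N, Vr i = (eVariationOn v (Icc a b)).toReal := by
    rw [hVr, ← ENNReal.toReal_sum (fun i _ => hv _ _), eVariationOn.sum' v hymono, hy0, hyN]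
  have hed : ∀ i, edist (v (y (i + 1))) (v (y i)) = ENNReal.ofReal (d i) := by
    intro i
    rw [edist_dist, Real.dist_eq, hd]
  have hdnn : ∀ i, 0 ≤ d i := by
    intro i
    rw [hd]
    exact abs_nonneg _
  have hsum2 : ∑ i ∈ Finset.range n, edist (v (u (i + 1))) (v (u i)) ≤
      ENNReal.ofReal (∑ i ∈ Finset.range N, d i) := by
    rw [ENNReal.ofReal_sum_of_nonneg (fun i _ => hdnn i), hN, Finset.sum_range_succ,
      Finset.sum_range_succ']
    have h1 : ∑ i ∈ Finset.range n, edist (v (u (i + 1))) (v (u i)) =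
        ∑ i ∈ Finset.range n, ENNReal.ofReal (d (i + 1)) := by
      refine Finset.sum_congr rfl fun i hi => ?_
      have hi' := Finset.mem_range.1 hi
      rw [← hed, hy1 i (by omega), hy1 (i + 1) (by omega)]
    rw [h1, add_assoc]
    exact le_self_add
  have hdsum0 : 0 ≤ ∑ i ∈ Finset.range N, d i := Finset.sum_nonneg fun i _ => hdnn i
  have hVd : (eVariationOn v (Icc a b)).toReal ≤ ∑ i ∈ Finset.range N, d i + ε / 2 := by
    apply ENNReal.toReal_le_of_le_ofReal (by linarith)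
    rw [ENNReal.ofReal_add hdsum0 (by linarith)]
    exact hsum.trans (add_le_add_left hsum2 _)
  obtain ⟨η, hη⟩ : ∃ η : ℝ, η = ε / (4 * (N + 1)) := ⟨_, rfl⟩
  have hN1 : (0 : ℝ) < N + 1 := by positivity
  have hηpos : 0 < η := by
    rw [hη]
    positivity
  have hηN : (N : ℝ) * η ≤ ε / 4 := by
    rw [hη]
    have : (N : ℝ) * (ε / (4 * (N + 1))) = (ε / 4) * (N / (N + 1)) := by
      field_simp
    rw [this]
    have h2 : (N : ℝ) / (N + 1) ≤ 1 := by
      rw [div_le_one hN1]
      linarith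
    have h3 : 0 < ε / 4 := by linarith
    nlinarith
  have hev : ∀ᶠ δ in 𝓝[>] (0 : ℝ), ∀ i ∈ Finset.range (N + 1),
      eVariationOn v (Icc (y i - δ) (y i)) ≤ ENNReal.ofReal η ∧
      eVariationOn v (Icc (y i) (y i + δ)) ≤ ENNReal.ofReal η := by
    rw [Filter.eventually_all_finset]
    intro i _
    exact gp_small v hv (y i) (hymem i).2 η hηpos
  obtain ⟨δ, hδ, hδ0⟩ := (hev.and (self_mem_nhdsWithin (s := Ioi (0 : ℝ)))).exists
  have hδpos : 0 < δ := hδ0
  refine ⟨N, y, fun i => (Vr i - d i) / 2 + 2 * η, δ, hδpos, hymono, hy0, hyN, ?_, ?_⟩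
  · rw [Finset.sum_add_distrib, ← Finset.sum_div, Finset.sum_sub_distrib, hVsum,
      Finset.sum_const, Finset.card_range, nsmul_eq_mul]
    nlinarith
  · intro i hi
    have hi1 := (hδ i (Finset.mem_range.2 (by omega))).1
    have hi2 := (hδ (i + 1) (Finset.mem_range.2 (by omega))).2
    have hle : y i ≤ y (i + 1) := hymono (Nat.le_succ i)
    have e1 := eVariationOn.Icc_add_Icc v (s := univ) (a := y i - δ) (b := y i) (c := y (i + 1))
      (by linarith) hle (mem_univ _)
    have e2 := eVariationOn.Icc_add_Icc v (s := univ) (a := y i - δ) (b := y (i + 1))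
      (c := y (i + 1) + δ) (by linarith) (by linarith) (mem_univ _)
    simp only [univ_inter] at e1 e2
    have hVi : eVariationOn v (Icc (y i) (y (i + 1))) = ENNReal.ofReal (Vr i) := by
      rw [hVr]
      exact (ENNReal.ofReal_toReal (hv _ _)).symm
    have hVr0 : 0 ≤ Vr i := by
      rw [hVr]
      exact ENNReal.toReal_nonneg
    have hbig : eVariationOn v (Icc (y i - δ) (y (i + 1) + δ)) ≤
        ENNReal.ofReal (Vr i + 2 * η) := by
      rw [← e2, ← e1, hVi]
      calc eVariationOn v (Icc (y i - δ) (y i)) + ENNReal.ofReal (Vr i) +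
            eVariationOn v (Icc (y (i + 1)) (y (i + 1) + δ))
          ≤ ENNReal.ofReal η + ENNReal.ofReal (Vr i) + ENNReal.ofReal η := by
            gcongr
        _ = ENNReal.ofReal (Vr i + 2 * η) := by
            rw [← ENNReal.ofReal_add hηpos.le hVr0, ← ENNReal.ofReal_add (by linarith) hηpos.le]
            congr 1
            ring
    have hend : ∀ x z : ℝ, x ≤ z → eVariationOn v (Icc x z) ≤ ENNReal.ofReal η →
        |v x - v z| ≤ η := by
      intro x z hxz h
      have h1 := (eVariationOn.edist_le v (left_mem_Icc.2 hxz) (right_mem_Icc.2 hxz)).trans h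
      rw [edist_dist, Real.dist_eq] at h1
      exact (ENNReal.ofReal_le_ofReal_iff hηpos.le).1 h1
    have hA := abs_le.1 (hend _ _ (by linarith) hi1)
    have hB := abs_le.1 (hend _ _ (by linarith) hi2)
    show FallsLE v (Icc (y i - δ) (y (i + 1) + δ)) ((Vr i - d i) / 2 + 2 * η) ∨
      RisesLE v (Icc (y i - δ) (y (i + 1) + δ)) ((Vr i - d i) / 2 + 2 * η)
    rcases le_total (v (y i)) (v (y (i + 1))) with hc | hc
    · left
      have hdi : d i = v (y (i + 1)) - v (y i) := by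
        rw [hd]
        exact abs_of_nonneg (by linarith)
      apply falls_Icc_of_evar (by linarith)
      · rw [hdi]
        linarith [hA.1, hA.2, hB.1, hB.2]
      · refine hbig.trans (ENNReal.ofReal_le_ofReal ?_)
        rw [hdi]
        linarith [hA.1, hA.2, hB.1, hB.2]
    · right
      have hdi : d i = v (y i) - v (y (i + 1)) := by
        rw [hd]
        show |v (y (i + 1)) - v (y i)| = _
        rw [abs_of_nonpos (by linarith)]
        ring
      apply rises_Icc_of_evar (by linarith)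
      · rw [hdi]
        linarith [hA.1, hA.2, hB.1, hB.2]
      · refine hbig.trans (ENNReal.ofReal_le_ofReal ?_)
        rw [hdi]
        linarith [hA.1, hA.2, hB.1, hB.2]

end Pool.Agent.BV653
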