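import Pool.Agent.BV653.Defs
import Pool.Agent.BV653.A1
import Pool.Agent.BV653.A2
import Pool.Agent.BV653.S2
import Pool.Agent.BV653.V2
set_option autoImplicit false
open MeasureTheory Set Filter Topology
namespace Pool.Agent.BV653
theorem h23212_set (a b : ℝ) : {x : ℝ | -x ∈ Icc a b} = Icc (-b) (-a) := by
  ext x
  simp only [mem_setOf_eq, mem_Icc]
  constructor <;> rintro ⟨h1, h2⟩ <;> constructor <;> linarith

theorem h23212_ev (f : ℝ → ℝ) : eVariationOn (fun x => f (-x)) univ = eVariationOn f univ := by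
  have h := evar_mirror f univ
  have e : {x : ℝ | -x ∈ (univ : Set ℝ)} = univ := by
    ext x
    simp
  rw [e] at h
  exact h

theorem h23212_f (f : ℝ → ℝ) (σ a b c : ℝ) :
    FallsLE (fun x => f (-x) - (-σ) * x) (Icc (-b) (-a)) c ↔
      RisesLE (fun x => f x - σ * x) (Icc a b) c := by
  have h := falls_mirror (fun x => f x - σ * x) (Icc a b) c
  rw [h23212_set] at h
  rw [← h]
  have e : (fun x => f (-x) - (-σ) * x) = (fun x => f (-x) - σ * (-x)) := by
    ext x
    ring
  rw [e]

/-- mirror image of `S_piece` -/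
theorem S_piece' (u : ℝ → ℝ) (hu : BoundedVariationOn u univ) (U : ℕ → ℝ → ℝ)
    (hU : ∀ j, BoundedVariationOn (U j) univ) (c : ℕ → ℝ) (hc : Tendsto c atTop (𝓝 0))
    (hUc : ∀ j x, |U j x - u x| ≤ c j)
    (hvar : ∀ j, eVariationOn (fun x => U j x - u x) univ ≤ ENNReal.ofReal (c j))
    (σ a b δ e : ℝ) (hab : a ≤ b) (hδ : 0 < δ)
    (hrise : RisesLE (fun x => u x - σ * x) (Icc (a - δ) (b + δ)) e) (C₀ : ℝ)
    (hF : RisesLE (fun x => M u x - σ * x) (Icc a b) C₀) :
    ∀ ε > 0, ∀ᶠ j in atTop,
      RisesLE (fun x => M (U j) x - σ * x) (Icc a b) (C₀ + 954 * e + ε) := by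
  intro ε hε
  have h1 := S_piece (fun x => u (-x)) (by
      unfold BoundedVariationOn
      rw [h23212_ev]
      exact hu) (fun j x => U j (-x)) (fun j => by
      unfold BoundedVariationOn
      rw [h23212_ev]
      exact hU j) c hc (fun j x => hUc j (-x)) (fun j => by
      have := h23212_ev (fun x => U j x - u x)
      exact this.le.trans (hvar j)) (-σ) (-b) (-a) δ e (by linarith) hδ (by
      have := (h23212_f u σ (a - δ) (b + δ) e).mpr hrise
      have e1 : -(b + δ) = -b - δ := by ring
      have e2 : -(a - δ) = -a + δ := by ring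
      rw [e1, e2] at this
      exact this) C₀ (by
      have := (h23212_f (M u) σ a b C₀).mpr hF
      simpa only [M_reflect] using this) ε hε
  filter_upwards [h1] with j hj
  apply (h23212_f (M (U j)) σ a b _).mp
  simpa only [M_reflect] using hj

end Pool.Agent.BV653
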