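import Pool.Agent.BV653.Defs
import Pool.Agent.BV653.A2
import Pool.Agent.BV653.S2
import Pool.Agent.BV653.S3
import Pool.Agent.BV653.S4
import Pool.Agent.BV653.V1
import Pool.Agent.BV653.V2
set_option autoImplicit false
open MeasureTheory Set Filter Topology
namespace Pool.Agent.BV653
/-- strict convergence of the tilted maximal functions on a compact interval -/
theorem S_main (u : ℝ → ℝ) (hu : BoundedVariationOn u univ)
    (hur : ∀ x, ContinuousWithinAt u (Ici x) x) (hMu : BoundedVariationOn (M u) univ)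
    (U : ℕ → ℝ → ℝ) (hU : ∀ j, BoundedVariationOn (U j) univ) (c : ℕ → ℝ)
    (hc : Tendsto c atTop (𝓝 0)) (hUc : ∀ j x, |U j x - u x| ≤ c j)
    (hvar : ∀ j, eVariationOn (fun x => U j x - u x) univ ≤ ENNReal.ofReal (c j))
    (σ R : ℝ) (hR : 0 < R) (hR1 : ContinuousAt u R) (hR2 : ContinuousAt u (-R)) :
    ∀ ε > 0, ∀ᶠ j in atTop, eVariationOn (fun x => M (U j) x - σ * x) (Icc (-R) R) ≤
      eVariationOn (fun x => M u x - σ * x) (Icc (-R) R) + ENNReal.ofReal ε := by
  have hsub : ∀ (f g : ℝ → ℝ) (s : Set ℝ),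
      eVariationOn (fun x => f x - g x) s ≤ eVariationOn f s + eVariationOn g s := by
    intro f g s
    refine iSup_le ?_
    rintro ⟨n, ⟨w, hw, ws⟩⟩
    calc ∑ i ∈ Finset.range n, edist (f (w (i + 1)) - g (w (i + 1))) (f (w i) - g (w i))
        ≤ ∑ i ∈ Finset.range n,
          (edist (f (w (i + 1))) (f (w i)) + edist (g (w (i + 1))) (g (w i))) := by
          refine Finset.sum_le_sum (fun i _ => ?_)
          rw [edist_dist, edist_dist, edist_dist, ← ENNReal.ofReal_add dist_nonneg dist_nonneg]
          exact ENNReal.ofReal_le_ofReal (dist_sub_sub_le _ _ _ _)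
      _ = ∑ i ∈ Finset.range n, edist (f (w (i + 1))) (f (w i)) +
          ∑ i ∈ Finset.range n, edist (g (w (i + 1))) (g (w i)) := Finset.sum_add_distrib
      _ ≤ _ := add_le_add (eVariationOn.sum_le hw ws) (eVariationOn.sum_le hw ws)
  have hbv : ∀ (f : ℝ → ℝ), BoundedVariationOn f univ → ∀ x y : ℝ,
      BoundedVariationOn (fun t => f t - σ * t) (Icc x y) := by
    intro f hf x y
    have h1 : BoundedVariationOn (fun t : ℝ => σ * t) (Icc x y) := by
      have h2 : LipschitzWith ‖σ‖₊ (fun t : ℝ => σ • t) := lipschitzWith_smul σ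
      exact h2.comp_boundedVariationOn (BoundedVariationOn.id_Icc x y)
    exact ne_top_of_le_ne_top (ENNReal.add_ne_top.mpr ⟨hf.mono (subset_univ _), h1⟩)
      (hsub f (fun t => σ * t) (Icc x y))
  intro ε hε
  obtain ⟨-, ⟨C, hC⟩, hui, hucount⟩ := bv_basic u hu
  have hcpos : ∀ j, 0 ≤ c j := fun j => le_trans (abs_nonneg _) (hUc j 0)
  have hMd : ∀ j x, |M (U j) x - M u x| ≤ c j := by
    intro j x
    obtain ⟨-, ⟨Cj, hCj⟩, hUi, -⟩ := bv_basic (U j) (hU j)
    exact (M_sub_le (U j) u hUi hui (max C Cj) (fun x => (hCj x).trans (le_max_right _ _))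
      (fun x => (hC x).trans (le_max_left _ _)) (c j) (hUc j) x).1
  have hlin : Continuous (fun x : ℝ => σ * x) := continuous_const.mul continuous_id
  have hcount : {x | ¬ ContinuousAt (fun x => u x - σ * x) x}.Countable := by
    refine hucount.mono ?_
    intro x hx hx'
    exact hx (ContinuousAt.sub hx' hlin.continuousAt)
  obtain ⟨N, y, e, δ, hδ, hy, hy0, hyN, hesum, hpiece⟩ :=
    good_partition (fun x => u x - σ * x) (-R) R (by linarith) (fun x y => hbv u hu x y)
      (fun x => (hur x).sub hlin.continuousWithinAt)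
      hcount
      (hR2.sub hlin.continuousAt) (hR1.sub hlin.continuousAt) (ε / 8000) (by positivity)
  set ε2 := ε / (8 * ((N : ℝ) + 1)) with hε2
  have hε2pos : 0 < ε2 := by positivity
  have he0 : ∀ i < N, 0 ≤ e i := by
    intro i hi
    have hmem : y i ∈ Icc (y i - δ) (y (i + 1) + δ) := by
      have := hy (Nat.le_succ i)
      constructor <;> linarith
    rcases hpiece i hi with hf | hr
    · have := hf 0 (fun _ => y i) monotone_const (fun _ => hmem)
      simpa using this
    · have := hr 0 (fun _ => y i) monotone_const (fun _ => hmem)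
      simpa using this
  have hev : ∀ i ∈ Finset.range N, ∀ᶠ j in atTop,
      eVariationOn (fun x => M (U j) x - σ * x) (Icc (y i) (y (i + 1))) ≤
        eVariationOn (fun x => M u x - σ * x) (Icc (y i) (y (i + 1))) +
          ENNReal.ofReal (2 * c j + 1908 * e i + 2 * ε2) := by
    intro i hi
    rw [Finset.mem_range] at hi
    have hpq : y i ≤ y (i + 1) := hy (Nat.le_succ i)
    have hbvF := hbv (M u) hMu (y i) (y (i + 1))
    obtain ⟨V, hV⟩ : ∃ V : ℝ, V =
      (eVariationOn (fun x => M u x - σ * x) (Icc (y i) (y (i + 1)))).toReal := ⟨_, rfl⟩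
    have hVe : eVariationOn (fun x => M u x - σ * x) (Icc (y i) (y (i + 1))) =
      ENNReal.ofReal V := by
      rw [hV]
      exact (ENNReal.ofReal_toReal hbvF).symm
    have hV0 : 0 ≤ V := by rw [hV]; exact ENNReal.toReal_nonneg
    rcases hpiece i hi with hf | hr
    · have hF : FallsLE (fun x => M u x - σ * x) (Icc (y i) (y (i + 1)))
          ((V - ((M u (y (i + 1)) - σ * y (i + 1)) - (M u (y i) - σ * y i))) / 2) := by
        refine falls_Icc_of_evar hpq ?_ ?_
        · show 0 ≤ (M u (y (i + 1)) - σ * y (i + 1)) - (M u (y i) - σ * y i) +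
            2 * ((V - ((M u (y (i + 1)) - σ * y (i + 1)) - (M u (y i) - σ * y i))) / 2)
          linarith
        · rw [hVe]
          refine ENNReal.ofReal_le_ofReal ?_
          show V ≤ (M u (y (i + 1)) - σ * y (i + 1)) - (M u (y i) - σ * y i) +
            2 * ((V - ((M u (y (i + 1)) - σ * y (i + 1)) - (M u (y i) - σ * y i))) / 2)
          linarith
      filter_upwards [S_piece u hu U hU c hc hUc hvar σ (y i) (y (i + 1)) δ (e i) hpq hδ hf _ hF
        ε2 hε2pos] with j hj
      refine (evar_Icc_of_falls hpq hj).trans ?_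
      rw [hVe]
      refine le_trans (ENNReal.ofReal_le_ofReal ?_) ENNReal.ofReal_add_le
      have h1 := abs_le.mp (hMd j (y i))
      have h2 := abs_le.mp (hMd j (y (i + 1)))
      have h3 := h1.1
      have h4 := h2.2
      linarith
    · have hF : RisesLE (fun x => M u x - σ * x) (Icc (y i) (y (i + 1)))
          ((V - ((M u (y i) - σ * y i) - (M u (y (i + 1)) - σ * y (i + 1)))) / 2) := by
        refine rises_Icc_of_evar hpq ?_ ?_
        · show 0 ≤ (M u (y i) - σ * y i) - (M u (y (i + 1)) - σ * y (i + 1)) +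
            2 * ((V - ((M u (y i) - σ * y i) - (M u (y (i + 1)) - σ * y (i + 1)))) / 2)
          linarith
        · rw [hVe]
          refine ENNReal.ofReal_le_ofReal ?_
          show V ≤ (M u (y i) - σ * y i) - (M u (y (i + 1)) - σ * y (i + 1)) +
            2 * ((V - ((M u (y i) - σ * y i) - (M u (y (i + 1)) - σ * y (i + 1)))) / 2)
          linarith
      filter_upwards [S_piece' u hu U hU c hc hUc hvar σ (y i) (y (i + 1)) δ (e i) hpq hδ hr _ hF
        ε2 hε2pos] with j hj
      refine (evar_Icc_of_rises hpq hj).trans ?_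
      rw [hVe]
      refine le_trans (ENNReal.ofReal_le_ofReal ?_) ENNReal.ofReal_add_le
      have h1 := abs_le.mp (hMd j (y i))
      have h2 := abs_le.mp (hMd j (y (i + 1)))
      have h3 := h1.2
      have h4 := h2.1
      linarith
  have hcev : ∀ᶠ j in atTop, c j < ε2 := hc.eventually (gt_mem_nhds hε2pos)
  filter_upwards [(Filter.eventually_all_finset (Finset.range N)).mpr hev, hcev] with j hj hcj
  have s1 := eVariationOn.sum' (fun x => M (U j) x - σ * x) hy (n := N)
  have s2 := eVariationOn.sum' (fun x => M u x - σ * x) hy (n := N)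
  rw [hy0, hyN] at s1 s2
  rw [← s1, ← s2]
  refine (Finset.sum_le_sum hj).trans ?_
  rw [Finset.sum_add_distrib]
  gcongr
  rw [← ENNReal.ofReal_sum_of_nonneg (fun i hi => by
    have h1 := he0 i (Finset.mem_range.mp hi)
    have h2 := hcpos j
    positivity)]
  refine ENNReal.ofReal_le_ofReal ?_
  rw [Finset.sum_add_distrib, Finset.sum_add_distrib, Finset.sum_const,
    Finset.sum_const, Finset.card_range, nsmul_eq_mul, nsmul_eq_mul, ← Finset.mul_sum]
  have hN0 : (0 : ℝ) ≤ N := Nat.cast_nonneg N
  have hN : (N : ℝ) * ε2 ≤ ε / 8 := by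
    rw [hε2, mul_div_assoc', div_le_div_iff₀ (by positivity) (by norm_num)]
    nlinarith
  have hNc : (N : ℝ) * c j ≤ N * ε2 := mul_le_mul_of_nonneg_left hcj.le hN0
  linarith

end Pool.Agent.BV653
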