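import Pool.Agent.BV653.Defs
set_option autoImplicit false
open MeasureTheory Set Filter Topology
namespace Pool.Agent.BV653
theorem vs_jump {f : ℝ → ℝ} {a b : ℝ} (hab : a < b) (hf : BoundedVariationOn f (Ioo a b)) :
    ∃ l l' : ℝ, Tendsto f (𝓝[Ioc a b] a) (𝓝 l) ∧ Tendsto f (𝓝[Ioo a b] b) (𝓝 l') ∧
      eVariationOn f (Icc a b) = eVariationOn f (Ioo a b) + edist (f b) l' + edist (f a) l := by
  have s1 : Ioo a b ∩ Iio b = Ioo a b := by
    ext x
    simp only [mem_inter_iff, mem_Ioo, mem_Iio]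
    tauto
  have s2 : Ioc a b ∩ Iio b = Ioo a b := by
    ext x
    simp only [mem_inter_iff, mem_Ioo, mem_Iio, mem_Ioc]
    constructor
    · rintro ⟨⟨h1, h2⟩, h3⟩
      exact ⟨h1, h3⟩
    · rintro ⟨h1, h2⟩
      exact ⟨⟨h1, h2.le⟩, h2⟩
  have s3 : Ioc a b ∩ Iic b = Ioc a b := by
    ext x
    simp only [mem_inter_iff, mem_Iic, mem_Ioc]
    tauto
  have s4 : Ioc a b ∩ Ioi a = Ioc a b := by
    ext x
    simp only [mem_inter_iff, mem_Ioi, mem_Ioc]
    tauto
  have s5 : Icc a b ∩ Ioi a = Ioc a b := by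
    ext x
    simp only [mem_inter_iff, mem_Ioi, mem_Ioc, mem_Icc]
    constructor
    · rintro ⟨⟨h1, h2⟩, h3⟩
      exact ⟨h3, h2⟩
    · rintro ⟨h1, h2⟩
      exact ⟨⟨h1.le, h2⟩, h1⟩
  have s6 : Icc a b ∩ Ici a = Icc a b := by
    ext x
    simp only [mem_inter_iff, mem_Ici, mem_Icc]
    tauto
  have nb : (𝓝[Ioo a b] b).NeBot := right_nhdsWithin_Ioo_neBot hab
  have na : (𝓝[Ioc a b] a).NeBot := left_nhdsWithin_Ioc_neBot hab
  obtain ⟨l', hl'⟩ := hf.exists_tendsto_left b
  rw [s1] at hl'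
  have e1 := eVariationOn.eVariationOn_on_inter_Iic_eq_Iio_add_edist (f := f) (s := Ioc a b)
    (a := b) (l := l') (by rw [s2]; exact nb) ⟨hab, le_rfl⟩ (by rw [s2]; exact hl')
  rw [s2, s3] at e1
  have hf2 : BoundedVariationOn f (Ioc a b) := by
    unfold BoundedVariationOn
    rw [e1]
    exact ENNReal.add_ne_top.mpr ⟨hf, edist_ne_top _ _⟩
  obtain ⟨l, hl⟩ := hf2.exists_tendsto_right a
  rw [s4] at hl
  have e2 := eVariationOn.eVariationOn_on_inter_Ici_eq_Ioi_add_edist (f := f) (s := Icc a b)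
    (a := a) (l := l) (by rw [s5]; exact na) ⟨le_rfl, hab.le⟩ (by rw [s5]; exact hl)
  rw [s5, s6] at e2
  exact ⟨l, l', hl, hl', by rw [e2, e1]⟩

theorem vs_lsc (G : ℕ → ℝ → ℝ) (G0 : ℝ → ℝ) (s : Set ℝ)
    (hlim : ∀ x, Tendsto (fun j => G j x) atTop (𝓝 (G0 x))) (hfin : eVariationOn G0 s ≠ ⊤)
    (η : ENNReal) (hη : η ≠ 0) :
    ∀ᶠ j in atTop, eVariationOn G0 s ≤ eVariationOn (G j) s + η := by
  by_cases h0 : eVariationOn G0 s = 0
  · exact Eventually.of_forall fun j => by rw [h0]; exact zero_le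
  · have h1 : eVariationOn G0 s - η < eVariationOn G0 s := ENNReal.sub_lt_self hfin h0 hη
    have h2 := eVariationOn.lowerSemicontinuous_aux (F := G) (p := atTop) (f := G0) (s := s)
      (fun x _ => hlim x) h1
    filter_upwards [h2] with j hj
    exact tsub_le_iff_right.mp hj.le

/-- convergence of the variation on a compact interval passes to open subintervals -/
theorem var_sub (G : ℕ → ℝ → ℝ) (G0 : ℝ → ℝ) (R : ℝ) (hR : 0 < R) (c : ℕ → ℝ)
    (hc : Tendsto c atTop (𝓝 0)) (hGc : ∀ j x, |G j x - G0 x| ≤ c j)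
    (hG0 : BoundedVariationOn G0 (Icc (-R) R))
    (h : ∀ ε > 0, ∀ᶠ j in atTop, eVariationOn (G j) (Icc (-R) R) ≤
      eVariationOn G0 (Icc (-R) R) + ENNReal.ofReal ε)
    (a b : ℝ) (ha : -R ≤ a) (hab : a ≤ b) (hb : b ≤ R) :
    ∀ ε > 0, ∀ᶠ j in atTop, eVariationOn (G j) (Ioo a b) ≤
      eVariationOn G0 (Ioo a b) + ENNReal.ofReal ε := by
  intro ε hε
  rcases hab.eq_or_lt with hab' | hab'
  · subst hab'
    refine Eventually.of_forall fun j => ?_
    have h0 : eVariationOn (G j) (Ioo a a) = 0 := by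
      apply eVariationOn.subsingleton
      rw [Ioo_self]
      exact subsingleton_empty
    rw [h0]
    exact zero_le
  have hlim : ∀ x, Tendsto (fun j => G j x) atTop (𝓝 (G0 x)) := by
    intro x
    rw [tendsto_iff_dist_tendsto_zero]
    exact squeeze_zero (fun j => dist_nonneg) (fun j => hGc j x) hc
  set η : ℝ := ε / 4 with hη_def
  have hη : 0 < η := by positivity
  have hη' : ENNReal.ofReal η ≠ 0 := by
    rw [Ne, ENNReal.ofReal_eq_zero]
    linarith
  have sub1 : Icc (-R) a ⊆ Icc (-R) R := Icc_subset_Icc le_rfl (hab.trans hb)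
  have sub2 : Icc b R ⊆ Icc (-R) R := Icc_subset_Icc (ha.trans hab) le_rfl
  have sub3 : Ioo a b ⊆ Icc (-R) R := fun x hx => ⟨ha.trans hx.1.le, hx.2.le.trans hb⟩
  have hadd : ∀ f : ℝ → ℝ, eVariationOn f (Icc (-R) a) + eVariationOn f (Icc a b) +
      eVariationOn f (Icc b R) = eVariationOn f (Icc (-R) R) := by
    intro f
    have h1 := eVariationOn.Icc_add_Icc f (s := univ) ha hab (mem_univ a)
    have h2 := eVariationOn.Icc_add_Icc f (s := univ) (ha.trans hab) hb (mem_univ b)
    simp only [univ_inter] at h1 h2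
    rw [h1, h2]
  obtain ⟨l0, l0', hl0, hl0', hV0⟩ := vs_jump hab' (hG0.mono sub3)
  have hA := vs_lsc G G0 (Icc (-R) a) hlim (hG0.mono sub1) (ENNReal.ofReal η) hη'
  have hB := vs_lsc G G0 (Icc b R) hlim (hG0.mono sub2) (ENNReal.ofReal η) hη'
  have hcev : ∀ᶠ j in atTop, c j < η / 4 := hc.eventually (Iio_mem_nhds (by positivity))
  filter_upwards [h η hη, hA, hB, hcev] with j h1 h2 h3 h4
  have hcj : 0 ≤ c j := (abs_nonneg _).trans (hGc j 0)
  have hGj : BoundedVariationOn (G j) (Icc (-R) R) :=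
    ne_top_of_le_ne_top (ENNReal.add_ne_top.mpr ⟨hG0, ENNReal.ofReal_ne_top⟩) h1
  obtain ⟨l, l', hl, hl', hV⟩ := vs_jump hab' (hGj.mono sub3)
  have nb : (𝓝[Ioo a b] b).NeBot := right_nhdsWithin_Ioo_neBot hab'
  have na : (𝓝[Ioc a b] a).NeBot := left_nhdsWithin_Ioc_neBot hab'
  have dl : dist l l0 ≤ c j :=
    le_of_tendsto (hl.dist hl0) (Eventually.of_forall fun x => hGc j x)
  have dl' : dist l' l0' ≤ c j :=
    le_of_tendsto (hl'.dist hl0') (Eventually.of_forall fun x => hGc j x)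
  have ed : ∀ (x u v : ℝ), dist u v ≤ c j →
      edist (G0 x) v ≤ edist (G j x) u + ENNReal.ofReal (η / 2) := by
    intro x u v huv
    have k1 : edist (G0 x) v ≤ edist (G0 x) (G j x) + edist (G j x) u + edist u v :=
      edist_triangle4 _ _ _ _
    have k2 : edist (G0 x) (G j x) ≤ ENNReal.ofReal (c j) := by
      rw [edist_comm, edist_dist]
      exact ENNReal.ofReal_le_ofReal (hGc j x)
    have k3 : edist u v ≤ ENNReal.ofReal (c j) := by
      rw [edist_dist]
      exact ENNReal.ofReal_le_ofReal huv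
    calc edist (G0 x) v ≤ edist (G0 x) (G j x) + edist (G j x) u + edist u v := k1
      _ ≤ ENNReal.ofReal (c j) + edist (G j x) u + ENNReal.ofReal (c j) := by gcongr
      _ = edist (G j x) u + ENNReal.ofReal (c j + c j) := by
          rw [ENNReal.ofReal_add hcj hcj]
          ring
      _ ≤ edist (G j x) u + ENNReal.ofReal (η / 2) := by
          gcongr
          linarith
  have ed1 := ed a l l0 dl
  have ed2 := ed b l' l0' dl'
  have key : (eVariationOn (G j) (Icc (-R) a) + eVariationOn (G j) (Icc b R) +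
      edist (G j b) l' + edist (G j a) l) + eVariationOn (G j) (Ioo a b) ≤
      (eVariationOn (G j) (Icc (-R) a) + eVariationOn (G j) (Icc b R) +
      edist (G j b) l' + edist (G j a) l) +
        (eVariationOn G0 (Ioo a b) + ENNReal.ofReal ε) := by
    have hε4 : ENNReal.ofReal ε = ENNReal.ofReal η + ENNReal.ofReal η + ENNReal.ofReal η +
        (ENNReal.ofReal (η / 2) + ENNReal.ofReal (η / 2)) := by
      rw [← ENNReal.ofReal_add hη.le hη.le, ← ENNReal.ofReal_add (by positivity) hη.le,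
        ← ENNReal.ofReal_add (by positivity) (by positivity),
        ← ENNReal.ofReal_add (by positivity) (by positivity)]
      congr 1
      rw [hη_def]
      ring
    calc (eVariationOn (G j) (Icc (-R) a) + eVariationOn (G j) (Icc b R) +
      edist (G j b) l' + edist (G j a) l) + eVariationOn (G j) (Ioo a b)
        = eVariationOn (G j) (Icc (-R) R) := by
          rw [← hadd (G j), hV]
          ring
      _ ≤ eVariationOn G0 (Icc (-R) R) + ENNReal.ofReal η := h1
      _ = eVariationOn G0 (Icc (-R) a) + (eVariationOn G0 (Ioo a b) + edist (G0 b) l0' +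
            edist (G0 a) l0) + eVariationOn G0 (Icc b R) + ENNReal.ofReal η := by
          rw [← hadd G0, hV0]
      _ ≤ (eVariationOn (G j) (Icc (-R) a) + ENNReal.ofReal η) + (eVariationOn G0 (Ioo a b) +
            (edist (G j b) l' + ENNReal.ofReal (η / 2)) +
            (edist (G j a) l + ENNReal.ofReal (η / 2))) +
            (eVariationOn (G j) (Icc b R) + ENNReal.ofReal η) + ENNReal.ofReal η := by
          gcongr
      _ = _ := by
          rw [hε4]
          ring
  have hfin : (eVariationOn (G j) (Icc (-R) a) + eVariationOn (G j) (Icc b R) +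
      edist (G j b) l' + edist (G j a) l) ≠ ⊤ := by
    refine ENNReal.add_ne_top.mpr ⟨ENNReal.add_ne_top.mpr ⟨ENNReal.add_ne_top.mpr
      ⟨hGj.mono sub1, hGj.mono sub2⟩, edist_ne_top _ _⟩, edist_ne_top _ _⟩
  exact (ENNReal.add_le_add_iff_left hfin).mp key

/-- variation on a closed interval from the open one -/
theorem evar_Icc_le_Ioo (w : ℝ → ℝ) (a b m : ℝ) (hab : a ≤ b) (hm : ∀ x, |w x| ≤ m) :
    eVariationOn w (Icc a b) ≤ eVariationOn w (Ioo a b) + ENNReal.ofReal (4 * m) := by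
  rcases hab.eq_or_lt with hab' | hab'
  · subst hab'
    have h0 : eVariationOn w (Icc a a) = 0 := by
      apply eVariationOn.subsingleton
      rw [Icc_self]
      exact subsingleton_singleton
    rw [h0]
    exact zero_le
  by_cases hf : eVariationOn w (Ioo a b) = ⊤
  · rw [hf]
    simp
  obtain ⟨l, l', hl, hl', hV⟩ := vs_jump hab' hf
  have nb : (𝓝[Ioo a b] b).NeBot := right_nhdsWithin_Ioo_neBot hab'
  have na : (𝓝[Ioc a b] a).NeBot := left_nhdsWithin_Ioc_neBot hab'
  have h1 : |l| ≤ m := le_of_tendsto hl.abs (Eventually.of_forall fun x => hm x)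
  have h2 : |l'| ≤ m := le_of_tendsto hl'.abs (Eventually.of_forall fun x => hm x)
  have hm0 : 0 ≤ m := (abs_nonneg _).trans h1
  have h3 : ∀ x u : ℝ, |u| ≤ m → edist (w x) u ≤ ENNReal.ofReal (2 * m) := by
    intro x u hu
    rw [edist_dist]
    apply ENNReal.ofReal_le_ofReal
    rw [Real.dist_eq]
    have := abs_sub (w x) u
    have := hm x
    linarith
  rw [hV, add_assoc]
  have h4 : ENNReal.ofReal (4 * m) = ENNReal.ofReal (2 * m) + ENNReal.ofReal (2 * m) := by
    rw [← ENNReal.ofReal_add (by positivity) (by positivity)]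
    congr 1
    ring
  rw [h4]
  have h5 := h3 b l' h2
  have h6 := h3 a l h1
  gcongr

end Pool.Agent.BV653
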