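import Pool.Agent.BV653.Defs
import Pool.Agent.BV653.A1
import Pool.Agent.BV653.A2
import Pool.Agent.BV653.E3
import Pool.Agent.BV653.E4
import Pool.Agent.BV653.S5
import Pool.Agent.BV653.S6
import Pool.Agent.BV653.V2
set_option autoImplicit false
open MeasureTheory Set Filter Topology
namespace Pool.Agent.BV653
theorem mid_tri_aux (f g : ℝ → ℝ) (s : Set ℝ) :
    eVariationOn (fun x => f x - g x) s ≤ eVariationOn f s + eVariationOn g s := by
  refine iSup_le fun p => ?_
  obtain ⟨n, x, hx, hxs⟩ := p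
  calc ∑ i ∈ Finset.range n, edist (f (x (i+1)) - g (x (i+1))) (f (x i) - g (x i))
      ≤ ∑ i ∈ Finset.range n, (edist (f (x (i+1))) (f (x i)) + edist (g (x (i+1))) (g (x i))) := by
        refine Finset.sum_le_sum fun i _ => ?_
        rw [edist_dist, edist_dist, edist_dist, ← ENNReal.ofReal_add dist_nonneg dist_nonneg]
        exact ENNReal.ofReal_le_ofReal (dist_sub_sub_le _ _ _ _)
    _ = ∑ i ∈ Finset.range n, edist (f (x (i+1))) (f (x i)) +
        ∑ i ∈ Finset.range n, edist (g (x (i+1))) (g (x i)) := Finset.sum_add_distrib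
    _ ≤ _ := add_le_add (eVariationOn.sum_le hx hxs) (eVariationOn.sum_le hx hxs)

theorem mid_lin_aux (σ R : ℝ) : eVariationOn (fun x : ℝ => σ * x) (Icc (-R) R) ≠ ⊤ := by
  have h1 : LipschitzWith ‖σ‖₊ (fun x : ℝ => σ * x) := by
    refine LipschitzWith.of_dist_le_mul fun x y => ?_
    rw [Real.dist_eq, Real.dist_eq, ← mul_sub, abs_mul]
    simp
  exact h1.comp_boundedVariationOn (BoundedVariationOn.id_Icc (-R) R)

/-- convergence in variation on compact intervals -/
theorem middle (u : ℝ → ℝ) (hu : BoundedVariationOn u univ)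
    (hur : ∀ x, ContinuousWithinAt u (Ici x) x) (hMu : BoundedVariationOn (M u) univ)
    (U : ℕ → ℝ → ℝ) (hU : ∀ j, BoundedVariationOn (U j) univ) (c : ℕ → ℝ)
    (hc : Tendsto c atTop (𝓝 0)) (hUc : ∀ j x, |U j x - u x| ≤ c j)
    (hvar : ∀ j, eVariationOn (fun x => U j x - u x) univ ≤ ENNReal.ofReal (c j))
    (R : ℝ) (hR : 0 < R) (hR1 : ContinuousAt u R) (hR2 : ContinuousAt u (-R)) :
    ∀ ε > 0, ∀ᶠ j in atTop,
      eVariationOn (fun x => M (U j) x - M u x) (Icc (-R) R) ≤ ENNReal.ofReal ε := by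
  intro ε hε
  obtain ⟨hum, ⟨Cu, hCu⟩, hui, hucount⟩ := bv_basic u hu
  obtain ⟨-, -, -, hMcount⟩ := bv_basic (M u) hMu
  -- the difference bound
  have hdiff : ∀ j x, |M (U j) x - M u x| ≤ c j := by
    intro j x
    obtain ⟨-, ⟨CU, hCU⟩, hUi, -⟩ := bv_basic (U j) (hU j)
    exact (M_sub_le (U j) u hUi hui (max CU Cu) (fun y => (hCU y).trans (le_max_left _ _))
      (fun y => (hCu y).trans (le_max_right _ _)) (c j) (hUc j) x).1
  have hc0 : ∀ j, 0 ≤ c j := fun j => (abs_nonneg _).trans (hUc j 0)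
  obtain ⟨n, x, σ, hx, hx0, hxn, hsum⟩ := approx_piecewise (M u) hMu
    ({x | ¬ ContinuousAt u x} ∪ {x | ¬ ContinuousAt (M u) x}) (hucount.union hMcount)
    (fun y hy => by
      by_contra hcon
      exact hy (Or.inr hcon))
    (fun K hK hK0 hKT => by
      refine no_cantor u hu hur hMu K hK hK0 (fun y hy => ?_) (fun y hy => ?_)
      · by_contra hcon
        have : y ∈ K ∩ ({x | ¬ ContinuousAt u x} ∪ {x | ¬ ContinuousAt (M u) x}) :=
          ⟨hy, Or.inl hcon⟩
        rw [hKT] at this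
        exact this
      · by_contra hcon
        have : y ∈ K ∩ ({x | ¬ ContinuousAt u x} ∪ {x | ¬ ContinuousAt (M u) x}) :=
          ⟨hy, Or.inr hcon⟩
        rw [hKT] at this
        exact this) R hR (ε / 8) (by positivity)
  have hn1 : (0 : ℝ) < 8 * ((n : ℝ) + 1) := by positivity
  have hev1 : ∀ i ∈ Finset.range n, ∀ᶠ j in atTop,
      eVariationOn (fun y => M (U j) y - σ i * y) (Ioo (x i) (x (i + 1))) ≤
        eVariationOn (fun y => M u y - σ i * y) (Ioo (x i) (x (i + 1))) +
          ENNReal.ofReal (ε / (8 * ((n : ℝ) + 1))) := by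
    intro i hi
    have hi' : i + 1 ≤ n := Finset.mem_range.1 hi
    refine var_sub (fun j y => M (U j) y - σ i * y) (fun y => M u y - σ i * y) R hR c hc
      (fun j y => ?_) ?_ ?_ (x i) (x (i + 1)) ?_ (hx (Nat.le_succ i)) ?_ _ (by positivity)
    · have := hdiff j y
      simpa using this
    · have h1 : eVariationOn (M u) (Icc (-R) R) ≠ ⊤ := hMu.mono (subset_univ _)
      have h2 := mid_tri_aux (M u) (fun y => σ i * y) (Icc (-R) R)
      exact ne_top_of_le_ne_top (ENNReal.add_ne_top.2 ⟨h1, mid_lin_aux (σ i) R⟩) h2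
    · exact S_main u hu hur hMu U hU c hc hUc hvar (σ i) R hR hR1 hR2
    · rw [← hx0]
      exact hx (Nat.zero_le i)
    · rw [← hxn]
      exact hx hi'
  have hev2 : ∀ᶠ j in atTop, ∀ i ∈ Finset.range n,
      eVariationOn (fun y => M (U j) y - σ i * y) (Ioo (x i) (x (i + 1))) ≤
        eVariationOn (fun y => M u y - σ i * y) (Ioo (x i) (x (i + 1))) +
          ENNReal.ofReal (ε / (8 * ((n : ℝ) + 1))) :=
    (Filter.eventually_all_finset _).2 hev1
  have hev3 : ∀ᶠ j in atTop, c j < ε / (8 * ((n : ℝ) + 1)) :=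
    hc.eventually_lt_const (by positivity)
  filter_upwards [hev2, hev3] with j h2 h3
  have hsum' := eVariationOn.sum' (fun y => M (U j) y - M u y) hx (n := n)
  rw [hx0, hxn] at hsum'
  rw [← hsum']
  have hterm : ∀ i ∈ Finset.range n,
      eVariationOn (fun y => M (U j) y - M u y) (Icc (x i) (x (i + 1))) ≤
        (eVariationOn (fun y => M u y - σ i * y) (Ioo (x i) (x (i + 1))) +
          eVariationOn (fun y => M u y - σ i * y) (Ioo (x i) (x (i + 1)))) +
        ENNReal.ofReal (5 * (ε / (8 * ((n : ℝ) + 1)))) := by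
    intro i hi
    have a1 := evar_Icc_le_Ioo (fun y => M (U j) y - M u y) (x i) (x (i + 1)) (c j)
      (hx (Nat.le_succ i)) (fun y => hdiff j y)
    have a2 : eVariationOn (fun y => M (U j) y - M u y) (Ioo (x i) (x (i + 1))) ≤
        eVariationOn (fun y => M (U j) y - σ i * y) (Ioo (x i) (x (i + 1))) +
          eVariationOn (fun y => M u y - σ i * y) (Ioo (x i) (x (i + 1))) := by
      have := mid_tri_aux (fun y => M (U j) y - σ i * y) (fun y => M u y - σ i * y)
        (Ioo (x i) (x (i + 1)))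
      refine le_trans (le_of_eq ?_) this
      apply eVariationOn.congr
      intro y _
      simp
    have a3 := h2 i hi
    have a4 : ENNReal.ofReal (4 * c j) ≤ ENNReal.ofReal (4 * (ε / (8 * ((n : ℝ) + 1)))) :=
      ENNReal.ofReal_le_ofReal (by linarith)
    have a5 : ENNReal.ofReal (5 * (ε / (8 * ((n : ℝ) + 1)))) =
        ENNReal.ofReal (ε / (8 * ((n : ℝ) + 1))) +
          ENNReal.ofReal (4 * (ε / (8 * ((n : ℝ) + 1)))) := by
      rw [← ENNReal.ofReal_add (by positivity) (by positivity)]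
      congr 1
      ring
    calc _ ≤ _ := a1
      _ ≤ ((eVariationOn (fun y => M u y - σ i * y) (Ioo (x i) (x (i + 1))) +
          ENNReal.ofReal (ε / (8 * ((n : ℝ) + 1)))) +
          eVariationOn (fun y => M u y - σ i * y) (Ioo (x i) (x (i + 1)))) +
          ENNReal.ofReal (4 * (ε / (8 * ((n : ℝ) + 1)))) :=
        add_le_add (a2.trans (add_le_add a3 le_rfl)) a4
      _ = _ := by
        rw [a5]
        ring
  refine (Finset.sum_le_sum hterm).trans ?_
  rw [Finset.sum_add_distrib, Finset.sum_add_distrib]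
  have hlast : ∑ i ∈ Finset.range n, ENNReal.ofReal (5 * (ε / (8 * ((n : ℝ) + 1)))) ≤
      ENNReal.ofReal (5 / 8 * ε) := by
    rw [Finset.sum_const, Finset.card_range, nsmul_eq_mul, ← ENNReal.ofReal_natCast,
      ← ENNReal.ofReal_mul (by positivity)]
    refine ENNReal.ofReal_le_ofReal ?_
    have : (n : ℝ) * (5 * (ε / (8 * ((n : ℝ) + 1)))) = 5 / 8 * ε * ((n : ℝ) / ((n : ℝ) + 1)) := by
      field_simp
    rw [this]
    have h4 : (n : ℝ) / ((n : ℝ) + 1) ≤ 1 := by
      rw [div_le_one (by positivity)]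
      linarith
    have h5 : 0 ≤ 5 / 8 * ε := by positivity
    nlinarith
  calc _ ≤ ENNReal.ofReal (ε / 8) + ENNReal.ofReal (ε / 8) + ENNReal.ofReal (5 / 8 * ε) :=
        add_le_add (add_le_add hsum hsum) hlast
    _ = ENNReal.ofReal (7 / 8 * ε) := by
      rw [← ENNReal.ofReal_add (by positivity) (by positivity),
        ← ENNReal.ofReal_add (by positivity) (by positivity)]
      congr 1
      ring
    _ ≤ ENNReal.ofReal ε := ENNReal.ofReal_le_ofReal (by linarith)

end Pool.Agent.BV653
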