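import Pool.Agent.BV653.Defs
set_option autoImplicit false
open MeasureTheory Set Filter Topology
namespace Pool.Agent.BV653
theorem bvc_enum (S : Finset ℝ) (hS : S.Nonempty) :
    ∃ (z : ℕ → ℝ) (k : ℕ), Monotone z ∧ z '' Iic k = (S : Set ℝ) := by
  obtain ⟨k, hk⟩ : ∃ k, S.card = k + 1 := ⟨S.card - 1, by have := hS.card_pos; omega⟩
  refine ⟨fun i => S.orderEmbOfFin hk ⟨min i k, by omega⟩, k, ?_, ?_⟩
  · intro i j hij
    apply (S.orderEmbOfFin hk).monotone
    show min i k ≤ min j k
    omega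
  · ext x
    constructor
    · rintro ⟨i, _, rfl⟩
      exact S.orderEmbOfFin_mem hk _
    · intro hx
      have h1 : x ∈ Set.range (S.orderEmbOfFin hk) := by
        rw [Finset.range_orderEmbOfFin]; exact hx
      obtain ⟨i, hi⟩ := h1
      refine ⟨i.1, ?_, ?_⟩
      · show i.1 ≤ k
        omega
      · rw [← hi]
        show S.orderEmbOfFin hk ⟨min i.1 k, _⟩ = S.orderEmbOfFin hk i
        congr 1
        apply Fin.ext
        show min i.1 k = i.1
        omega

theorem bvc_add_le (f h1 h2 : ℝ → ℝ)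
    (h : ∀ x y, edist (h1 x) (h1 y) + edist (h2 x) (h2 y) ≤ edist (f x) (f y)) :
    eVariationOn h1 univ + eVariationOn h2 univ ≤ eVariationOn f univ := by
  classical
  have : Nonempty { u : ℕ → ℝ // Monotone u ∧ ∀ i, u i ∈ (univ : Set ℝ) } :=
    ⟨⟨fun _ => 0, fun _ _ _ => le_rfl, fun _ => mem_univ _⟩⟩
  unfold eVariationOn
  refine ENNReal.iSup_add_iSup_le ?_
  rintro ⟨n, ⟨u, hu, hu'⟩⟩ ⟨m, ⟨v, hv, hv'⟩⟩
  simp only
  obtain ⟨z, k, hz, hzS⟩ := bvc_enum ((Finset.range (n + 1)).image u ∪ (Finset.range (m + 1)).image v)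
    ⟨u 0, Finset.mem_union_left _ (Finset.mem_image.mpr ⟨0, by simp, rfl⟩)⟩
  have hz1 : u '' Iic n ⊆ z '' Iic k := by
    rw [hzS]
    rintro _ ⟨i, hi, rfl⟩
    have hi : i ≤ n := hi
    simp only [Finset.coe_union, Finset.coe_image, mem_union, mem_image]
    left
    exact ⟨i, by simp; omega, rfl⟩
  have hz2 : v '' Iic m ⊆ z '' Iic k := by
    rw [hzS]
    rintro _ ⟨i, hi, rfl⟩
    have hi : i ≤ m := hi
    simp only [Finset.coe_union, Finset.coe_image, mem_union, mem_image]
    right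
    exact ⟨i, by simp; omega, rfl⟩
  have e1 : ∑ i ∈ Finset.range n, edist (h1 (u (i + 1))) (h1 (u i)) ≤
      ∑ i ∈ Finset.range k, edist (h1 (z i)) (h1 (z (i + 1))) := by
    rw [← eVariationOn.image_range_of_monotone h1 hz k]
    refine le_trans (le_of_eq ?_) (eVariationOn.mono h1 hz1)
    rw [eVariationOn.image_range_of_monotone h1 hu n]
    exact Finset.sum_congr rfl fun i _ => edist_comm _ _
  have e2 : ∑ i ∈ Finset.range m, edist (h2 (v (i + 1))) (h2 (v i)) ≤
      ∑ i ∈ Finset.range k, edist (h2 (z i)) (h2 (z (i + 1))) := by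
    rw [← eVariationOn.image_range_of_monotone h2 hz k]
    refine le_trans (le_of_eq ?_) (eVariationOn.mono h2 hz2)
    rw [eVariationOn.image_range_of_monotone h2 hv m]
    exact Finset.sum_congr rfl fun i _ => edist_comm _ _
  refine (add_le_add e1 e2).trans ?_
  rw [← Finset.sum_add_distrib]
  refine (Finset.sum_le_sum fun i _ => h _ _).trans ?_
  have e3 := eVariationOn.sum_le (f := f) (s := univ) (n := k) hz (fun _ => mem_univ _)
  refine le_trans (le_of_eq ?_) e3
  exact Finset.sum_congr rfl fun i _ => edist_comm _ _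

/-- clamp -/
noncomputable def bvc (m t : ℝ) : ℝ := max (-m) (min m t)

theorem bvc_mono (m s t : ℝ) (hst : s ≤ t) : 0 ≤ bvc m t - bvc m s ∧ bvc m t - bvc m s ≤ t - s := by
  unfold bvc
  constructor
  · have : max (-m) (min m s) ≤ max (-m) (min m t) := max_le_max le_rfl (min_le_min le_rfl hst)
    linarith
  · rcases max_cases (-m) (min m t) with ⟨h1, h2⟩ | ⟨h1, h2⟩ <;>
    rcases max_cases (-m) (min m s) with ⟨h3, h4⟩ | ⟨h3, h4⟩ <;>
    rcases min_cases m t with ⟨h5, h6⟩ | ⟨h5, h6⟩ <;>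
    rcases min_cases m s with ⟨h7, h8⟩ | ⟨h7, h8⟩ <;>
    rw [h1, h3] <;> linarith

theorem bvc_split (m s t : ℝ) :
    |bvc m t - bvc m s| + |(t - bvc m t) - (s - bvc m s)| = |t - s| := by
  rcases le_total s t with h | h
  · obtain ⟨h1, h2⟩ := bvc_mono m s t h
    rw [abs_of_nonneg h1, abs_of_nonneg (by linarith), abs_of_nonneg (by linarith)]
    ring
  · obtain ⟨h1, h2⟩ := bvc_mono m t s h
    rw [abs_of_nonpos (by linarith), abs_of_nonpos (by linarith), abs_of_nonpos (by linarith)]
    ring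

theorem bvc_lip (m s t : ℝ) : |bvc m t - bvc m s| ≤ |t - s| := by
  have := bvc_split m s t
  have := abs_nonneg ((t - bvc m t) - (s - bvc m s))
  linarith

theorem bvc_abs (m t : ℝ) (hm : 0 ≤ m) : |bvc m t| ≤ m := by
  unfold bvc
  rw [abs_le]
  constructor
  · exact le_max_left _ _
  · exact max_le (by linarith) (min_le_left _ _)

theorem bvc_edist (x y : ℝ) : edist x y = ENNReal.ofReal |x - y| := by
  rw [edist_dist, Real.dist_eq]

theorem bvc_clamp (f : ℝ → ℝ) (hf : BoundedVariationOn f univ) (ε : ℝ) (hε : 0 < ε) :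
    ∃ m > 0, eVariationOn (fun x => bvc m (f x)) univ ≤ ENNReal.ofReal ε := by
  have hle : ∀ m : ℝ, eVariationOn (fun x => bvc m (f x)) univ +
      eVariationOn (fun x => f x - bvc m (f x)) univ ≤ eVariationOn f univ := by
    intro m
    apply bvc_add_le
    intro x y
    rw [bvc_edist, bvc_edist, bvc_edist, ← ENNReal.ofReal_add (abs_nonneg _) (abs_nonneg _),
      bvc_split]
  rcases eq_or_ne (eVariationOn f univ) 0 with h0 | h0
  · refine ⟨1, one_pos, ?_⟩
    have h1 := hle 1
    rw [h0] at h1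
    exact (le_self_add.trans h1).trans zero_le
  have hε2 : ENNReal.ofReal (ε / 2) ≠ 0 := by
    rw [Ne, ENNReal.ofReal_eq_zero]; linarith
  have h1 : eVariationOn f univ - ENNReal.ofReal (ε / 2) < eVariationOn f univ :=
    ENNReal.sub_lt_self hf h0 hε2
  obtain ⟨⟨n, ⟨u, hu, hu'⟩⟩, hp⟩ := lt_iSup_iff.1 h1
  simp only at hp
  refine ⟨ε / (4 * (n + 1)), by positivity, ?_⟩
  set m : ℝ := ε / (4 * (n + 1)) with hm
  have hm0 : 0 < m := by positivity
  have h2 : eVariationOn f univ ≤ ∑ i ∈ Finset.range n, edist (f (u (i + 1))) (f (u i)) +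
      ENNReal.ofReal (ε / 2) := tsub_le_iff_right.1 hp.le
  have h3 : ∑ i ∈ Finset.range n, edist (f (u (i + 1))) (f (u i)) ≤
      ∑ i ∈ Finset.range n, (ENNReal.ofReal (2 * m) +
        edist (f (u (i + 1)) - bvc m (f (u (i + 1)))) (f (u i) - bvc m (f (u i)))) := by
    refine Finset.sum_le_sum fun i _ => ?_
    rw [bvc_edist, bvc_edist, ← bvc_split m, ENNReal.ofReal_add (abs_nonneg _) (abs_nonneg _)]
    apply add_le_add _ le_rfl
    apply ENNReal.ofReal_le_ofReal
    have e1 := bvc_abs m (f (u (i + 1))) hm0.le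
    have e2 := bvc_abs m (f (u i)) hm0.le
    rw [abs_le] at e1 e2 ⊢
    constructor <;> linarith [e1.1, e1.2, e2.1, e2.2]
  rw [Finset.sum_add_distrib, Finset.sum_const, Finset.card_range] at h3
  have h4 : ∑ i ∈ Finset.range n, edist (f (u (i + 1)) - bvc m (f (u (i + 1))))
      (f (u i) - bvc m (f (u i))) ≤ eVariationOn (fun x => f x - bvc m (f x)) univ :=
    eVariationOn.sum_le (f := fun x => f x - bvc m (f x)) hu (fun _ => mem_univ _)
  have h5 : n • ENNReal.ofReal (2 * m) ≤ ENNReal.ofReal (ε / 2) := by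
    rw [nsmul_eq_mul, ← ENNReal.ofReal_natCast, ← ENNReal.ofReal_mul (Nat.cast_nonneg n)]
    apply ENNReal.ofReal_le_ofReal
    have e1 : (n : ℝ) * (2 * m) = (ε / 2) * (n / (n + 1)) := by
      rw [hm]; field_simp; ring
    rw [e1]
    have e2 : (n : ℝ) / (n + 1) ≤ 1 := by
      rw [div_le_one (by positivity)]; linarith
    nlinarith
  have hfin : eVariationOn (fun x => f x - bvc m (f x)) univ ≠ ⊤ :=
    ne_top_of_le_ne_top hf (le_add_self.trans (hle m))
  have h6 : eVariationOn (fun x => bvc m (f x)) univ +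
      eVariationOn (fun x => f x - bvc m (f x)) univ ≤
      ENNReal.ofReal ε + eVariationOn (fun x => f x - bvc m (f x)) univ := by
    refine (hle m).trans (h2.trans ?_)
    have e1 : ENNReal.ofReal ε = ENNReal.ofReal (ε / 2) + ENNReal.ofReal (ε / 2) := by
      rw [← ENNReal.ofReal_add (by linarith) (by linarith)]; congr 1; ring
    rw [e1]
    calc _ ≤ (n • ENNReal.ofReal (2 * m) + eVariationOn (fun x => f x - bvc m (f x)) univ) +
          ENNReal.ofReal (ε / 2) := add_le_add (h3.trans (add_le_add le_rfl h4)) le_rfl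
      _ ≤ (ENNReal.ofReal (ε / 2) + eVariationOn (fun x => f x - bvc m (f x)) univ) +
          ENNReal.ofReal (ε / 2) := add_le_add (add_le_add h5 le_rfl) le_rfl
      _ = _ := by ring
  exact (ENNReal.add_le_add_iff_right hfin).1 h6

theorem bvc_psi (δ a t : ℝ) (ha : |a| ≤ δ) : |t + a| - |t| = |bvc δ t + a| - |bvc δ t| := by
  rw [abs_le] at ha
  have hδ : 0 ≤ δ := by linarith [ha.1, ha.2]
  unfold bvc
  rcases le_total t (-δ) with h1 | h1
  · have e1 : max (-δ) (min δ t) = -δ := by
      rw [max_eq_left]; exact (min_le_right _ _).trans h1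
    rw [e1, abs_of_nonpos (by linarith : t + a ≤ 0), abs_of_nonpos (by linarith : t ≤ 0),
      abs_of_nonpos (by linarith : -δ + a ≤ 0), abs_of_nonpos (by linarith : -δ ≤ 0)]
    ring
  · rcases le_total δ t with h2 | h2
    · have e1 : max (-δ) (min δ t) = δ := by
        rw [min_eq_left h2, max_eq_right (by linarith)]
      rw [e1, abs_of_nonneg (by linarith : 0 ≤ t + a), abs_of_nonneg (by linarith : 0 ≤ t),
        abs_of_nonneg (by linarith : 0 ≤ δ + a), abs_of_nonneg (by linarith : 0 ≤ δ)]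
      ring
    · have e1 : max (-δ) (min δ t) = t := by
        rw [min_eq_right h2, max_eq_right h1]
      rw [e1]

theorem bvc_ineq (δ s t a b : ℝ) (ha : |a| ≤ δ) :
    |(|t + b| - |t|) - (|s + a| - |s|)| ≤ |b - a| + 2 * |bvc δ t - bvc δ s| := by
  have h1 : |(|t + b| - |t|) - (|t + a| - |t|)| ≤ |b - a| := by
    have e1 : (|t + b| - |t|) - (|t + a| - |t|) = |t + b| - |t + a| := by ring
    rw [e1]
    refine (abs_abs_sub_abs_le _ _).trans ?_
    rw [show t + b - (t + a) = b - a by ring]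
  have h2 : |(|t + a| - |t|) - (|s + a| - |s|)| ≤ 2 * |bvc δ t - bvc δ s| := by
    rw [bvc_psi δ a t ha, bvc_psi δ a s ha]
    set c := bvc δ t
    set d := bvc δ s
    have e1 : (|c + a| - |c|) - (|d + a| - |d|) = (|c + a| - |d + a|) - (|c| - |d|) := by ring
    rw [e1]
    refine (abs_sub _ _).trans ?_
    have e2 := abs_abs_sub_abs_le (c + a) (d + a)
    have e3 := abs_abs_sub_abs_le c d
    rw [show c + a - (d + a) = c - d by ring] at e2
    linarith
  have e3 : (|t + b| - |t|) - (|s + a| - |s|) =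
      ((|t + b| - |t|) - (|t + a| - |t|)) + ((|t + a| - |t|) - (|s + a| - |s|)) := by ring
  rw [e3]
  exact (abs_add_le _ _).trans (add_le_add h1 h2)

/-- truncations near zero have small variation -/
theorem clamp_small (f : ℝ → ℝ) (hf : BoundedVariationOn f univ) (ε : ℝ) (hε : 0 < ε) :
    ∃ m > 0, eVariationOn (fun x => max (-m) (min m (f x))) univ ≤ ENNReal.ofReal ε := by
  obtain ⟨m, hm, h⟩ := bvc_clamp f hf ε hε
  exact ⟨m, hm, h⟩

/-- the absolute value is continuous on `BV` -/
theorem abs_cont (f : ℝ → ℝ) (hf : BoundedVariationOn f univ) (ε : ℝ) (hε : 0 < ε) :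
    ∃ δ > 0, ∀ g : ℝ → ℝ, (∀ x, |g x - f x| ≤ δ) →
      eVariationOn (fun x => g x - f x) univ ≤ ENNReal.ofReal δ →
      eVariationOn (fun x => |g x| - |f x|) univ ≤ ENNReal.ofReal ε := by
  obtain ⟨m, hm, h⟩ := bvc_clamp f hf (ε / 4) (by positivity)
  refine ⟨min m (ε / 2), lt_min hm (by positivity), ?_⟩
  intro g hg hvar
  set δ := min m (ε / 2) with hδ
  have hδ0 : 0 < δ := lt_min hm (by positivity)
  have hδm : δ ≤ m := min_le_left _ _
  have hδε : δ ≤ ε / 2 := min_le_right _ _
  have hcc : ∀ t, bvc δ t = bvc δ (bvc m t) := by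
    intro t
    unfold bvc
    rcases le_total t (-m) with h1 | h1
    · have e1 : max (-m) (min m t) = -m := by
        rw [max_eq_left]; exact (min_le_right _ _).trans h1
      rw [e1, max_eq_left ((min_le_right _ _).trans (by linarith)),
        max_eq_left ((min_le_right _ _).trans (by linarith))]
    · rcases le_total m t with h2 | h2
      · have e1 : max (-m) (min m t) = m := by
          rw [min_eq_left h2, max_eq_right (by linarith)]
        rw [e1, min_eq_left (by linarith), min_eq_left (by linarith)]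
      · rw [min_eq_right h2, max_eq_right h1]
  have hVc : eVariationOn (fun x => bvc δ (f x)) univ ≤ ENNReal.ofReal (ε / 4) := by
    refine le_trans ?_ h
    refine iSup_le ?_
    rintro ⟨n, ⟨u, hu, hu'⟩⟩
    simp only
    refine le_trans ?_ (eVariationOn.sum_le (f := fun x => bvc m (f x)) (n := n) hu (fun _ => mem_univ _))
    refine Finset.sum_le_sum fun i _ => ?_
    rw [hcc (f (u (i + 1))), hcc (f (u i)), bvc_edist, bvc_edist]
    exact ENNReal.ofReal_le_ofReal (bvc_lip _ _ _)
  refine iSup_le ?_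
  rintro ⟨n, ⟨u, hu, hu'⟩⟩
  simp only
  have h1 : ∑ i ∈ Finset.range n, edist (|g (u (i + 1))| - |f (u (i + 1))|) (|g (u i)| - |f (u i)|) ≤
      ∑ i ∈ Finset.range n, (edist (g (u (i + 1)) - f (u (i + 1))) (g (u i) - f (u i)) +
        (edist (bvc δ (f (u (i + 1)))) (bvc δ (f (u i))) +
          edist (bvc δ (f (u (i + 1)))) (bvc δ (f (u i))))) := by
    refine Finset.sum_le_sum fun i _ => ?_
    rw [bvc_edist, bvc_edist, bvc_edist, ← ENNReal.ofReal_add (abs_nonneg _) (abs_nonneg _),
      ← ENNReal.ofReal_add (abs_nonneg _) (by positivity)]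
    apply ENNReal.ofReal_le_ofReal
    have h2 := bvc_ineq δ (f (u i)) (f (u (i + 1))) (g (u i) - f (u i))
      (g (u (i + 1)) - f (u (i + 1))) (hg _)
    rw [show f (u (i + 1)) + (g (u (i + 1)) - f (u (i + 1))) = g (u (i + 1)) by ring,
      show f (u i) + (g (u i) - f (u i)) = g (u i) by ring] at h2
    linarith
  refine h1.trans ?_
  rw [Finset.sum_add_distrib, Finset.sum_add_distrib]
  have h2 := eVariationOn.sum_le (f := fun x => g x - f x) (n := n) hu (fun _ => mem_univ (u _))
  have h3 := eVariationOn.sum_le (f := fun x => bvc δ (f x)) (n := n) hu (fun _ => mem_univ (u _))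
  have h4 := h2.trans (hvar.trans (ENNReal.ofReal_le_ofReal hδε))
  have h5 := h3.trans hVc
  have e1 : ENNReal.ofReal ε = ENNReal.ofReal (ε / 2) +
      (ENNReal.ofReal (ε / 4) + ENNReal.ofReal (ε / 4)) := by
    rw [← ENNReal.ofReal_add (by linarith) (by linarith),
      ← ENNReal.ofReal_add (by linarith) (by linarith)]
    congr 1; ring
  rw [e1]
  exact add_le_add h4 (add_le_add h5 h5)

end Pool.Agent.BV653
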