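import Pool.Agent.BV653.Defs
import Pool.Agent.BV653.A2
import Pool.Agent.BV653.F1
import Pool.Agent.BV653.F2
import Pool.Agent.BV653.V2
import Pool.Agent.BV653.V4
set_option autoImplicit false
open MeasureTheory Set Filter Topology
namespace Pool.Agent.BV653
theorem evar_sub_le_aux (f g : ℝ → ℝ) (s : Set ℝ) :
    eVariationOn (fun x => f x - g x) s ≤ eVariationOn f s + eVariationOn g s := by
  apply iSup_le
  rintro ⟨n, ⟨u, hu, us⟩⟩
  calc ∑ i ∈ Finset.range n, edist (f (u (i + 1)) - g (u (i + 1))) (f (u i) - g (u i))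
      ≤ ∑ i ∈ Finset.range n, (edist (f (u (i + 1))) (f (u i)) + edist (g (u (i + 1))) (g (u i))) := by
        apply Finset.sum_le_sum
        intro i _
        rw [sub_eq_add_neg, sub_eq_add_neg]
        refine (edist_add_add_le _ _ _ _).trans ?_
        rw [edist_neg_neg]
    _ = ∑ i ∈ Finset.range n, edist (f (u (i + 1))) (f (u i)) +
        ∑ i ∈ Finset.range n, edist (g (u (i + 1))) (g (u i)) := Finset.sum_add_distrib
    _ ≤ _ := add_le_add (eVariationOn.sum_le hu us) (eVariationOn.sum_le hu us)

/-- replacing `f` by its right-continuous representative -/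
theorem rightLim_facts (f : ℝ → ℝ) (hf : BoundedVariationOn f univ) :
    BoundedVariationOn (Function.rightLim f) univ ∧
    (∀ x, ContinuousWithinAt (Function.rightLim f) (Ici x) x) ∧
    (∀ x r, A (Function.rightLim f) x r = A f x r) ∧ M (Function.rightLim f) = M f := by
  have hA : ∀ x r, A (Function.rightLim f) x r = A f x r := by
    intro x r
    unfold A
    congr 1
    apply intervalIntegral.integral_congr_ae
    have hc := (bv_basic f hf).2.2.2
    have h0 : ∀ᵐ t : ℝ, t ∉ {x | ¬ ContinuousAt f x} := hc.ae_notMem volume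
    filter_upwards [h0] with t ht _
    have ht' : ContinuousAt f t := by
      by_contra h
      exact ht h
    exact ContinuousWithinAt.rightLim_eq ht'.continuousWithinAt
  refine ⟨hf.rightLim, fun x => hf.continuousWithinAt_rightLim, hA, ?_⟩
  funext x
  unfold M
  simp only [hA]

theorem rightLim_sub (f g : ℝ → ℝ) (hf : BoundedVariationOn f univ)
    (hg : BoundedVariationOn g univ) (c : ℝ) (h : ∀ x, |f x - g x| ≤ c) :
    (∀ x, |Function.rightLim f x - Function.rightLim g x| ≤ c) ∧
    eVariationOn (fun x => Function.rightLim f x - Function.rightLim g x) univ ≤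
      eVariationOn (fun x => f x - g x) univ := by
  constructor
  · intro x
    have h1 := (hf.tendsto_rightLim x).sub (hg.tendsto_rightLim x)
    exact le_of_tendsto h1.abs (Eventually.of_forall h)
  · have e : (fun x => Function.rightLim f x - Function.rightLim g x) =
        Function.rightLim (fun x => f x - g x) := by
      funext x
      symm
      exact rightLim_eq_of_tendsto ((hf.tendsto_rightLim x).sub (hg.tendsto_rightLim x))
    rw [e]
    exact eVariationOn.eVariationOn_rightLim_le isOpen_univ

/-- sequential continuity of the maximal operator -/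
theorem M_seq_cont (u : ℝ → ℝ) (hu : BoundedVariationOn u univ) (U : ℕ → ℝ → ℝ)
    (hU : ∀ j, BoundedVariationOn (U j) univ) (c : ℕ → ℝ) (hc : Tendsto c atTop (𝓝 0))
    (hUc : ∀ j x, |U j x - u x| ≤ c j)
    (hvar : ∀ j, eVariationOn (fun x => U j x - u x) univ ≤ ENNReal.ofReal (c j)) :
    ∀ ε > 0, ∀ᶠ j in atTop,
      eVariationOn (fun x => M (U j) x - M u x) univ ≤ ENNReal.ofReal ε := by
  intro ε hε
  obtain ⟨hv, hvr, -, hMv⟩ := rightLim_facts u hu
  have hV := fun j => rightLim_facts (U j) (hU j)
  have hVs := fun j => rightLim_sub (U j) u (hU j) hu (c j) (hUc j)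
  have hVb : ∀ j, BoundedVariationOn (Function.rightLim (U j)) univ := fun j => (hV j).1
  have hVc : ∀ j x, |Function.rightLim (U j) x - Function.rightLim u x| ≤ c j :=
    fun j => (hVs j).1
  have hVv : ∀ j, eVariationOn (fun x => Function.rightLim (U j) x - Function.rightLim u x) univ ≤
      ENNReal.ofReal (c j) := fun j => (hVs j).2.trans (hvar j)
  obtain ⟨R₀, hR₀, hT⟩ := tails (Function.rightLim u) hv (fun j => Function.rightLim (U j)) hVb c hc
    hVc hVv (ε / 8) (by positivity)
  have hD := (bv_basic (Function.rightLim u) hv).2.2.2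
  have hD' : ({x | ¬ ContinuousAt (Function.rightLim u) x} ∪
      (fun x : ℝ => -x) ⁻¹' {x | ¬ ContinuousAt (Function.rightLim u) x}).Countable :=
    hD.union (hD.preimage neg_injective)
  obtain ⟨R, hRn, hR⟩ := (hD'.dense_compl ℝ).exists_between (lt_add_one R₀)
  have hc1 : ContinuousAt (Function.rightLim u) R := by
    by_contra h
    exact hRn (Or.inl h)
  have hc2 : ContinuousAt (Function.rightLim u) (-R) := by
    by_contra h
    exact hRn (Or.inr h)
  have hR0 : 0 < R := hR₀.trans hR.1
  have hMb : BoundedVariationOn (M (Function.rightLim u)) univ := M_bv _ hv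
  have hmid := middle (Function.rightLim u) hv hvr hMb (fun j => Function.rightLim (U j)) hVb c hc
    hVc hVv R hR0 hc1 hc2 (ε / 2) (by positivity)
  filter_upwards [hT R hR.1.le, hmid] with j h1 h2
  obtain ⟨h11, h12, h13, h14⟩ := h1
  simp only [(hV j).2.2.2, hMv] at h11 h12 h13 h14 h2
  set g : ℝ → ℝ := fun x => M (U j) x - M u x with hg
  have e1 : (Iic (-R) ∪ Icc (-R) R) ∪ Ici R = (univ : Set ℝ) := by
    ext x
    simp only [mem_union, mem_Iic, mem_Icc, mem_Ici, mem_univ, iff_true]
    by_cases h : x ≤ -R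
    · exact Or.inl (Or.inl h)
    · by_cases h' : x ≤ R
      · exact Or.inl (Or.inr ⟨by linarith, h'⟩)
      · exact Or.inr (by linarith)
  have g1 : IsGreatest (Iic (-R) ∪ Icc (-R) R) R := by
    refine ⟨Or.inr ⟨by linarith, le_refl _⟩, ?_⟩
    rintro x (hx | hx)
    · have : x ≤ -R := hx
      linarith
    · exact hx.2
  have g2 : IsLeast (Ici R) R := ⟨le_refl R, fun x hx => hx⟩
  have g3 : IsGreatest (Iic (-R)) (-R) := ⟨le_refl (-R), fun x hx => hx⟩
  have g4 : IsLeast (Icc (-R) R) (-R) := ⟨⟨le_refl _, by linarith⟩, fun x hx => hx.1⟩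
  rw [← e1, eVariationOn.union g g1 g2, eVariationOn.union g g3 g4]
  have k1 : eVariationOn g (Iic (-R)) ≤ ENNReal.ofReal (ε / 8) + ENNReal.ofReal (ε / 8) :=
    (evar_sub_le_aux _ _ _).trans (add_le_add h12 h14)
  have k2 : eVariationOn g (Ici R) ≤ ENNReal.ofReal (ε / 8) + ENNReal.ofReal (ε / 8) :=
    (evar_sub_le_aux _ _ _).trans (add_le_add h11 h13)
  refine (add_le_add (add_le_add k1 h2) k2).trans (le_of_eq ?_)
  rw [← ENNReal.ofReal_add (by positivity) (by positivity),
    ← ENNReal.ofReal_add (by positivity) (by positivity),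
    ← ENNReal.ofReal_add (by positivity) (by positivity)]
  congr 1
  ring

end Pool.Agent.BV653
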