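import Pool.Agent.BV653.Defs
import Pool.Agent.BV653.A2
import Pool.Agent.BV653.F1
import Pool.Agent.BV653.F3
import Pool.Agent.BV653.V2
import Pool.Agent.BV653.V4
set_option autoImplicit false
open MeasureTheory Set Filter Topology
namespace Pool.Agent.BV653
theorem main_var_sub (f g : ℝ → ℝ) : eVariationOn (fun x => f x - g x) univ ≤
    eVariationOn f univ + eVariationOn g univ := by
  unfold eVariationOn
  refine iSup_le fun p => ?_
  have h1 : ∑ i ∈ Finset.range p.1, edist (f (p.2.1 (i + 1)) - g (p.2.1 (i + 1))) (f (p.2.1 i) - g (p.2.1 i)) ≤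
      ∑ i ∈ Finset.range p.1, edist (f (p.2.1 (i + 1))) (f (p.2.1 i)) +
        ∑ i ∈ Finset.range p.1, edist (g (p.2.1 (i + 1))) (g (p.2.1 i)) := by
    rw [← Finset.sum_add_distrib]
    refine Finset.sum_le_sum fun i _ => ?_
    refine (edist_triangle _ (f (p.2.1 i) - g (p.2.1 (i + 1))) _).trans ?_
    rw [edist_sub_right, edist_sub_left]
  refine h1.trans (add_le_add ?_ ?_)
  · exact le_iSup (fun p : ℕ × {u : ℕ → ℝ // Monotone u ∧ ∀ i, u i ∈ univ} =>
      ∑ i ∈ Finset.range p.1, edist (f (p.2.1 (i + 1))) (f (p.2.1 i))) p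
  · exact le_iSup (fun p : ℕ × {u : ℕ → ℝ // Monotone u ∧ ∀ i, u i ∈ univ} =>
      ∑ i ∈ Finset.range p.1, edist (g (p.2.1 (i + 1))) (g (p.2.1 i))) p

theorem main_var_neg (f g : ℝ → ℝ) : eVariationOn (fun x => f x - g x) univ =
    eVariationOn (fun x => g x - f x) univ := by
  unfold eVariationOn
  congr 1
  funext p
  refine Finset.sum_congr rfl fun i _ => ?_
  rw [← edist_neg_neg, neg_sub, neg_sub]

theorem main_bd (h : ℝ → ℝ) (hh : BoundedVariationOn h univ) (x : ℝ) :
    |h x| ≤ |limUnder atBot h| + (eVariationOn h univ).toReal := by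
  have ht := hh.tendsto_atBot_limUnder
  have h1 : |h x - limUnder atBot h| ≤ (eVariationOn h univ).toReal := by
    have h2 : Tendsto (fun y => |h x - h y|) atBot (𝓝 |h x - limUnder atBot h|) :=
      (tendsto_const_nhds.sub ht).abs
    refine le_of_tendsto h2 (Filter.Eventually.of_forall fun y => ?_)
    exact hh.dist_le (mem_univ x) (mem_univ y)
  have h3 := abs_sub_abs_le_abs_sub (h x) (limUnder atBot h)
  linarith

theorem main_abs (f : ℝ → ℝ) (hf : BoundedVariationOn f univ) :
    BoundedVariationOn (fun x => |f x|) univ :=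
  LipschitzWith.comp_boundedVariationOn (lipschitzWith_one_norm (E := ℝ)) hf

/-- the frozen statement S03275 -/
theorem main :
    ∀ f : ℝ → ℝ, BoundedVariationOn f Set.univ →
      ∀ ε : ℝ, 0 < ε → ∃ δ : ℝ, 0 < δ ∧
        ∀ g : ℝ → ℝ, BoundedVariationOn g Set.univ →
          ENNReal.ofReal |limUnder atBot (f - g)| + eVariationOn (f - g) Set.univ
              < ENNReal.ofReal δ →
          ENNReal.ofReal |limUnder atBot
              (fun x : ℝ =>
                (⨆ r : Set.Ioi (0 : ℝ), (2 * (r : ℝ))⁻¹ * ∫ t in (x - (r : ℝ))..(x + (r : ℝ)), |f t|) -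
                (⨆ r : Set.Ioi (0 : ℝ), (2 * (r : ℝ))⁻¹ * ∫ t in (x - (r : ℝ))..(x + (r : ℝ)), |g t|))|
            + eVariationOn
              (fun x : ℝ =>
                (⨆ r : Set.Ioi (0 : ℝ), (2 * (r : ℝ))⁻¹ * ∫ t in (x - (r : ℝ))..(x + (r : ℝ)), |f t|) -
                (⨆ r : Set.Ioi (0 : ℝ), (2 * (r : ℝ))⁻¹ * ∫ t in (x - (r : ℝ))..(x + (r : ℝ)), |g t|))
              Set.univ
            < ENNReal.ofReal ε := by
  intro f hf ε hε
  by_contra hcon
  have hcon2 : ∀ δ : ℝ, 0 < δ → ∃ g : ℝ → ℝ, BoundedVariationOn g Set.univ ∧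
      (ENNReal.ofReal |limUnder atBot (f - g)| + eVariationOn (f - g) Set.univ
              < ENNReal.ofReal δ) ∧
      ¬ (ENNReal.ofReal |limUnder atBot (fun x : ℝ => M (fun t => |f t|) x - M (fun t => |g t|) x)|
            + eVariationOn (fun x : ℝ => M (fun t => |f t|) x - M (fun t => |g t|) x) Set.univ
            < ENNReal.ofReal ε) := by
    intro δ hδ
    by_contra h2
    apply hcon
    refine ⟨δ, hδ, fun g hg h3 => ?_⟩
    by_contra h4
    exact h2 ⟨g, hg, h3, h4⟩
  choose g hg1 hg2 hg3 using fun j : ℕ => hcon2 (1 / ((j : ℝ) + 1)) (by positivity)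
  let d : ℕ → ℝ := fun j => 1 / ((j : ℝ) + 1)
  have hd0 : ∀ j, 0 < d j := fun j => by
    show 0 < 1 / ((j : ℝ) + 1)
    positivity
  have hdt : Tendsto d atTop (𝓝 0) := tendsto_one_div_add_atTop_nhds_zero_nat
  have hfin : ∀ j, eVariationOn (f - g j) univ ≠ ⊤ := by
    intro j h
    have h2 := hg2 j
    rw [h, add_top] at h2
    exact not_top_lt h2
  have hsum : ∀ j, |limUnder atBot (f - g j)| + (eVariationOn (f - g j) univ).toReal < d j := by
    intro j
    have h2 := hg2 j
    rw [← ENNReal.ofReal_toReal (hfin j), ← ENNReal.ofReal_add (abs_nonneg _) ENNReal.toReal_nonneg] at h2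
    exact (ENNReal.ofReal_lt_ofReal_iff (hd0 j)).1 h2
  have hpt : ∀ j x, |g j x - f x| ≤ d j := by
    intro j x
    have h2 := main_bd (f - g j) (hfin j) x
    rw [Pi.sub_apply, abs_sub_comm] at h2
    exact h2.trans (hsum j).le
  have hvd : ∀ j, eVariationOn (fun x => g j x - f x) univ ≤ ENNReal.ofReal (d j) := by
    intro j
    rw [main_var_neg]
    have h2 : eVariationOn (f - g j) univ ≤ ENNReal.ofReal (d j) := by
      rw [← ENNReal.ofReal_toReal (hfin j)]
      apply ENNReal.ofReal_le_ofReal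
      have := hsum j
      have := abs_nonneg (limUnder atBot (f - g j))
      linarith
    exact h2
  let u : ℝ → ℝ := fun t => |f t|
  let U : ℕ → ℝ → ℝ := fun j t => |g j t|
  have hu : BoundedVariationOn u univ := main_abs f hf
  have hU : ∀ j, BoundedVariationOn (U j) univ := fun j => main_abs (g j) (hg1 j)
  let v : ℕ → ENNReal := fun j => eVariationOn (fun x => U j x - u x) univ
  have hvfin : ∀ j, v j ≠ ⊤ := by
    intro j
    refine ne_top_of_le_ne_top ?_ (main_var_sub (U j) u)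
    exact ENNReal.add_ne_top.2 ⟨hU j, hu⟩
  have hvt : Tendsto (fun j => (v j).toReal) atTop (𝓝 0) := by
    rw [Metric.tendsto_atTop]
    intro η hη
    obtain ⟨δ, hδ, hδ2⟩ := abs_cont f hf (η / 2) (by positivity)
    obtain ⟨N, hN⟩ := (hdt.eventually (gt_mem_nhds hδ)).exists_forall_of_atTop
    refine ⟨N, fun j hj => ?_⟩
    have h3 := hδ2 (g j) (fun x => (hpt j x).trans (hN j hj).le)
      ((hvd j).trans (ENNReal.ofReal_le_ofReal (hN j hj).le))
    have h4 : (v j).toReal ≤ η / 2 := ENNReal.toReal_le_of_le_ofReal (by positivity) h3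
    rw [Real.dist_eq, sub_zero, abs_of_nonneg ENNReal.toReal_nonneg]
    linarith
  let c : ℕ → ℝ := fun j => max (d j) (v j).toReal
  have hc : Tendsto c atTop (𝓝 0) := by
    have := hdt.max hvt
    rwa [max_self] at this
  have hUc : ∀ j x, |U j x - u x| ≤ c j := by
    intro j x
    refine (abs_abs_sub_abs_le_abs_sub _ _).trans ((hpt j x).trans (le_max_left _ _))
  have hvar : ∀ j, eVariationOn (fun x => U j x - u x) univ ≤ ENNReal.ofReal (c j) := by
    intro j
    show v j ≤ _
    rw [← ENNReal.ofReal_toReal (hvfin j)]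
    exact ENNReal.ofReal_le_ofReal (le_max_right _ _)
  have hev := M_seq_cont u hu U hU c hc hUc hvar (ε / 4) (by positivity)
  have hev2 : ∀ᶠ j in atTop, c j < ε / 2 := hc.eventually (gt_mem_nhds (by positivity))
  obtain ⟨j, hj1, hj2⟩ := (hev.and hev2).exists
  apply hg3 j
  have hMu := M_bv u hu
  have hMU := M_bv (U j) (hU j)
  have hbv : BoundedVariationOn (fun x => M u x - M (U j) x) univ := by
    refine ne_top_of_le_ne_top ?_ (main_var_sub (M u) (M (U j)))
    exact ENNReal.add_ne_top.2 ⟨hMu, hMU⟩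
  obtain ⟨-, ⟨C1, hC1⟩, hi1, -⟩ := bv_basic u hu
  obtain ⟨-, ⟨C2, hC2⟩, hi2, -⟩ := bv_basic (U j) (hU j)
  have hle : ∀ x, |M u x - M (U j) x| ≤ c j := by
    intro x
    refine (M_sub_le u (U j) hi1 hi2 (max C1 C2) (fun x => (hC1 x).trans (le_max_left _ _))
      (fun x => (hC2 x).trans (le_max_right _ _)) (c j) (fun x => ?_) x).1
    rw [abs_sub_comm]
    exact hUc j x
  have hlim : |limUnder atBot (fun x => M u x - M (U j) x)| ≤ c j := by
    have ht := hbv.tendsto_atBot_limUnder
    exact le_of_tendsto ht.abs (Filter.Eventually.of_forall hle)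
  have hc0 : 0 ≤ c j := (hd0 j).le.trans (le_max_left _ _)
  show ENNReal.ofReal |limUnder atBot (fun x : ℝ => M u x - M (U j) x)|
            + eVariationOn (fun x : ℝ => M u x - M (U j) x) Set.univ < ENNReal.ofReal ε
  rw [main_var_neg]
  refine lt_of_le_of_lt (add_le_add (ENNReal.ofReal_le_ofReal hlim) hj1) ?_
  rw [← ENNReal.ofReal_add hc0 (by positivity)]
  exact (ENNReal.ofReal_lt_ofReal_iff hε).2 (by linarith)

end Pool.Agent.BV653
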